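import Pool.Agent.Lib.MP_7c08ba_nt.RZ.Basic

set_option autoImplicit false

/-! (N3) adapted bases for a prime of norm 2. -/

namespace Pool.Agent.Lib.MP_7c08ba_nt.RZC

open UpperHalfPlane ModularForm EisensteinSeries MatrixGroups NumberField
open scoped Real Manifold ComplexConjugate

noncomputable section

namespace Adapt

/-! ### sublattices of index 2 -/

lemma lat_le {x y : ℂ} {N : Submodule ℤ ℂ} (hx : x ∈ N) (hy : y ∈ N) : lat x y ≤ N := by
  rw [lat, Submodule.span_le]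
  rintro z (rfl | rfl)
  · exact hx
  · exact hy

lemma left_mem (x y : ℂ) : x ∈ lat x y := mem_lat.2 ⟨1, 0, by simp⟩

lemma right_mem (x y : ℂ) : y ∈ lat x y := mem_lat.2 ⟨0, 1, by simp⟩

lemma int_mul_mem {N : Submodule ℤ ℂ} {x : ℂ} (hx : x ∈ N) (n : ℤ) : (n : ℂ) * x ∈ N := by
  have := N.smul_mem n hx
  rwa [zsmul_eq_mul] at this

lemma add_mem_of_two {N L : Submodule ℤ ℂ}
    (h : N.toAddSubgroup.relIndex L.toAddSubgroup = 2) {x y : ℂ} (hx : x ∈ L) (hy : y ∈ L)
    (hxN : x ∉ N) (hyN : y ∉ N) : x + y ∈ N := by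
  have h1 := AddSubgroup.add_mem_iff_of_index_two (H := N.toAddSubgroup.addSubgroupOf
    L.toAddSubgroup) h (a := ⟨x, hx⟩) (b := ⟨y, hy⟩)
  simp only [AddSubgroup.mem_addSubgroupOf, AddSubgroup.coe_add, Submodule.mem_toAddSubgroup]
    at h1
  exact h1.2 ⟨fun h => absurd h hxN, fun h => absurd h hyN⟩

lemma not_le_of_two {N L : Submodule ℤ ℂ}
    (h : N.toAddSubgroup.relIndex L.toAddSubgroup = 2) : ¬ L ≤ N := by
  intro h1
  have h2 : N.toAddSubgroup.relIndex L.toAddSubgroup = 1 := AddSubgroup.relIndex_eq_one.2 h1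
  rw [h] at h2
  exact absurd h2 (by norm_num)

lemma form {N : Submodule ℤ ℂ} {x y : ℂ} (hN : N ≤ lat x y)
    (h : N.toAddSubgroup.relIndex (lat x y).toAddSubgroup = 2) (hx : x ∈ N) :
    N = lat x (2 * y) := by
  have hy : y ∉ N := fun hy => not_le_of_two h (lat_le hx hy)
  have h2 : 2 * y ∈ N := by
    rw [two_mul]
    exact add_mem_of_two h (right_mem x y) (right_mem x y) hy hy
  refine le_antisymm (fun z hz => ?_) (lat_le hx h2)
  obtain ⟨m, n, rfl⟩ := mem_lat.1 (hN hz)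
  have h3 : (n : ℂ) * y ∈ N := by
    have := N.sub_mem hz (int_mul_mem hx m)
    rwa [add_sub_cancel_left] at this
  rcases Int.even_or_odd' n with ⟨k, rfl | rfl⟩
  · exact mem_lat.2 ⟨m, k, by push_cast; ring⟩
  · exfalso
    apply hy
    have := N.sub_mem h3 (int_mul_mem h2 k)
    convert this using 1
    push_cast
    ring

lemma lat_swap (x y : ℂ) : lat x y = lat y x := by
  rw [lat, lat, Set.pair_comm]

lemma lat_add (x y : ℂ) : lat (x + y) y = lat x y := by
  apply le_antisymm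
  · exact lat_le (add_mem (left_mem x y) (right_mem x y)) (right_mem x y)
  · refine lat_le ?_ (right_mem _ _)
    have := (lat (x + y) y).sub_mem (left_mem (x + y) y) (right_mem (x + y) y)
    rwa [add_sub_cancel_right] at this

lemma lat_neg (x y : ℂ) : lat (-x) y = lat x y := by
  apply le_antisymm
  · exact lat_le (neg_mem (left_mem x y)) (right_mem x y)
  · refine lat_le ?_ (right_mem _ _)
    have := neg_mem (left_mem (-x) y)
    rwa [neg_neg] at this

/-- a sublattice of index 2 -/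
lemma two_step {N : Submodule ℤ ℂ} {x y : ℂ} (hN : N ≤ lat x y)
    (h : N.toAddSubgroup.relIndex (lat x y).toAddSubgroup = 2) :
    ∃ u v : ℂ, lat u v = lat x y ∧ N = lat u (2 * v) := by
  by_cases hx : x ∈ N
  · exact ⟨x, y, rfl, form hN h hx⟩
  · by_cases hy : y ∈ N
    · refine ⟨y, x, lat_swap y x, ?_⟩
      rw [lat_swap x y] at hN h
      exact form hN h hy
    · have hxy := add_mem_of_two h (left_mem x y) (right_mem x y) hx hy
      refine ⟨x + y, y, lat_add x y, ?_⟩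
      rw [← lat_add x y] at hN h
      exact form hN h hxy

/-- two steps of index 2 with cyclic quotient -/
lemma four_step {L₂ L₁ : Submodule ℤ ℂ} {x y : ℂ} (h1 : L₁ ≤ lat x y)
    (h2 : L₂ ≤ L₁) (i1 : L₁.toAddSubgroup.relIndex (lat x y).toAddSubgroup = 2)
    (i2 : L₂.toAddSubgroup.relIndex L₁.toAddSubgroup = 2)
    (hc : ∃ z ∈ lat x y, 2 * z ∉ L₂) :
    ∃ u v : ℂ, lat u v = lat x y ∧ L₁ = lat u (2 * v) ∧ L₂ = lat u (4 * v) := by
  obtain ⟨u, v, e0, e1⟩ := two_step h1 i1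
  subst e1
  by_cases hu : u ∈ L₂
  · refine ⟨u, v, e0, rfl, ?_⟩
    rw [form h2 i2 hu]
    congr 1
    ring
  · by_cases hv : 2 * v ∈ L₂
    · exfalso
      obtain ⟨z, hz, hz2⟩ := hc
      rw [← e0] at hz
      obtain ⟨m, n, rfl⟩ := mem_lat.1 hz
      apply hz2
      have h3 : u + u ∈ L₂ := add_mem_of_two i2 (left_mem _ _) (left_mem _ _) hu hu
      have h4 := L₂.add_mem (int_mul_mem h3 m) (int_mul_mem hv n)
      convert h4 using 1
      ring
    · have huv := add_mem_of_two i2 (left_mem _ _) (right_mem _ _) hu hv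
      refine ⟨u + 2 * v, v, ?_, (lat_add _ _).symm, ?_⟩
      · rw [← e0]
        apply le_antisymm
        · refine lat_le ?_ (right_mem _ _)
          have := add_mem (left_mem u v) (int_mul_mem (right_mem u v) 2)
          simpa using this
        · refine lat_le ?_ (right_mem _ _)
          have := (lat (u + 2 * v) v).sub_mem (left_mem _ _)
            (int_mul_mem (right_mem (u + 2 * v) v) 2)
          simpa using this
      · rw [← lat_add u (2 * v)] at h2 i2
        rw [form h2 i2 huv]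
        congr 1
        ring

/-! ### orientation -/

lemma im_ne {x y u v : ℂ} (h : Pos x y) (e : lat u v = lat x y) : (u / v).im ≠ 0 := by
  intro h0
  have hx : x ∈ lat u v := by rw [e]; exact left_mem x y
  have hy : y ∈ lat u v := by rw [e]; exact right_mem x y
  obtain ⟨m, n, hx⟩ := mem_lat.1 hx
  obtain ⟨m', n', hy⟩ := mem_lat.1 hy
  by_cases hv : v = 0
  · subst hv
    have h1 : x / y = ((m / m' : ℝ) : ℂ) := by
      have hu : u ≠ 0 := by
        rintro rfl
        exact h.ne (by rw [← hy]; simp)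
      have hm' : (m' : ℂ) ≠ 0 := by
        intro h1
        exact h.ne (by rw [← hy, h1]; simp)
      rw [← hx, ← hy]
      push_cast
      field_simp
      ring
    unfold Pos at h
    rw [h1, Complex.ofReal_im] at h
    exact lt_irrefl _ h
  · have hr : u = ((u / v).re : ℂ) * v := by
      have h1 : u / v = ((u / v).re : ℂ) := Complex.ext rfl (by simpa using h0)
      rw [← h1]
      field_simp
    set r := (u / v).re with hrd
    have hx' : x = ((m * r + n : ℝ) : ℂ) * v := by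
      rw [← hx, hr]
      push_cast
      ring
    have hy' : y = ((m' * r + n' : ℝ) : ℂ) * v := by
      rw [← hy, hr]
      push_cast
      ring
    have h1 : x / y = (((m * r + n) / (m' * r + n') : ℝ) : ℂ) := by
      rw [hx', hy', mul_div_mul_right _ _ hv]
      push_cast
      rfl
    unfold Pos at h
    rw [h1, Complex.ofReal_im] at h
    exact lt_irrefl _ h

/-! ### arithmetic -/

open Polynomial in
lemma integral_om {q : ℕ} {F : Type} [Field F] [NumberField F] {s : F} (h : FieldC q F s)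
    {c : ℕ} (hc : q + 1 = 8 * c) : IsIntegral ℤ ((1 + s) / 2) := by
  have hd : (-X + C (2 * (c : ℤ)) : ℤ[X]).degree < (2 : ℕ) := by
    refine (degree_add_le _ _).trans_lt (max_lt ?_ ?_)
    · rw [degree_neg, degree_X]
      norm_num
    · exact degree_C_le.trans_lt (by norm_num)
  refine ⟨X ^ 2 + (-X + C (2 * (c : ℤ))), monic_X_pow_add hd, ?_⟩
  simp only [eval₂_add, eval₂_pow, eval₂_X, eval₂_neg, eval₂_C]
  have h1 := h.2.2.2
  have h2 : (q : F) + 1 = 8 * c := by exact_mod_cast hc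
  simp only [eq_intCast]
  push_cast
  linear_combination (1 / 4 : F) * h1 - (1 / 4 : F) * h2

/-- `Im (z₁ conj z₂)` for elements of a lattice -/
lemma im_lat {w₁ w₂ z₁ z₂ : ℂ} (h1 : z₁ ∈ lat w₁ w₂) (h2 : z₂ ∈ lat w₁ w₂) :
    ∃ k : ℤ, (z₁ * conj z₂).im = k * (w₁ * conj w₂).im := by
  obtain ⟨m, n, rfl⟩ := mem_lat.1 h1
  obtain ⟨m', n', rfl⟩ := mem_lat.1 h2
  refine ⟨m * n' - n * m', ?_⟩
  simp only [Complex.mul_im, Complex.mul_re, Complex.add_re, Complex.add_im, Complex.conj_re,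
    Complex.conj_im, Complex.intCast_re, Complex.intCast_im]
  push_cast
  ring

lemma sq_im {z : ℂ} {q : ℕ} (hq : 0 < q) (h : z ^ 2 = -(q : ℂ)) : z.im ^ 2 = q := by
  have h1 := congrArg Complex.re h
  have h2 := congrArg Complex.im h
  simp only [pow_two, Complex.mul_re, Complex.mul_im, Complex.neg_re, Complex.neg_im,
    Complex.natCast_re, Complex.natCast_im] at h1 h2
  have h3 : z.re * z.im = 0 := by linarith
  have hq' : (0 : ℝ) < q := by exact_mod_cast hq
  rcases mul_eq_zero.1 h3 with h4 | h4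
  · rw [h4] at h1
    nlinarith
  · rw [h4] at h1
    nlinarith [mul_self_nonneg z.re]

/-- `2` is not in the square of a prime of norm 2 -/
lemma two_not_mem (hB : StBasis) {q : ℕ} {F : Type} [Field F] [NumberField F] {s : F}
    (h : FieldC q F s) (σ : F →+* ℂ) {P : Ideal (𝓞 F)} (hP : P.IsPrime)
    (hN : Ideal.absNorm P = 2) : (2 : 𝓞 F) ∉ P ^ 2 := by
  intro h2
  obtain ⟨c, hc⟩ : ∃ c : ℕ, q + 1 = 8 * c := ⟨(q + 1) / 8, by have := h.2.1; omega⟩
  let om : 𝓞 F := ⟨(1 + s) / 2, integral_om h hc⟩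
  have hq0 : 0 < q := h.1.pos
  have hs2 : (σ s) ^ 2 = -(q : ℂ) := by
    rw [← map_pow, h.2.2.2, map_neg, map_natCast]
  have him := sq_im hq0 hs2
  have hP0 : P ^ 2 ≠ ⊥ := by
    intro h0
    have h1 : Ideal.absNorm (P ^ 2) = 4 := by rw [map_pow, hN]; norm_num
    rw [h0, Ideal.absNorm_bot] at h1
    exact absurd h1 (by norm_num)
  obtain ⟨⟨w₁, w₂, hw⟩, hcov⟩ := hB q F s h σ (P ^ 2) hP0
  have hcv := (hcov w₁ w₂ hw).1
  have hN4 : (Ideal.absNorm (P ^ 2) : ℝ) = 4 := by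
    rw [map_pow, hN]
    norm_num
  rw [hN4] at hcv
  have h2' : (2 : ℂ) ∈ lat w₁ w₂ := (hw.2 2).2 ⟨2, h2, by
    rw [show ((2 : 𝓞 F) : F) = 2 from rfl, map_ofNat]⟩
  have hno : ∀ z : ℂ, z ∈ lat w₁ w₂ → z.im = (σ s).im / 2 → False := by
    intro z hz hzi
    obtain ⟨k, hk⟩ := im_lat hz h2'
    rw [hcv] at hk
    have h5 : (z * conj (2 : ℂ)).im = (σ s).im := by
      rw [map_ofNat]
      simp only [Complex.mul_im, Complex.re_ofNat, Complex.im_ofNat]
      rw [hzi]
      ring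
    rw [h5] at hk
    have h6 : (q : ℝ) = 4 * (k : ℝ) ^ 2 * q := by
      calc (q : ℝ) = (σ s).im ^ 2 := him.symm
        _ = 4 * (k : ℝ) ^ 2 * (√q) ^ 2 := by rw [hk]; ring
        _ = _ := by rw [Real.sq_sqrt (Nat.cast_nonneg q)]
    have hq' : (q : ℝ) ≠ 0 := by exact_mod_cast hq0.ne'
    have h7 : (1 : ℝ) = 4 * (k : ℝ) ^ 2 := by
      apply mul_right_cancel₀ hq'
      rw [one_mul]
      exact h6
    have h8 : (1 : ℤ) = 4 * k ^ 2 := by exact_mod_cast h7
    omega
  have hmem : om * (om - 1) ∈ P ^ 2 := by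
    have e : om * (om - 1) = -(c : 𝓞 F) * 2 := by
      apply RingOfIntegers.ext
      have h1 := h.2.2.2
      have h3 : (q : F) + 1 = 8 * c := by exact_mod_cast hc
      have e1 : ((om * (om - 1) : 𝓞 F) : F) = (1 + s) / 2 * ((1 + s) / 2 - 1) := rfl
      have e2 : ((-(c : 𝓞 F) * 2 : 𝓞 F) : F) = -(c : F) * 2 := by
        change algebraMap (𝓞 F) F (-(c : 𝓞 F) * 2) = _
        rw [map_mul, map_neg, map_natCast, map_ofNat]
      rw [e1, e2]
      linear_combination (1 / 4 : F) * h1 - (1 / 4 : F) * h3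
    rw [e]
    exact Ideal.mul_mem_left _ _ h2
  have hom : σ ((om : 𝓞 F) : F) = (1 + σ s) / 2 := by
    change σ ((1 + s) / 2) = _
    rw [map_div₀, map_add, map_one, map_ofNat]
  rcases hP.mul_mem_pow _ hmem with h3 | h3
  · rw [mul_comm] at hmem
    rcases hP.mul_mem_pow _ hmem with h4 | h4
    · apply hP.ne_top
      rw [Ideal.eq_top_iff_one]
      have := P.sub_mem h3 h4
      rwa [sub_sub_cancel] at this
    · refine hno _ ((hw.2 _).2 ⟨om, h4, rfl⟩) ?_
      rw [hom]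
      simp
  · refine hno _ ((hw.2 _).2 ⟨om - 1, h3, rfl⟩) ?_
    have e3 : ((om - 1 : 𝓞 F) : F) = (om : F) - 1 := rfl
    rw [e3, map_sub, hom, map_one]
    simp

lemma IsB.congr {F : Type} [Field F] [NumberField F] {σ : F →+* ℂ} {a : Ideal (𝓞 F)}
    {x y u v : ℂ} (h : IsB σ a x y) (e : lat u v = lat x y) (hp : Pos u v) : IsB σ a u v :=
  ⟨hp, fun z => by rw [e]; exact h.2 z⟩

end Adapt

open Adapt in
/-- (N3) adapted bases for a prime of norm 2 -/
theorem stAdapt (h : StBasis) : StAdapt := by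
  intro q F _ _ s hF σ P hP hN b hb
  have hP0 : P ≠ ⊥ := by
    rintro rfl
    rw [Ideal.absNorm_bot] at hN
    exact absurd hN (by norm_num)
  have hb1 : P * b ≠ ⊥ := mul_ne_zero hP0 hb
  have hb2 : P ^ 2 * b ≠ ⊥ := mul_ne_zero (pow_ne_zero 2 hP0) hb
  have htop : (⊤ : Ideal (𝓞 F)) ≠ ⊥ := top_ne_bot
  obtain ⟨⟨v₁, v₂, hv⟩, -⟩ := h q F s hF σ ⊤ htop
  obtain ⟨⟨x, y, h0⟩, c0⟩ := h q F s hF σ b hb
  obtain ⟨⟨x₁, y₁, h1⟩, c1⟩ := h q F s hF σ (P * b) hb1
  obtain ⟨⟨x₂, y₂, h2⟩, c2⟩ := h q F s hF σ (P ^ 2 * b) hb2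
  have j0 := ((c0 x y h0).2 v₁ v₂ hv)
  have j1 := ((c1 x₁ y₁ h1).2 v₁ v₂ hv)
  have j2 := ((c2 x₂ y₂ h2).2 v₁ v₂ hv)
  have l1 : lat x₁ y₁ ≤ lat x y := by
    intro z hz
    obtain ⟨t, ht, rfl⟩ := (h1.2 z).1 hz
    have ht' : t ∈ b := (Ideal.mul_le_right : P * b ≤ b) ht
    exact (h0.2 _).2 ⟨t, ht', rfl⟩
  have l2 : lat x₂ y₂ ≤ lat x₁ y₁ := by
    intro z hz
    obtain ⟨t, ht, rfl⟩ := (h2.2 z).1 hz
    rw [pow_two, mul_assoc] at ht
    have ht' : t ∈ P * b := (Ideal.mul_le_right : P * (P * b) ≤ P * b) ht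
    exact (h1.2 _).2 ⟨t, ht', rfl⟩
  have hbN : Ideal.absNorm b ≠ 0 := by
    rw [Ne, Ideal.absNorm_eq_zero_iff]
    exact hb
  have n1 : Ideal.absNorm (P * b) = 2 * Ideal.absNorm b := by rw [map_mul, hN]
  have n2 : Ideal.absNorm (P ^ 2 * b) = 2 * (2 * Ideal.absNorm b) := by
    rw [map_mul, map_pow, hN]
    ring
  have i1 : (lat x₁ y₁).toAddSubgroup.relIndex (lat x y).toAddSubgroup = 2 := by
    have := AddSubgroup.relIndex_mul_relIndex (lat x₁ y₁).toAddSubgroup (lat x y).toAddSubgroup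
      (lat v₁ v₂).toAddSubgroup l1 j0.1
    rw [j0.2, j1.2, n1] at this
    exact Nat.eq_of_mul_eq_mul_right (Nat.pos_of_ne_zero hbN) this
  have i2 : (lat x₂ y₂).toAddSubgroup.relIndex (lat x₁ y₁).toAddSubgroup = 2 := by
    have := AddSubgroup.relIndex_mul_relIndex (lat x₂ y₂).toAddSubgroup
      (lat x₁ y₁).toAddSubgroup (lat v₁ v₂).toAddSubgroup l2 j1.1
    rw [j1.2, j2.2, n1, n2] at this
    exact Nat.eq_of_mul_eq_mul_right (by have := Nat.pos_of_ne_zero hbN; positivity) this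
  have hc : ∃ z ∈ lat x y, 2 * z ∉ lat x₂ y₂ := by
    by_contra hcon
    push Not at hcon
    apply two_not_mem h hF σ hP hN
    have hdvd : P ^ 2 * b ∣ Ideal.span {(2 : 𝓞 F)} * b := by
      rw [Ideal.dvd_iff_le, Ideal.span_singleton_mul_le_iff]
      intro z hz
      have h3 := hcon (σ (z : F)) ((h0.2 _).2 ⟨z, hz, rfl⟩)
      obtain ⟨t, ht, h4⟩ := (h2.2 _).1 h3
      have h5 : t = 2 * z := by
        apply RingOfIntegers.ext
        apply σ.injective
        rw [h4]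
        have e : ((2 * z : 𝓞 F) : F) = 2 * (z : F) := by
          change algebraMap (𝓞 F) F (2 * z) = _
          rw [map_mul, map_ofNat]
        rw [e, map_mul, map_ofNat]
      rw [← h5]
      exact ht
    rw [mul_dvd_mul_iff_right (show b ≠ 0 from hb), Ideal.dvd_span_singleton] at hdvd
    exact hdvd
  obtain ⟨u, v, e0, e1, e2⟩ := four_step l1 l2 i1 i2 hc
  have hne := im_ne h0.1 e0
  have hsign : ∃ u' : ℂ, (∀ t : ℂ, lat u' t = lat u t) ∧ Pos u' v := by
    rcases lt_or_gt_of_ne hne with h3 | h3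
    · refine ⟨-u, fun t => lat_neg u t, ?_⟩
      unfold Pos
      rw [neg_div, Complex.neg_im]
      linarith
    · exact ⟨u, fun t => rfl, h3⟩
  obtain ⟨u', hu', hpos⟩ := hsign
  have p4 : Pos u' (4 * v) := by
    have := hpos.scale (r := 1 / 4) (by norm_num)
    convert this using 1
    push_cast
    ring
  refine ⟨u', 4 * v, IsB.congr h2 (by rw [hu', e2]) p4,
    IsB.congr h1 ?_ p4.half, IsB.congr h0 ?_ p4.quarter⟩
  · rw [hu', e1]
    congr 1
    ring
  · rw [hu', show 4 * v / 4 = v by ring, e0]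

end

end Pool.Agent.Lib.MP_7c08ba_nt.RZC
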