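import Pool.Agent.Lib.MP_7c08ba_nt.RZ.StmtsC

set_option autoImplicit false

/-! (N4) every ideal class contains an integral ideal of odd norm. -/

namespace Pool.Agent.Lib.MP_7c08ba_nt.RZC

open NumberField

theorem odd_absNorm_of_sup {F : Type} [Field F] [NumberField F] (K : Ideal (𝓞 F)) (hK : K ≠ ⊥)
    (h : Ideal.span {(2 : 𝓞 F)} ⊔ K = ⊤) : Odd (Ideal.absNorm K) := by
  rw [← Nat.not_even_iff_odd]
  intro he
  have hfin : Finite (𝓞 F ⧸ K) :=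
    (Ideal.absNorm_ne_zero_iff K).1 (by rwa [Ne, Ideal.absNorm_eq_zero_iff])
  have := Fintype.ofFinite (𝓞 F ⧸ K)
  have hdvd : 2 ∣ Fintype.card (𝓞 F ⧸ K) := by
    rw [← Nat.card_eq_fintype_card]
    exact he.two_dvd
  have : Fact (Nat.Prime 2) := ⟨Nat.prime_two⟩
  obtain ⟨x, hx⟩ := exists_prime_addOrderOf_dvd_card 2 hdvd
  have h2 : (2 : ℕ) • x = 0 := by
    rw [← hx]
    exact addOrderOf_nsmul_eq_zero x
  obtain ⟨a, ha, k, hk, hak⟩ := Submodule.mem_sup.1 ((Ideal.eq_top_iff_one _).1 h)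
  obtain ⟨b, rfl⟩ := Ideal.mem_span_singleton.1 ha
  have hx0 : x = 0 := by
    have h3 : (Ideal.Quotient.mk K (2 * b + k)) * x = x := by
      rw [hak, map_one, one_mul]
    rw [← h3, map_add, map_mul, Ideal.Quotient.eq_zero_iff_mem.2 hk, add_zero, map_ofNat]
    have h4 : (2 : 𝓞 F ⧸ K) * x = 0 := by
      rw [← h2, two_nsmul, two_mul]
    rw [mul_comm (2 : 𝓞 F ⧸ K), mul_assoc, h4, mul_zero]
  rw [hx0, addOrderOf_zero] at hx
  omega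

theorem stRep : StRep := by
  intro q F _ _ s hF c
  obtain ⟨I, hI⟩ := ClassGroup.mk0_surjective c⁻¹
  have hI0 : (I : Ideal (𝓞 F)) ≠ ⊥ := nonZeroDivisors.coe_ne_zero I
  have h20 : Ideal.span {(2 : 𝓞 F)} ≠ ⊥ := by
    rw [Ne, Ideal.span_singleton_eq_bot]
    exact two_ne_zero
  have h2t : Ideal.span {(2 : 𝓞 F)} ≠ ⊤ := by
    intro h
    have h1 : Ideal.absNorm (Ideal.span {(2 : 𝓞 F)}) = 1 := Ideal.absNorm_eq_one_iff.2 h
    rw [Ideal.absNorm_span_singleton] at h1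
    have h3 : (2 : 𝓞 F) = algebraMap ℤ (𝓞 F) 2 := by simp
    rw [h3, Algebra.norm_algebraMap, RingOfIntegers.rank, hF.2.2.1] at h1
    norm_num at h1
  obtain ⟨a, ha⟩ := IsDedekindDomain.exists_sup_span_eq
    (I := (I : Ideal (𝓞 F)) * Ideal.span {(2 : 𝓞 F)}) (J := (I : Ideal (𝓞 F))) Ideal.mul_le_left
    (mul_ne_zero hI0 h20)
  obtain ⟨K, hK⟩ : (I : Ideal (𝓞 F)) ∣ Ideal.span {a} := by
    rw [Ideal.dvd_iff_le]
    calc Ideal.span {a} ≤ _ := le_sup_right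
      _ = _ := ha
  have hsup : Ideal.span {(2 : 𝓞 F)} ⊔ K = ⊤ := by
    rw [hK, ← Ideal.mul_sup] at ha
    have h1 : (I : Ideal (𝓞 F)) * (Ideal.span {(2 : 𝓞 F)} ⊔ K) = (I : Ideal (𝓞 F)) * 1 := by
      rw [ha, mul_one]
    have h2 := mul_left_cancel₀ hI0 h1
    rw [h2, Ideal.one_eq_top]
  have hK0 : K ≠ ⊥ := by
    rintro rfl
    rw [sup_bot_eq] at hsup
    exact h2t hsup
  have hKm : K ∈ nonZeroDivisors (Ideal (𝓞 F)) := mem_nonZeroDivisors_of_ne_zero hK0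
  refine ⟨⟨K, hKm⟩, ?_, odd_absNorm_of_sup K hK0 hsup⟩
  have ha0 : a ≠ 0 := by
    rintro rfl
    rw [Ideal.span_singleton_eq_bot.2 rfl] at hK
    exact mul_ne_zero hI0 hK0 hK.symm
  have hprod : ClassGroup.mk0 (I * ⟨K, hKm⟩) = 1 := by
    have h1 : (I * ⟨K, hKm⟩ : nonZeroDivisors (Ideal (𝓞 F))) =
        ⟨(I : Ideal (𝓞 F)) * K, mul_mem I.2 hKm⟩ := rfl
    rw [h1, ClassGroup.mk0_eq_one_iff, ← hK]
    exact ⟨⟨a, rfl⟩⟩
  rw [map_mul, hI, inv_mul_eq_one] at hprod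
  exact hprod.symm

end Pool.Agent.Lib.MP_7c08ba_nt.RZC
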