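import Pool.Agent.Lib.MP_7c08ba_nt.RZ.Basic
import Pool.Agent.Lib.MP_7c08ba_nt.RZ.Defs

set_option autoImplicit false

/-! Part (C): from the statements of the modules to `RZ.StmtC`. -/

namespace Pool.Agent.Lib.MP_7c08ba_nt.RZC

open UpperHalfPlane ModularForm EisensteinSeries MatrixGroups NumberField
open scoped Real Manifold ComplexConjugate nonZeroDivisors

noncomputable section

variable {w₁ w₂ v₁ v₂ : ℂ}

theorem lat_e4 (h : StLat) (hw : Pos w₁ w₂) (hv : Pos v₁ v₂) (hl : lat w₁ w₂ = lat v₁ v₂) :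
    e4 w₁ w₂ = e4 v₁ v₂ := h 4 E₄ _ _ _ _ hw hv hl

theorem lat_e6 (h : StLat) (hw : Pos w₁ w₂) (hv : Pos v₁ v₂) (hl : lat w₁ w₂ = lat v₁ v₂) :
    e6 w₁ w₂ = e6 v₁ v₂ := h 6 E₆ _ _ _ _ hw hv hl

theorem dl_eq (h : Pos w₁ w₂) : 1728 * dl w₁ w₂ = e4 w₁ w₂ ^ 3 - e6 w₁ w₂ ^ 2 := by
  have hw := h.ne
  rw [dl, e4, e6, LF_eq h, LF_eq h, LF_eq h, discriminant_eq_E₄_cube_sub_E₆_sq]
  field_simp

theorem lat_dl (h : StLat) (hw : Pos w₁ w₂) (hv : Pos v₁ v₂) (hl : lat w₁ w₂ = lat v₁ v₂) :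
    dl w₁ w₂ = dl v₁ v₂ := by
  have h1 := dl_eq hw
  have h2 := dl_eq hv
  rw [lat_e4 h hw hv hl, lat_e6 h hw hv hl, ← h2] at h1
  exact mul_left_cancel₀ (by norm_num) h1

theorem isEig_of {w : ℕ} {f : CuspForm 𝒮ℒ (w : ℤ)} (hf : RZ.IsEigen f) : IsEig w (cf f) := by
  refine ⟨hf.one, fun p n hp hn => ?_⟩
  have h := hf.mul p n hp.pos hn
  change cf f p * cf f n = _ at h
  rw [h]
  rcases (Nat.dvd_prime hp).1 (Nat.gcd_dvd_left p n) with h1 | h1
  · have h2 : ¬ p ∣ n := fun h3 => by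
      rw [Nat.gcd_eq_left h3] at h1
      exact hp.ne_one h1
    rw [h1, if_neg h2, Nat.divisors_one, Finset.sum_singleton]
    simp [RZ.coef]
  · have h2 : p ∣ n := Nat.gcd_eq_left_iff_dvd.1 h1
    rw [h1, if_pos h2, hp.divisors, Finset.sum_pair hp.ne_one.symm]
    have h3 : p * n / p ^ 2 = n / p := by
      rw [pow_two, Nat.mul_div_mul_left _ _ hp.pos]
    rw [h3]
    simp [RZ.coef]

/-- scaling of homogeneous polynomials -/
theorem eval_scale {k : ℕ} {G : MvPolynomial (Fin 4) ℂ} (hG : G.IsWeightedHomogeneous wt k)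
    (x : Fin 4 → ℂ) (c : ℂ) :
    MvPolynomial.eval (fun i => c ^ wt i * x i) G = c ^ k * MvPolynomial.eval x G := by
  rw [MvPolynomial.eval_eq', MvPolynomial.eval_eq', Finset.mul_sum]
  refine Finset.sum_congr rfl fun d hd => ?_
  have h1 : Finsupp.weight wt d = k := hG (MvPolynomial.mem_support_iff.1 hd)
  have h2 : ∏ i, (c ^ wt i * x i) ^ d i = c ^ k * ∏ i, x i ^ d i := by
    simp_rw [mul_pow]
    rw [Finset.prod_mul_distrib]
    congr 1
    simp_rw [← pow_mul]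
    rw [Finset.prod_pow_eq_pow_sum]
    congr 1
    rw [← h1, Finsupp.weight_apply, Finsupp.sum_fintype _ _ (by simp)]
    exact Finset.sum_congr rfl fun i _ => by simp [mul_comm]
  rw [h2]
  ring

theorem vol_conj (w₁ w₂ : ℂ) : vol w₁ w₂ (conj w₁) (conj w₂) = ((w₁ * conj w₂).im : ℂ) := by
  unfold vol
  apply Complex.ext <;> simp [Complex.div_re, Complex.div_im, Complex.normSq] <;> ring

theorem pos_iff : Pos w₁ w₂ ↔ 0 < (w₁ * conj w₂).im := by
  unfold Pos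
  rcases eq_or_ne w₂ 0 with rfl | h
  · simp
  have h1 : w₁ / w₂ = (w₁ * conj w₂) / ((Complex.normSq w₂ : ℝ) : ℂ) := by
    rw [div_eq_div_iff h (by simpa using h), mul_assoc, mul_comm (conj w₂), Complex.mul_conj]
  rw [h1, Complex.div_ofReal_im]
  exact div_pos_iff_of_pos_right (Complex.normSq_pos.2 h)

theorem e2s_smul {c : ℂ} (hc : c ≠ 0) (h : Pos w₁ w₂) :
    E2s (c * w₁) (c * w₂) = (c ^ 2)⁻¹ * E2s w₁ w₂ := by
  have hw := h.ne
  have hv : ((w₁ * conj w₂).im : ℂ) ≠ 0 := by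
    exact_mod_cast (pos_iff.1 h).ne'
  have hcc : conj c ≠ 0 := by simpa using hc
  have hp : (π : ℂ) ≠ 0 := by exact_mod_cast Real.pi_ne_zero
  have h1 : vol (c * w₁) (c * w₂) (conj (c * w₁)) (conj (c * w₂)) =
      c * conj c * vol w₁ w₂ (conj w₁) (conj w₂) := by
    unfold vol
    simp only [map_mul]
    ring
  unfold E2s e2s
  rw [LF_smul hc, h1, vol_conj]
  simp only [map_mul]
  field_simp

/-- the lattice function attached to a polynomial -/
def SS (G : MvPolynomial (Fin 4) ℂ) (w₁ w₂ : ℂ) : ℂ := ev G w₁ w₂ (conj w₁) (conj w₂)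

theorem SS_lat (hL : StLat) (hE : StE2Lat) (G : MvPolynomial (Fin 4) ℂ) (hw : Pos w₁ w₂)
    (hv : Pos v₁ v₂) (hl : lat w₁ w₂ = lat v₁ v₂) : SS G w₁ w₂ = SS G v₁ v₂ := by
  unfold SS ev
  have h := hE _ _ _ _ hw hv hl
  unfold E2s at h
  rw [lat_e4 hL hw hv hl, lat_e6 hL hw hv hl, lat_dl hL hw hv hl, h]

theorem SS_smul {k : ℕ} {G : MvPolynomial (Fin 4) ℂ} (hG : G.IsWeightedHomogeneous wt k) {c : ℂ}
    (hc : c ≠ 0) (hw : Pos w₁ w₂) : SS G (c * w₁) (c * w₂) = (c ^ k)⁻¹ * SS G w₁ w₂ := by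
  unfold SS ev
  have h := e2s_smul hc hw
  unfold E2s at h
  have h4 : e4 (c * w₁) (c * w₂) = (c ^ 4)⁻¹ * e4 w₁ w₂ := LF_smul hc
  have h6 : e6 (c * w₁) (c * w₂) = (c ^ 6)⁻¹ * e6 w₁ w₂ := LF_smul hc
  have h12 : dl (c * w₁) (c * w₂) = (c ^ 12)⁻¹ * dl w₁ w₂ := LF_smul hc
  simp only [← inv_pow] at h h4 h6 h12
  rw [h, h4, h6, h12, ← inv_pow, ← eval_scale hG]
  congr 2
  funext i
  fin_cases i <;> simp [wt]

/-- the Taylor coefficient and the polynomial -/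
theorem lfr_eq (hT : StTaylor) {w : ℕ} {f : CuspForm 𝒮ℒ (w : ℤ)} {G : MvPolynomial (Fin 4) ℂ}
    (hG : ∀ w₁ w₂ α β : ℂ, Pos w₁ w₂ → LF w f w₁ w₂ = ev G w₁ w₂ α β) (r : ℕ)
    (hw : Pos w₁ w₂) : RZ.lfr f r w₁ w₂ =
      (4 * π * ((w₁ * conj w₂).im : ℂ)) ^ r * SS (dd^[r] G) w₁ w₂ / (r.factorial : ℂ) := by
  have hv : vol w₁ w₂ (conj w₁) (conj w₂) ≠ 0 := by
    rw [vol_conj]
    exact_mod_cast (pos_iff.1 hw).ne'
  have h := hT G r w₁ w₂ (conj w₁) (conj w₂) hw hv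
  rw [vol_conj] at h
  unfold RZ.lfr SS
  rw [← h]
  congr 1
  apply Filter.EventuallyEq.iteratedDeriv_eq
  have hcont : ContinuousAt (fun t : ℂ => ((w₁ + t * conj w₁) / (w₂ + t * conj w₂)).im) 0 := by
    apply Complex.continuous_im.continuousAt.comp
    apply ContinuousAt.div
    · fun_prop
    · fun_prop
    · simpa using hw.ne
  have h0 : 0 < ((w₁ + 0 * conj w₁) / (w₂ + 0 * conj w₂)).im := by
    simpa [Pos] using hw
  filter_upwards [hcont.eventually (lt_mem_nhds h0)] with t ht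
  rw [← hG _ _ _ _ ht]
  rfl

theorem weight_ge {w : ℕ} {f : CuspForm 𝒮ℒ (w : ℤ)} (hf : cf f 1 = 1) : 12 ≤ w ∧ Even w := by
  have hne : f ≠ 0 := by
    rintro rfl
    simp [cf, qExpansion_zero] at hf
  constructor
  · by_contra h
    have := rank_zero_iff_forall_zero.1 (CuspForm.rank_eq_zero_of_weight_lt_twelve
      (k := (w : ℤ)) (by omega)) f
    exact hne this
  · by_contra h
    rw [Nat.not_even_iff_odd] at h
    have h1 := ModularForm.levelOne_odd_weight_eq_zero (k := (w : ℤ)) (by exact_mod_cast h)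
      (CuspForm.toModularFormₗ f)
    apply hne
    ext τ
    have := congrArg (fun g : ModularForm 𝒮ℒ (w : ℤ) => g τ) h1
    simpa using this

/-- (C) -/
theorem stmtC (hL : StLat) (hE : StE2Lat) (hT : StTaylor) (hB : StBasis) (hD : StDD)
    (hV : StValR) (hS : StSum) : RZ.StmtC := by
  intro q F _ _ s σ V w r f ψ hq h16 hF hs hf hψ hV2
  have hFC : FieldC q F s := ⟨hq, h16, hF, hs⟩
  have hA : Above2 V := by
    rw [Above2, nonunits_iff]
    exact hV2.two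
  have hfe := isEig_of hf
  obtain ⟨hw12, hwe⟩ := weight_ge hf.one
  obtain ⟨G, hGh, hG, hval⟩ := hV V hA w f hfe
  -- homogeneity of the derivative
  have hGr : (dd^[r] G).IsWeightedHomogeneous wt (w + 2 * r) :=
    (hD ⊤ w G hGh (fun m => trivial) r).1
  -- representatives
  have hrep : ∀ c : ClassGroup (𝓞 F), ∃ a : (Ideal (𝓞 F))⁰, ClassGroup.mk0 a = c :=
    fun c => ClassGroup.mk0_surjective c
  choose rep hrep using hrep
  have hne : ∀ c, (rep c : Ideal (𝓞 F)) ≠ ⊥ := fun c => nonZeroDivisors.coe_ne_zero (rep c)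
  have hbas : ∀ c, ∃ w₁ w₂ : ℂ, IsB σ (rep c : Ideal (𝓞 F)) w₁ w₂ := fun c =>
    (hB q F s hFC σ _ (hne c)).1
  choose b₁ b₂ hb using hbas
  have hx : ∀ c, ∃ x ∈ (rep c : Ideal (𝓞 F)), σ (x : F) = b₁ c := fun c =>
    ((hb c).2 _).1 (Submodule.subset_span (by simp))
  have hy : ∀ c, ∃ x ∈ (rep c : Ideal (𝓞 F)), σ (x : F) = b₂ c := fun c =>
    ((hb c).2 _).1 (Submodule.subset_span (by simp))
  choose X hXm hX using hx
  choose Y hYm hY using hy
  have hinj : Function.Injective fun x : 𝓞 F => σ (x : F) :=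
    σ.injective.comp RingOfIntegers.coe_injective
  let c : RZ.Reps σ :=
    { R := rep
      X := X
      Y := Y
      cls := hrep
      bas := fun A =>
        { mem := by
            intro z
            constructor
            · intro hz
              obtain ⟨m, n, h⟩ := mem_lat.1 (((hb A).2 (σ (z : F))).2 ⟨z, hz, rfl⟩)
              refine ⟨m, n, hinj ?_⟩
              simp only [map_add, map_mul, map_intCast]
              rw [hX, hY, h]
            · rintro ⟨m, n, rfl⟩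
              exact Ideal.add_mem _ (Ideal.mul_mem_left _ _ (hXm A))
                (Ideal.mul_mem_left _ _ (hYm A))
          pos := by
            have := pos_iff.1 (hb A).1
            rwa [← hX, ← hY] at this } }
  refine ⟨c, ?_⟩
  have hsum := hS q F s hFC σ V hA (w + 2 * r) (fun a => ψ a) (by omega)
    (hwe.add (even_two_mul r))
    { mul := fun a b _ _ => map_mul ψ a b
      princ := fun x hx => hψ x hx
      triv := fun a ha => nonunits_iff.2 (hV2.triv a ha) }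
    (SS (dd^[r] G)) (fun _ _ _ _ hw hv hl => SS_lat hL hE _ hw hv hl)
    (fun _ _ _ hc hw => SS_smul hGr hc hw)
    (fun m c u v hm hc hu i => hval r m c u v hm hc hu i) rep b₁ b₂ hrep hb
  have key : RZ.period f r ψ c = (2 * π * (√q : ℝ)) ^ r / (r.factorial : ℂ) *
      ∑ A, ψ (rep A : Ideal (𝓞 F)) * SS (dd^[r] G) (b₁ A) (b₂ A) := by
    unfold RZ.period
    rw [Finset.mul_sum]
    refine Finset.sum_congr rfl fun A _ => ?_
    change ψ (rep A : Ideal (𝓞 F)) * ((Ideal.absNorm (rep A : Ideal (𝓞 F)) : ℂ) ^ r)⁻¹ *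
      RZ.lfr f r (σ (X A)) (σ (Y A)) = _
    rw [hX, hY, lfr_eq hT hG r (hb A).1, ((hB q F s hFC σ _ (hne A)).2 _ _ (hb A)).1]
    have hN : (Ideal.absNorm (rep A : Ideal (𝓞 F)) : ℂ) ≠ 0 := by
      exact_mod_cast Ideal.absNorm_ne_zero_iff_mem_nonZeroDivisors.2 (rep A).2
    have h1 : (4 * (π : ℂ) * ((((Ideal.absNorm (rep A : Ideal (𝓞 F)) : ℝ) * √q / 2 : ℝ)) : ℂ)) ^ r =
        (Ideal.absNorm (rep A : Ideal (𝓞 F)) : ℂ) ^ r * (2 * π * (√q : ℝ)) ^ r := by
      rw [← mul_pow]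
      congr 1
      push_cast
      ring
    rw [h1]
    have hNr := pow_ne_zero r hN
    have hfac : (r.factorial : ℂ) ≠ 0 := by exact_mod_cast r.factorial_ne_zero
    field_simp
  rw [key]
  refine mul_ne_zero (div_ne_zero (pow_ne_zero _ ?_) ?_) hsum
  · have h1 : (0 : ℝ) < √q := Real.sqrt_pos.2 (by exact_mod_cast hq.pos)
    have hp : (π : ℂ) ≠ 0 := by exact_mod_cast Real.pi_ne_zero
    have h2 : ((√q : ℝ) : ℂ) ≠ 0 := by exact_mod_cast h1.ne'
    exact mul_ne_zero (mul_ne_zero two_ne_zero hp) h2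
  · exact_mod_cast r.factorial_ne_zero

end

end Pool.Agent.Lib.MP_7c08ba_nt.RZC
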