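import Pool.Agent.Lib.MP_7c08ba_nt.RZ.Basic

set_option autoImplicit false

/-! (F): the sum over the classes is not zero. -/

namespace Pool.Agent.Lib.MP_7c08ba_nt.RZC

open UpperHalfPlane ModularForm EisensteinSeries MatrixGroups NumberField
open scoped Real Manifold ComplexConjugate nonZeroDivisors

noncomputable section

namespace SumAux

/-! ### lattice invariance -/

theorem e4_congr (h8 : StLat) {w₁ w₂ v₁ v₂ : ℂ} (hw : Pos w₁ w₂) (hv : Pos v₁ v₂)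
    (h : lat w₁ w₂ = lat v₁ v₂) : e4 w₁ w₂ = e4 v₁ v₂ :=
  h8 4 E₄ w₁ w₂ v₁ v₂ hw hv h

theorem dl_congr (h8 : StLat) {w₁ w₂ v₁ v₂ : ℂ} (hw : Pos w₁ w₂) (hv : Pos v₁ v₂)
    (h : lat w₁ w₂ = lat v₁ v₂) : dl w₁ w₂ = dl v₁ v₂ :=
  h8 12 (CuspForm.toModularFormₗ CuspForm.discriminant) w₁ w₂ v₁ v₂ hw hv h

theorem jv_congr (h8 : StLat) {w₁ w₂ v₁ v₂ : ℂ} (hw : Pos w₁ w₂) (hv : Pos v₁ v₂)
    (h : lat w₁ w₂ = lat v₁ v₂) : jv w₁ w₂ = jv v₁ v₂ := by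
  unfold jv
  rw [e4_congr h8 hw hv h, dl_congr h8 hw hv h]

theorem jv_smul {c w₁ w₂ : ℂ} (hc : c ≠ 0) : jv (c * w₁) (c * w₂) = jv w₁ w₂ := by
  unfold jv
  have h3 : dl (c * w₁) (c * w₂) = (c ^ 12)⁻¹ * dl w₁ w₂ := LF_smul hc
  have h4 : e4 (c * w₁) (c * w₂) = (c ^ 4)⁻¹ * e4 w₁ w₂ := LF_smul hc
  rw [h3, h4]
  have h1 : (c ^ 12)⁻¹ ≠ 0 := inv_ne_zero (pow_ne_zero _ hc)
  have h2 : ((c ^ 4)⁻¹ * e4 w₁ w₂) ^ 3 = (c ^ 12)⁻¹ * e4 w₁ w₂ ^ 3 := by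
    rw [mul_pow, inv_pow, ← pow_mul]
  rw [h2, mul_div_mul_left _ _ h1]

/-! ### the standard elements -/

theorem eb_ratio {A : ValuationSubring ℂ} (k : ℕ) {a b a' b' : ℂ} (ha : a / a' - 1 ∈ A.nonunits)
    (hb : b / b' - 1 ∈ A.nonunits) : eb k a b / eb k a' b' - 1 ∈ A.nonunits := by
  unfold eb
  split_ifs with h
  · rw [← div_pow]
    exact nonunits_pow_sub_one ha _
  · rw [mul_div_mul_comm, ← div_pow]
    exact mul_sub_one (nonunits_pow_sub_one ha _) hb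

theorem sum_nonunits {A : ValuationSubring ℂ} {ι : Type*} (s : Finset ι) (g : ι → ℂ)
    (h : ∀ i ∈ s, g i ∈ A.nonunits) : ∑ i ∈ s, g i ∈ A.nonunits := by
  classical
  induction s using Finset.induction_on with
  | empty =>
    rw [Finset.sum_empty]
    exact zero_nonunits
  | insert a s ha ih =>
    rw [Finset.sum_insert ha]
    exact nonunits_add (h a (Finset.mem_insert_self _ _))
      (ih fun i hi => h i (Finset.mem_insert_of_mem hi))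

/-- product of `1 + m`, `j + m` and `1 + m` -/
theorem triple {A : ValuationSubring ℂ} {x y z j : ℂ} (hx : x - 1 ∈ A.nonunits)
    (hy : y - j ∈ A.nonunits) (hz : z - 1 ∈ A.nonunits) (hj : j ∈ A) :
    x * y * z - j ∈ A.nonunits := by
  have hyA : y ∈ A := by
    have := A.add_mem _ _ (nonunits_mem hy) hj
    rwa [sub_add_cancel] at this
  have h1 : (x * z - 1) * y ∈ A.nonunits := nonunits_mul_right (mul_sub_one hx hz) hyA
  have h2 := nonunits_add h1 hy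
  have h3 : x * y * z - j = (x * z - 1) * y + (y - j) := by ring
  rw [h3]
  exact h2

/-! ### ideals -/

section ideals

variable {F : Type} [Field F] [NumberField F] {σ : F →+* ℂ}

omit [NumberField F] in
theorem sigma_ne {x : 𝓞 F} (hx : x ≠ 0) : σ (x : F) ≠ 0 := by
  intro h
  exact hx (RingOfIntegers.coe_eq_zero_iff.mp ((map_eq_zero σ).mp h))

theorem IsB.lat_eq {a : Ideal (𝓞 F)} {w₁ w₂ v₁ v₂ : ℂ} (hw : IsB σ a w₁ w₂)
    (hv : IsB σ a v₁ v₂) : lat w₁ w₂ = lat v₁ v₂ := by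
  ext z
  rw [hw.2, hv.2]

theorem IsB.smul {a : Ideal (𝓞 F)} {w₁ w₂ : ℂ} (hw : IsB σ a w₁ w₂) {x : 𝓞 F} (hx : x ≠ 0) :
    IsB σ (Ideal.span {x} * a) (σ (x : F) * w₁) (σ (x : F) * w₂) := by
  have hs : σ (x : F) ≠ 0 := sigma_ne hx
  refine ⟨(pos_smul hs).mpr hw.1, ?_⟩
  intro z
  obtain ⟨y, rfl⟩ : ∃ y, z = σ (x : F) * y := ⟨z / σ (x : F), by field_simp⟩
  rw [mem_lat_smul hs, hw.2]
  constructor
  · rintro ⟨t, ht, rfl⟩
    refine ⟨x * t, Ideal.mem_span_singleton_mul.mpr ⟨t, ht, rfl⟩, ?_⟩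
    rw [RingOfIntegers.coe_eq_algebraMap, map_mul (algebraMap (𝓞 F) F), map_mul σ]
  · rintro ⟨t, ht, h⟩
    obtain ⟨t', ht', rfl⟩ := Ideal.mem_span_singleton_mul.mp ht
    refine ⟨t', ht', ?_⟩
    rw [RingOfIntegers.coe_eq_algebraMap, map_mul (algebraMap (𝓞 F) F), map_mul σ] at h
    exact mul_left_cancel₀ hs h

/-- two ideals in the same class -/
theorem class_eq {a b : (Ideal (𝓞 F))⁰} (hab : ClassGroup.mk0 a = ClassGroup.mk0 b)
    {w₁ w₂ v₁ v₂ : ℂ} (hw : IsB σ (a : Ideal (𝓞 F)) w₁ w₂)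
    (hv : IsB σ (b : Ideal (𝓞 F)) v₁ v₂) :
    ∃ x y : 𝓞 F, x ≠ 0 ∧ y ≠ 0 ∧ Ideal.span {x} * (a : Ideal (𝓞 F)) = Ideal.span {y} * b ∧
      lat (σ (x : F) * w₁) (σ (x : F) * w₂) = lat (σ (y : F) * v₁) (σ (y : F) * v₂) := by
  obtain ⟨x, y, hx, hy, h⟩ := ClassGroup.mk0_eq_mk0_iff.mp hab
  refine ⟨x, y, hx, hy, h, ?_⟩
  have h1 := IsB.smul hw hx
  rw [h] at h1
  exact IsB.lat_eq h1 (IsB.smul hv hy)

theorem jv_class (h8 : StLat) {a b : (Ideal (𝓞 F))⁰} (hab : ClassGroup.mk0 a = ClassGroup.mk0 b)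
    {w₁ w₂ v₁ v₂ : ℂ} (hw : IsB σ (a : Ideal (𝓞 F)) w₁ w₂)
    (hv : IsB σ (b : Ideal (𝓞 F)) v₁ v₂) : jv w₁ w₂ = jv v₁ v₂ := by
  obtain ⟨x, y, hx, hy, -, h⟩ := class_eq hab hw hv
  have hx' : σ (x : F) ≠ 0 := sigma_ne hx
  have hy' : σ (y : F) ≠ 0 := sigma_ne hy
  rw [← jv_smul hx', ← jv_smul (w₁ := v₁) (w₂ := v₂) hy']
  exact jv_congr h8 ((pos_smul hx').mpr hw.1) ((pos_smul hy').mpr hv.1) h

omit [NumberField F] in
theorem ne_bot_coe (a : (Ideal (𝓞 F))⁰) : (a : Ideal (𝓞 F)) ≠ ⊥ := nonZeroDivisors.coe_ne_zero a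

theorem val_class {A : ValuationSubring ℂ} {k : ℕ} {ψ : Ideal (𝓞 F) → ℂ} (hψ : Char σ A k ψ)
    {S : ℂ → ℂ → ℂ}
    (hS1 : ∀ w₁ w₂ v₁ v₂ : ℂ, Pos w₁ w₂ → Pos v₁ v₂ → lat w₁ w₂ = lat v₁ v₂ →
      S w₁ w₂ = S v₁ v₂)
    (hS2 : ∀ c w₁ w₂ : ℂ, c ≠ 0 → Pos w₁ w₂ → S (c * w₁) (c * w₂) = (c ^ k)⁻¹ * S w₁ w₂)
    {a b : (Ideal (𝓞 F))⁰} (hab : ClassGroup.mk0 a = ClassGroup.mk0 b)
    {w₁ w₂ v₁ v₂ : ℂ} (hw : IsB σ (a : Ideal (𝓞 F)) w₁ w₂)
    (hv : IsB σ (b : Ideal (𝓞 F)) v₁ v₂) :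
    ψ (a : Ideal (𝓞 F)) * S w₁ w₂ = ψ (b : Ideal (𝓞 F)) * S v₁ v₂ := by
  have key : ∀ (a : (Ideal (𝓞 F))⁰) (w₁ w₂ : ℂ), Pos w₁ w₂ → ∀ x : 𝓞 F, x ≠ 0 →
      ψ (Ideal.span {x} * (a : Ideal (𝓞 F))) * S (σ (x : F) * w₁) (σ (x : F) * w₂) =
        ψ (a : Ideal (𝓞 F)) * S w₁ w₂ := by
    intro a w₁ w₂ hw x hx
    have hx' : σ (x : F) ≠ 0 := sigma_ne hx
    rw [hψ.mul _ _ (by rwa [Ne, Ideal.span_singleton_eq_bot]) (ne_bot_coe a), hψ.princ x hx,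
      hS2 _ _ _ hx' hw]
    field_simp
  obtain ⟨x, y, hx, hy, h1, h2⟩ := class_eq hab hw hv
  rw [← key a w₁ w₂ hw.1 x hx, ← key b v₁ v₂ hv.1 y hy, h1,
    hS1 _ _ _ _ ((pos_smul (sigma_ne hx)).mpr hw.1) ((pos_smul (sigma_ne hy)).mpr hv.1) h2]

end ideals

end SumAux

open SumAux in
theorem stSum (h1 : StClass) (h2 : StBasis) (h3 : StUnit) (h4 : StRep) (h5 : StChain)
    (h6 : StOrdC) (h7 : StOdd) (h8 : StLat) : StSum := by
  intro q F _ _ s hF σ A hA k ψ hk4 hk hψ S hS1 hS2 hS3 rep w₁ w₂ hrep hw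
  -- the prime above 2 and the chains
  obtain ⟨P, hP, hPn, hPu⟩ := h3 q F s hF σ A hA
  have hP0 : P ≠ ⊥ := by
    rintro rfl
    simp at hPn
  set m : ℕ := Fintype.card (ClassGroup (𝓞 F)) with hm
  have hmodd : Odd m := h1 q F s hF
  have hm0 : 0 < m := hmodd.pos
  have hPz : P ∈ (Ideal (𝓞 F))⁰ := mem_nonZeroDivisors_of_ne_zero hP0
  obtain ⟨x, hx⟩ : ∃ x : 𝓞 F, P ^ m = Ideal.span {x} := by
    have h : ClassGroup.mk0 (⟨P ^ m, pow_mem hPz m⟩ : (Ideal (𝓞 F))⁰) = 1 := by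
      have h' : (⟨P ^ m, pow_mem hPz m⟩ : (Ideal (𝓞 F))⁰) = ⟨P, hPz⟩ ^ m := rfl
      rw [h', map_pow, hm]
      exact pow_card_eq_one
    obtain ⟨x, hx⟩ := (ClassGroup.mk0_eq_one_iff _).mp h
    exact ⟨x, hx⟩
  have hU : UnitC A m (σ (x : F)) := hPu m x hmodd hx
  -- the values at an ideal
  have hval : ∀ a : Ideal (𝓞 F), a ≠ ⊥ → ∃ u v : ℕ → ℂ, Chain m (σ (x : F)) u v ∧
      ∀ i ≤ m, IsB σ (P ^ (m - i) * a) (u i) (v i) := h5 q F s hF σ P hP hPn m x hm0 hx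
  -- the lattice of the ring of integers
  obtain ⟨u0, v0, hc0, hb0⟩ := hval ⊤ (by simp)
  have hB0 : IsB σ ⊤ (u0 m) (v0 m) := by
    have := hb0 m le_rfl
    rwa [Nat.sub_self, pow_zero, one_mul] at this
  have hO0 : Ord A (u0 m) (v0 m) := ((h6 A hA m _ u0 v0 hm0 hc0 hU).1 m).1
  obtain ⟨he0, -⟩ := hS3 m _ u0 v0 hm0 hc0 hU m
  set E : ℂ := eb k (e4 (u0 m) (v0 m)) (e6 (u0 m) (v0 m)) with hE
  -- representatives of odd norm and their chains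
  choose a ha hodd using h4 q F s hF
  choose u v hc hb using fun c => hval (a c : Ideal (𝓞 F)) (ne_bot_coe (a c))
  have hBm : ∀ c, IsB σ (a c : Ideal (𝓞 F)) (u c m) (v c m) := by
    intro c
    have := hb c m le_rfl
    rwa [Nat.sub_self, pow_zero, one_mul] at this
  -- change of representatives
  have hsum : ∑ c, ψ (rep c : Ideal (𝓞 F)) * S (w₁ c) (w₂ c) =
      ∑ c, ψ (a c : Ideal (𝓞 F)) * S (u c m) (v c m) :=
    Finset.sum_congr rfl fun c _ =>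
      val_class hψ hS1 hS2 ((hrep c).trans (ha c).symm) (hw c) (hBm c)
  rw [hsum]
  -- one term
  have hterm : ∀ c, ψ (a c : Ideal (𝓞 F)) * S (u c m) (v c m) / E - jv (u c m) (v c m) ∈
      A.nonunits := by
    intro c
    obtain ⟨he, hSv⟩ := hS3 m _ (u c) (v c) hm0 (hc c) hU m
    have hO : Ord A (u c m) (v c m) := ((h6 A hA m _ (u c) (v c) hm0 (hc c) hU).1 m).1
    obtain ⟨hle, hidx⟩ := ((h2 q F s hF σ (a c : Ideal (𝓞 F)) (ne_bot_coe (a c))).2 _ _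
      (hBm c)).2 _ _ hB0
    obtain ⟨-, h64, h66⟩ := h7 A hA _ _ hO0 _ _ (hBm c).1 hle (by rw [hidx]; exact hodd c)
    have hr := eb_ratio k h64 h66
    have := triple (hψ.triv _ (hodd c)) hSv hr hO.2.2
    have h9 : ψ (a c : Ideal (𝓞 F)) * S (u c m) (v c m) / E =
        ψ (a c : Ideal (𝓞 F)) * (S (u c m) (v c m) /
          eb k (e4 (u c m) (v c m)) (e6 (u c m) (v c m))) *
          (eb k (e4 (u c m) (v c m)) (e6 (u c m) (v c m)) /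
            eb k (e4 (u0 m) (v0 m)) (e6 (u0 m) (v0 m))) := by
      rw [hE]
      field_simp
    rw [h9]
    exact this
  -- the sum of the `j`-values
  have hJ : ∑ c, jv (u c m) (v c m) - 1 ∈ A.nonunits := by
    -- the values on the chains
    have hch : ∀ c, ∀ i < m, jv (u c (i + 1)) (v c (i + 1)) =
        jv (u (ClassGroup.mk0 ⟨P, hPz⟩ ^ (m - (i + 1)) * c) m)
          (v (ClassGroup.mk0 ⟨P, hPz⟩ ^ (m - (i + 1)) * c) m) := by
      intro c i hi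
      have hB := hb c (i + 1) hi
      have hcl : ClassGroup.mk0 ((⟨P, hPz⟩ : (Ideal (𝓞 F))⁰) ^ (m - (i + 1)) * a c) =
          ClassGroup.mk0 (a (ClassGroup.mk0 ⟨P, hPz⟩ ^ (m - (i + 1)) * c)) := by
        rw [ha, map_mul, map_pow, ha]
      exact jv_class h8 hcl hB (hBm _)
    have hchain : ∀ c, (∑ i ∈ Finset.range m, jv (u c (i + 1)) (v c (i + 1))) - 1 ∈
        A.nonunits := fun c => (h6 A hA m _ (u c) (v c) hm0 (hc c) hU).2
    have h9 := sum_nonunits Finset.univ _ fun c (_ : c ∈ Finset.univ) => hchain c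
    have h10 : ∑ c, ((∑ i ∈ Finset.range m, jv (u c (i + 1)) (v c (i + 1))) - 1) =
        (m : ℂ) * (∑ c, jv (u c m) (v c m) - 1) := by
      rw [Finset.sum_sub_distrib, Finset.sum_comm]
      have h11 : ∀ i ∈ Finset.range m, ∑ c, jv (u c (i + 1)) (v c (i + 1)) =
          ∑ c, jv (u c m) (v c m) := by
        intro i hi
        rw [Finset.sum_congr rfl fun c _ => hch c i (Finset.mem_range.mp hi)]
        exact Fintype.sum_equiv (Equiv.mulLeft (ClassGroup.mk0 ⟨P, hPz⟩ ^ (m - (i + 1)))) _ _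
          fun c => rfl
      rw [Finset.sum_congr rfl h11, Finset.sum_const, Finset.sum_const, Finset.card_range,
        Finset.card_univ, ← hm]
      simp only [nsmul_eq_mul]
      ring
    rw [h10] at h9
    have h12 : (m : ℂ) - 1 ∈ A.nonunits := by
      have := odd_sub_one hA (n := (m : ℤ)) (by exact_mod_cast hmodd)
      simpa using this
    obtain ⟨-, -, h13, h14⟩ := unit_of_sub_one h12
    exact nonunits_of_mul_unit h14 h13 h9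
  -- conclusion
  have htot : ∑ c, ψ (a c : Ideal (𝓞 F)) * S (u c m) (v c m) / E - 1 ∈ A.nonunits := by
    have h9 := sum_nonunits Finset.univ _ fun c (_ : c ∈ Finset.univ) => hterm c
    rw [Finset.sum_sub_distrib] at h9
    have := nonunits_add h9 hJ
    rwa [sub_add_sub_cancel] at this
  rw [← Finset.sum_div] at htot
  intro h0
  rw [h0, zero_div] at htot
  exact (unit_of_sub_one htot).2.2.1 rfl

end

end Pool.Agent.Lib.MP_7c08ba_nt.RZC
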