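import Pool.Agent.Lib.MP_7c08ba_nt.RZ.Basic
import Pool.Agent.Lib.MP_7c08ba_nt.Quad

set_option autoImplicit false
set_option linter.unusedSectionVars false

/-!
Part (C), module N2: oriented bases of ideals of an imaginary quadratic field, covolume, index.
-/

namespace Pool.Agent.Lib.MP_7c08ba_nt.RZC

open NumberField Module
open scoped Real ComplexConjugate

namespace BasisAux

/-- imaginary part of `x conj y` from that of `x / y` -/
lemma im_div_eq (w₁ w₂ : ℂ) : (w₁ / w₂).im = (w₁ * conj w₂).im / Complex.normSq w₂ := by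
  rw [Complex.div_im, Complex.mul_im, Complex.conj_re, Complex.conj_im]
  ring

lemma pos_iff {w₁ w₂ : ℂ} : Pos w₁ w₂ ↔ 0 < (w₁ * conj w₂).im := by
  unfold Pos
  rw [im_div_eq]
  constructor
  · intro h
    by_contra h1
    exact absurd h (not_lt.2 (div_nonpos_of_nonpos_of_nonneg (not_lt.1 h1)
      (Complex.normSq_nonneg w₂)))
  · intro h
    refine div_pos h ?_
    rw [Complex.normSq_pos]
    rintro rfl
    simp at h

lemma lat_neg (w₁ w₂ : ℂ) : lat (-w₁) w₂ = lat w₁ w₂ := by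
  ext z
  rw [mem_lat, mem_lat]
  constructor
  · rintro ⟨m, n, h⟩
    exact ⟨-m, n, by push_cast; linear_combination h⟩
  · rintro ⟨m, n, h⟩
    exact ⟨-m, n, by push_cast; linear_combination h⟩

section field

variable {q : ℕ} {F : Type} [Field F] [NumberField F] {s : F}

/-- the second element of the basis -/
lemma exists_theta (h : FieldC q F s) : ∃ θ : 𝓞 F, (2 : F) * (θ : F) = 1 + s := by
  obtain ⟨hq, h16, hF, hs⟩ := h
  have hint : IsIntegral ℤ ((1 + s) / 2 : F) := by
    refine ⟨Polynomial.X ^ 2 - Polynomial.X + Polynomial.C (((q + 1) / 4 : ℕ) : ℤ), ?_, ?_⟩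
    · monicity!
    · have h4 : (((q + 1) / 4 : ℕ) : F) = (q + 1) / 4 := by
        have : (((q + 1) / 4 : ℕ) : F) * 4 = q + 1 := by
          have : (q + 1) / 4 * 4 = q + 1 := by omega
          exact_mod_cast congrArg (Nat.cast : ℕ → F) this
        field_simp
        exact this
      simp only [Polynomial.eval₂_add, Polynomial.eval₂_sub, Polynomial.eval₂_pow,
        Polynomial.eval₂_X, Polynomial.eval₂_C]
      rw [map_natCast, h4]
      field_simp
      linear_combination 4 * hs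
  refine ⟨⟨(1 + s) / 2, hint⟩, ?_⟩
  change (2 : F) * ((1 + s) / 2) = 1 + s
  field_simp

/-- the integral basis `1, θ` -/
lemma exists_intBasis (h : FieldC q F s) {θ : 𝓞 F} (hθ : (2 : F) * (θ : F) = 1 + s) :
    ∃ B : Basis (Fin 2) ℤ (𝓞 F), B 0 = 1 ∧ B 1 = θ := by
  obtain ⟨hq, h16, hF, hs⟩ := h
  have hli : LinearIndependent ℤ ![(1 : 𝓞 F), θ] := by
    rw [LinearIndependent.pair_iff]
    intro a b hab
    have h1 : (a : F) + b * (θ : F) = 0 := by
      have := congrArg (fun t : 𝓞 F => (t : F)) hab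
      simpa [zsmul_eq_mul] using this
    have h2 : ((2 * a + b : ℚ) : F) + ((b : ℚ) : F) * s = 0 := by
      push_cast
      linear_combination 2 * h1 - (b : F) * hθ
    obtain ⟨h3, h4⟩ := coords_zero hq.pos hs h2
    have h5 : b = 0 := by exact_mod_cast h4
    have h6 : a = 0 := by
      rw [h5] at h3
      have : (2 * a : ℚ) = 0 := by simpa using h3
      have : (a : ℚ) = 0 := by linarith
      exact_mod_cast this
    exact ⟨h6, h5⟩
  have hsp : ⊤ ≤ Submodule.span ℤ (Set.range ![(1 : 𝓞 F), θ]) := by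
    intro z _
    rw [Matrix.range_cons_cons_empty, Submodule.mem_span_pair]
    obtain ⟨A, B, hAB⟩ := exists_int_coords hq.pos hF hs hq z.isIntegral_coe
    -- `A - B` is even
    have h1 : IsIntegral ℤ ((((A - B : ℤ) : ℚ) / 2 : ℚ)) := by
      have h2 : IsIntegral ℤ ((z : F) - B * (θ : F)) := by
        refine IsIntegral.sub z.isIntegral_coe (IsIntegral.mul ?_ θ.isIntegral_coe)
        have : IsIntegral ℤ (algebraMap ℤ F B) := isIntegral_algebraMap
        simpa using this
      have h3 : (z : F) - B * (θ : F) = algebraMap ℚ F (((A - B : ℤ) : ℚ) / 2 : ℚ) := by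
        have h4 : algebraMap ℚ F (((A - B : ℤ) : ℚ) / 2 : ℚ) = ((A : F) - B) / 2 := by
          rw [map_div₀]
          simp
        rw [h4]
        have : (2 : F) * ((z : F) - B * (θ : F)) = A - B := by
          linear_combination hAB - (B : F) * hθ
        field_simp
        linear_combination this
      rw [h3] at h2
      exact (isIntegral_algebraMap_iff (algebraMap ℚ F).injective).1 h2
    obtain ⟨k, hk⟩ := IsIntegrallyClosed.isIntegral_iff.mp h1
    have hk' : (k : ℚ) = ((A - B : ℤ) : ℚ) / 2 := hk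
    have hk2 : 2 * k = A - B := by
      have : (2 * k : ℚ) = ((A - B : ℤ) : ℚ) := by rw [hk']; ring
      exact_mod_cast this
    refine ⟨k, B, ?_⟩
    apply RingOfIntegers.ext
    have h5 : (2 * k : F) = A - B := by exact_mod_cast congrArg (Int.cast : ℤ → F) hk2
    have h6 : (2 : F) * ((k : F) + B * (θ : F)) = 2 * (z : F) := by
      linear_combination h5 + (B : F) * hθ - hAB
    have h7 := mul_left_cancel₀ (two_ne_zero) h6
    simpa [zsmul_eq_mul] using h7
  refine ⟨Basis.mk hli hsp, ?_, ?_⟩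
  · simp
  · simp

/-- the embedding of the ring of integers -/
noncomputable def emb (σ : F →+* ℂ) : 𝓞 F →+* ℂ := σ.comp (algebraMap (𝓞 F) F)

lemma emb_apply (σ : F →+* ℂ) (x : 𝓞 F) : emb σ x = σ (x : F) := rfl

lemma emb_injective (σ : F →+* ℂ) : Function.Injective (emb σ) := by
  intro x y hxy
  apply RingOfIntegers.ext
  exact σ.injective hxy

/-- `|im σ(θ)| = √q / 2` -/
lemma abs_im_theta (h : FieldC q F s) {θ : 𝓞 F} (hθ : (2 : F) * (θ : F) = 1 + s) (σ : F →+* ℂ) :
    |(emb σ θ).im| = √q / 2 := by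
  obtain ⟨hq, h16, hF, hs⟩ := h
  have h1 : (2 : ℂ) * emb σ θ = 1 + σ s := by
    have := congrArg σ hθ
    rw [map_mul, map_add, map_one, map_ofNat] at this
    exact this
  have h2 : σ s ^ 2 = -(q : ℂ) := by
    rw [← map_pow, hs, map_neg, map_natCast]
  have hq0 : (0 : ℝ) < q := by exact_mod_cast hq.pos
  have h3 : (σ s).re * (σ s).im = 0 := by
    have := congrArg Complex.im h2
    rw [pow_two, Complex.mul_im] at this
    simp only [Complex.neg_im, Complex.natCast_im, neg_zero] at this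
    linarith
  have h4 : (σ s).re ^ 2 - (σ s).im ^ 2 = -(q : ℝ) := by
    have := congrArg Complex.re h2
    rw [pow_two, Complex.mul_re] at this
    simp only [Complex.neg_re, Complex.natCast_re] at this
    linarith
  have h5 : (σ s).re = 0 := by
    rcases mul_eq_zero.1 h3 with h | h
    · exact h
    · rw [h] at h4
      nlinarith [sq_nonneg (σ s).re]
  have h6 : (σ s).im ^ 2 = q := by
    rw [h5] at h4
    linarith
  have h7 : |(σ s).im| = √q := by
    rw [← h6, Real.sqrt_sq_eq_abs]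
  have h8 : (emb σ θ).im = (σ s).im / 2 := by
    have := congrArg Complex.im h1
    rw [Complex.mul_im] at this
    simp at this
    linarith
  rw [h8, abs_div, h7]
  norm_num

/-- imaginary part in terms of the determinant -/
lemma im_eq (σ : F →+* ℂ) {θ : 𝓞 F} (B : Basis (Fin 2) ℤ (𝓞 F)) (h0 : B 0 = 1) (h1 : B 1 = θ)
    (x : Fin 2 → 𝓞 F) :
    (emb σ (x 0) * conj (emb σ (x 1))).im = -((B.det x : ℤ) : ℝ) * (emb σ θ).im := by
  have hx : ∀ y : 𝓞 F, emb σ y = (B.repr y 0 : ℂ) + (B.repr y 1 : ℂ) * emb σ θ := by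
    intro y
    conv_lhs => rw [← B.sum_repr y]
    rw [Fin.sum_univ_two, h0, h1, map_add, zsmul_eq_mul, zsmul_eq_mul, map_mul, map_mul,
      map_intCast, map_intCast, map_one, mul_one]
  rw [Basis.det_apply, Matrix.det_fin_two, Basis.toMatrix_apply, Basis.toMatrix_apply,
    Basis.toMatrix_apply, Basis.toMatrix_apply, hx (x 0), hx (x 1)]
  simp only [Complex.mul_im, Complex.add_re, Complex.add_im, Complex.conj_re, Complex.conj_im,
    Complex.intCast_re, Complex.intCast_im, Complex.mul_re]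
  push_cast
  ring

/-- absolute value of the imaginary part for a basis of an ideal -/
lemma abs_im (h : FieldC q F s) (σ : F →+* ℂ) (a : Ideal (𝓞 F)) (bI : Basis (Fin 2) ℤ a) :
    |(emb σ (bI 0 : 𝓞 F) * conj (emb σ (bI 1 : 𝓞 F))).im| = (Ideal.absNorm a : ℝ) * √q / 2 := by
  obtain ⟨θ, hθ⟩ := exists_theta h
  obtain ⟨B, h0, h1⟩ := exists_intBasis h hθ
  have h2 := im_eq σ B h0 h1 (fun i => (bI i : 𝓞 F))
  rw [h2, abs_mul, abs_neg, abs_im_theta h hθ, ← Ideal.natAbs_det_basis_change B a bI,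
    Nat.cast_natAbs, Int.cast_abs]
  change _ = |((B.det (fun i => (bI i : 𝓞 F)) : ℤ) : ℝ)| * √q / 2
  ring

/-- a basis of the ideal from an oriented basis -/
lemma exists_basis_of_isB {σ : F →+* ℂ} {a : Ideal (𝓞 F)} {w₁ w₂ : ℂ} (hw : IsB σ a w₁ w₂) :
    ∃ bI : Basis (Fin 2) ℤ a, emb σ (bI 0 : 𝓞 F) = w₁ ∧ emb σ (bI 1 : 𝓞 F) = w₂ := by
  obtain ⟨hp, hz⟩ := hw
  obtain ⟨x₁, hx₁, e₁⟩ := (hz w₁).1 (mem_lat.2 ⟨1, 0, by simp⟩)
  obtain ⟨x₂, hx₂, e₂⟩ := (hz w₂).1 (mem_lat.2 ⟨0, 1, by simp⟩)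
  have e₁' : emb σ x₁ = w₁ := e₁
  have e₂' : emb σ x₂ = w₂ := e₂
  have hli : LinearIndependent ℤ ![(⟨x₁, hx₁⟩ : a), ⟨x₂, hx₂⟩] := by
    rw [LinearIndependent.pair_iff]
    intro m n hmn
    have h1 : (m : ℂ) * w₁ + n * w₂ = 0 := by
      have h2 := congrArg (fun t : a => emb σ (t : 𝓞 F)) hmn
      simpa [zsmul_eq_mul, e₁', e₂'] using h2
    have h2 : (m : ℂ) * (w₁ / w₂) + n = 0 := by
      have h3 := hp.ne
      field_simp
      linear_combination h1
    have h3 : (m : ℝ) * (w₁ / w₂).im = 0 := by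
      have := congrArg Complex.im h2
      rw [Complex.add_im, Complex.mul_im] at this
      simpa using this
    have h4 : m = 0 := by
      rcases mul_eq_zero.1 h3 with h | h
      · exact_mod_cast h
      · exact absurd h (ne_of_gt hp)
    refine ⟨h4, ?_⟩
    rw [h4] at h2
    have : (n : ℂ) = 0 := by simpa using h2
    exact_mod_cast this
  have hsp : ⊤ ≤ Submodule.span ℤ (Set.range ![(⟨x₁, hx₁⟩ : a), ⟨x₂, hx₂⟩]) := by
    rintro ⟨z, hza⟩ _
    rw [Matrix.range_cons_cons_empty, Submodule.mem_span_pair]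
    obtain ⟨m, n, hmn⟩ := mem_lat.1 ((hz (emb σ z)).2 ⟨z, hza, rfl⟩)
    refine ⟨m, n, ?_⟩
    apply Subtype.ext
    apply emb_injective σ
    have : emb σ ((m • (⟨x₁, hx₁⟩ : a) + n • (⟨x₂, hx₂⟩ : a) : a) : 𝓞 F) =
        m * w₁ + n * w₂ := by
      simp [zsmul_eq_mul, e₁', e₂']
    rw [this, hmn]
  refine ⟨Basis.mk hli hsp, ?_, ?_⟩
  · simp [e₁']
  · simp [e₂']

/-- the lattice as an image -/
lemma lat_eq_map {σ : F →+* ℂ} {a : Ideal (𝓞 F)} {w₁ w₂ : ℂ} (hw : IsB σ a w₁ w₂) :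
    (lat w₁ w₂).toAddSubgroup =
      AddSubgroup.map (emb σ : 𝓞 F →+* ℂ).toAddMonoidHom (Submodule.toAddSubgroup a) := by
  ext z
  rw [AddSubgroup.mem_map]
  exact hw.2 z

end field

end BasisAux

open BasisAux in
theorem stBasis : StBasis := by
  intro q F _ _ s h σ a ha
  have hq0 : (0 : ℝ) < √q := Real.sqrt_pos.2 (by exact_mod_cast h.1.pos)
  have hN : (0 : ℝ) < Ideal.absNorm a := by
    have : Ideal.absNorm a ≠ 0 := fun h0 => ha (Ideal.absNorm_eq_zero_iff.1 h0)
    exact_mod_cast Nat.pos_of_ne_zero this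
  refine ⟨?_, ?_⟩
  · obtain ⟨θ, hθ⟩ := exists_theta h
    obtain ⟨B, h0, h1⟩ := exists_intBasis h hθ
    set bI : Basis (Fin 2) ℤ a := a.selfBasis B ha with hbI
    have habs := abs_im h σ a bI
    have hmem : ∀ z : ℂ, z ∈ lat (emb σ (bI 0 : 𝓞 F)) (emb σ (bI 1 : 𝓞 F)) ↔
        ∃ x ∈ a, σ (x : F) = z := by
      intro z
      rw [mem_lat]
      constructor
      · rintro ⟨m, n, rfl⟩
        refine ⟨((m • bI 0 + n • bI 1 : a) : 𝓞 F), (m • bI 0 + n • bI 1 : a).2, ?_⟩
        rw [← emb_apply]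
        simp [zsmul_eq_mul]
      · rintro ⟨x, hx, rfl⟩
        refine ⟨bI.repr ⟨x, hx⟩ 0, bI.repr ⟨x, hx⟩ 1, ?_⟩
        have h2 := bI.sum_repr ⟨x, hx⟩
        rw [Fin.sum_univ_two] at h2
        have h3 := congrArg (fun t : a => emb σ (t : 𝓞 F)) h2
        rw [← emb_apply]
        simpa [zsmul_eq_mul] using h3
    rcases lt_or_ge 0 (emb σ (bI 0 : 𝓞 F) * conj (emb σ (bI 1 : 𝓞 F))).im with hpos | hneg
    · exact ⟨_, _, pos_iff.2 hpos, hmem⟩
    · refine ⟨-emb σ (bI 0 : 𝓞 F), emb σ (bI 1 : 𝓞 F), ?_, ?_⟩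
      · rw [pos_iff, neg_mul, Complex.neg_im]
        rw [abs_of_nonpos hneg] at habs
        rw [habs]
        positivity
      · intro z
        rw [lat_neg]
        exact hmem z
  · intro w₁ w₂ hw
    refine ⟨?_, ?_⟩
    · obtain ⟨bI, e₁, e₂⟩ := exists_basis_of_isB hw
      have habs := abs_im h σ a bI
      rw [e₁, e₂, abs_of_pos (pos_iff.1 hw.1)] at habs
      exact habs
    · intro v₁ v₂ hv
      refine ⟨?_, ?_⟩
      · intro z hz
        obtain ⟨x, _, hx⟩ := (hw.2 z).1 hz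
        exact (hv.2 z).2 ⟨x, Submodule.mem_top, hx⟩
      · rw [lat_eq_map hw, lat_eq_map hv,
          AddSubgroup.relIndex_map_map_of_injective _ _ (emb_injective σ)]
        have htop : Submodule.toAddSubgroup (⊤ : Ideal (𝓞 F)) = ⊤ := by
          ext x
          simp
        rw [htop, AddSubgroup.relIndex_top_right, Ideal.absNorm_apply, Submodule.cardQuot_apply]
        rfl

end Pool.Agent.Lib.MP_7c08ba_nt.RZC
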