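import Mathlib
import Pool.Agent.Lib.MP_7c08ba_nt.RZ.StmtsC
import Pool.Agent.Lib.MP_7c08ba_nt.RZ.Reps
import Pool.Agent.Lib.MP_7c08ba_nt.RZ.Bas

set_option autoImplicit false

/-!
(N1) the class number of `ℚ(√-q)`, `q ≡ 7 mod 16` a prime, is odd.

`exists_dat` constructs the embedding, the character and the conjugation, i.e. the structure
`RZ.Dat` of the analytic part, from `FieldC`.
-/

namespace Pool.Agent.Lib.MP_7c08ba_nt.RZC

open NumberField
open scoped ComplexConjugate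

namespace ClassAux

variable {q : ℕ} {F : Type} [Field F] [NumberField F] {s : F}

/-- an embedding sending `s` to `i √q` -/
lemma exists_emb (h : FieldC q F s) : ∃ σ : F →+* ℂ, σ s = Complex.I * Real.sqrt q := by
  obtain ⟨σ⟩ : Nonempty (F →+* ℂ) := inferInstance
  have h1 : σ s ^ 2 = (Complex.I * Real.sqrt q) ^ 2 := by
    rw [← map_pow, h.2.2.2, map_neg, map_natCast, mul_pow, Complex.I_sq, ← Complex.ofReal_pow,
      Real.sq_sqrt (Nat.cast_nonneg q), Complex.ofReal_natCast]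
    ring
  rcases sq_eq_sq_iff_eq_or_eq_neg.1 h1 with h2 | h2
  · exact ⟨σ, h2⟩
  · refine ⟨(starRingEnd ℂ).comp σ, ?_⟩
    rw [RingHom.comp_apply, h2]
    simp

/-- the image of an embedding is stable under complex conjugation -/
lemma exists_conj (h : FieldC q F s) (σ : F →+* ℂ) (x : F) : ∃ y : F, σ y = conj (σ x) := by
  have hq0 : 0 < q := h.1.pos
  have hss : conj (σ s) = - σ s := by
    have h1 : σ s ^ 2 = (Complex.I * Real.sqrt q) ^ 2 := by
      rw [← map_pow, h.2.2.2, map_neg, map_natCast, mul_pow, Complex.I_sq, ← Complex.ofReal_pow,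
        Real.sq_sqrt (Nat.cast_nonneg q), Complex.ofReal_natCast]
      ring
    rcases sq_eq_sq_iff_eq_or_eq_neg.1 h1 with h2 | h2 <;> rw [h2] <;> simp
  obtain ⟨a, b, rfl⟩ := exists_coords hq0 h.2.2.1 h.2.2.2 x
  refine ⟨(a : F) - b * s, ?_⟩
  rw [map_sub, map_mul, map_add, map_mul, map_ratCast, map_ratCast, map_add, map_mul, hss,
    map_ratCast, map_ratCast]
  ring

/-- the conjugation of the field -/
lemma exists_cj (h : FieldC q F s) (σ : F →+* ℂ) : ∃ c : F ≃+* F, ∀ x, σ (c x) = conj (σ x) := by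
  choose c hc using exists_conj h σ
  refine ⟨⟨⟨c, c, ?_, ?_⟩, ?_, ?_⟩, hc⟩
  · intro x; apply σ.injective; rw [hc, hc, Complex.conj_conj]
  · intro x; apply σ.injective; rw [hc, hc, Complex.conj_conj]
  · intro x y; apply σ.injective; simp only [hc, map_mul]
  · intro x y; apply σ.injective; simp only [hc, map_add]

/-- the quadratic character -/
lemma exists_chi (hq : q.Prime) : ∃ χ : DirichletCharacter ℂ q, ∀ n : ℤ, χ n = (jacobiSym n q : ℂ) := by
  have : Fact q.Prime := ⟨hq⟩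
  refine ⟨(quadraticChar (ZMod q)).ringHomComp (Int.castRingHom ℂ), fun n => ?_⟩
  rw [MulChar.ringHomComp_apply, ← jacobiSym.legendreSym.to_jacobiSym, legendreSym]
  rfl

/-- the data of the analytic part -/
lemma exists_dat (h : FieldC q F s) : ∃ (s' : 𝓞 F) (σ : F →+* ℂ) (χ : DirichletCharacter ℂ q)
    (cj : 𝓞 F ≃+* 𝓞 F), (s' : F) = s ∧ RZ.Dat q s' σ χ cj := by
  obtain ⟨σ, hσ⟩ := exists_emb h
  obtain ⟨c, hc⟩ := exists_cj h σ
  obtain ⟨χ, hχ⟩ := exists_chi h.1
  refine ⟨⟨s, isIntegral_s h.2.2.2⟩, σ, χ, RingOfIntegers.mapRingEquiv c, rfl, ?_⟩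
  refine ⟨h.1, h.2.1, h.2.2.1, ?_, hσ, hχ, ?_⟩
  · apply RingOfIntegers.ext
    change algebraMap (𝓞 F) F _ = algebraMap (𝓞 F) F _
    rw [map_pow, map_neg, map_natCast]
    exact h.2.2.2
  · intro x
    rw [RingOfIntegers.mapRingEquiv_apply]
    exact hc x

end ClassAux

open RZ.RepsAux in
/-- Module N1. -/
theorem stClass : StClass := by
  intro q F _ _ s h
  obtain ⟨s', σ, χ, cj, -, D⟩ := ClassAux.exists_dat h
  obtain ⟨b1, b2, b3, b4, b5, b6, b7, b8, b9, b10, b11⟩ := RZ.stBas q F _ _ s' σ χ cj D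
  have H : Ar q s' cj := ⟨by have := D.mod; omega, D.sq, b1, b2, b3, b4, b5, b7, b9⟩
  rw [← Nat.card_eq_fintype_card]
  exact H.odd

end Pool.Agent.Lib.MP_7c08ba_nt.RZC
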