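import Pool.Agent.Lib.MP_7c08ba_nt.RZ.Basic

set_option autoImplicit false

/-! (X) the cycle lemma. -/

namespace Pool.Agent.Lib.MP_7c08ba_nt.RZC

namespace Cyc

open Finset

variable {A : ValuationSubring ℂ}

theorem sum_nonunits {ι : Type*} (s : Finset ι) (f : ι → ℂ) (h : ∀ i ∈ s, f i ∈ A.nonunits) :
    ∑ i ∈ s, f i ∈ A.nonunits :=
  Finset.sum_induction f (fun x => x ∈ A.nonunits) (fun _ _ => nonunits_add) zero_nonunits h

theorem prod_sub_one {ι : Type*} (s : Finset ι) (f : ι → ℂ) (h : ∀ i ∈ s, f i - 1 ∈ A.nonunits) :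
    ∏ i ∈ s, f i - 1 ∈ A.nonunits :=
  Finset.prod_induction f (fun x => x - 1 ∈ A.nonunits) (fun _ _ => mul_sub_one)
    (by simp) h

theorem prod_expand {ι : Type*} [DecidableEq ι] (s : Finset ι) (y : ι → ℂ) (c : ℂ) (hc : c ∈ A)
    (h : ∀ i ∈ s, y i ∈ A) :
    ∃ z ∈ A, ∏ i ∈ s, (1 + c * y i) = 1 + c * ∑ i ∈ s, y i + c ^ 2 * z := by
  induction s using Finset.induction_on with
  | empty => exact ⟨0, A.zero_mem, by simp⟩
  | insert a s ha ih =>
    obtain ⟨z, hz, h1⟩ := ih fun i hi => h i (mem_insert_of_mem hi)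
    have hya := h a (mem_insert_self a s)
    have hS : ∑ i ∈ s, y i ∈ A := A.toSubring.sum_mem fun i hi => h i (mem_insert_of_mem hi)
    refine ⟨z + y a * ∑ i ∈ s, y i + c * y a * z, ?_, ?_⟩
    · exact A.add_mem _ _ (A.add_mem _ _ hz (A.mul_mem _ _ hya hS))
        (A.mul_mem _ _ (A.mul_mem _ _ hc hya) hz)
    · rw [prod_insert ha, sum_insert ha, h1]
      ring

theorem sq_sum (hA : Above2 A) {ι : Type*} [DecidableEq ι] (s : Finset ι) (y : ι → ℂ)
    (h : ∀ i ∈ s, y i ∈ A) :
    ∑ i ∈ s, y i ^ 2 - (∑ i ∈ s, y i) ^ 2 ∈ A.nonunits := by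
  induction s using Finset.induction_on with
  | empty => simp
  | insert a s ha ih =>
    have h1 := ih fun i hi => h i (mem_insert_of_mem hi)
    have hya := h a (mem_insert_self a s)
    have hS : ∑ i ∈ s, y i ∈ A := A.toSubring.sum_mem fun i hi => h i (mem_insert_of_mem hi)
    have h2 : (2 : ℂ) * (y a * ∑ i ∈ s, y i) ∈ A.nonunits :=
      nonunits_mul_right hA (A.mul_mem _ _ hya hS)
    rw [sum_insert ha, sum_insert ha]
    have := nonunits_sub h1 h2
    convert this using 1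
    ring

theorem shift {m : ℕ} {X : ℕ → ℂ} (g : ℂ → ℂ) (hX : X m = X 0) (hg : g (X 0) ≠ 0) :
    ∏ i ∈ range m, g (X (i + 1)) = ∏ i ∈ range m, g (X i) := by
  have h1 := prod_range_succ (fun i => g (X i)) m
  have h2 := prod_range_succ' (fun i => g (X i)) m
  rw [h1, hX] at h2
  exact (mul_right_cancel₀ hg h2).symm

theorem step_mem {x x' : ℂ} (h : x' ^ 2 = x * (x + 48) * x' + 4096 * x) (hx : x ∈ A) :
    x' ∈ A := by
  have h48 : (48 : ℂ) ∈ A := by exact_mod_cast nat_mem (A := A) 48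
  have h4096 : (4096 : ℂ) ∈ A := by exact_mod_cast nat_mem (A := A) 4096
  by_contra h'
  have hi := nonunits_mem (not_mem_inv_nonunits h')
  have h0 : x' ≠ 0 := by
    rintro rfl
    exact h' A.zero_mem
  have h1 : x' = x * (x + 48) + 4096 * x * x'⁻¹ := by
    field_simp
    linear_combination h
  apply h'
  rw [h1]
  exact A.add_mem _ _ (A.mul_mem _ _ hx (A.add_mem _ _ hx h48))
    (A.mul_mem _ _ (A.mul_mem _ _ h4096 hx) hi)

theorem all_mem {m : ℕ} (hm : 0 < m) {X : ℕ → ℂ} {u : ℂ} (hX0 : X m = X 0)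
    (hrel : ∀ i < m, X (i + 1) ^ 2 = X i * (X i + 48) * X (i + 1) + 4096 * X i)
    (hprod : ∏ i ∈ range m, X i = u ^ 12) (hu0 : u ≠ 0) (hu : u ∈ A) : ∀ i ≤ m, X i ∈ A := by
  by_cases h : ∃ i < m, X i ∈ A
  · obtain ⟨i, him, hi⟩ := h
    have h1 : ∀ j, i ≤ j → j ≤ m → X j ∈ A := by
      intro j hij
      induction j, hij using Nat.le_induction with
      | base => exact fun _ => hi
      | succ j _ ih => exact fun hj => step_mem (hrel j (by omega)) (ih (by omega))
    have h2 : X 0 ∈ A := hX0 ▸ h1 m him.le le_rfl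
    intro j
    induction j with
    | zero => exact fun _ => h2
    | succ j ih => exact fun hj => step_mem (hrel j (by omega)) (ih (by omega))
  · push Not at h
    exfalso
    have h1 : ∏ i ∈ range m, (X i)⁻¹ ∈ A.nonunits := by
      refine Finset.prod_induction_nonempty (fun i => (X i)⁻¹) (fun x => x ∈ A.nonunits)
        (fun a b ha hb => nonunits_mul_left (nonunits_mem ha) hb) ⟨0, mem_range.2 hm⟩ ?_
      intro i hi
      exact not_mem_inv_nonunits (h i (mem_range.1 hi))
    rw [prod_inv_distrib, hprod] at h1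
    have h2 := nonunits_mul_left (A.toSubring.pow_mem hu 12) h1
    rw [mul_inv_cancel₀ (pow_ne_zero _ hu0)] at h2
    exact one_not_nonunits h2

theorem inv_mem {m : ℕ} {X : ℕ → ℂ} {u : ℂ} (hX : ∀ i, X i ≠ 0)
    (hprod : ∏ i ∈ range m, X i = u ^ 12) (hui : u⁻¹ ∈ A)
    (h : ∀ i ≤ m, X i ∈ A) {i : ℕ} (hi : i < m) : (X i)⁻¹ ∈ A := by
  have h1 : (X i)⁻¹ = (∏ j ∈ (range m).erase i, X j) * u⁻¹ ^ 12 := by
    rw [inv_pow, ← hprod, ← mul_prod_erase (range m) X (mem_range.2 hi), mul_inv]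
    have : ∏ j ∈ (range m).erase i, X j ≠ 0 := prod_ne_zero_iff.2 fun j _ => hX j
    field_simp
  rw [h1]
  refine A.mul_mem _ _ (A.toSubring.prod_mem fun j hj => h j ?_) (A.toSubring.pow_mem hui 12)
  exact (mem_range.1 (mem_of_mem_erase hj)).le

/-- `1 + c y` for `c` in the maximal ideal -/
theorem one_add {c y : ℂ} (hc : c ∈ A.nonunits) (hy : y ∈ A) : 1 + c * y - 1 ∈ A.nonunits := by
  rw [add_sub_cancel_left]
  exact nonunits_mul_right hc hy

end Cyc

open Finset Cyc in
theorem stCycle : StCycle := by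
  intro A hA m hm X u hX hX0 hrel hprod hu hui hu4
  have hu0 : u ≠ 0 := by
    rintro rfl
    rw [zero_pow (by norm_num)] at hprod
    exact prod_ne_zero_iff.2 (fun i _ => hX i) hprod
  have hmem := all_mem hm hX0 hrel hprod hu0 hu
  have hinv : ∀ i ≤ m, (X i)⁻¹ ∈ A := by
    intro i hi
    rcases hi.lt_or_eq with hi | rfl
    · exact inv_mem hX hprod hui hmem hi
    · rw [hX0]
      exact inv_mem hX hprod hui hmem hm
  refine ⟨fun i hi => ⟨hmem i hi, hinv i hi⟩, ?_⟩
  have h16 : (16 : ℂ) ∈ A.nonunits := by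
    have := even_nonunits hA (n := 16) (by decide)
    exact_mod_cast this
  have h256 : (256 : ℂ) ∈ A.nonunits := by
    have := even_nonunits hA (n := 256) (by decide)
    exact_mod_cast this
  have h240 : (240 : ℂ) ∈ A.nonunits := by
    have := even_nonunits hA (n := 240) (by decide)
    exact_mod_cast this
  -- the factors
  set y : ℕ → ℂ := fun i => (X i)⁻¹ with hy
  have hf16 : ∀ i, X i + 16 = X i * (1 + 16 * y i) := by
    intro i
    have := hX i
    rw [hy]
    field_simp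
  have hf256 : ∀ i, X i + 256 = X i * (1 + 256 * y i) := by
    intro i
    have := hX i
    rw [hy]
    field_simp
  have hu16 : ∀ i ≤ m, 1 + 16 * y i - 1 ∈ A.nonunits := fun i hi => one_add h16 (hinv i hi)
  have hu256 : ∀ i ≤ m, 1 + 256 * y i - 1 ∈ A.nonunits := fun i hi => one_add h256 (hinv i hi)
  have hn256 : ∀ i ≤ m, X i + 256 ≠ 0 := by
    intro i hi
    rw [hf256]
    exact mul_ne_zero (hX i) (unit_of_sub_one (hu256 i hi)).2.2.1
  -- the product relation
  have hstep : ∀ i < m, (X i + 16) ^ 3 * X (i + 1) ^ 2 = (X (i + 1) + 256) ^ 3 * X i := by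
    intro i hi
    linear_combination (4096 - X i * X (i + 1)) * hrel i hi
  have hP : (∏ i ∈ range m, (X i + 16)) ^ 3 * (u ^ 12) ^ 2 =
      (∏ i ∈ range m, (X i + 256)) ^ 3 * u ^ 12 := by
    have h1 : ∏ i ∈ range m, ((X i + 16) ^ 3 * X (i + 1) ^ 2) =
        ∏ i ∈ range m, ((X (i + 1) + 256) ^ 3 * X i) :=
      prod_congr rfl fun i hi => hstep i (mem_range.1 hi)
    rw [prod_mul_distrib, prod_mul_distrib, prod_pow, prod_pow, prod_pow, hprod,
      shift (fun x => x) hX0 (hX 0), shift (fun x => x + 256) hX0 (hn256 0 (Nat.zero_le m)),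
      hprod] at h1
    exact h1
  set P16 := ∏ i ∈ range m, (X i + 16) with hP16
  set P256 := ∏ i ∈ range m, (X i + 256) with hP256
  have hP0 : P256 ≠ 0 := prod_ne_zero_iff.2 fun i hi => hn256 i (mem_range.1 hi).le
  have hP' : P16 ^ 3 * u ^ 12 = P256 ^ 3 := by
    apply mul_right_cancel₀ (pow_ne_zero 12 hu0)
    linear_combination hP
  -- `u ^ 4`
  obtain ⟨a, ha, hau⟩ : ∃ a ∈ A, u ^ 4 = 17 + 32 * a :=
    ⟨(u ^ 4 - 17) / 32, hu4, by field_simp; ring⟩
  have hu41 : u ^ 4 - 1 ∈ A.nonunits := by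
    rw [hau]
    have := nonunits_mul_right h16 (A.add_mem _ _ A.one_mem (A.mul_mem _ _ (nonunits_mem hA) ha))
    convert this using 1
    ring
  -- the cube root of unity
  set v := u ^ 4 * (P16 / P256) with hv
  have hv3 : v ^ 3 = 1 := by
    rw [hv]
    field_simp
    linear_combination hP'
  have hv1 : v - 1 ∈ A.nonunits := by
    refine mul_sub_one hu41 ?_
    rw [hP16, hP256, ← prod_div_distrib]
    refine prod_sub_one _ _ fun i hi => ?_
    have hi' := (mem_range.1 hi).le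
    have h1 := hn256 i hi'
    have h2 : (X i + 256)⁻¹ ∈ A := by
      rw [hf256, mul_inv]
      exact A.mul_mem _ _ (hinv i hi') (unit_of_sub_one (hu256 i hi')).2.2.2
    have h3 := nonunits_neg (nonunits_mul_right h240 h2)
    convert h3 using 1
    field_simp
    ring
  have hv' : v = 1 := by
    have h1 : (v - 1) * (v ^ 2 + v + 1) = 0 := by linear_combination hv3
    rcases mul_eq_zero.1 h1 with h | h
    · linear_combination h
    · exfalso
      have h2 : v ^ 2 + v + 1 - 3 ∈ A.nonunits := by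
        have h4 := nonunits_add (nonunits_pow_sub_one hv1 2) hv1
        convert h4 using 1
        ring
      rw [h] at h2
      have h3 := nonunits_add h2 (nonunits_add hA hA)
      exact one_not_nonunits (by convert h3 using 1; norm_num)
  have hrel2 : u ^ 4 * P16 = P256 := by
    have h1 : u ^ 4 * (P16 / P256) = 1 := hv'
    field_simp at h1
    exact h1
  -- division by the product of the `X i`
  have hrel3 : u ^ 4 * ∏ i ∈ range m, (1 + 16 * y i) = ∏ i ∈ range m, (1 + 256 * y i) := by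
    have h1 : P16 = (∏ i ∈ range m, X i) * ∏ i ∈ range m, (1 + 16 * y i) := by
      rw [← prod_mul_distrib]
      exact prod_congr rfl fun i _ => hf16 i
    have h2 : P256 = (∏ i ∈ range m, X i) * ∏ i ∈ range m, (1 + 256 * y i) := by
      rw [← prod_mul_distrib]
      exact prod_congr rfl fun i _ => hf256 i
    have h3 : ∏ i ∈ range m, X i ≠ 0 := prod_ne_zero_iff.2 fun i _ => hX i
    rw [h1, h2] at hrel2
    apply mul_left_cancel₀ h3
    linear_combination hrel2
  have hyA : ∀ i ∈ range m, y i ∈ A := fun i hi => hinv i (mem_range.1 hi).le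
  set S := ∑ i ∈ range m, y i with hS
  have hSA : S ∈ A := A.toSubring.sum_mem hyA
  obtain ⟨z, hz, h1⟩ := prod_expand (range m) y 16 (nonunits_mem h16) hyA
  obtain ⟨z', hz', h2⟩ := prod_expand (range m) y 256 (nonunits_mem h256) hyA
  rw [h1, h2, ← hS] at hrel3
  have hSu : S * u ^ 4 + 1 ∈ A.nonunits := by
    have h3 : S * u ^ 4 + 1 = 16 * (S + 256 * z' - u ^ 4 * z) - 2 * a := by
      have h4 : (16 : ℂ) * (S * u ^ 4 + 1) = 16 * (16 * (S + 256 * z' - u ^ 4 * z) - 2 * a) := by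
        linear_combination hrel3 - hau
      exact mul_left_cancel₀ (by norm_num) h4
    rw [h3]
    refine nonunits_sub (nonunits_mul_right h16 (A.toSubring.sub_mem (A.add_mem _ _ hSA
      (A.mul_mem _ _ (nonunits_mem h256) hz')) (A.mul_mem _ _ (A.toSubring.pow_mem hu 4) hz)))
      (nonunits_mul_right hA ha)
  have hS1 : S - 1 ∈ A.nonunits := by
    have h3 := nonunits_sub (nonunits_sub hSu (nonunits_mul_left hSA hu41)) hA
    convert h3 using 1
    ring
  -- the sum
  have hterm : ∀ i ∈ range m, X i / (X i + 16) ^ 3 - y i ^ 2 ∈ A.nonunits := by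
    intro i hi
    have hi' := (mem_range.1 hi).le
    have hu1 := unit_of_sub_one (hu16 i hi')
    have h3 := inv_sub_one (nonunits_pow_sub_one (hu16 i hi') 3)
    have h4 := nonunits_mul_left (A.toSubring.pow_mem (hyA i hi) 2) h3
    convert h4 using 1
    rw [hf16]
    have h5 : 1 + 16 * y i ≠ 0 := hu1.2.2.1
    have h6 : X i = (y i)⁻¹ := by rw [hy]; simp
    have h7 : y i ≠ 0 := inv_ne_zero (hX i)
    rw [h6]
    field_simp
    try ring
  have hsum : ∑ i ∈ range m, X i / (X i + 16) ^ 3 - 1 =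
      ∑ i ∈ range m, (X i / (X i + 16) ^ 3 - y i ^ 2) +
      ((∑ i ∈ range m, y i ^ 2 - S ^ 2) + (S ^ 2 - 1)) := by
    rw [sum_sub_distrib]
    ring
  rw [hsum]
  exact nonunits_add (sum_nonunits _ _ hterm)
    (nonunits_add (sq_sum hA _ _ hyA) (nonunits_pow_sub_one hS1 2))

end Pool.Agent.Lib.MP_7c08ba_nt.RZC
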