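import Pool.Agent.Lib.MP_7c08ba_nt.RZ.Basic

set_option autoImplicit false

/-! Part (C), module R9: the derivation is integral up to `12` and homogeneous. -/

namespace Pool.Agent.Lib.MP_7c08ba_nt.RZC

open MvPolynomial

noncomputable section

namespace DD

/-- the values on the variables are homogeneous -/
theorem hom_X (i : Fin 4) : (dd (X i)).IsWeightedHomogeneous wt (wt i + 2) := by
  have h : ∀ j : Fin 4, (X j : MvPolynomial (Fin 4) ℂ).IsWeightedHomogeneous wt (wt j) :=
    fun j => isWeightedHomogeneous_X ℂ wt j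
  rw [dd, mkDerivation_X]
  fin_cases i
  · exact (((h 0).pow 2).sub (h 1)).C_mul _
  · exact (((h 0).mul (h 1)).sub (h 2)).C_mul _
  · exact (((h 0).mul (h 2)).sub ((h 1).pow 2)).C_mul _
  · exact (h 0).mul (h 3)

theorem hom_dd {k : ℕ} {G : MvPolynomial (Fin 4) ℂ} (hG : G.IsWeightedHomogeneous wt k) :
    (dd G).IsWeightedHomogeneous wt (k + 2) := by
  classical
  rw [G.as_sum, map_sum]
  refine IsWeightedHomogeneous.sum _ _ _ fun m hm => ?_
  have hw : Finsupp.weight wt m = k := hG (mem_support_iff.mp hm)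
  rw [dd, mkDerivation_monomial, smul_eq_C_mul, Finsupp.sum]
  refine IsWeightedHomogeneous.C_mul (IsWeightedHomogeneous.sum _ _ _ fun i hi => ?_) _
  have hi0 : m i ≠ 0 := Finsupp.mem_support_iff.mp hi
  have h1 := hom_X i
  rw [dd, mkDerivation_X] at h1
  rw [smul_eq_mul]
  have h2 : (monomial (m - Finsupp.single i 1) ((m i : ℕ) : ℂ)).IsWeightedHomogeneous wt
      (Finsupp.weight wt (m - Finsupp.single i 1)) := isWeightedHomogeneous_monomial _ _ _ rfl
  have h3 := h2.mul h1
  have h4 : Finsupp.weight wt (m - Finsupp.single i 1) + wt i = Finsupp.weight wt m :=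
    Finsupp.weight_sub_single_add hi0
  rwa [← add_assoc, h4, hw] at h3

/-- twelve times the derivation, over `A` -/
def dA (A : ValuationSubring ℂ) : Derivation A (MvPolynomial (Fin 4) A) (MvPolynomial (Fin 4) A) :=
  mkDerivation A ![X 0 ^ 2 - X 1, 4 * (X 0 * X 1 - X 2), 6 * (X 0 * X 2 - X 1 ^ 2),
    12 * (X 0 * X 3)]

theorem map_dA (A : ValuationSubring ℂ) (G : MvPolynomial (Fin 4) A) :
    map A.subtype (dA A G) = 12 * dd (map A.subtype G) := by
  have h12 : (12 : MvPolynomial (Fin 4) ℂ) = C 12 := (map_ofNat C 12).symm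
  have h4 : (4 : MvPolynomial (Fin 4) ℂ) = C 4 := (map_ofNat C 4).symm
  have h6 : (6 : MvPolynomial (Fin 4) ℂ) = C 6 := (map_ofNat C 6).symm
  have hX : ∀ i : Fin 4, map A.subtype (dA A (X i)) = 12 * dd (X i) := by
    intro i
    rw [dA, dd, mkDerivation_X, mkDerivation_X]
    fin_cases i
    · simp only [Fin.zero_eta, Matrix.cons_val_zero, map_sub, map_pow, map_X]
      rw [h12, ← mul_assoc, ← C_mul]
      norm_num
    · simp only [Fin.mk_one, Matrix.cons_val_one, Matrix.cons_val_zero, map_sub, map_mul, map_X,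
        map_ofNat]
      rw [h12, h4, ← mul_assoc, ← C_mul]
      norm_num
    · simp only [Fin.reduceFinMk, Matrix.cons_val, map_sub, map_mul, map_pow, map_X, map_ofNat]
      rw [h12, h6, ← mul_assoc, ← C_mul]
      norm_num
    · simp only [Fin.reduceFinMk, Matrix.cons_val, map_mul, map_X, map_ofNat]
  induction G using MvPolynomial.induction_on with
  | C a =>
    have e1 : dA A (C a) = 0 := by
      rw [← MvPolynomial.algebraMap_eq]
      exact Derivation.map_algebraMap _ _
    have e2 : dd (C (A.subtype a)) = 0 := by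
      rw [← MvPolynomial.algebraMap_eq]
      exact Derivation.map_algebraMap _ _
    rw [map_C, e1, e2, map_zero, mul_zero]
  | add p q hp hq =>
    rw [map_add, map_add, map_add, map_add, hp, hq, mul_add]
  | mul_X p i hp =>
    rw [Derivation.leibniz, smul_eq_mul, smul_eq_mul, RingHom.map_add, RingHom.map_mul,
      RingHom.map_mul, RingHom.map_mul, map_X, Derivation.leibniz, smul_eq_mul, smul_eq_mul, hp, hX]
    ring

theorem map_iter (A : ValuationSubring ℂ) (G : MvPolynomial (Fin 4) A) (r : ℕ) :
    map A.subtype ((dA A)^[r] G) = C (12 ^ r) * dd^[r] (map A.subtype G) := by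
  induction r with
  | zero => rw [Function.iterate_zero_apply, Function.iterate_zero_apply, pow_zero, C_1, one_mul]
  | succ r ih =>
    have h12 : (12 : MvPolynomial (Fin 4) ℂ) = C 12 := (map_ofNat C 12).symm
    rw [Function.iterate_succ_apply', Function.iterate_succ_apply', map_dA, ih,
      C_mul', Derivation.map_smul, ← C_mul', h12, ← mul_assoc, ← C_mul, pow_succ']

end DD

theorem stDD : StDD := by
  intro A k G hG hA r
  constructor
  · induction r with
    | zero => simpa using hG
    | succ r ih =>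
      rw [Function.iterate_succ_apply']
      exact DD.hom_dd ih
  · intro m
    obtain ⟨G', rfl⟩ : ∃ G' : MvPolynomial (Fin 4) A, map A.subtype G' = G := by
      have : G ∈ Set.range (map A.subtype : MvPolynomial (Fin 4) A →+* MvPolynomial (Fin 4) ℂ) := by
        rw [mem_range_map_iff_coeffs_subset]
        intro c hc
        rw [Finset.mem_coe, mem_coeffs_iff] at hc
        obtain ⟨n, -, rfl⟩ := hc
        exact ⟨⟨G.coeff n, hA n⟩, rfl⟩
      exact this
    have h := congrArg (coeff m) (DD.map_iter A G' r)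
    rw [coeff_map, coeff_C_mul] at h
    rw [← h]
    exact (coeff m ((DD.dA A)^[r] G')).2

end

end Pool.Agent.Lib.MP_7c08ba_nt.RZC
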