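import Pool.Agent.Lib.MP_7c08ba_nt.RZ.Basic

set_option autoImplicit false

/-! (G5): `Δ` is an eigenform, `τ(n)` is even for even `n`, and every normalised eigenform of
level one is congruent to `Δ` modulo the maximal ideal of a valuation ring above 2. -/

namespace Pool.Agent.Lib.MP_7c08ba_nt.RZC

open UpperHalfPlane ModularForm EisensteinSeries MatrixGroups NumberField
open scoped Real Manifold ComplexConjugate

noncomputable section

namespace DeltaAux

/-! ### coefficients of `Q4`, `R6`, `D12` -/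

theorem Q4c (n : ℕ) : Q4.coeff n = (if n = 0 then 1 else 0) +
    240 * (if n = 0 then 0 else (ArithmeticFunction.sigma 3 n : ℤ)) := by
  have e : (240 : PowerSeries ℤ) = PowerSeries.C 240 := rfl
  rw [Q4, map_add, PowerSeries.coeff_one, e, PowerSeries.coeff_C_mul, sg, PowerSeries.coeff_mk]

theorem R6c (n : ℕ) : R6.coeff n = (if n = 0 then 1 else 0) -
    504 * (if n = 0 then 0 else (ArithmeticFunction.sigma 5 n : ℤ)) := by
  have e : (504 : PowerSeries ℤ) = PowerSeries.C 504 := rfl
  rw [R6, map_sub, PowerSeries.coeff_one, e, PowerSeries.coeff_C_mul, sg, PowerSeries.coeff_mk]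

theorem sig12 : (ArithmeticFunction.sigma 3 1 : ℕ) = 1 ∧
    (ArithmeticFunction.sigma 3 2 : ℕ) = 9 ∧ (ArithmeticFunction.sigma 5 1 : ℕ) = 1 ∧
    (ArithmeticFunction.sigma 5 2 : ℕ) = 33 := by
  have h2 : Nat.divisors 2 = {1, 2} := by decide
  refine ⟨?_, ?_, ?_, ?_⟩ <;> simp [ArithmeticFunction.sigma_apply, h2]

theorem Q4_coeff : Q4.coeff 0 = 1 ∧ Q4.coeff 1 = 240 ∧ Q4.coeff 2 = 2160 := by
  obtain ⟨h1, h2, -, -⟩ := sig12
  refine ⟨?_, ?_, ?_⟩ <;> rw [Q4c] <;> simp [h1, h2]

theorem R6_coeff : R6.coeff 0 = 1 ∧ R6.coeff 1 = -504 ∧ R6.coeff 2 = -16632 := by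
  obtain ⟨-, -, h1, h2⟩ := sig12
  refine ⟨?_, ?_, ?_⟩ <;> rw [R6c] <;> simp [h1, h2]

theorem D12_two (h4 : StEis) : D12.coeff 2 = -24 := by
  obtain ⟨h, -⟩ := h4
  have e : (1728 : PowerSeries ℤ) = PowerSeries.C 1728 := rfl
  have h2 := congrArg (PowerSeries.coeff 2) h
  rw [e, PowerSeries.coeff_C_mul] at h2
  obtain ⟨q0, q1, q2⟩ := Q4_coeff
  obtain ⟨r0, r1, r2⟩ := R6_coeff
  have a : (Finset.HasAntidiagonal.antidiagonal 2 : Finset (ℕ × ℕ)) =
    {(0, 2), (1, 1), (2, 0)} := by decide
  have a1 : (Finset.HasAntidiagonal.antidiagonal 1 : Finset (ℕ × ℕ)) = {(0, 1), (1, 0)} := by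
    decide
  have a0 : (Finset.HasAntidiagonal.antidiagonal 0 : Finset (ℕ × ℕ)) = {(0, 0)} := by
    decide
  have hq2 : (Q4 ^ 2).coeff 2 = 61920 := by
    rw [pow_two, PowerSeries.coeff_mul, a]
    simp [q0, q1, q2]
  have hq1 : (Q4 ^ 2).coeff 1 = 480 := by
    rw [pow_two, PowerSeries.coeff_mul, a1]
    simp [q0, q1]
  have hq0 : (Q4 ^ 2).coeff 0 = 1 := by
    rw [pow_two, PowerSeries.coeff_mul, a0]
    simp [q0]
  have hq : (Q4 ^ 3).coeff 2 = 179280 := by
    rw [pow_succ, PowerSeries.coeff_mul, a]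
    simp [q0, q1, q2, hq0, hq1, hq2]
  have hr : (R6 ^ 2).coeff 2 = 220752 := by
    rw [pow_two, PowerSeries.coeff_mul, a]
    simp [r0, r1, r2]
  rw [map_sub, hq, hr] at h2
  linarith

/-! ### modulo 2 -/

/-- reduction modulo 2 -/
abbrev r2 : PowerSeries ℤ →+* PowerSeries (ZMod 2) := PowerSeries.map (Int.castRingHom (ZMod 2))

theorem r2_Q4 : r2 Q4 = 1 := by
  have e : (240 : PowerSeries ℤ) = PowerSeries.C 240 := rfl
  have e2 : ((Int.castRingHom (ZMod 2)) 240) = 0 := by decide
  rw [Q4, map_add, map_one, map_mul, e]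
  show 1 + PowerSeries.map (Int.castRingHom (ZMod 2)) (PowerSeries.C 240) * _ = 1
  rw [PowerSeries.map_C, e2, map_zero, zero_mul, add_zero]

theorem r2_R6 : r2 R6 = 1 := by
  have e : (504 : PowerSeries ℤ) = PowerSeries.C 504 := rfl
  have e2 : ((Int.castRingHom (ZMod 2)) 504) = 0 := by decide
  rw [R6, map_sub, map_one, map_mul, e]
  show 1 - PowerSeries.map (Int.castRingHom (ZMod 2)) (PowerSeries.C 504) * _ = 1
  rw [PowerSeries.map_C, e2, map_zero, zero_mul, sub_zero]

theorem r2_eb (k : ℕ) : r2 (eb k Q4 R6) = 1 := by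
  unfold eb
  split_ifs <;> simp [r2_Q4, r2_R6]

theorem r2_coeff (g : PowerSeries ℤ) (n : ℕ) : (r2 g).coeff n = (g.coeff n : ZMod 2) := by
  simp

theorem two_dvd_iff (g : PowerSeries ℤ) (n : ℕ) : (2 : ℤ) ∣ g.coeff n ↔ (r2 g).coeff n = 0 := by
  rw [r2_coeff]
  exact (ZMod.intCast_zmod_eq_zero_iff_dvd (g.coeff n) 2).symm

/-- a series supported on odd exponents: the `j`-th power is supported on exponents congruent
to `j` modulo 2 -/
theorem supp {g : PowerSeries (ZMod 2)} (hg : ∀ n, Even n → g.coeff n = 0) (j : ℕ) :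
    ∀ n, Odd (n + j) → (g ^ j).coeff n = 0 := by
  induction j with
  | zero =>
    intro n hn
    have : n ≠ 0 := by rintro rfl; simp at hn
    simp [PowerSeries.coeff_one, this]
  | succ j ih =>
    intro n hn
    rw [pow_succ, PowerSeries.coeff_mul]
    refine Finset.sum_eq_zero fun x hx => ?_
    rw [Finset.HasAntidiagonal.mem_antidiagonal] at hx
    rcases Nat.even_or_odd x.2 with h | h
    · rw [hg _ h, mul_zero]
    · rw [ih _ (by
        rw [← hx] at hn
        rcases hn with ⟨a, ha⟩
        rcases h with ⟨b, hb⟩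
        exact ⟨a - b - 1, by omega⟩), zero_mul]

/-- Frobenius -/
theorem coeff_sq (g : PowerSeries (ZMod 2)) (n : ℕ) : (g * g).coeff (2 * n) = g.coeff n := by
  rw [PowerSeries.coeff_mul]
  have hmem : (n, n) ∈ Finset.HasAntidiagonal.antidiagonal (2 * n) := by
    rw [Finset.HasAntidiagonal.mem_antidiagonal]; omega
  rw [← Finset.add_sum_erase _ _ hmem]
  have h0 : ∑ x ∈ (Finset.HasAntidiagonal.antidiagonal (2 * n)).erase (n, n),
      g.coeff x.1 * g.coeff x.2 = 0 := by
    refine Finset.sum_involution (fun x _ => (x.2, x.1)) ?_ ?_ ?_ ?_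
    · intro x _
      simp only
      rw [mul_comm (g.coeff x.2)]
      exact CharTwo.add_self_eq_zero _
    · intro x hx _ h
      rw [Finset.mem_erase, Finset.HasAntidiagonal.mem_antidiagonal] at hx
      apply hx.1
      have h1 : x.2 = x.1 := congrArg Prod.fst h
      ext
      · simp only; omega
      · simp only; omega
    · intro x hx
      rw [Finset.mem_erase, Finset.HasAntidiagonal.mem_antidiagonal] at hx ⊢
      refine ⟨fun h => hx.1 ?_, by simp only; omega⟩
      have h1 : x.2 = n := congrArg Prod.fst h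
      have h2 : x.1 = n := congrArg Prod.snd h
      ext
      · exact h2
      · exact h1
    · intro x _
      rfl
  rw [h0, add_zero]
  simp only
  generalize g.coeff n = a
  revert a
  decide

/-! ### `Δ` is an eigenform -/

theorem cf_disc (h4 : StEis) (n : ℕ) : cf ModularForm.discriminant n = (D12.coeff n : ℂ) := by
  obtain ⟨-, -, -, -, -, h⟩ := h4
  show (qExpansion 1 ModularForm.discriminant).coeff n = _
  rw [h]
  simp

/-- `Δ` as a modular form -/
theorem disc_form : ∃ f : ModularForm 𝒮ℒ ((12 : ℕ) : ℤ),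
    (f : ℍ → ℂ) = ModularForm.discriminant :=
  ⟨((CuspForm.discriminant : CuspForm 𝒮ℒ 12) : ModularForm 𝒮ℒ 12), rfl⟩

/-- `Δ` as a cusp form -/
theorem disc_cusp : ∃ f : CuspForm 𝒮ℒ ((12 : ℕ) : ℤ),
    (f : ℍ → ℂ) = ModularForm.discriminant :=
  ⟨(CuspForm.discriminant : CuspForm 𝒮ℒ 12), rfl⟩

theorem isEig_disc (h3 : StStruct) (h4 : StEis) (h5 : StHecke) :
    IsEig 12 (cf ModularForm.discriminant) := by
  refine ⟨?_, ?_⟩
  · rw [cf_disc h4, h4.2.2.1]; simp
  intro p n hp hn
  obtain ⟨f, hf⟩ := disc_form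
  obtain ⟨g, hg, -⟩ := h5 p hp 12 (by norm_num) f
  rw [hf] at hg
  obtain ⟨c, -, -, -, hc⟩ := h3 ⊤ 12 (by decide) g (fun _ => AddSubgroup.mem_top _)
  have hr : Finset.range (12 / 12 + 1) = {0, 1} := by decide
  rw [hr, Finset.sum_pair (by norm_num)] at hc
  simp only [eb] at hc
  norm_num at hc
  have d0 : cf ModularForm.discriminant 0 = 0 := by rw [cf_disc h4, h4.2.1]; simp
  have g0 : cf g 0 = 0 := by
    rw [hg 0]
    simp only [mul_zero, Nat.zero_div, dvd_zero, if_true, d0, add_zero]
  have hcoef : ∀ n, cf g n = c 0 * ((Q4 ^ 3).coeff n : ℂ) + c 1 * (D12.coeff n : ℂ) := by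
    intro n
    show (qExpansion 1 (g : ℍ → ℂ)).coeff n = _
    have e : toC Q4 ^ 3 = toC (Q4 ^ 3) := (map_pow (PowerSeries.map _) _ _).symm
    rw [hc, map_add, PowerSeries.coeff_C_mul, PowerSeries.coeff_C_mul, e,
      PowerSeries.coeff_map, PowerSeries.coeff_map]
    simp
  have q30 : (Q4 ^ 3).coeff 0 = 1 := by
    rw [PowerSeries.coeff_zero_eq_constantCoeff_apply, map_pow,
      ← PowerSeries.coeff_zero_eq_constantCoeff_apply, Q4_coeff.1]
    norm_num
  have c0 : c 0 = 0 := by
    have := hcoef 0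
    rw [g0, q30, h4.2.1] at this
    simpa using this.symm
  have c1 : c 1 = cf ModularForm.discriminant p := by
    have h := hcoef 1
    rw [c0, h4.2.2.1, hg 1, if_neg (by simpa using hp.one_lt.ne'), add_zero, mul_one] at h
    simpa using h.symm
  rw [← c1, cf_disc h4 n]
  have h := hcoef n
  rw [c0, zero_mul, zero_add, hg n] at h
  exact h.symm

theorem even_coeff (h4 : StEis) (he : IsEig 12 (cf ModularForm.discriminant)) :
    ∀ n : ℕ, Even n → (2 : ℤ) ∣ D12.coeff n := by
  intro n hn
  obtain ⟨m, rfl⟩ := hn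
  rw [← two_mul]
  rcases Nat.eq_zero_or_pos m with rfl | hm
  · rw [mul_zero, h4.2.1]; exact dvd_zero 2
  have h := he.2 2 m Nat.prime_two hm
  rw [cf_disc h4, cf_disc h4, cf_disc h4, cf_disc h4, D12_two h4] at h
  have h' : (-24 : ℤ) * D12.coeff m =
      D12.coeff (2 * m) + if 2 ∣ m then 2 ^ (12 - 1) * D12.coeff (m / 2) else 0 := by
    have : ((-24 : ℤ) * D12.coeff m : ℂ) =
      D12.coeff (2 * m) + if 2 ∣ m then (2 : ℂ) ^ (12 - 1) * D12.coeff (m / 2) else 0 := by
      exact_mod_cast h
    split_ifs at this ⊢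
    · exact_mod_cast this
    · exact_mod_cast this
  split_ifs at h' with hd
  · have h2 : D12.coeff (2 * m) = 2 * (-12 * D12.coeff m - 2 ^ 10 * D12.coeff (m / 2)) := by
      norm_num at h' ⊢
      linarith
    exact ⟨_, h2⟩
  · exact ⟨-12 * D12.coeff m, by linarith⟩

/-! ### combinatorics in the valuation ring -/

section comb
variable {A : ValuationSubring ℂ}

theorem nonunits_sum {ι : Type*} (s : Finset ι) (x : ι → ℂ) (h : ∀ i ∈ s, x i ∈ A.nonunits) :
    ∑ i ∈ s, x i ∈ A.nonunits := by
  classical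
  induction s using Finset.induction_on with
  | empty => simp [zero_nonunits]
  | insert a s ha ih =>
    rw [Finset.sum_insert ha]
    exact nonunits_add (h a (Finset.mem_insert_self a s))
      (ih fun i hi => h i (Finset.mem_insert_of_mem hi))

/-- triangular systems -/
theorem triang (m : ℕ) (b : ℕ → ℂ) (d : ℕ → ℕ → ℂ) (hd : ∀ i n, d i n ∈ A)
    (hlt : ∀ i n, n < i → d i n = 0) (hdiag : ∀ i, d i i = 1)
    (h : ∀ n, ∑ i ∈ Finset.range (m + 1), b i * d i n ∈ A.nonunits) :
    ∀ n ≤ m, b n ∈ A.nonunits := by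
  intro n
  induction n using Nat.strong_induction_on with
  | _ n ih =>
    intro hn
    have hs := h n
    have e : ∑ i ∈ Finset.range (m + 1), b i * d i n =
        ∑ i ∈ Finset.range (n + 1), b i * d i n := by
      symm
      refine Finset.sum_subset (by
        intro i hi
        rw [Finset.mem_range] at hi ⊢
        omega) ?_
      intro i _ hi
      rw [Finset.mem_range, not_lt] at hi
      rw [hlt i n (by omega), mul_zero]
    rw [e, Finset.sum_range_succ, hdiag, mul_one] at hs
    have h1 : ∑ i ∈ Finset.range n, b i * d i n ∈ A.nonunits :=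
      nonunits_sum _ _ fun i hi => by
        rw [Finset.mem_range] at hi
        exact nonunits_mul_right (ih i hi (by omega)) (hd i n)
    have := nonunits_sub hs h1
    simpa using this

/-- the eigenvalue at 2 is in the maximal ideal: abstract form -/
theorem lam (m : ℕ) (c : ℕ → ℂ) (hc : ∀ i, c i ∈ A) (hcm : ∀ i, m < i → c i = 0)
    (d : ℕ → ℕ → ℂ) (hd : ∀ i n, d i n ∈ A)
    (hlt : ∀ i n, n < i → d i n = 0) (hdiag : ∀ i, d i i = 1)
    (hev : ∀ i n, d (2 * i) (2 * n) - d i n ∈ A.nonunits)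
    (hodd : ∀ i n, d (2 * i + 1) (2 * n) ∈ A.nonunits)
    (a : ℕ → ℂ) (ha : ∀ n, a n - ∑ i ∈ Finset.range (m + 1), c i * d i n ∈ A.nonunits)
    (ha0 : a 0 = 0) (ha1 : a 1 = 1) (l : ℂ) (hl : l ∈ A)
    (hecke : ∀ n, l * a n - a (2 * n) ∈ A.nonunits) : l ∈ A.nonunits := by
  by_contra hl0
  -- the sum over even indices
  have hA : ∀ n, ∑ i ∈ Finset.range (m + 1), c i * d i (2 * n) -
      ∑ i ∈ Finset.range (m + 1), c (2 * i) * d i n ∈ A.nonunits := by
    intro n
    have e1 : ∑ i ∈ Finset.range (m + 1), c i * d i (2 * n) =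
        ∑ i ∈ Finset.range (2 * (m + 1)), c i * d i (2 * n) := by
      refine Finset.sum_subset (by
        intro i hi
        rw [Finset.mem_range] at hi ⊢
        omega) ?_
      intro i _ hi
      rw [Finset.mem_range, not_lt] at hi
      rw [hcm i (by omega), zero_mul]
    have e2 : ∀ M : ℕ, ∑ i ∈ Finset.range (2 * M), c i * d i (2 * n) =
        ∑ i ∈ Finset.range M, (c (2 * i) * d (2 * i) (2 * n) +
          c (2 * i + 1) * d (2 * i + 1) (2 * n)) := by
      intro M
      induction M with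
      | zero => simp
      | succ M ih =>
        rw [Finset.sum_range_succ, ← ih, mul_add, mul_one, Finset.sum_range_succ,
          Finset.sum_range_succ]
        ring
    rw [e1, e2, ← Finset.sum_sub_distrib]
    refine nonunits_sum _ _ fun i _ => ?_
    have h1 := nonunits_mul_left (hc (2 * i)) (hev i n)
    have h2 := nonunits_mul_left (hc (2 * i + 1)) (hodd i n)
    have := nonunits_add h1 h2
    convert this using 1
    ring
  have hB : ∀ i ≤ m, c (2 * i) - l * c i ∈ A.nonunits := by
    refine triang m (fun i => c (2 * i) - l * c i) d hd hlt hdiag ?_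
    intro n
    -- Σ (c (2i) - l c i) d i n = - [Σ c_i d_i(2n) - Σ c_{2i} d_i(n)] - [a(2n) - Σ c_i d_i(2n)]
    --   - [l a n - a (2n)] + l [a n - Σ c_i d_i(n)]
    have h1 := hA n
    have h2 := ha (2 * n)
    have h3 := hecke n
    have h4 := nonunits_mul_left hl (ha n)
    have := nonunits_sub (nonunits_sub (nonunits_sub h4 h3) h2) h1
    convert this using 1
    rw [Finset.sum_congr rfl (g := fun i => c (2 * i) * d i n - l * (c i * d i n))
      (fun i _ => by ring), Finset.sum_sub_distrib, ← Finset.mul_sum]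
    ring
  have hC : ∀ k, ∀ i, 1 ≤ i → m < i + k → c i ∈ A.nonunits := by
    intro k
    induction k with
    | zero =>
      intro i _ hi
      rw [hcm i (by omega)]
      exact zero_nonunits
    | succ k ih =>
      intro i h1 hi
      rcases lt_or_ge m i with h2 | h2
      · rw [hcm i h2]
        exact zero_nonunits
      have h3 := ih (2 * i) (by omega) (by omega)
      have h4 := nonunits_sub h3 (hB i h2)
      rw [sub_sub_cancel] at h4
      have hl1 : l ≠ 0 := by
        rintro rfl
        exact hl0 zero_nonunits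
      exact nonunits_of_mul_unit (inv_mem_of_not_nonunits hl hl0) hl1 h4
  have hD : c 0 ∈ A.nonunits := by
    have h1 := ha 0
    rw [ha0, zero_sub] at h1
    have h2 := nonunits_neg h1
    rw [neg_neg] at h2
    have e : ∑ i ∈ Finset.range (m + 1), c i * d i 0 = c 0 := by
      rw [Finset.sum_eq_single 0]
      · rw [hdiag, mul_one]
      · intro i _ hi
        rw [hlt i 0 (by omega), mul_zero]
      · intro h
        exact absurd (Finset.mem_range.2 (by omega)) h
    rwa [e] at h2
  have hE : ∀ i, c i ∈ A.nonunits := by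
    intro i
    rcases Nat.eq_zero_or_pos i with rfl | hi
    · exact hD
    · exact hC (m + 1) i hi (by omega)
  have h1 := ha 1
  rw [ha1] at h1
  have h2 : ∑ i ∈ Finset.range (m + 1), c i * d i 1 ∈ A.nonunits :=
    nonunits_sum _ _ fun i _ => nonunits_mul_right (hE i) (hd i 1)
  have := nonunits_add h1 h2
  rw [sub_add_cancel] at this
  exact one_not_nonunits this

end comb

/-! ### eigenforms -/

theorem toC_eb (k : ℕ) : eb k (toC Q4) (toC R6) = toC (eb k Q4 R6) := by
  unfold eb
  split_ifs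
  · exact (map_pow (PowerSeries.map _) _ _).symm
  · show _ = PowerSeries.map (Int.castRingHom ℂ) (Q4 ^ ((k - 6) / 4) * R6)
    rw [map_mul (PowerSeries.map _), map_pow (PowerSeries.map _)]

/-- congruence modulo 2 for the coefficients -/
theorem congr_two {g h : PowerSeries ℤ} {n m : ℕ} (e : (r2 g).coeff n = (r2 h).coeff m)
    {A : ValuationSubring ℂ} (hA : Above2 A) :
    (g.coeff n : ℂ) - (h.coeff m : ℂ) ∈ A.nonunits := by
  have h1 : (2 : ℤ) ∣ g.coeff n - h.coeff m := by
    rw [r2_coeff, r2_coeff] at e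
    have := (ZMod.intCast_zmod_eq_zero_iff_dvd (g.coeff n - h.coeff m) 2).1 (by
      rw [Int.cast_sub, e, sub_self])
    exact_mod_cast this
  have := even_nonunits hA (even_iff_two_dvd.2 h1)
  simpa using this

theorem even_weight {w : ℕ} (f : CuspForm 𝒮ℒ (w : ℤ)) (he : IsEig w (cf f)) : Even w := by
  by_contra hw
  rw [Nat.not_even_iff_odd] at hw
  have h0 : (f : ModularForm 𝒮ℒ (w : ℤ)) = 0 :=
    ModularForm.levelOne_odd_weight_eq_zero (by exact_mod_cast hw) _
  have h1 : (f : ℍ → ℂ) = 0 := by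
    have : ((f : ModularForm 𝒮ℒ (w : ℤ)) : ℍ → ℂ) = 0 := by rw [h0]; rfl
    exact this
  have h2 := he.1
  rw [h1] at h2
  have h3 : cf (0 : ℍ → ℂ) 1 = 0 := by
    show (qExpansion 1 (0 : ℍ → ℂ)).coeff 1 = 0
    rw [qExpansion_zero]; simp
  rw [h3] at h2
  exact zero_ne_one h2

theorem cf_zero {w : ℕ} (f : CuspForm 𝒮ℒ (w : ℤ)) : cf f 0 = 0 :=
  CuspFormClass.qExpansion_coeff_zero f one_pos one_mem_strictPeriods_SL

theorem two_pow_nonunits {A : ValuationSubring ℂ} (hA : Above2 A) {w : ℕ} (hw : 1 < w) :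
    (2 : ℂ) ^ (w - 1) ∈ A.nonunits := by
  obtain ⟨v, hv⟩ : ∃ v, w - 1 = v + 1 := ⟨w - 2, by omega⟩
  rw [hv, pow_succ]
  refine nonunits_mul_left (A.pow_mem ?_ v) hA
  exact nonunits_mem hA

theorem at_two (h2 : StInt) (h3 : StStruct) (h4 : StEis)
    (hpar : ∀ n : ℕ, Even n → (2 : ℤ) ∣ D12.coeff n) {A : ValuationSubring ℂ} (hA : Above2 A)
    {w : ℕ} (f : CuspForm 𝒮ℒ (w : ℤ)) (he : IsEig w (cf f)) :
    1 < w ∧ cf f 2 ∈ A.nonunits := by
  have hev := even_weight f he
  have hint := h2 A w f he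
  obtain ⟨c, hc, -, -, hq⟩ := h3 A.toSubring.toAddSubgroup w hev
    (f : ModularForm 𝒮ℒ (w : ℤ)) (fun n => hint n)
  have hcA : ∀ j, c j ∈ A := hc
  have hcoef : ∀ n, cf f n = ∑ j ∈ Finset.range (w / 12 + 1),
      c j * ((D12 ^ j * eb (w - 12 * j) Q4 R6).coeff n : ℂ) := by
    intro n
    show (qExpansion 1 ((f : ModularForm 𝒮ℒ (w : ℤ)) : ℍ → ℂ)).coeff n = _
    rw [hq, map_sum]
    refine Finset.sum_congr rfl fun j _ => ?_
    have e : toC D12 ^ j = toC (D12 ^ j) := (map_pow (PowerSeries.map _) _ _).symm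
    rw [toC_eb, e, mul_assoc, PowerSeries.coeff_C_mul, ← map_mul, PowerSeries.coeff_map]
    simp
  have hw : 1 < w := by
    by_contra hw
    have hw0 : w = 0 := by
      rcases hev with ⟨v, hv⟩
      omega
    have h1 := hcoef 1
    rw [he.1, hw0] at h1
    simp [eb, PowerSeries.coeff_one] at h1
  refine ⟨hw, ?_⟩
  have hsupp : ∀ n, Even n → (r2 D12).coeff n = 0 := fun n hn =>
    (two_dvd_iff D12 n).1 (hpar n hn)
  set m := w / 12 with hm
  refine lam (A := A) m (fun i => if i ≤ m then c i else 0) ?_ ?_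
    (fun i n => ((D12 ^ i).coeff n : ℂ)) ?_ ?_ ?_ ?_ ?_ (cf f) ?_ (cf_zero f) he.1 (cf f 2)
    (hint 2) ?_
  · intro i
    split_ifs
    · exact hcA i
    · exact A.zero_mem
  · intro i hi
    rw [if_neg (by omega)]
  · intro i n
    exact int_mem _
  · intro i n hn
    have : (D12 ^ i).coeff n = 0 := by
      have h0 : PowerSeries.X ∣ D12 := by
        rw [PowerSeries.X_dvd_iff, ← PowerSeries.coeff_zero_eq_constantCoeff_apply]
        exact h4.2.1
      exact PowerSeries.X_pow_dvd_iff.1 (pow_dvd_pow_of_dvd h0 i) n hn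
    rw [this]; simp
  · intro i
    have : (D12 ^ i).coeff i = 1 := by
      obtain ⟨u, hu⟩ : PowerSeries.X ∣ D12 := by
        rw [PowerSeries.X_dvd_iff, ← PowerSeries.coeff_zero_eq_constantCoeff_apply]
        exact h4.2.1
      have hu0 : PowerSeries.coeff 0 u = 1 := by
        have h1 := h4.2.2.1
        rw [hu, mul_comm, PowerSeries.coeff_succ_mul_X] at h1
        exact h1
      have e : (D12 ^ i).coeff i = (u ^ i).coeff 0 := by
        rw [hu, mul_pow, mul_comm]
        have := PowerSeries.coeff_mul_X_pow (u ^ i) i 0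
        rwa [zero_add] at this
      rw [e, PowerSeries.coeff_zero_eq_constantCoeff_apply, map_pow,
        ← PowerSeries.coeff_zero_eq_constantCoeff_apply, hu0, one_pow]
    rw [this]; simp
  · intro i n
    refine congr_two ?_ hA
    rw [map_pow r2, map_pow r2, two_mul i, pow_add, coeff_sq]
  · intro i n
    have h1 : (2 : ℤ) ∣ (D12 ^ (2 * i + 1)).coeff (2 * n) := by
      rw [two_dvd_iff, map_pow]
      exact supp hsupp _ _ ⟨n + i, by ring⟩
    exact even_nonunits hA (even_iff_two_dvd.2 h1)
  · intro n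
    rw [hcoef n, ← Finset.sum_sub_distrib]
    refine nonunits_sum _ _ fun i hi => ?_
    rw [Finset.mem_range] at hi
    rw [if_pos (by omega), ← mul_sub]
    refine nonunits_mul_left (hcA i) (congr_two ?_ hA)
    rw [map_mul, r2_eb, mul_one]
  · intro n
    rcases Nat.eq_zero_or_pos n with rfl | hn
    · rw [mul_zero, cf_zero f, mul_zero, sub_zero]
      exact zero_nonunits
    · rw [he.2 2 n Nat.prime_two hn, add_sub_cancel_left]
      split_ifs
      · exact nonunits_mul_right (by exact_mod_cast two_pow_nonunits hA hw) (hint _)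
      · exact zero_nonunits

end DeltaAux

open DeltaAux in
/-- (G5) -/
theorem stDelta (h1 : StOddZero) (h2 : StInt) (h3 : StStruct) (h4 : StEis) (h5 : StHecke) :
    StDelta := by
  have hE := isEig_disc h3 h4 h5
  have hpar := even_coeff h4 hE
  refine ⟨hpar, hE, ?_⟩
  intro A hA w f he
  obtain ⟨hw, hf2⟩ := at_two h2 h3 h4 hpar hA f he
  refine ⟨hf2, ?_⟩
  have hint := h2 A w f he
  intro n
  induction n using Nat.strong_induction_on with
  | _ n ih =>
    rcases Nat.eq_zero_or_pos n with rfl | hn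
    · rw [cf_zero f, h4.2.1]
      simp [zero_nonunits]
    rcases Nat.eq_or_lt_of_le (Nat.succ_le_of_lt hn) with h | hn1
    · have : n = 1 := h.symm
      rw [this, he.1, h4.2.2.1]
      simp [zero_nonunits]
    have hp : (Nat.minFac n).Prime := Nat.minFac_prime (by omega)
    set p := Nat.minFac n with hpdef
    obtain ⟨m, hm⟩ : p ∣ n := Nat.minFac_dvd n
    have hm0 : 0 < m := by
      rcases Nat.eq_zero_or_pos m with rfl | h
      · rw [mul_zero] at hm; omega
      · exact h
    have hf := he.2 p m hp hm0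
    rw [← hm] at hf
    by_cases hp2 : p = 2
    · rw [hp2] at hf hm
      have a1 : cf f n ∈ A.nonunits := by
        have e : cf f n = cf f 2 * cf f m -
            (if 2 ∣ m then ((2 : ℕ) : ℂ) ^ (w - 1) * cf f (m / 2) else 0) := by
          rw [hf]; ring
        rw [e]
        refine nonunits_sub (nonunits_mul_right hf2 (hint m)) ?_
        split_ifs
        · exact nonunits_mul_right (by exact_mod_cast two_pow_nonunits hA hw) (hint _)
        · exact zero_nonunits
      refine nonunits_sub a1 (even_nonunits hA (even_iff_two_dvd.2 (hpar n ?_)))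
      exact ⟨m, by omega⟩
    · obtain ⟨D, hD⟩ := disc_cusp
      have hED : IsEig 12 (cf D) := by rw [hD]; exact hE
      have hd := hE.2 p m hp hm0
      rw [← hm] at hd
      have z1 := h1 A hA w f he p hp hp2
      have z2 := h1 A hA 12 D hED p hp hp2
      rw [hD] at z2
      have hodd : Odd (p : ℤ) := by
        exact_mod_cast hp.odd_of_ne_two hp2
      have po : ((p : ℕ) : ℂ) - 1 ∈ A.nonunits := by
        have := odd_sub_one hA hodd
        exact_mod_cast this
      have dm : ∀ k, cf ModularForm.discriminant k ∈ A := fun k => by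
        rw [cf_disc h4]; exact int_mem _
      rw [← cf_disc h4 n]
      have e : cf f n - cf ModularForm.discriminant n = cf f p * cf f m -
          cf ModularForm.discriminant p * cf ModularForm.discriminant m -
          ((if p ∣ m then (p : ℂ) ^ (w - 1) * cf f (m / p) else 0) -
           (if p ∣ m then (p : ℂ) ^ (12 - 1) * cf ModularForm.discriminant (m / p) else 0)) := by
        rw [hf, hd]; ring
      rw [e]
      refine nonunits_sub (nonunits_sub (nonunits_mul_right z1 (hint m))
        (nonunits_mul_right z2 (dm m))) ?_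
      split_ifs with hdiv
      · have hlt : m / p < n := by
          have h1 : m / p ≤ m := Nat.div_le_self m p
          have h2 : m < n := by
            rw [hm]
            have := hp.two_le
            nlinarith
          omega
        have i1 := ih (m / p) hlt
        rw [← cf_disc h4] at i1
        have i2 := nonunits_mul_right (nonunits_pow_sub_one po (w - 1)) (hint (m / p))
        have i3 := nonunits_mul_right (nonunits_pow_sub_one po (12 - 1)) (dm (m / p))
        have := nonunits_add (nonunits_sub i2 i3) i1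
        convert this using 1
        ring
      · rw [sub_zero]
        exact zero_nonunits

end

end Pool.Agent.Lib.MP_7c08ba_nt.RZC
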