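import Pool.Agent.Lib.MP_7c08ba_nt.RZ.Basic

set_option autoImplicit false

/-! Part (C): (R8) `E₂^*` depends only on the lattice. -/

namespace Pool.Agent.Lib.MP_7c08ba_nt.RZC

open UpperHalfPlane ModularForm EisensteinSeries MatrixGroups NumberField
open scoped Real Manifold ComplexConjugate

noncomputable section

namespace E2LatAux

theorem area_pos {w₁ w₂ : ℂ} (h : Pos w₁ w₂) : 0 < (w₁ * conj w₂).im := by
  have h2 : w₁ * conj w₂ = (w₁ / w₂) * (Complex.normSq w₂ : ℂ) := by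
    have := h.ne
    rw [Complex.normSq_eq_conj_mul_self]
    field_simp
  rw [h2, Complex.im_mul_ofReal]
  exact mul_pos h (Complex.normSq_pos.2 h.ne)

theorem area_change (a b c d : ℤ) (w₁ w₂ : ℂ) :
    ((a * w₁ + b * w₂) * conj (c * w₁ + d * w₂)).im =
      ((a * d - b * c : ℤ) : ℝ) * (w₁ * conj w₂).im := by
  simp only [Complex.mul_im, Complex.add_re, Complex.add_im, Complex.conj_re, Complex.conj_im,
    Complex.mul_re, Complex.intCast_re, Complex.intCast_im]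
  push_cast
  ring

theorem exists_sl {w₁ w₂ v₁ v₂ : ℂ} (hw : Pos w₁ w₂) (hv : Pos v₁ v₂)
    (h : lat w₁ w₂ = lat v₁ v₂) :
    ∃ a b c d : ℤ, a * d - b * c = 1 ∧ v₁ = a * w₁ + b * w₂ ∧ v₂ = c * w₁ + d * w₂ := by
  have e1 : v₁ ∈ lat w₁ w₂ := h ▸ Submodule.subset_span (by simp)
  have e2 : v₂ ∈ lat w₁ w₂ := h ▸ Submodule.subset_span (by simp)
  have e3 : w₁ ∈ lat v₁ v₂ := h ▸ Submodule.subset_span (by simp)
  have e4' : w₂ ∈ lat v₁ v₂ := h ▸ Submodule.subset_span (by simp)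
  obtain ⟨a, b, h1⟩ := mem_lat.1 e1
  obtain ⟨c, d, h2⟩ := mem_lat.1 e2
  obtain ⟨a', b', h3⟩ := mem_lat.1 e3
  obtain ⟨c', d', h4⟩ := mem_lat.1 e4'
  have A1 := area_change a b c d w₁ w₂
  rw [h1, h2] at A1
  have A2 := area_change a' b' c' d' v₁ v₂
  rw [h3, h4] at A2
  have p1 := area_pos hw
  have p2 := area_pos hv
  set D : ℤ := a * d - b * c with hD
  set D' : ℤ := a' * d' - b' * c' with hD'
  have h5 : (D : ℝ) > 0 := by
    rw [A1] at p2
    exact (pos_iff_pos_of_mul_pos p2).2 p1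
  have h6 : ((D' * D : ℤ) : ℝ) = 1 := by
    rw [A1, ← mul_assoc] at A2
    have := mul_right_cancel₀ p1.ne' (a := (1 : ℝ)) (c := (D' : ℝ) * D) (by rw [one_mul]; exact A2)
    push_cast
    exact this.symm
  have h7 : D' * D = 1 := by exact_mod_cast h6
  have h8 : 0 < D := by exact_mod_cast h5
  refine ⟨a, b, c, d, ?_, h1.symm, h2.symm⟩
  rcases Int.eq_one_or_neg_one_of_mul_eq_one' h7 with h9 | h9
  · exact h9.2
  · omega

theorem E2_change {w₁ w₂ : ℂ} (hw : Pos w₁ w₂) {a b c d : ℤ} (hD : a * d - b * c = 1)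
    (hv : Pos (a * w₁ + b * w₂) (c * w₁ + d * w₂)) :
    LF 2 E2 (a * w₁ + b * w₂) (c * w₁ + d * w₂) = LF 2 E2 w₁ w₂ -
      6 * Complex.I * c / (π * w₂ * (c * w₁ + d * w₂)) := by
  have h0 := hw.ne
  have h0' := hv.ne
  have hpi : (π : ℂ) ≠ 0 := by exact_mod_cast Real.pi_ne_zero
  let γ : SL(2, ℤ) := ⟨!![a, b; c, d], by rw [Matrix.det_fin_two_of]; exact hD⟩
  have g00 : γ 0 0 = a := rfl
  have g01 : γ 0 1 = b := rfl
  have g10 : γ 1 0 = c := rfl
  have g11 : γ 1 1 = d := rfl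
  set τ : ℍ := ⟨w₁ / w₂, hw⟩ with hτ
  have hτc : (τ : ℂ) = w₁ / w₂ := rfl
  have h1 := congrFun (E2_slash_action γ) τ
  have hden : denom γ τ = (c * w₁ + d * w₂) / w₂ := by
    rw [ModularGroup.denom_apply, g10, g11, hτc]
    field_simp
  have hsm : γ • τ = ⟨(a * w₁ + b * w₂) / (c * w₁ + d * w₂), hv⟩ := by
    ext
    rw [coe_specialLinearGroup_apply, g00, g01, g10, g11, hτc]
    simp only [algebraMap_int_eq, eq_intCast, Complex.ofReal_intCast]
    have e1 : (a : ℂ) * (w₁ / w₂) + b = (a * w₁ + b * w₂) / w₂ := by field_simp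
    have e2 : (c : ℂ) * (w₁ / w₂) + d = (c * w₁ + d * w₂) / w₂ := by field_simp
    rw [e1, e2, div_div_div_cancel_right₀ h0]
  rw [SL_slash_apply, hsm, hden] at h1
  simp only [Pi.sub_apply, Pi.smul_apply, smul_eq_mul, D2, hden, g10, riemannZeta_two] at h1
  rw [LF_eq hv, LF_eq hw]
  have h2 : E2 (⟨(a * w₁ + b * w₂) / (c * w₁ + d * w₂), hv⟩ : ℍ) =
      ((c * w₁ + d * w₂) / w₂) ^ 2 * (E2 τ - 1 / (2 * ((π : ℂ) ^ 2 / 6)) *
        (2 * π * Complex.I * c / ((c * w₁ + d * w₂) / w₂))) := by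
    have h3 : (c * w₁ + d * w₂) / w₂ ≠ 0 := div_ne_zero h0' h0
    rw [← h1, zpow_neg, mul_left_comm]
    have h4 : ((c * w₁ + d * w₂) / w₂) ^ 2 * (((c * w₁ + d * w₂) / w₂) ^ (2 : ℤ))⁻¹ = 1 := by
      rw [zpow_ofNat, mul_inv_cancel₀ (pow_ne_zero 2 h3)]
    rw [h4, mul_one]
  rw [h2]
  field_simp
  ring

end E2LatAux

open E2LatAux in
theorem stE2Lat : StE2Lat := by
  intro w₁ w₂ v₁ v₂ hw hv h
  obtain ⟨a, b, c, d, hD, rfl, rfl⟩ := exists_sl hw hv h
  have hpi : (π : ℂ) ≠ 0 := by exact_mod_cast Real.pi_ne_zero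
  have h0 := hw.ne
  have h0' := hv.ne
  have p1 := area_pos hw
  have hvol : conj w₂ * w₁ - conj w₁ * w₂ ≠ 0 := by
    intro h1
    have h2 := congrArg Complex.im h1
    simp only [Complex.sub_im, Complex.mul_im, Complex.conj_re, Complex.conj_im,
      Complex.zero_im] at h2
    simp only [Complex.mul_im, Complex.conj_re, Complex.conj_im] at p1
    linarith
  have hDC : (a : ℂ) * d - b * c = 1 := by exact_mod_cast hD
  have hvol' : conj (c * w₁ + d * w₂) * (a * w₁ + b * w₂) -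
      conj (a * w₁ + b * w₂) * (c * w₁ + d * w₂) = conj w₂ * w₁ - conj w₁ * w₂ := by
    simp only [map_add, map_mul, map_intCast]
    linear_combination (conj w₂ * w₁ - conj w₁ * w₂) * hDC
  unfold E2s e2s vol
  rw [E2_change hw hD hv, hvol']
  set V := conj w₂ * w₁ - conj w₁ * w₂ with hV
  have hI := Complex.I_ne_zero
  have key : 3 * conj (c * w₁ + d * w₂) / (π * (c * w₁ + d * w₂) * (V / (2 * Complex.I))) +
      6 * Complex.I * c / (π * w₂ * (c * w₁ + d * w₂)) =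
      3 * conj w₂ / (π * w₂ * (V / (2 * Complex.I))) := by
    simp only [map_add, map_mul, map_intCast]
    field_simp
    rw [hV]
    ring
  linear_combination key
end

end Pool.Agent.Lib.MP_7c08ba_nt.RZC
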