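import Pool.Agent.Lib.MP_7c08ba_nt.RZ.Basic

set_option autoImplicit false

/-! (I1) integral q-expansions of `E₄`, `E₆` and the discriminant. -/

namespace Pool.Agent.Lib.MP_7c08ba_nt.RZC

open UpperHalfPlane ModularForm EisensteinSeries MatrixGroups NumberField
open scoped Real Manifold ComplexConjugate

noncomputable section

namespace EisAux

theorem coeff_sg (k n : ℕ) : (sg k).coeff n =
    if n = 0 then 0 else (ArithmeticFunction.sigma k n : ℤ) := by
  rw [sg, PowerSeries.coeff_mk]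

theorem coeff_toC (g : PowerSeries ℤ) (n : ℕ) : (toC g).coeff n = (g.coeff n : ℂ) := by
  rw [PowerSeries.coeff_map]
  rfl

theorem coeff_Q4 (n : ℕ) : Q4.coeff n = (if n = 0 then 1 else 0) + 240 * (sg 3).coeff n := by
  rw [Q4, map_add, PowerSeries.coeff_one, show (240 : PowerSeries ℤ) = PowerSeries.C 240 from
    (map_ofNat PowerSeries.C 240).symm, PowerSeries.coeff_C_mul]

theorem coeff_R6 (n : ℕ) : R6.coeff n = (if n = 0 then 1 else 0) - 504 * (sg 5).coeff n := by
  rw [R6, map_sub, PowerSeries.coeff_one, show (504 : PowerSeries ℤ) = PowerSeries.C 504 from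
    (map_ofNat PowerSeries.C 504).symm, PowerSeries.coeff_C_mul]

theorem qexp_E4 : qExpansion 1 (E₄ : ℍ → ℂ) = toC Q4 := by
  ext m
  rw [coeff_toC, coeff_Q4, coeff_sg, E_qExpansion_coeff _ ⟨2, rfl⟩]
  by_cases hm : m = 0
  · simp [hm]
  · rw [if_neg hm, if_neg hm, if_neg hm]
    norm_num [show bernoulli 4 = -1 / 30 by decide +kernel]

theorem qexp_E6 : qExpansion 1 (E₆ : ℍ → ℂ) = toC R6 := by
  ext m
  rw [coeff_toC, coeff_R6, coeff_sg, E_qExpansion_coeff _ ⟨3, rfl⟩]
  by_cases hm : m = 0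
  · simp [hm]
  · rw [if_neg hm, if_neg hm, if_neg hm]
    norm_num [show bernoulli 6 = 1 / 42 by decide +kernel]

theorem twelve_dvd (d : ℤ) : (12 : ℤ) ∣ 5 * d ^ 3 + 7 * d ^ 5 := by
  have h : ∀ x : ZMod 12, 5 * x ^ 3 + 7 * x ^ 5 = 0 := by decide
  have h1 := (ZMod.intCast_zmod_eq_zero_iff_dvd (5 * d ^ 3 + 7 * d ^ 5) 12).mp (by
    push_cast
    exact h d)
  exact_mod_cast h1

theorem twelve_dvd_sum (n : ℕ) : (12 : ℤ) ∣ 5 * (sg 3).coeff n + 7 * (sg 5).coeff n := by
  rw [coeff_sg, coeff_sg]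
  by_cases hn : n = 0
  · rw [if_pos hn, if_pos hn]
    simp
  · rw [if_neg hn, if_neg hn, ArithmeticFunction.sigma_apply, ArithmeticFunction.sigma_apply]
    push_cast
    rw [Finset.mul_sum, Finset.mul_sum, ← Finset.sum_add_distrib]
    exact Finset.dvd_sum fun d _ => twelve_dvd d

theorem exists_quot : ∃ g : PowerSeries ℤ, Q4 ^ 3 - R6 ^ 2 = 1728 * g := by
  set u : PowerSeries ℤ :=
    PowerSeries.mk fun n => (5 * (sg 3).coeff n + 7 * (sg 5).coeff n) / 12 with hu
  have h1 : 5 * sg 3 + 7 * sg 5 = 12 * u := by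
    ext n
    rw [show (5 : PowerSeries ℤ) = PowerSeries.C 5 from (map_ofNat PowerSeries.C 5).symm,
      show (7 : PowerSeries ℤ) = PowerSeries.C 7 from (map_ofNat PowerSeries.C 7).symm,
      show (12 : PowerSeries ℤ) = PowerSeries.C 12 from (map_ofNat PowerSeries.C 12).symm,
      map_add, PowerSeries.coeff_C_mul, PowerSeries.coeff_C_mul, PowerSeries.coeff_C_mul, hu,
      PowerSeries.coeff_mk, Int.mul_ediv_cancel' (twelve_dvd_sum n)]
  refine ⟨u + 100 * sg 3 ^ 2 + 8000 * sg 3 ^ 3 - 147 * sg 5 ^ 2, ?_⟩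
  rw [Q4, R6]
  linear_combination 144 * h1

theorem disc_eq : 1728 * D12 = Q4 ^ 3 - R6 ^ 2 := by
  obtain ⟨g, hg⟩ := exists_quot
  ext n
  rw [show (1728 : PowerSeries ℤ) = PowerSeries.C 1728 from (map_ofNat PowerSeries.C 1728).symm,
    PowerSeries.coeff_C_mul, D12, PowerSeries.coeff_mk]
  refine Int.mul_ediv_cancel' ⟨g.coeff n, ?_⟩
  rw [hg, show (1728 : PowerSeries ℤ) = PowerSeries.C 1728 from
    (map_ofNat PowerSeries.C 1728).symm, PowerSeries.coeff_C_mul]

theorem qexp_disc : qExpansion 1 discriminant = toC D12 := by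
  have hF : qExpansion 1 ((ModularForm.mcast (by decide) (E₄.pow 3) -
      ModularForm.mcast (by decide) (E₆.pow 2) : ModularForm 𝒮ℒ 12) : ℍ → ℂ) =
      qExpansion 1 (E₄ : ℍ → ℂ) ^ 3 - qExpansion 1 (E₆ : ℍ → ℂ) ^ 2 := by
    simp only [FunLike.coe_sub, coe_mcast,
      ModularForm.qExpansion_sub one_pos one_mem_strictPeriods_SL,
      ModularForm.qExpansion_pow one_pos one_mem_strictPeriods_SL]
  have hG : ((ModularForm.mcast (by decide) (E₄.pow 3) -
      ModularForm.mcast (by decide) (E₆.pow 2) : ModularForm 𝒮ℒ 12) : ℍ → ℂ) =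
      (1728 : ℂ) • (CuspForm.discriminant : ℍ → ℂ) := by
    funext z
    have h1 : (CuspForm.discriminant : ℍ → ℂ) z = discriminant z := rfl
    rw [Pi.smul_apply, h1, discriminant_eq_E₄_cube_sub_E₆_sq, smul_eq_mul]
    simp only [FunLike.coe_sub, coe_mcast, coe_pow, Pi.sub_apply, Pi.pow_apply]
    ring
  have hH := ModularForm.qExpansion_smul one_pos one_mem_strictPeriods_SL (1728 : ℂ)
    CuspForm.discriminant
  rw [← hG, hF, qexp_E4, qexp_E6] at hH
  have h2 : toC Q4 ^ 3 - toC R6 ^ 2 = (1728 : ℂ) • toC D12 := by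
    have h3 : PowerSeries.map (Int.castRingHom ℂ) (Q4 ^ 3 - R6 ^ 2) =
        PowerSeries.map (Int.castRingHom ℂ) (1728 * D12) := by rw [disc_eq]
    rw [map_sub, map_pow, map_pow, map_mul, map_ofNat] at h3
    rw [PowerSeries.smul_eq_C_mul, map_ofNat]
    exact h3
  rw [h2] at hH
  have h4 : (1728 : ℂ) ≠ 0 := by norm_num
  exact (smul_right_injective _ h4 hH).symm

end EisAux

open EisAux in
theorem stEis : StEis := by
  have h0 : D12.coeff 0 = 0 := by
    rw [D12, PowerSeries.coeff_mk]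
    have h1 : (Q4 ^ 3 - R6 ^ 2).coeff 0 = 0 := by
      have h2 : Q4.coeff 0 = 1 := by rw [coeff_Q4, coeff_sg]; simp
      have h3 : R6.coeff 0 = 1 := by rw [coeff_R6, coeff_sg]; simp
      rw [PowerSeries.coeff_zero_eq_constantCoeff_apply] at h2 h3
      rw [PowerSeries.coeff_zero_eq_constantCoeff_apply, map_sub, map_pow, map_pow, h2, h3]
      norm_num
    rw [h1]
    norm_num
  have h1 : D12.coeff 1 = 1 := by
    have h2 := discriminant_qExpansion_coeff_one
    rw [qexp_disc, coeff_toC] at h2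
    exact_mod_cast h2
  exact ⟨disc_eq, h0, h1, qexp_E4, qexp_E6, qexp_disc⟩

end

end Pool.Agent.Lib.MP_7c08ba_nt.RZC
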