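import Pool.Agent.Lib.MP_7c08ba_nt.RZ.Basic

set_option autoImplicit false

/-! Module G2: the Gaussian lattice. -/

namespace Pool.Agent.Lib.MP_7c08ba_nt.RZC

open UpperHalfPlane ModularForm EisensteinSeries MatrixGroups NumberField
open scoped Real Manifold ComplexConjugate

noncomputable section

namespace GaussAux

theorem pos_I : Pos Complex.I 1 := by simp [Pos]

/-- the point `i` -/
def ti : ℍ := ⟨Complex.I / 1, pos_I⟩

theorem LF_I (k : ℕ) (F : ℍ → ℂ) : LF k F Complex.I 1 = F ti := by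
  rw [LF_eq pos_I, one_pow, inv_one, one_mul]
  rfl

theorem lat_I : lat Complex.I 1 = lat (Complex.I * Complex.I) (Complex.I * 1) := by
  ext z
  rw [mem_lat, mem_lat]
  constructor
  · rintro ⟨m, n, h⟩
    refine ⟨-n, m, ?_⟩
    rw [← h, Complex.I_mul_I]
    push_cast
    ring
  · rintro ⟨m, n, h⟩
    refine ⟨n, -m, ?_⟩
    rw [← h, Complex.I_mul_I]
    push_cast
    ring

theorem e6_I (h2 : StLat) : (E₆ : ℍ → ℂ) ti = 0 := by
  have hpos : Pos (Complex.I * Complex.I) (Complex.I * 1) :=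
    (pos_smul Complex.I_ne_zero).mpr pos_I
  have h := h2 6 E₆ _ _ _ _ pos_I hpos lat_I
  rw [LF_smul Complex.I_ne_zero, LF_I] at h
  have h6 : (Complex.I ^ 6)⁻¹ = -1 := by
    have : Complex.I ^ 6 = -1 := by
      rw [show (6 : ℕ) = 2 * 3 by norm_num, pow_mul, Complex.I_sq]
      norm_num
    rw [this]
    norm_num
  rw [h6] at h
  have h3 : (2 : ℂ) * (E₆ : ℍ → ℂ) ti = 0 := by linear_combination h
  rcases mul_eq_zero.mp h3 with h4 | h4
  · norm_num at h4
  · exact h4

theorem dl_I : discriminant ti ≠ 0 := discriminant_ne_zero _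

theorem e4_I (h2 : StLat) : (E₄ : ℍ → ℂ) ti ^ 3 = 1728 * discriminant ti := by
  rw [discriminant_eq_E₄_cube_sub_E₆_sq, e6_I h2]
  ring

theorem eb_12 {K : Type*} [Monoid K] (m : ℕ) (a b : K) : eb (12 * m) a b = (a ^ 3) ^ m := by
  unfold eb
  rw [if_pos (by omega), ← pow_mul]
  congr 1
  omega

end GaussAux

open GaussAux

theorem stGauss (h1 : StStruct) (h2 : StLat) : StGauss := by
  refine ⟨?_, ?_, ?_, ?_⟩
  · rw [e6, LF_I]
    exact e6_I h2
  · rw [dl, LF_I]
    exact dl_I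
  · rw [e4, dl, LF_I, LF_I]
    exact e4_I h2
  · intro A J hJ k g hg
    obtain ⟨c, hc, -, h3, -⟩ := h1 J (12 * k) ⟨6 * k, by ring⟩ g hg
    have h4 := h3 ti
    have h5 : 12 * k / 12 = k := Nat.mul_div_cancel_left k (by norm_num)
    rw [h5] at h4
    rw [dl, LF_I, LF_I, h4, Finset.sum_div]
    refine J.sum_mem fun j hj => ?_
    have hj' : j ≤ k := Nat.lt_succ_iff.mp (Finset.mem_range.mp hj)
    have h6 : 12 * k - 12 * j = 12 * (k - j) := by omega
    have h7 : c j * discriminant ti ^ j * eb (12 * k - 12 * j) ((E₄ : ℍ → ℂ) ti)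
        ((E₆ : ℍ → ℂ) ti) / discriminant ti ^ k = ((1728 ^ (k - j) : ℕ) : ℂ) * c j := by
      rw [h6, eb_12, e4_I h2, div_eq_iff (pow_ne_zero _ dl_I)]
      have h8 : discriminant ti ^ k = discriminant ti ^ j * discriminant ti ^ (k - j) := by
        rw [← pow_add, Nat.add_sub_cancel' hj']
      rw [h8, mul_pow]
      push_cast
      ring
    rw [h7]
    exact hJ _ (nat_mem _) _ (hc j)

end

end Pool.Agent.Lib.MP_7c08ba_nt.RZC
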