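import Pool.Agent.Lib.MP_7c08ba_nt.RZ.Basic

set_option autoImplicit false

/-! (G3) the sum over the sublattices of odd prime index of the Gaussian lattice. -/

namespace Pool.Agent.Lib.MP_7c08ba_nt.RZC

open UpperHalfPlane ModularForm EisensteinSeries MatrixGroups NumberField
open scoped Real Manifold ComplexConjugate

noncomputable section

namespace GaussPX

variable {A : ValuationSubring ℂ}

theorem gauss_cast (h2 : StGauss) (A : ValuationSubring ℂ) (m K : ℕ) (hm : m = 12 * K)
    (g : ModularForm 𝒮ℒ (m : ℤ)) (hg : ∀ n, cf g n ∈ A) :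
    LF m g Complex.I 1 / dl Complex.I 1 ^ K ∈ A := by
  subst hm
  exact h2.2.2.2 A A.toSubring.toAddSubgroup (fun a ha z hz => A.mul_mem a z ha hz) K g hg

theorem pos_I : Pos Complex.I 1 := by simp [Pos]

/-- the values are integral -/
theorem mem_A (h1 : StSymm) (h2 : StGauss) (hA : Above2 A) {p : ℕ} (hp : p.Prime) (hp2 : p ≠ 2)
    (k : ℕ) (g : ModularForm 𝒮ℒ ((12 * k : ℕ) : ℤ)) (hg : ∀ n, cf g n ∈ A)
    (j : Option (Fin p)) :
    LFs (12 * k) g p Complex.I 1 j / dl Complex.I 1 ^ k ∈ A := by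
  obtain ⟨e, he, _, hprod⟩ := h1 A hA p hp hp2 (12 * k) g hg
  obtain ⟨D, hD⟩ : ∃ D, D = dl Complex.I 1 ^ k := ⟨_, rfl⟩
  have hD0 : D ≠ 0 := by rw [hD]; exact pow_ne_zero _ h2.2.1
  obtain ⟨a, ha⟩ : ∃ a : ℕ → ℂ, a = fun i => (-1) ^ i * LF (i * (12 * k)) (e i) Complex.I 1 :=
    ⟨_, rfl⟩
  have hprod' : ∀ T : ℂ, ∏ i, (T - LFs (12 * k) g p Complex.I 1 i) =
      ∑ i ∈ Finset.range (p + 2), a i * T ^ (p + 1 - i) := by
    intro T
    rw [ha]
    exact hprod _ _ pos_I T
  have hpoly : (∏ i, (Polynomial.X - Polynomial.C (LFs (12 * k) g p Complex.I 1 i))) =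
      ∑ i ∈ Finset.range (p + 2), Polynomial.C (a i) * Polynomial.X ^ (p + 1 - i) := by
    apply Polynomial.funext
    intro T
    rw [Polynomial.eval_prod, Polynomial.eval_finsetSum]
    simp only [Polynomial.eval_sub, Polynomial.eval_X, Polynomial.eval_C, Polynomial.eval_mul,
      Polynomial.eval_pow]
    exact hprod' T
  have ha0 : a 0 = 1 := by
    have hcard : (Finset.univ : Finset (Option (Fin p))).card = p + 1 := by
      rw [Finset.card_univ, Fintype.card_option, Fintype.card_fin]
    have h3 := congrArg (fun P : Polynomial ℂ => P.coeff (p + 1)) hpoly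
    simp only [Polynomial.finsetSum_coeff, Polynomial.coeff_C_mul_X_pow] at h3
    have h4 : (∏ i, (Polynomial.X - Polynomial.C (LFs (12 * k) g p Complex.I 1 i))).coeff
        (p + 1) = 1 := by
      have h5 := Polynomial.monic_prod_of_monic (Finset.univ : Finset (Option (Fin p)))
        (fun i => Polynomial.X - Polynomial.C (LFs (12 * k) g p Complex.I 1 i))
        (fun i _ => Polynomial.monic_X_sub_C _)
      have h6 := Polynomial.natDegree_finsetProd_X_sub_C_eq_card
        (Finset.univ : Finset (Option (Fin p))) (fun i => LFs (12 * k) g p Complex.I 1 i)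
      rw [hcard] at h6
      rw [← h6]
      exact h5
    rw [h4, Finset.sum_eq_single 0] at h3
    · simpa using h3.symm
    · intro i hi hi0
      have := Finset.mem_range.mp hi
      rw [if_neg (by omega)]
    · intro h
      exact absurd (Finset.mem_range.mpr (by omega)) h
  obtain ⟨T, hT⟩ : ∃ T, T = LFs (12 * k) g p Complex.I 1 j := ⟨_, rfl⟩
  have hroot : ∑ i ∈ Finset.range (p + 2), a i * T ^ (p + 1 - i) = 0 := by
    rw [← hprod' T]
    exact Finset.prod_eq_zero (Finset.mem_univ j) (by rw [hT, sub_self])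
  have hroot2 : T ^ (p + 1) + ∑ i ∈ Finset.range (p + 1), a (p + 1 - i) * T ^ i = 0 := by
    have h3 := Finset.sum_range_reflect (fun i => a (p + 1 - i) * T ^ i) (p + 2)
    have h4 : ∑ j ∈ Finset.range (p + 2), a (p + 1 - (p + 2 - 1 - j)) * T ^ (p + 2 - 1 - j) =
        ∑ i ∈ Finset.range (p + 2), a i * T ^ (p + 1 - i) := by
      refine Finset.sum_congr rfl fun i hi => ?_
      have := Finset.mem_range.mp hi
      have h5 : p + 1 - (p + 2 - 1 - i) = i := by omega
      have h6 : p + 2 - 1 - i = p + 1 - i := by omega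
      rw [h5, h6]
    rw [h4, hroot, Finset.sum_range_succ, Nat.sub_self, ha0, one_mul] at h3
    rw [add_comm]
    exact h3.symm
  rw [← hT, ← hD]
  refine mem_of_root (n := p + 1) (c := fun i => a (p + 1 - i) / D ^ (p + 1 - i)) ?_ ?_
  · intro i _
    obtain ⟨m, hm⟩ : ∃ m, m = p + 1 - i := ⟨_, rfl⟩
    simp only [← hm]
    rw [ha, hD]
    simp only
    have h3 : (-1 : ℂ) ^ m * LF (m * (12 * k)) (e m) Complex.I 1 / (dl Complex.I 1 ^ k) ^ m =
        ((-1 : ℤ) ^ m : ℤ) * (LF (m * (12 * k)) (e m) Complex.I 1 /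
          dl Complex.I 1 ^ (m * k)) := by
      push_cast
      rw [← pow_mul, mul_comm k m, mul_div_assoc]
    rw [h3]
    exact A.mul_mem _ _ (int_mem _) (gauss_cast h2 A _ _ (by ring) (e m) (he m))
  · have h3 : (T / D) ^ (p + 1) + ∑ i ∈ Finset.range (p + 1),
        a (p + 1 - i) / D ^ (p + 1 - i) * (T / D) ^ i =
        (T ^ (p + 1) + ∑ i ∈ Finset.range (p + 1), a (p + 1 - i) * T ^ i) / D ^ (p + 1) := by
      rw [add_div, div_pow, Finset.sum_div]
      congr 1
      refine Finset.sum_congr rfl fun i hi => ?_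
      have := Finset.mem_range.mp hi
      have h5 : D ^ (p + 1) = D ^ (p + 1 - i) * D ^ i := by
        rw [← pow_add]
        congr 1
        omega
      rw [h5, div_pow]
      field_simp
    rw [h3, hroot2, zero_div]

/-! ### lattices -/

theorem lat_le {w₁ w₂ v₁ v₂ : ℂ} (h1 : w₁ ∈ lat v₁ v₂) (h2 : w₂ ∈ lat v₁ v₂) :
    lat w₁ w₂ ≤ lat v₁ v₂ := by
  unfold lat at *
  rw [Submodule.span_le]
  intro z hz
  rcases hz with h | h
  · rw [h]; exact h1
  · rw [Set.mem_singleton_iff.mp h]; exact h2

theorem rot0 (p : ℕ) :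
    lat (Complex.I * (Complex.I + ((0 : ℤ) : ℂ))) (Complex.I * p) = lat ((p : ℂ) * Complex.I) 1 := by
  have hI := Complex.I_mul_I
  apply le_antisymm
  · apply lat_le
    · rw [mem_lat]
      exact ⟨0, -1, by push_cast; linear_combination -hI⟩
    · rw [mem_lat]
      exact ⟨1, 0, by push_cast; ring⟩
  · apply lat_le
    · rw [mem_lat]
      exact ⟨0, 1, by push_cast; ring⟩
    · rw [mem_lat]
      exact ⟨-1, 0, by push_cast; linear_combination -hI⟩

theorem rotb (p : ℕ) (c c' u : ℤ) (h : 1 + c * c' = p * u) :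
    lat (Complex.I * (Complex.I + (c : ℂ))) (Complex.I * p) = lat (Complex.I + (c' : ℂ)) p := by
  have hI := Complex.I_mul_I
  have hc : (1 : ℂ) + c * c' = p * u := by exact_mod_cast h
  apply le_antisymm
  · apply lat_le
    · rw [mem_lat]
      exact ⟨c, -u, by push_cast; linear_combination hc - hI⟩
    · rw [mem_lat]
      exact ⟨p, -c', by push_cast; ring⟩
  · apply lat_le
    · rw [mem_lat]
      exact ⟨-c', u, by push_cast; linear_combination (-(c' : ℂ)) * hI - Complex.I * hc⟩
    · rw [mem_lat]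
      exact ⟨-p, c, by push_cast; linear_combination (-(p : ℂ)) * hI⟩

theorem ideal_lat (p : ℕ) (hp : p ≠ 0) (c a b u v : ℤ) (hab : a ^ 2 + b ^ 2 = p)
    (hu : b + c * a = p * u) (hv : a - c * b = p * v) :
    lat (((a : ℂ) + b * Complex.I) * Complex.I) (((a : ℂ) + b * Complex.I) * 1) =
      lat (Complex.I + (c : ℂ)) p := by
  have hI := Complex.I_mul_I
  have hp0 : (p : ℤ) ≠ 0 := by exact_mod_cast hp
  have h1 : a * u - b * v = c := by
    apply mul_left_cancel₀ hp0
    linear_combination (-a) * hu + b * hv + c * hab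
  have h2 : a * v + b * u = 1 := by
    apply mul_left_cancel₀ hp0
    linear_combination (-a) * hv - b * hu + hab
  have hab' : (a : ℂ) ^ 2 + b ^ 2 = p := by exact_mod_cast hab
  have hu' : (b : ℂ) + c * a = p * u := by exact_mod_cast hu
  have hv' : (a : ℂ) - c * b = p * v := by exact_mod_cast hv
  have h1' : (a : ℂ) * u - b * v = c := by exact_mod_cast h1
  have h2' : (a : ℂ) * v + b * u = 1 := by exact_mod_cast h2
  apply le_antisymm
  · apply lat_le
    · rw [mem_lat]
      exact ⟨a, -u, by push_cast; linear_combination hu' - (b : ℂ) * hI⟩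
    · rw [mem_lat]
      exact ⟨b, v, by push_cast; linear_combination -hv'⟩
  · apply lat_le
    · rw [mem_lat]
      exact ⟨v, u, by push_cast; linear_combination h1' + Complex.I * h2' + (b * v : ℂ) * hI⟩
    · rw [mem_lat]
      exact ⟨-b, a, by push_cast; linear_combination hab' - (b : ℂ) ^ 2 * hI⟩

/-! ### the involution -/

/-- residue classes -/
def e0 (p : ℕ) [NeZero p] : Fin p ≃ ZMod p where
  toFun b := ((b : ℕ) : ZMod p)
  invFun z := ⟨z.val, ZMod.val_lt z⟩
  left_inv b := by
    ext
    simp only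
    exact ZMod.val_cast_of_lt b.2
  right_inv z := by
    simp only
    exact ZMod.natCast_zmod_val z

/-- the involution without fixed points -/
def tau (p : ℕ) : Option (ZMod p) → Option (ZMod p)
  | none => some 0
  | some z => if z = 0 then none else if z ^ 2 = -1 then some (-z) else some (-z⁻¹)

theorem tau_tau (p : ℕ) [Fact p.Prime] (i : Option (ZMod p)) : tau p (tau p i) = i := by
  rcases i with _ | z
  · simp [tau]
  · by_cases h0 : z = 0
    · subst h0
      simp [tau]
    · by_cases h1 : z ^ 2 = -1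
      · have h2 : (-z) ^ 2 = -1 := by rw [neg_sq, h1]
        have h3 : -z ≠ 0 := neg_ne_zero.mpr h0
        have h4 : tau p (some z) = some (-z) := by
          simp only [tau, if_neg h0, if_pos h1]
        rw [h4]
        simp only [tau, if_neg h3, if_pos h2, neg_neg]
      · have h3 : -z⁻¹ ≠ 0 := neg_ne_zero.mpr (inv_ne_zero h0)
        have h2 : ¬ (-z⁻¹) ^ 2 = -1 := by
          intro h
          apply h1
          rw [neg_sq, inv_pow] at h
          have h5 : z ^ 2 = (-1)⁻¹ := by rw [← h, inv_inv]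
          rw [h5, inv_neg, inv_one]
        have h4 : tau p (some z) = some (-z⁻¹) := by
          simp only [tau, if_neg h0, if_neg h1]
        rw [h4]
        simp only [tau, if_neg h3, if_neg h2]
        rw [inv_neg, inv_inv, neg_neg]

theorem tau_ne (p : ℕ) [Fact p.Prime] (hp2 : p ≠ 2) (i : Option (ZMod p)) : tau p i ≠ i := by
  rcases i with _ | z
  · simp [tau]
  · by_cases h0 : z = 0
    · subst h0
      simp [tau]
    · by_cases h1 : z ^ 2 = -1
      · have h4 : tau p (some z) = some (-z) := by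
          simp only [tau, if_neg h0, if_pos h1]
        rw [h4]
        intro h
        have h5 : -z = z := Option.some.inj h
        have h6 : (2 : ZMod p) * z = 0 := by linear_combination -h5
        rcases mul_eq_zero.mp h6 with h7 | h7
        · have h8 : ((2 : ℕ) : ZMod p) = 0 := by exact_mod_cast h7
          rw [ZMod.natCast_eq_zero_iff] at h8
          have h9 := (Nat.prime_dvd_prime_iff_eq (Fact.out : p.Prime) Nat.prime_two).mp h8
          exact hp2 h9
        · exact h0 h7
      · have h4 : tau p (some z) = some (-z⁻¹) := by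
          simp only [tau, if_neg h0, if_neg h1]
        rw [h4]
        intro h
        have h5 : -z⁻¹ = z := Option.some.inj h
        apply h1
        have h6 : z * z⁻¹ = 1 := mul_inv_cancel₀ h0
        linear_combination z * h5 - h6 - 2 * z * h5

theorem zmod_cast_dvd (p : ℕ) [NeZero p] (x : ℤ) (h : (x : ZMod p) = 0) : ∃ u : ℤ, x = p * u := by
  rw [ZMod.intCast_zmod_eq_zero_iff_dvd] at h
  exact h

end GaussPX

open GaussPX in
theorem stGaussP (h1 : StSymm) (h2 : StGauss) (h3 : StSub) (h4 : StLat) : StGaussP := by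
  intro A hA p hp hp2 k g hg
  have : Fact p.Prime := ⟨hp⟩
  have hp0 : p ≠ 0 := hp.ne_zero
  obtain ⟨D, hD⟩ : ∃ D, D = dl Complex.I 1 ^ k := ⟨_, rfl⟩
  have hx := mem_A h1 h2 hA hp hp2 k g hg
  have hpos := (h3 p hp Complex.I 1 pos_I).1
  rw [← hD] at hx ⊢
  -- the value at the class `z`
  obtain ⟨E, hE⟩ : ∃ E : ℤ → ℂ, E = fun c : ℤ => LF (12 * k) g (Complex.I + (c : ℂ)) p / D :=
    ⟨_, rfl⟩
  set F : Option (ZMod p) → ℂ := fun i =>
    LFs (12 * k) g p Complex.I 1 ((Equiv.optionCongr (e0 p)).symm i) / D with hF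
  have hsum : (∑ i, LFs (12 * k) g p Complex.I 1 i) / D = ∑ i, F i := by
    rw [Finset.sum_div, hF]
    exact (Equiv.sum_comp (Equiv.optionCongr (e0 p)).symm
      (fun i => LFs (12 * k) g p Complex.I 1 i / D)).symm
  have hFmem : ∀ i, F i ∈ A := fun i => hx _
  have hFnone : F none = LF (12 * k) g ((p : ℂ) * Complex.I) 1 / D := rfl
  have hFsome : ∀ z : ZMod p, F (some z) = E (z.val : ℤ) := by
    intro z
    have : F (some z) = LF (12 * k) g (Complex.I + ((z.val : ℕ) : ℂ) * 1) ((p : ℂ) * 1) / D := rfl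
    rw [this, hE, mul_one, mul_one]
    simp only [Int.cast_natCast]
  have hPnone : Pos ((p : ℂ) * Complex.I) 1 := (hpos none).1
  have hPsome : ∀ z : ZMod p, Pos (Complex.I + (((z.val : ℕ) : ℤ) : ℂ)) p := by
    intro z
    have := (hpos (some ⟨z.val, ZMod.val_lt z⟩)).1
    have h5 : Pos (Complex.I + ((z.val : ℕ) : ℂ) * 1) ((p : ℂ) * 1) := this
    rw [mul_one, mul_one] at h5
    simpa using h5
  have hI12 : Complex.I ^ (12 * k) = 1 := by
    have : Complex.I ^ 12 = 1 := by
      have h5 : Complex.I ^ 12 = (Complex.I * Complex.I) ^ 6 := by ring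
      rw [h5, Complex.I_mul_I]
      norm_num
    rw [pow_mul, this, one_pow]
  -- multiplication by `i`
  have hrot : ∀ w₁ w₂ v₁ v₂ : ℂ, Pos w₁ w₂ → Pos v₁ v₂ →
      lat (Complex.I * w₁) (Complex.I * w₂) = lat v₁ v₂ →
      LF (12 * k) g v₁ v₂ = LF (12 * k) g w₁ w₂ := by
    intro w₁ w₂ v₁ v₂ hw hv hl
    have h5 := h4 (12 * k) g _ _ _ _ ((pos_smul Complex.I_ne_zero).mpr hw) hv hl
    rw [← h5, LF_smul Complex.I_ne_zero, hI12, inv_one, one_mul]
  have hzero : F none = F (some 0) := by
    rw [hFnone, hFsome]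
    have h5 := hPsome 0
    simp only [ZMod.val_zero, Nat.cast_zero] at h5 ⊢
    rw [hE]
    simp only
    rw [hrot _ _ _ _ h5 hPnone (rot0 p)]
  have hinv : ∀ z : ZMod p, z ≠ 0 → F (some (-z⁻¹)) = F (some z) := by
    intro z hz
    rw [hFsome, hFsome, hE]
    simp only
    have h6 : ((1 + (z.val : ℤ) * ((-z⁻¹ : ZMod p).val : ℤ) : ℤ) : ZMod p) = 0 := by
      push_cast
      rw [ZMod.natCast_zmod_val, ZMod.natCast_zmod_val]
      have h7 : z * z⁻¹ = 1 := mul_inv_cancel₀ hz
      linear_combination -h7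
    obtain ⟨u, hu⟩ := zmod_cast_dvd p _ h6
    rw [hrot _ _ _ _ (hPsome z) (hPsome (-z⁻¹)) (rotb p _ _ u hu)]
  -- ideals
  have hy : LF (12 * k) g Complex.I 1 / D ∈ A := by
    rw [hD]
    exact gauss_cast h2 A (12 * k) k rfl g hg
  have hIA : Complex.I ∈ A := rootOfUnity_mem (n := 4) (by norm_num) Complex.I_pow_four
  have hI1 : Complex.I - 1 ∈ A.nonunits := by
    have h5 : (Complex.I - 1) ^ 2 ∈ A.nonunits := by
      have h6 : (Complex.I - 1) ^ 2 = (-Complex.I) * 2 := by
        linear_combination Complex.I_mul_I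
      rw [h6]
      exact nonunits_mul_left (A.neg_mem _ hIA) hA
    exact nonunits_of_pow h5
  have hfix : ∀ z : ZMod p, z ^ 2 = -1 → F (some z) - LF (12 * k) g Complex.I 1 / D ∈ A.nonunits := by
    intro z hz
    have h5 := ZMod.mod_four_ne_three_of_sq_eq_neg_one hz
    obtain ⟨a, b, hab⟩ := Nat.Prime.sq_add_sq h5
    have habz : (a : ZMod p) ^ 2 + (b : ZMod p) ^ 2 = 0 := by
      have : ((a ^ 2 + b ^ 2 : ℕ) : ZMod p) = 0 := by rw [hab]; simp
      push_cast at this
      exact this
    -- `a = ± z b`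
    have h6 : ∃ b' : ℤ, (a : ℤ) ^ 2 + b' ^ 2 = p ∧ ((a : ℤ) : ZMod p) = z * b' := by
      have h7 : ((a : ZMod p) - z * b) * ((a : ZMod p) + z * b) = 0 := by
        linear_combination habz - (b : ZMod p) ^ 2 * hz
      rcases mul_eq_zero.mp h7 with h8 | h8
      · refine ⟨b, by exact_mod_cast hab, ?_⟩
        push_cast
        linear_combination h8
      · refine ⟨-b, by rw [neg_sq]; exact_mod_cast hab, ?_⟩
        push_cast
        linear_combination h8
    obtain ⟨b', hab', hz'⟩ := h6
    obtain ⟨c, hc⟩ : ∃ c : ℤ, c = (z.val : ℤ) := ⟨_, rfl⟩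
    have hcz : (c : ZMod p) = z := by rw [hc]; push_cast; exact ZMod.natCast_zmod_val z
    obtain ⟨u, hu⟩ := zmod_cast_dvd p (b' + c * a) (by
      push_cast
      rw [hcz]
      push_cast at hz'
      linear_combination z * hz' + (b' : ZMod p) * hz)
    obtain ⟨v, hv⟩ := zmod_cast_dvd p (a - c * b') (by
      push_cast
      rw [hcz]
      push_cast at hz'
      linear_combination hz')
    have hl := ideal_lat p hp0 c a b' u v hab' hu hv
    obtain ⟨al, hal⟩ : ∃ al : ℂ, al = (((a : ℤ) : ℂ) + b' * Complex.I) := ⟨_, rfl⟩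
    rw [← hal] at hl
    -- `al = 1` modulo the maximal ideal
    have hodd : Odd ((a : ℤ) + b') := by
      have h7 : Odd ((a : ℤ) ^ 2 + b' ^ 2) := by
        rw [hab']
        have := hp.odd_of_ne_two hp2
        exact_mod_cast this
      have h8 : Even (((a : ℤ) + b') - ((a : ℤ) ^ 2 + b' ^ 2)) := by
        have h9 := Int.even_mul_pred_self (a : ℤ)
        have h10 := Int.even_mul_pred_self b'
        have h11 : ((a : ℤ) + b') - ((a : ℤ) ^ 2 + b' ^ 2) = -(a * (a - 1) + b' * (b' - 1)) := by
          ring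
        rw [h11]
        exact (h9.add h10).neg
      have h12 := h8.add_odd h7
      rwa [sub_add_cancel] at h12
    have hal1 : al - 1 ∈ A.nonunits := by
      have h7 : al - 1 = (((a : ℤ) + b' : ℤ) : ℂ) - 1 + (b' : ℂ) * (Complex.I - 1) := by
        rw [hal]
        push_cast
        ring
      rw [h7]
      exact nonunits_add (odd_sub_one hA hodd) (nonunits_mul_left (int_mem _) hI1)
    have hal0 : al ≠ 0 := (unit_of_sub_one hal1).2.2.1
    have h7 : LF (12 * k) g (Complex.I + (c : ℂ)) p =
        (al ^ (12 * k))⁻¹ * LF (12 * k) g Complex.I 1 := by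
      have h8 := h4 (12 * k) g _ _ _ _ ((pos_smul hal0).mpr pos_I) (hc ▸ hPsome z) hl
      rw [← h8, LF_smul hal0]
    have h8 : F (some z) = (al ^ (12 * k))⁻¹ * (LF (12 * k) g Complex.I 1 / D) := by
      rw [hFsome, hE, ← hc]
      simp only
      rw [h7, mul_div_assoc]
    rw [h8]
    have h9 := inv_sub_one (nonunits_pow_sub_one hal1 (12 * k))
    have h10 := nonunits_mul_right h9 hy
    convert h10 using 1
    ring
  have hcong : ∀ i, F i - F (tau p i) ∈ A.nonunits := by
    intro i
    rcases i with _ | z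
    · have : tau p none = some 0 := rfl
      rw [this, hzero, sub_self]
      exact zero_nonunits
    · by_cases h0 : z = 0
      · subst h0
        have : tau p (some 0) = none := by simp [tau]
        rw [this, hzero, sub_self]
        exact zero_nonunits
      · by_cases hz : z ^ 2 = -1
        · have h5 : tau p (some z) = some (-z) := by simp only [tau, if_neg h0, if_pos hz]
          rw [h5]
          have h6 := nonunits_sub (hfix z hz) (hfix (-z) (by rw [neg_sq, hz]))
          convert h6 using 1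
          ring
        · have h5 : tau p (some z) = some (-z⁻¹) := by simp only [tau, if_neg h0, if_neg hz]
          rw [h5, hinv z h0, sub_self]
          exact zero_nonunits
  -- the sum in the residue field
  rw [hsum]
  have hs : (∑ i, F i) = ((∑ i, (⟨F i, hFmem i⟩ : A) : A) : ℂ) := by
    push_cast
    rfl
  rw [ValuationSubring.mem_nonunits_iff_exists_mem_maximalIdeal]
  refine ⟨hs ▸ SetLike.coe_mem _, ?_⟩
  have hs' : (⟨∑ i, F i, hs ▸ SetLike.coe_mem _⟩ : A) = ∑ i, (⟨F i, hFmem i⟩ : A) := by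
    apply Subtype.ext
    exact hs
  rw [hs', ← IsLocalRing.residue_eq_zero_iff, map_sum]
  refine Finset.sum_involution (fun i _ => tau p i) ?_ ?_ (fun _ _ => Finset.mem_univ _) ?_
  · intro i _
    have h5 := hcong i
    have h6 : IsLocalRing.residue A ⟨F i, hFmem i⟩ = IsLocalRing.residue A ⟨F (tau p i), hFmem _⟩ := by
      rw [← sub_eq_zero, ← map_sub, IsLocalRing.residue_eq_zero_iff]
      rw [ValuationSubring.mem_nonunits_iff_exists_mem_maximalIdeal] at h5
      obtain ⟨h7, h8⟩ := h5
      exact h8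
    rw [h6, ← two_mul]
    have h7 : (2 : IsLocalRing.ResidueField A) = 0 := by
      have h8 : IsLocalRing.residue A (2 : A) = 0 := by
        rw [IsLocalRing.residue_eq_zero_iff]
        have h9 : (2 : ℂ) ∈ A.nonunits := hA
        rw [ValuationSubring.mem_nonunits_iff_exists_mem_maximalIdeal] at h9
        obtain ⟨h10, h11⟩ := h9
        exact h11
      rw [← h8, map_ofNat]
    rw [h7, zero_mul]
  · intro i _ _
    exact tau_ne p hp2 i
  · intro i _
    exact tau_tau p i

end

end Pool.Agent.Lib.MP_7c08ba_nt.RZC
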