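import Pool.Agent.Lib.MP_7c08ba_nt.RZ.Basic

set_option autoImplicit false

/-! Part (C): (L4), (H4), (I3). -/

namespace Pool.Agent.Lib.MP_7c08ba_nt.RZC

open UpperHalfPlane ModularForm EisensteinSeries MatrixGroups NumberField
open scoped Real Manifold ComplexConjugate

noncomputable section

theorem stPerm (h : StSub) : StPerm := by
  intro p hp w₁ w₂ v₁ v₂ hw hv hlat
  obtain ⟨h1, h2, h3⟩ := h p hp w₁ w₂ hw
  obtain ⟨g1, g2, g3⟩ := h p hp v₁ v₂ hv
  have ex : ∀ i, ∃ j, lat (sub p v₁ v₂ j).1 (sub p v₁ v₂ j).2 =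
      lat (sub p w₁ w₂ i).1 (sub p w₁ w₂ i).2 := by
    intro i
    obtain ⟨j, hj⟩ := g3 (lat (sub p w₁ w₂ i).1 (sub p w₁ w₂ i).2)
      (hlat ▸ (h1 i).2.1) (hlat ▸ (h1 i).2.2)
    exact ⟨j, hj.symm⟩
  choose σ hσ using ex
  have inj : Function.Injective σ := by
    intro i j hij
    apply h2
    simp only
    rw [← hσ i, ← hσ j, hij]
  exact ⟨Equiv.ofBijective σ (Finite.injective_iff_bijective.1 inj), fun i => hσ i⟩

theorem stSymm (hA : StSymmA) (hB : StSymmB) : StSymm := by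
  intro A hA2 p hp hp2 k f hf
  choose e he using fun i => hA p hp k f i
  refine ⟨e, fun i n => (hB A hA2 p hp hp2 k f hf i (e i) (he i)).1 n,
    fun c hc hfc i n => (hB A hA2 p hp hp2 k f hf i (e i) (he i)).2 c hc hfc n, ?_⟩
  intro w₁ w₂ hw T
  have h := Multiset.prod_X_sub_X_eq_sum_esymm
    ((Finset.univ : Finset (Option (Fin p))).val.map fun j => LFs k f p w₁ w₂ j)
  have h2 := congrArg (Polynomial.eval T) h
  rw [Multiset.map_map, Polynomial.eval_multiset_prod, Multiset.map_map,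
    Polynomial.eval_finset_sum] at h2
  have hc : Multiset.card ((Finset.univ : Finset (Option (Fin p))).val.map
      fun j => LFs k f p w₁ w₂ j) = p + 1 := by
    rw [Multiset.card_map, Finset.card_val, Finset.card_univ]
    simp
  rw [hc] at h2
  have h3 : (Multiset.map (Polynomial.eval T ∘ (fun t => Polynomial.X - Polynomial.C t) ∘
      fun j => LFs k f p w₁ w₂ j) (Finset.univ : Finset (Option (Fin p))).val).prod =
      ∏ i, (T - LFs k f p w₁ w₂ i) := by
    rw [Finset.prod]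
    congr 1
    refine Multiset.map_congr rfl fun j _ => ?_
    simp
  rw [← h3]
  refine h2.trans (Finset.sum_congr rfl fun i _ => ?_)
  rw [he i w₁ w₂ hw]
  simp only [Polynomial.eval_mul, Polynomial.eval_pow, Polynomial.eval_neg, Polynomial.eval_one,
    Polynomial.eval_C, Polynomial.eval_X, esy]
  ring

theorem eb_mul {k j : ℕ} (hk : Even k) (hj : 12 * j ≤ k) (h2 : k ≠ 12 * j + 2) (a b : ℂ) :
    a ^ (3 * j) * eb (k - 12 * j) a b = eb k a b := by
  unfold eb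
  have hm : (k - 12 * j) % 4 = k % 4 := by omega
  rw [hm]
  split_ifs with h
  · rw [← pow_add]
    congr 1
    omega
  · obtain ⟨l, hl⟩ := hk
    rw [← mul_assoc, ← pow_add]
    congr 2
    omega

theorem stEval (hS : StStruct) : StEval := by
  intro A J hJ k hk f hf w₁ w₂ ⟨hpos, h4, hj⟩
  obtain ⟨c, hc, hc2, hval, -⟩ := hS J k hk f hf
  refine ⟨∑ j ∈ Finset.range (k / 12 + 1), jv w₁ w₂ ^ j * c j, ?_, ?_⟩
  · exact sum_mem fun j _ => hJ _ (pow_mem hj j) _ (hc j)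
  · have hw2 := hpos.ne
    rw [LF_eq hpos, hval, Finset.mul_sum, Finset.sum_mul]
    refine Finset.sum_congr rfl fun j hjr => ?_
    rw [Finset.mem_range] at hjr
    by_cases h2 : k = 12 * j + 2
    · rw [hc2 j h2]; simp
    have hjk : 12 * j ≤ k := by omega
    rw [← eb_mul hk hjk h2]
    set τ : ℍ := ⟨w₁ / w₂, hpos⟩ with hτ
    have e4' : e4 w₁ w₂ = (w₂ ^ 4)⁻¹ * E₄ τ := LF_eq hpos
    have e6' : e6 w₁ w₂ = (w₂ ^ 6)⁻¹ * E₆ τ := LF_eq hpos
    have dl' : dl w₁ w₂ = (w₂ ^ 12)⁻¹ * discriminant τ := LF_eq hpos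
    have hd : dl w₁ w₂ = jv w₁ w₂ * e4 w₁ w₂ ^ 3 := by
      unfold jv
      field_simp
    have key : eb (k - 12 * j) (e4 w₁ w₂) (e6 w₁ w₂) =
        (w₂ ^ (k - 12 * j))⁻¹ * eb (k - 12 * j) (E₄ τ) (E₆ τ) := by
      rw [e4', e6']
      obtain ⟨l, hl⟩ := hk
      unfold eb
      split_ifs with h
      · rw [mul_pow, inv_pow, ← pow_mul]
        congr 3
        omega
      · rw [mul_pow, inv_pow, ← pow_mul]
        have : k - 12 * j = 4 * ((k - 12 * j - 6) / 4) + 6 := by omega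
        conv_rhs => rw [this, pow_add, mul_inv]
        have h4' : 4 * ((k - 12 * j - 6) / 4) + 6 - 6 = 4 * ((k - 12 * j - 6) / 4) := by omega
        rw [h4', Nat.mul_div_cancel_left _ (by norm_num : 0 < 4)]
        ring
    rw [key]
    have h5 : jv w₁ w₂ ^ j * e4 w₁ w₂ ^ (3 * j) = (w₂ ^ (12 * j))⁻¹ * discriminant τ ^ j := by
      rw [pow_mul, ← mul_pow, ← hd, dl', mul_pow, inv_pow, ← pow_mul]
    have h6 : (w₂ ^ k)⁻¹ = (w₂ ^ (12 * j))⁻¹ * (w₂ ^ (k - 12 * j))⁻¹ := by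
      rw [← mul_inv, ← pow_add]
      congr 2
      omega
    rw [h6]
    linear_combination (-(c j) * (w₂ ^ (k - 12 * j))⁻¹ * eb (k - 12 * j) (E₄ τ) (E₆ τ)) * h5

end

end Pool.Agent.Lib.MP_7c08ba_nt.RZC
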