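import Pool.Agent.Lib.MP_7c08ba_nt.RZ.StmtsC

set_option autoImplicit false

/-! (R5) good elements. -/

namespace Pool.Agent.Lib.MP_7c08ba_nt.RZC

section good

variable {S : Type} [CommRing S]

/-- elements of the form `F(x) + 2 ^ N z` -/
def goodRing (x : S) (N : ℕ) : Subring S where
  carrier := {s | ∃ (F : Polynomial ℤ) (z : S), s = Polynomial.aeval x F + 2 ^ N * z}
  mul_mem' := by
    rintro s t ⟨F, z, rfl⟩ ⟨G, w, rfl⟩
    refine ⟨F * G, Polynomial.aeval x F * w + z * Polynomial.aeval x G + 2 ^ N * z * w, ?_⟩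
    rw [map_mul]
    ring
  one_mem' := ⟨1, 0, by simp⟩
  add_mem' := by
    rintro s t ⟨F, z, rfl⟩ ⟨G, w, rfl⟩
    refine ⟨F + G, z + w, ?_⟩
    rw [map_add]
    ring
  zero_mem' := ⟨0, 0, by simp⟩
  neg_mem' := by
    rintro s ⟨F, z, rfl⟩
    refine ⟨-F, -z, ?_⟩
    rw [map_neg]
    ring

lemma good_iff {x : S} {N : ℕ} {s : S} : s ∈ goodRing x N ↔
    ∃ (F : Polynomial ℤ) (z : S), s = Polynomial.aeval x F + 2 ^ N * z := Iff.rfl

lemma good_x (x : S) (N : ℕ) : x ∈ goodRing x N := ⟨Polynomial.X, 0, by simp⟩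

lemma good_zero (x s : S) : s ∈ goodRing x 0 := ⟨0, s, by simp⟩

lemma good_two {x s : S} {N : ℕ} (h : s ∈ goodRing x N) : 2 * s ∈ goodRing x (N + 1) := by
  obtain ⟨F, z, rfl⟩ := good_iff.1 h
  refine good_iff.2 ⟨2 * F, z, ?_⟩
  rw [map_mul, map_ofNat, pow_succ]
  ring

lemma good_num (x : S) (N n : ℕ) : (n : S) ∈ goodRing x N := natCast_mem _ n

lemma good_y {x y : S} (h1 : x * (1 + 256 * y) ^ 3 = y) (N : ℕ) : y ∈ goodRing x N := by
  induction N with
  | zero => exact good_zero x y
  | succ N ih =>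
    have e : y = x + 2 * (x * (((384 : ℕ) : S) * y + ((98304 : ℕ) : S) * y ^ 2 +
        ((8388608 : ℕ) : S) * y ^ 3)) := by
      nth_rewrite 1 [← h1]
      push_cast
      ring
    rw [e]
    refine add_mem (good_x x _) (good_two ?_)
    refine mul_mem (good_x x N) (add_mem (add_mem ?_ ?_) ?_)
    · exact mul_mem (good_num x N _) ih
    · exact mul_mem (good_num x N _) (pow_mem ih 2)
    · exact mul_mem (good_num x N _) (pow_mem ih 3)

lemma good_Vx {x y v : S} (h1 : x * (1 + 256 * y) ^ 3 = y) (h2 : v * (1 + 16 * y) ^ 3 = y ^ 2)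
    (N : ℕ) : v ∈ goodRing x N := by
  induction N with
  | zero => exact good_zero x v
  | succ N ih =>
    have hy := good_y h1 N
    have e : v = y ^ 2 - 2 * (v * (((24 : ℕ) : S) * y + ((384 : ℕ) : S) * y ^ 2 +
        ((2048 : ℕ) : S) * y ^ 3)) := by
      push_cast
      linear_combination h2
    rw [e]
    refine sub_mem (pow_mem (good_y h1 _) 2) (good_two ?_)
    refine mul_mem ih (add_mem (add_mem ?_ ?_) ?_)
    · exact mul_mem (good_num x N _) hy
    · exact mul_mem (good_num x N _) (pow_mem hy 2)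
    · exact mul_mem (good_num x N _) (pow_mem hy 3)

lemma good_map {x y : S} (V : S →+* S) (h1 : x * (1 + 256 * y) ^ 3 = y)
    (h2 : V x * (1 + 16 * y) ^ 3 = y ^ 2) {N : ℕ} {s : S} (h : s ∈ goodRing x N) :
    V s ∈ goodRing x N := by
  obtain ⟨F, z, rfl⟩ := good_iff.1 h
  have hv := good_Vx h1 h2 N
  have hF : ∀ F : Polynomial ℤ, V (Polynomial.aeval x F) ∈ goodRing x N := by
    intro F
    induction F using Polynomial.induction_on' with
    | add p q hp hq =>
      rw [map_add, map_add]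
      exact add_mem hp hq
    | monomial n a =>
      rw [Polynomial.aeval_monomial, map_mul, map_pow]
      refine mul_mem ?_ (pow_mem hv n)
      have : V ((algebraMap ℤ S) a) = (a : S) := by
        rw [algebraMap_int_eq, eq_intCast, map_intCast]
      rw [this]
      exact intCast_mem _ a
  rw [map_add, map_mul, map_pow, map_ofNat]
  refine add_mem (hF F) (good_iff.2 ⟨0, V z, ?_⟩)
  rw [map_zero, zero_add]

end good

/-- (R5) good elements -/
theorem stGood : StGood := by
  intro S _ V x y a h1 h2 h3 N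
  rw [← good_iff]
  induction N with
  | zero => exact good_zero x a
  | succ N ih =>
    have hy := good_y h1 N
    have hy' := good_y h1 (N + 1)
    have hV := good_map V h1 h2 ih
    have e : a = 2 * (V a * (1 + ((16 : ℕ) : S) * y) ^ 2 * (1 - ((512 : ℕ) : S) * y) ^ 2 -
        a * (-(((4 : ℕ) : S) * y) - ((98304 : ℕ) : S) * y ^ 2 - ((15990784 : ℕ) : S) * y ^ 3 +
          ((134217728 : ℕ) : S) * y ^ 4)) -
        (1 - ((1728 : ℕ) : S) * x) * (1 + ((256 : ℕ) : S) * y) ^ 3 * (1 - ((8 : ℕ) : S) * y) := by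
      push_cast
      linear_combination h3
    rw [e]
    refine sub_mem (good_two (sub_mem ?_ ?_)) ?_
    · refine mul_mem (mul_mem hV (pow_mem (add_mem (one_mem _) ?_) 2)) (pow_mem (sub_mem (one_mem _) ?_) 2)
      · exact mul_mem (good_num x N _) hy
      · exact mul_mem (good_num x N _) hy
    · refine mul_mem ih (add_mem (sub_mem (sub_mem (neg_mem ?_) ?_) ?_) ?_)
      · exact mul_mem (good_num x N _) hy
      · exact mul_mem (good_num x N _) (pow_mem hy 2)
      · exact mul_mem (good_num x N _) (pow_mem hy 3)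
      · exact mul_mem (good_num x N _) (pow_mem hy 4)
    · refine mul_mem (mul_mem (sub_mem (one_mem _) ?_) (pow_mem (add_mem (one_mem _) ?_) 3)) (sub_mem (one_mem _) ?_)
      · exact mul_mem (good_num x _ _) (good_x x _)
      · exact mul_mem (good_num x _ _) hy'
      · exact mul_mem (good_num x _ _) hy'

end Pool.Agent.Lib.MP_7c08ba_nt.RZC
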