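import Pool.Agent.Lib.MP_7c08ba_nt.RZ.StmtsC

set_option autoImplicit false

/-! (W1) the values of the sums of inverse powers at half periods. -/

namespace Pool.Agent.Lib.MP_7c08ba_nt.RZC

open Filter Topology

namespace HalfM

variable (L : PeriodPair)

theorem hasDerivAt_P {z : ℂ} (hz : z ∉ L.lattice) :
    HasDerivAt L.weierstrassP (L.derivWeierstrassP z) z := by
  have h1 := (L.analyticOnNhd_weierstrassP z hz).differentiableAt.hasDerivAt
  rwa [L.deriv_weierstrassP] at h1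

theorem nhds_compl {z : ℂ} (hz : z ∉ L.lattice) : ∀ᶠ w in 𝓝 z, w ∉ L.lattice :=
  L.isClosed_lattice.isOpen_compl.mem_nhds hz

/-- the differentiated differential equation, multiplied by `℘'` -/
theorem ode_mul {z : ℂ} (hz : z ∉ L.lattice) :
    L.derivWeierstrassP z *
      (deriv L.derivWeierstrassP z - 6 * L.weierstrassP z ^ 2 + L.g₂ / 2) = 0 := by
  have h1 := hasDerivAt_P L hz
  have h2 := (L.analyticOnNhd_derivWeierstrassP z hz).differentiableAt.hasDerivAt
  have e : (fun w => L.derivWeierstrassP w ^ 2) =ᶠ[𝓝 z]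
      (fun w => 4 * L.weierstrassP w ^ 3 - L.g₂ * L.weierstrassP w - L.g₃) := by
    filter_upwards [nhds_compl L hz] with w hw
    exact L.derivWeierstrassP_sq w hw
  have h3 := (h2.pow 2).congr_of_eventuallyEq e.symm
  have h4 := (((h1.pow 3).const_mul 4).sub (h1.const_mul L.g₂)).sub_const L.g₃
  have h5 := h3.unique h4
  push_cast at h5
  linear_combination h5 / 2

/-- `℘'` is not zero near a point -/
theorem not_zero {z : ℂ} : ¬ ∀ᶠ w in 𝓝 z, L.derivWeierstrassP w = 0 := by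
  intro h
  have h1 : meromorphicOrderAt L.derivWeierstrassP z = ⊤ :=
    meromorphicOrderAt_eq_top_iff.mpr (h.filter_mono nhdsWithin_le_nhds)
  have h2 : meromorphicOrderAt L.derivWeierstrassP 0 = ⊤ := by
    by_contra hne
    exact (L.meromorphic_derivWeierstrassP.exists_meromorphicOrderAt_ne_top_iff_forall.mp
      ⟨0, hne⟩) z h1
  rw [meromorphicOrderAt_eq_top_iff] at h2
  have h3 : Tendsto L.weierstrassP (𝓝[≠] 0) (Bornology.cobounded ℂ) := by
    apply tendsto_cobounded_of_meromorphicOrderAt_neg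
    rw [L.order_weierstrassP 0 (zero_mem _)]
    decide
  have h4 := (tendsto_norm_cobounded_atTop.comp h3).eventually_gt_atTop (1 + ‖L.g₂‖ + ‖L.g₃‖)
  have h5 : ∀ᶠ w in 𝓝[≠] (0 : ℂ), w ∉ L.lattice := by
    filter_upwards [self_mem_nhdsWithin, mem_nhdsWithin_of_mem_nhds
      (L.compl_lattice_sdiff_singleton_mem_nhds 0)] with w hw hw' hL
    exact hw' ⟨hL, hw⟩
  obtain ⟨w, w1, w2, w3⟩ := (h2.and (h4.and h5)).exists
  have h6 := L.derivWeierstrassP_sq w w3
  rw [w1] at h6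
  set x := L.weierstrassP w with hx
  have w2' : 1 + ‖L.g₂‖ + ‖L.g₃‖ < ‖x‖ := w2
  have h7 : 4 * x ^ 3 = L.g₂ * x + L.g₃ := by linear_combination -h6
  have h8 : 4 * ‖x‖ ^ 3 ≤ ‖L.g₂‖ * ‖x‖ + ‖L.g₃‖ := by
    calc 4 * ‖x‖ ^ 3 = ‖4 * x ^ 3‖ := by rw [norm_mul, norm_pow]; norm_num
      _ = ‖L.g₂ * x + L.g₃‖ := by rw [h7]
      _ ≤ ‖L.g₂‖ * ‖x‖ + ‖L.g₃‖ := by
        refine (norm_add_le _ _).trans ?_
        rw [norm_mul]
  have g2 := norm_nonneg L.g₂
  have g3 := norm_nonneg L.g₃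
  have x1 : 1 < ‖x‖ := by linarith
  have x2 : ‖L.g₃‖ ≤ ‖L.g₃‖ * ‖x‖ := by nlinarith
  have x3 : 4 * ‖x‖ ^ 3 ≤ (‖L.g₂‖ + ‖L.g₃‖) * ‖x‖ := by nlinarith
  have x4 : 4 * ‖x‖ ^ 2 ≤ ‖L.g₂‖ + ‖L.g₃‖ := by
    have : (4 * ‖x‖ ^ 2) * ‖x‖ ≤ (‖L.g₂‖ + ‖L.g₃‖) * ‖x‖ := by nlinarith
    exact le_of_mul_le_mul_right this (by linarith)
  nlinarith

/-- `℘'' = 6 ℘² - g₂/2` -/
theorem ode2 {z : ℂ} (hz : z ∉ L.lattice) :
    deriv L.derivWeierstrassP z = 6 * L.weierstrassP z ^ 2 - L.g₂ / 2 := by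
  have a1 := L.analyticOnNhd_derivWeierstrassP z hz
  have a2 := L.analyticOnNhd_weierstrassP z hz
  have h1 := a1.eventually_eq_zero_or_eventually_ne_zero.resolve_left (not_zero L)
  have h2 : AnalyticAt ℂ (fun w => deriv L.derivWeierstrassP w - 6 * L.weierstrassP w ^ 2 +
      L.g₂ / 2) z := by
    have := a1.deriv
    fun_prop
  have h3 : ∀ᶠ w in 𝓝[≠] z, deriv L.derivWeierstrassP w - 6 * L.weierstrassP w ^ 2 +
      L.g₂ / 2 = 0 := by
    filter_upwards [h1, (nhds_compl L hz).filter_mono nhdsWithin_le_nhds] with w w1 w2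
    exact (mul_eq_zero.mp (ode_mul L w2)).resolve_left w1
  have h4 := (h2.frequently_zero_iff_eventually_zero.mp h3.frequently).self_of_nhds
  linear_combination h4

end HalfM

open HalfM in
/-- (W1) values at half periods -/
theorem stHalf : StHalf := by
  intro L h hh h2
  have e1 : L.derivWeierstrassP h = 0 := by
    have h3 := L.derivWeierstrassP_sub_coe h ⟨2 * h, h2⟩
    have h4 : h - ((⟨2 * h, h2⟩ : L.lattice) : ℂ) = -h := by
      change h - 2 * h = -h
      ring
    rw [h4, L.derivWeierstrassP_neg] at h3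
    linear_combination -h3 / 2
  have e2 := L.derivWeierstrassP_sq h hh
  rw [e1] at e2
  have e3 : ∀ n : ℕ, n ≠ 0 → iteratedDeriv n L.weierstrassP h =
      ((n + 1).factorial : ℂ) * L.sumInvPow h (n + 2) := by
    intro n hn
    have h3 := L.iteratedDeriv_weierstrassPExcept_self h (n := n)
    rwa [if_neg hn, L.weierstrassPExcept_of_notMem h hh] at h3
  have d2 : iteratedDeriv 2 L.weierstrassP =
      deriv L.derivWeierstrassP := by
    rw [iteratedDeriv_succ, iteratedDeriv_one, L.deriv_weierstrassP]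
  have e4 : iteratedDeriv 2 L.weierstrassP h = 6 * L.weierstrassP h ^ 2 - L.g₂ / 2 := by
    rw [d2, ode2 L hh]
  have f1 : ∀ z, z ∉ L.lattice → HasDerivAt (deriv L.derivWeierstrassP)
      (12 * L.weierstrassP z * L.derivWeierstrassP z) z := by
    intro z hz
    have h3 := (((hasDerivAt_P L hz).pow 2).const_mul 6).sub_const (L.g₂ / 2)
    have h4 : deriv L.derivWeierstrassP =ᶠ[𝓝 z] fun w => 6 * L.weierstrassP w ^ 2 - L.g₂ / 2 := by
      filter_upwards [nhds_compl L hz] with w hw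
      exact ode2 L hw
    refine (h3.congr_of_eventuallyEq h4).congr_deriv ?_
    push_cast
    ring
  have e5 : iteratedDeriv 4 L.weierstrassP h =
      12 * L.weierstrassP h * (6 * L.weierstrassP h ^ 2 - L.g₂ / 2) := by
    rw [iteratedDeriv_succ, iteratedDeriv_succ, d2]
    have h3 : deriv (deriv L.derivWeierstrassP) =ᶠ[𝓝 h]
        fun w => 12 * L.weierstrassP w * L.derivWeierstrassP w := by
      filter_upwards [nhds_compl L hh] with w hw
      exact (f1 w hw).deriv
    rw [h3.deriv_eq]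
    have h4 := ((hasDerivAt_P L hh).const_mul 12).mul
      (L.analyticOnNhd_derivWeierstrassP h hh).differentiableAt.hasDerivAt
    rw [ode2 L hh, e1] at h4
    have h5 := h4.deriv
    rw [mul_zero, zero_add] at h5
    exact h5
  have g1 := e3 2 (by norm_num)
  have g2 := e3 4 (by norm_num)
  rw [e4] at g1
  rw [e5] at g2
  norm_num [Nat.factorial] at g1 g2
  refine ⟨by linear_combination -e2, ?_, ?_⟩
  · linear_combination -g1 / 6
  · linear_combination -g2 / 120

end Pool.Agent.Lib.MP_7c08ba_nt.RZC
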