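import Pool.Agent.Lib.MP_7c08ba_nt.RZ.Basic

set_option autoImplicit false

/-! (H1) the Hecke operator `T_p` in level one. -/

namespace Pool.Agent.Lib.MP_7c08ba_nt.RZC

open UpperHalfPlane ModularForm EisensteinSeries MatrixGroups NumberField
open scoped Real Manifold ComplexConjugate

noncomputable section

namespace HeckeAux

theorem sub_smul (p : ℕ) (c w₁ w₂ : ℂ) (i : Option (Fin p)) :
    sub p (c * w₁) (c * w₂) i = (c * (sub p w₁ w₂ i).1, c * (sub p w₁ w₂ i).2) := by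
  rcases i with _ | b
  · simp only [sub]
    ext
    · simp
      ring
    · simp
  · simp only [sub]
    ext
    · simp
      ring
    · simp
      ring

theorem LFs_smul {k p : ℕ} {F : ℍ → ℂ} {c w₁ w₂ : ℂ} (hc : c ≠ 0) (i : Option (Fin p)) :
    LFs k F p (c * w₁) (c * w₂) i = (c ^ k)⁻¹ * LFs k F p w₁ w₂ i := by
  unfold LFs
  rw [sub_smul]
  exact LF_smul hc

theorem pos_sub {p : ℕ} (hp : 0 < p) {w₁ w₂ : ℂ} (h : Pos w₁ w₂) (i : Option (Fin p)) :
    Pos (sub p w₁ w₂ i).1 (sub p w₁ w₂ i).2 := by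
  have hp' : (0 : ℝ) < p := by exact_mod_cast hp
  have h2 := h.ne
  rcases i with _ | b
  · show Pos ((p : ℂ) * w₁) w₂
    unfold Pos at *
    rw [mul_div_assoc, ← Complex.ofReal_natCast, Complex.im_ofReal_mul]
    exact mul_pos hp' h
  · show Pos (w₁ + (b : ℕ) * w₂) ((p : ℂ) * w₂)
    unfold Pos at *
    have e : (w₁ + (b : ℕ) * w₂) / ((p : ℂ) * w₂) =
        ((p : ℝ)⁻¹ : ℝ) * (w₁ / w₂ + ((b : ℕ) : ℂ)) := by
      have : (p : ℂ) ≠ 0 := by exact_mod_cast hp.ne'
      push_cast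
      field_simp
    rw [e, Complex.im_ofReal_mul]
    apply mul_pos (by positivity)
    simpa using h

/-- the function `T_p f` -/
def G (k p : ℕ) (F : ℍ → ℂ) (τ : ℍ) : ℂ := (p : ℂ) ^ (k - 1) * ∑ i, LFs k F p τ 1 i

theorem LF_G {k p : ℕ} {F : ℍ → ℂ} {w₁ w₂ : ℂ} (h : Pos w₁ w₂) :
    LF k (G k p F) w₁ w₂ = (p : ℂ) ^ (k - 1) * ∑ i, LFs k F p w₁ w₂ i := by
  have h2 := h.ne
  rw [LF_eq h, G, mul_left_comm]
  congr 1
  rw [Finset.mul_sum]
  refine Finset.sum_congr rfl fun i _ => ?_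
  rw [← LFs_smul h2]
  have e : w₂ * (w₁ / w₂) = w₁ := by field_simp
  show LFs k F p (w₂ * (w₁ / w₂)) (w₂ * 1) i = _
  rw [e, mul_one]

/-- the `i`-th argument -/
def ar (p : ℕ) (i : Option (Fin p)) (z : ℂ) : ℂ := (sub p z 1 i).1 / (sub p z 1 i).2

theorem LFs_one {k p : ℕ} {F : ℍ → ℂ} (z : ℂ) (i : Option (Fin p)) :
    LFs k F p z 1 i = ((sub p 0 1 i).2 ^ k)⁻¹ * F (ofComplex (ar p i z)) := by
  rcases i with _ | b <;> rfl

theorem ar_im {p : ℕ} (hp : 0 < p) (i : Option (Fin p)) {z : ℂ} (hz : 0 < z.im) :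
    z.im / p ≤ (ar p i z).im := by
  have hp' : (1 : ℝ) ≤ p := by exact_mod_cast hp
  rcases i with _ | b
  · show z.im / p ≤ ((p : ℂ) * z / 1).im
    rw [div_one, ← Complex.ofReal_natCast, Complex.im_ofReal_mul, div_le_iff₀ (by linarith)]
    nlinarith [mul_pos hz (by linarith : (0 : ℝ) < p)]
  · show z.im / p ≤ ((z + (b : ℕ) * 1) / ((p : ℂ) * 1)).im
    have e : (z + (b : ℕ) * 1) / ((p : ℂ) * 1) = ((p : ℝ)⁻¹ : ℝ) * (z + ((b : ℕ) : ℂ)) := by
      have : (p : ℂ) ≠ 0 := by exact_mod_cast hp.ne'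
      push_cast
      field_simp
    rw [e, Complex.im_ofReal_mul]
    apply le_of_eq
    simp
    ring

theorem ar_diff {p : ℕ} (i : Option (Fin p)) : Differentiable ℂ (ar p i) := by
  rcases i with _ | b
  · show Differentiable ℂ (fun z : ℂ => (p : ℂ) * z / 1)
    fun_prop
  · show Differentiable ℂ (fun z : ℂ => (z + (b : ℕ) * 1) / ((p : ℂ) * 1))
    fun_prop

theorem mdiff_G {k p : ℕ} (hp : 0 < p) {F : ℍ → ℂ} (hF : MDiff F) : MDiff (G k p F) := by
  have hp' : (0 : ℝ) < p := by exact_mod_cast hp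
  rw [UpperHalfPlane.mdifferentiable_iff] at hF ⊢
  have h1 : DifferentiableOn ℂ (fun z : ℂ => (p : ℂ) ^ (k - 1) *
      ∑ i : Option (Fin p), ((sub p 0 1 i).2 ^ k)⁻¹ * (F ∘ ofComplex) (ar p i z))
      {z | 0 < z.im} := by
    apply DifferentiableOn.const_mul
    apply DifferentiableOn.fun_sum
    intro i _
    apply DifferentiableOn.const_mul
    refine hF.comp (ar_diff i).differentiableOn fun z hz => ?_
    have := ar_im hp i hz
    have h2 : 0 < z.im / p := div_pos hz hp'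
    exact lt_of_lt_of_le h2 this
  refine h1.congr fun z hz => ?_
  have e : ((ofComplex z : ℍ) : ℂ) = z := ofComplex_apply_of_im_pos hz ▸ rfl
  show (p : ℂ) ^ (k - 1) * ∑ i, LFs k F p (ofComplex z : ℍ) 1 i = _
  rw [e]
  congr 1
  refine Finset.sum_congr rfl fun i _ => ?_
  rw [LFs_one]
  rfl

theorem bdd_G {k p : ℕ} (hp : 0 < p) {F : ℍ → ℂ} (hF : IsBoundedAtImInfty F) :
    IsBoundedAtImInfty (G k p F) := by
  have hp' : (0 : ℝ) < p := by exact_mod_cast hp
  rw [isBoundedAtImInfty_iff] at hF ⊢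
  obtain ⟨M, A, hM⟩ := hF
  refine ⟨‖(p : ℂ) ^ (k - 1)‖ * ∑ i : Option (Fin p), ‖((sub p 0 1 i).2 ^ k)⁻¹‖ * M,
    p * A, fun τ hτ => ?_⟩
  rw [G, norm_mul]
  apply mul_le_mul_of_nonneg_left _ (norm_nonneg _)
  refine (norm_sum_le _ _).trans (Finset.sum_le_sum fun i _ => ?_)
  rw [LFs_one, norm_mul]
  apply mul_le_mul_of_nonneg_left _ (norm_nonneg _)
  apply hM
  have h1 := ar_im hp i (z := (τ : ℂ)) τ.im_pos
  have h2 : 0 < (ar p i (τ : ℂ)).im := lt_of_lt_of_le (div_pos τ.im_pos hp') h1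
  have h3 : (ofComplex (ar p i (τ : ℂ))).im = (ar p i (τ : ℂ)).im := by
    rw [ofComplex_apply_of_im_pos h2]
    rfl
  rw [h3]
  refine le_trans ?_ h1
  rw [le_div_iff₀ hp', mul_comm]
  exact hτ

/-- the sum over the roots of unity -/
theorem root_sum {p : ℕ} (hp : p.Prime) (n : ℕ) :
    ∑ b : Fin p, Complex.exp (2 * π * Complex.I * ((b : ℕ) : ℂ) / p) ^ n =
      if p ∣ n then (p : ℂ) else 0 := by
  have hp0 : p ≠ 0 := hp.ne_zero
  have hpC : (p : ℂ) ≠ 0 := by exact_mod_cast hp0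
  set ζ : ℂ := Complex.exp (2 * π * Complex.I / p) with hζ
  have hprim : IsPrimitiveRoot ζ p := Complex.isPrimitiveRoot_exp p hp0
  have e1 : ∀ b : Fin p, Complex.exp (2 * π * Complex.I * ((b : ℕ) : ℂ) / p) ^ n =
      (ζ ^ n) ^ (b : ℕ) := by
    intro b
    rw [hζ, ← Complex.exp_nat_mul, ← Complex.exp_nat_mul, ← Complex.exp_nat_mul]
    congr 1
    ring
  rw [Finset.sum_congr rfl fun b _ => e1 b, Fin.sum_univ_eq_sum_range (fun b => (ζ ^ n) ^ b) p]
  split_ifs with h
  · rw [(hprim.pow_eq_one_iff_dvd n).mpr h]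
    simp
  · have h1 : ζ ^ n ≠ 1 := fun h2 => h ((hprim.pow_eq_one_iff_dvd n).mp h2)
    have h3 : (ζ ^ n) ^ p = 1 := by
      rw [← pow_mul, mul_comm, pow_mul, hprim.pow_eq_one, one_pow]
    rw [geom_sum_eq h1, h3, sub_self, zero_div]

end HeckeAux

open HeckeAux

theorem stHecke (h1 : StLat) (h2 : StMk) (h3 : StPerm) : StHecke := by
  intro p hp k hk f
  have hp0 : 0 < p := hp.pos
  have hpC : (p : ℂ) ≠ 0 := by exact_mod_cast hp0.ne'
  obtain ⟨g, hg⟩ := h2 k (G k p f) (mdiff_G hp0 (ModularFormClass.holo f)) (by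
    intro w₁ w₂ v₁ v₂ hw hv hl
    obtain ⟨σ, hσ⟩ := h3 p hp w₁ w₂ v₁ v₂ hw hv hl
    rw [LF_G hw, LF_G hv]
    congr 1
    rw [← Equiv.sum_comp σ (fun i => LFs k (f : ℍ → ℂ) p v₁ v₂ i)]
    refine Finset.sum_congr rfl fun i _ => ?_
    exact (h1 k f _ _ _ _ (pos_sub hp0 hv (σ i)) (pos_sub hp0 hw i) (hσ i)).symm)
    (bdd_G hp0 (ModularFormClass.bdd_at_infty f))
  refine ⟨g, ?_, fun w₁ w₂ hw => ?_⟩
  · intro n
    refine (ModularFormClass.qExpansion_coeff_unique (f := g) (c := fun n =>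
      cf f (p * n) + if p ∣ n then (p : ℂ) ^ (k - 1) * cf f (n / p) else 0)
      one_pos one_mem_strictPeriods_SL ?_ n).symm
    intro τ
    have hf : ∀ τ : ℍ, HasSum (fun m => cf f m * Complex.exp (2 * π * Complex.I * (τ : ℂ)) ^ m)
        (f τ) := by
      intro τ
      have := ModularForm.hasSum_qExpansion (f := f) one_pos one_mem_strictPeriods_SL τ
      simpa [Function.Periodic.qParam] using this
    have hval : ∀ (i : Option (Fin p)), ∃ τ' : ℍ, (τ' : ℂ) = ar p i (τ : ℂ) ∧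
        ofComplex (ar p i (τ : ℂ)) = τ' := by
      intro i
      have hpos : 0 < (ar p i (τ : ℂ)).im :=
        lt_of_lt_of_le (div_pos τ.im_pos (by exact_mod_cast hp0)) (ar_im hp0 i τ.im_pos)
      exact ⟨⟨ar p i (τ : ℂ), hpos⟩, rfl, ofComplex_apply_of_im_pos hpos⟩
    set q : ℂ := Complex.exp (2 * π * Complex.I * (τ : ℂ)) with hq
    have hinj : Function.Injective (fun m : ℕ => p * m) := fun a b hab =>
      Nat.eq_of_mul_eq_mul_left hp0 hab
    -- the term `f(p τ)`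
    have s1 : HasSum (fun n : ℕ => if p ∣ n then cf f (n / p) * q ^ n else 0)
        (f (ofComplex (ar p none (τ : ℂ)))) := by
      obtain ⟨τ', e1, e2⟩ := hval none
      rw [e2]
      refine (hinj.hasSum_iff ?_).mp ?_
      · intro n hn
        rw [if_neg]
        rintro ⟨m, rfl⟩
        exact hn ⟨m, rfl⟩
      · have e3 := hf τ'
        have e4 : Complex.exp (2 * π * Complex.I * (τ' : ℂ)) = q ^ p := by
          rw [e1, hq, ← Complex.exp_nat_mul]
          congr 1
          show 2 * π * Complex.I * ((p : ℂ) * (τ : ℂ) / 1) = _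
          ring
        rw [e4] at e3
        refine e3.congr_fun ?_
        intro m
        simp only [Function.comp_apply]
        rw [if_pos (Dvd.intro m rfl), Nat.mul_div_cancel_left m hp0, ← pow_mul]
    -- the terms `f((τ + b) / p)`
    set Q : ℂ := Complex.exp (2 * π * Complex.I * (τ : ℂ) / p) with hQ
    have hQp : Q ^ p = q := by
      rw [hQ, hq, ← Complex.exp_nat_mul]
      congr 1
      field_simp
    have s2 : HasSum (fun n : ℕ => (p : ℂ) * cf f (p * n) * q ^ n)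
        (∑ b : Fin p, f (ofComplex (ar p (some b) (τ : ℂ)))) := by
      have e5 : HasSum (fun n : ℕ => ∑ b : Fin p, cf f n *
          (Q * Complex.exp (2 * π * Complex.I * ((b : ℕ) : ℂ) / p)) ^ n)
          (∑ b : Fin p, f (ofComplex (ar p (some b) (τ : ℂ)))) := by
        apply hasSum_sum
        intro b _
        obtain ⟨τ', e1, e2⟩ := hval (some b)
        rw [e2]
        have e3 := hf τ'
        have e4 : Complex.exp (2 * π * Complex.I * (τ' : ℂ)) =
            Q * Complex.exp (2 * π * Complex.I * ((b : ℕ) : ℂ) / p) := by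
          rw [e1, hQ, ← Complex.exp_add]
          congr 1
          show 2 * π * Complex.I * (((τ : ℂ) + (b : ℕ) * 1) / ((p : ℂ) * 1)) = _
          field_simp
        rw [e4] at e3
        exact e3
      have e6 : (fun n : ℕ => ∑ b : Fin p, cf f n *
          (Q * Complex.exp (2 * π * Complex.I * ((b : ℕ) : ℂ) / p)) ^ n) =
          fun n : ℕ => cf f n * Q ^ n * (if p ∣ n then (p : ℂ) else 0) := by
        funext n
        rw [← root_sum hp n, Finset.mul_sum]
        refine Finset.sum_congr rfl fun b _ => ?_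
        rw [mul_pow]
        ring
      rw [e6] at e5
      have e7 := (hinj.hasSum_iff (f := fun n : ℕ => cf f n * Q ^ n *
        (if p ∣ n then (p : ℂ) else 0)) (by
          intro n hn
          rw [if_neg, mul_zero]
          rintro ⟨m, rfl⟩
          exact hn ⟨m, rfl⟩)).mpr e5
      refine e7.congr_fun ?_
      intro n
      simp only [Function.comp_apply]
      rw [if_pos (Dvd.intro n rfl), pow_mul, hQp]
      ring
    have s3 := (s1.add (s2.mul_left ((p : ℂ) ^ k)⁻¹)).mul_left ((p : ℂ) ^ (k - 1))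
    have e8 : (p : ℂ) ^ (k - 1) * (f (ofComplex (ar p none (τ : ℂ))) + ((p : ℂ) ^ k)⁻¹ *
        ∑ b : Fin p, f (ofComplex (ar p (some b) (τ : ℂ)))) = g τ := by
      rw [show (g : ℍ → ℂ) τ = G k p f τ by rw [hg], G, Fintype.sum_option]
      congr 2
      · rw [LFs_one]
        show _ = ((1 : ℂ) ^ k)⁻¹ * _
        rw [one_pow, inv_one, one_mul]
      · rw [Finset.mul_sum]
        refine Finset.sum_congr rfl fun b _ => ?_
        rw [LFs_one]
        show _ = (((p : ℂ) * 1) ^ k)⁻¹ * _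
        rw [mul_one]
    rw [e8] at s3
    refine s3.congr_fun ?_
    intro n
    have e9 : Function.Periodic.qParam (1 : ℝ) (τ : ℂ) = q := by
      simp [Function.Periodic.qParam, hq]
    rw [e9, smul_eq_mul]
    have hpk : (p : ℂ) ^ k = (p : ℂ) ^ (k - 1) * p := by
      rw [← pow_succ, Nat.sub_add_cancel hk]
    have hp1 : (p : ℂ) ^ (k - 1) ≠ 0 := pow_ne_zero _ hpC
    rw [hpk]
    split_ifs
    · field_simp
      ring
    · field_simp
      ring
  · rw [hg, LF_G hw]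

end

end Pool.Agent.Lib.MP_7c08ba_nt.RZC
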