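import Pool.Agent.Lib.MP_7c08ba_nt.RZ.Basic

set_option autoImplicit false

/-! (G1) the coefficients of a normalised eigenform of level one are in every valuation ring. -/

namespace Pool.Agent.Lib.MP_7c08ba_nt.RZC

open UpperHalfPlane ModularForm EisensteinSeries MatrixGroups NumberField
open scoped Real Manifold ComplexConjugate

noncomputable section

namespace IntAux

/-- power series with coefficients in `A` -/
def SA (A : ValuationSubring ℂ) : Subring (PowerSeries ℂ) := (PowerSeries.map A.subtype).range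

theorem coeff_mem {A : ValuationSubring ℂ} {g : PowerSeries ℂ} (hg : g ∈ SA A) (n : ℕ) :
    g.coeff n ∈ A := by
  obtain ⟨h, rfl⟩ := hg
  rw [PowerSeries.coeff_map]
  exact (h.coeff n).2

theorem toC_mem (A : ValuationSubring ℂ) (g : PowerSeries ℤ) : toC g ∈ SA A := by
  refine ⟨g.map (Int.castRingHom A), ?_⟩
  ext n
  simp [toC, PowerSeries.coeff_map]

theorem C_mem {A : ValuationSubring ℂ} {a : ℂ} (ha : a ∈ A) : PowerSeries.C a ∈ SA A :=
  ⟨PowerSeries.C ⟨a, ha⟩, by rw [PowerSeries.map_C]; rfl⟩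

theorem eb_mem (A : ValuationSubring ℂ) (k : ℕ) : eb k (toC Q4) (toC R6) ∈ SA A := by
  unfold eb
  split_ifs
  · exact pow_mem (toC_mem A _) _
  · exact mul_mem (pow_mem (toC_mem A _) _) (toC_mem A _)

theorem sg_zero (k : ℕ) : (sg k).constantCoeff = 0 := by
  rw [← PowerSeries.coeff_zero_eq_constantCoeff_apply]
  simp [sg]

theorem Q4_zero : (toC Q4).constantCoeff = 1 := by
  have : Q4.constantCoeff = 1 := by
    rw [Q4, map_add, map_mul, sg_zero, mul_zero, add_zero, map_one]
  rw [← PowerSeries.coeff_zero_eq_constantCoeff_apply, PowerSeries.coeff_map,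
    PowerSeries.coeff_zero_eq_constantCoeff_apply, this]
  simp

theorem R6_zero : (toC R6).constantCoeff = 1 := by
  have : R6.constantCoeff = 1 := by
    rw [R6, map_sub, map_mul, sg_zero, mul_zero, sub_zero, map_one]
  rw [← PowerSeries.coeff_zero_eq_constantCoeff_apply, PowerSeries.coeff_map,
    PowerSeries.coeff_zero_eq_constantCoeff_apply, this]
  simp

theorem eb_zero (k : ℕ) : (eb k (toC Q4) (toC R6)).constantCoeff = 1 := by
  unfold eb
  split_ifs
  · rw [map_pow, Q4_zero, one_pow]
  · rw [map_mul, map_pow, Q4_zero, one_pow, R6_zero, one_mul]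

/-- triangular systems -/
theorem triang {N : ℕ} {D : PowerSeries ℂ} (hD0 : D.coeff 0 = 0) (hD1 : D.coeff 1 = 1)
    {u : ℕ → PowerSeries ℂ} (hu : ∀ j, (u j).constantCoeff = 1) {b : ℕ → ℂ}
    (h : ∑ j ∈ Finset.range N, PowerSeries.C (b j) * D ^ j * u j = 0) :
    ∀ j < N, b j = 0 := by
  rw [PowerSeries.coeff_zero_eq_constantCoeff_apply] at hD0
  obtain ⟨D', rfl⟩ := PowerSeries.X_dvd_iff.2 hD0
  have hD' : D'.constantCoeff = 1 := by
    have h1 := PowerSeries.coeff_succ_X_mul 0 D'
    rw [zero_add, hD1, PowerSeries.coeff_zero_eq_constantCoeff_apply] at h1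
    exact h1.symm
  have key : ∀ i j : ℕ, (PowerSeries.C (b i) * (PowerSeries.X * D') ^ i * u i).coeff j =
      if i ≤ j then (PowerSeries.C (b i) * D' ^ i * u i).coeff (j - i) else 0 := by
    intro i j
    rw [← PowerSeries.coeff_X_pow_mul']
    congr 1
    ring
  intro j
  induction j using Nat.strong_induction_on with
  | _ j ih =>
    intro hj
    have h1 := congrArg (fun g : PowerSeries ℂ => g.coeff j) h
    simp only [map_sum, map_zero] at h1
    rw [Finset.sum_eq_single j] at h1
    · rw [key, if_pos le_rfl, Nat.sub_self, PowerSeries.coeff_zero_eq_constantCoeff_apply,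
        map_mul, map_mul, map_pow, hu, hD', one_pow, mul_one, mul_one,
        PowerSeries.constantCoeff_C] at h1
      exact h1
    · intro i _ hij
      rcases lt_or_gt_of_ne hij with h2 | h2
      · rw [ih i h2 (h2.trans hj)]
        simp
      · rw [key, if_neg (by omega)]
    · intro h2
      exact absurd (Finset.mem_range.2 hj) h2

theorem weight_ge {w : ℕ} {f : CuspForm 𝒮ℒ (w : ℤ)} (hf : cf f 1 = 1) : 12 ≤ w ∧ Even w := by
  have hne : f ≠ 0 := by
    rintro rfl
    simp [cf, qExpansion_zero] at hf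
  constructor
  · by_contra h
    have := rank_zero_iff_forall_zero.1 (CuspForm.rank_eq_zero_of_weight_lt_twelve
      (k := (w : ℤ)) (by omega)) f
    exact hne this
  · by_contra h
    rw [Nat.not_even_iff_odd] at h
    have h1 := ModularForm.levelOne_odd_weight_eq_zero (k := (w : ℤ)) (by exact_mod_cast h)
      (CuspForm.toModularFormₗ f)
    apply hne
    ext τ
    have := congrArg (fun g : ModularForm 𝒮ℒ (w : ℤ) => g τ) h1
    simpa using this

end IntAux

open IntAux

theorem stInt (h1 : StHecke) (h2 : StStruct) (h3 : StEis) : StInt := by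
  intro A w f hf
  obtain ⟨hw12, hwe⟩ := weight_ge hf.1
  obtain ⟨-, hD0, hD1, -, -, -⟩ := h3
  have hD0' : (toC D12).coeff 0 = 0 := by
    rw [PowerSeries.coeff_map, hD0, map_zero]
  have hD1' : (toC D12).coeff 1 = 1 := by
    rw [PowerSeries.coeff_map, hD1, map_one]
  let F : ModularForm 𝒮ℒ (w : ℤ) := CuspForm.toModularFormₗ f
  have hF : (F : ℍ → ℂ) = f := rfl
  have hf0 : cf f 0 = 0 :=
    CuspFormClass.qExpansion_coeff_zero f one_pos one_mem_strictPeriods_SL
  obtain ⟨c, -, -, -, hcq⟩ := h2 ⊤ w hwe F (fun n => AddSubgroup.mem_top _)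
  rw [hF] at hcq
  have hex : ∃ j ∈ Finset.range (w / 12 + 1), c j ≠ 0 := by
    by_contra hno
    push Not at hno
    have h4 : qExpansion 1 (f : ℍ → ℂ) = 0 := by
      rw [hcq]
      refine Finset.sum_eq_zero fun j hj => ?_
      rw [hno j hj]
      simp
    have h5 := hf.1
    rw [cf, h4] at h5
    simp at h5
  obtain ⟨j0, hj0, hmax⟩ := Finset.exists_max_image (Finset.range (w / 12 + 1))
    (fun j => A.valuation (c j)) ⟨0, by simp⟩
  have hcj0 : c j0 ≠ 0 := by
    intro h0
    obtain ⟨j, hj, hcj⟩ := hex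
    have h4 := hmax j hj
    simp only [h0, map_zero] at h4
    exact hcj ((map_eq_zero A.valuation).1 (le_antisymm h4 zero_le))
  have hcA : ∀ j ∈ Finset.range (w / 12 + 1), (c j0)⁻¹ * c j ∈ A := by
    intro j hj
    rw [← A.valuation_le_one_iff, map_mul, map_inv₀]
    have h4 := hmax j hj
    have h5 : A.valuation (c j0) ≠ 0 := (Valuation.ne_zero_iff _).2 hcj0
    calc (A.valuation (c j0))⁻¹ * A.valuation (c j)
        ≤ (A.valuation (c j0))⁻¹ * A.valuation (c j0) := mul_le_mul_right h4 _
      _ = 1 := inv_mul_cancel₀ h5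
  let g : ModularForm 𝒮ℒ (w : ℤ) := (c j0)⁻¹ • F
  have hg : qExpansion 1 (g : ℍ → ℂ) = (c j0)⁻¹ • qExpansion 1 (f : ℍ → ℂ) := by
    have h4 : (g : ℍ → ℂ) = (c j0)⁻¹ • (F : ℍ → ℂ) := rfl
    rw [h4, ModularForm.qExpansion_smul one_pos one_mem_strictPeriods_SL (c j0)⁻¹ F, hF]
  have hgc : ∀ n, cf g n = (c j0)⁻¹ * cf f n := by
    intro n
    rw [cf, hg, PowerSeries.coeff_smul, smul_eq_mul]
  have hgq : qExpansion 1 (g : ℍ → ℂ) = ∑ j ∈ Finset.range (w / 12 + 1),
      PowerSeries.C ((c j0)⁻¹ * c j) * toC D12 ^ j * eb (w - 12 * j) (toC Q4) (toC R6) := by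
    rw [hg, hcq, Finset.smul_sum]
    refine Finset.sum_congr rfl fun j _ => ?_
    rw [PowerSeries.smul_eq_C_mul, map_mul]
    ring
  have hgA : ∀ n, cf g n ∈ A := by
    intro n
    have h4 : qExpansion 1 (g : ℍ → ℂ) ∈ SA A := by
      rw [hgq]
      exact sum_mem fun j hj => mul_mem (mul_mem (C_mem (hcA j hj)) (pow_mem (toC_mem A _) _))
        (eb_mem A _)
    exact coeff_mem h4 n
  -- eigenvalues
  have hprime : ∀ p : ℕ, p.Prime → cf f p ∈ A := by
    intro p hp
    obtain ⟨h, hh, -⟩ := h1 p hp w (by omega) g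
    have hhA : ∀ n, cf h n ∈ A := by
      intro n
      rw [hh n]
      refine A.add_mem _ _ (hgA _) ?_
      split_ifs
      · exact A.mul_mem _ _ (pow_mem (nat_mem p) _) (hgA _)
      · exact A.zero_mem
    have hh2 : qExpansion 1 (h : ℍ → ℂ) = PowerSeries.C (cf f p) * qExpansion 1 (g : ℍ → ℂ) := by
      ext n
      rw [PowerSeries.coeff_C_mul]
      have h4 := hh n
      have h5 := hgc n
      simp only [cf] at h4 h5 ⊢
      rw [h4]
      rcases Nat.eq_zero_or_pos n with rfl | hn
      · have h6 : (qExpansion 1 (g : ℍ → ℂ)).coeff 0 = 0 := by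
          have := hgc 0
          rw [hf0, mul_zero] at this
          exact this
        simp [h6]
      · have h6 := hf.2 p n hp hn
        have h7 := hgc (p * n)
        have h8 := hgc (n / p)
        simp only [cf] at h6 h7 h8
        have h9 : (qExpansion 1 (f : ℍ → ℂ)).coeff p *
            ((c j0)⁻¹ * (qExpansion 1 (f : ℍ → ℂ)).coeff n) =
            (c j0)⁻¹ * ((qExpansion 1 (f : ℍ → ℂ)).coeff p *
              (qExpansion 1 (f : ℍ → ℂ)).coeff n) := by ring
        rw [h5, h7, h8, h9, h6, mul_add]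
        congr 1
        split_ifs
        · ring
        · rw [mul_zero]
    obtain ⟨d, hd, -, -, hdq⟩ := h2 A.toSubring.toAddSubgroup w hwe h hhA
    have hsum : ∑ j ∈ Finset.range (w / 12 + 1),
        PowerSeries.C (d j - cf f p * ((c j0)⁻¹ * c j)) * toC D12 ^ j *
          eb (w - 12 * j) (toC Q4) (toC R6) = 0 := by
      have h4 := hdq.symm.trans hh2
      rw [hgq, Finset.mul_sum] at h4
      rw [← sub_eq_zero, ← Finset.sum_sub_distrib] at h4
      rw [← h4]
      refine Finset.sum_congr rfl fun j _ => ?_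
      rw [map_sub, map_mul]
      ring
    have h4 := triang hD0' hD1' (fun j => eb_zero (w - 12 * j)) hsum j0 (Finset.mem_range.1 hj0)
    rw [inv_mul_cancel₀ hcj0, mul_one, sub_eq_zero] at h4
    rw [← h4]
    exact hd j0
  intro n
  induction n using Nat.strong_induction_on with
  | _ n ih =>
    rcases Nat.lt_or_ge n 2 with h4 | h4
    · interval_cases n
      · rw [hf0]; exact A.zero_mem
      · rw [hf.1]; exact A.one_mem
    · obtain ⟨p, hp, m, rfl⟩ := Nat.exists_prime_and_dvd (show n ≠ 1 by omega)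
      have hm : 0 < m := by
        rcases Nat.eq_zero_or_pos m with rfl | hm
        · simp at h4
        · exact hm
      have hlt : m < p * m := by
        have := hp.two_le
        nlinarith
      have h5 := hf.2 p m hp hm
      have h6 : cf f (p * m) = cf f p * cf f m -
          if p ∣ m then (p : ℂ) ^ (w - 1) * cf f (m / p) else 0 := by
        rw [h5]; ring
      rw [h6]
      refine sub_mem (A.mul_mem _ _ (hprime p hp) (ih m hlt)) ?_
      split_ifs
      · exact A.mul_mem _ _ (pow_mem (nat_mem p) _)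
          (ih (m / p) (lt_of_le_of_lt (Nat.div_le_self _ _) hlt))
      · exact A.zero_mem

end

end Pool.Agent.Lib.MP_7c08ba_nt.RZC
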