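import Pool.Agent.Lib.MP_7c08ba_nt.RZ.Basic

set_option autoImplicit false

/-! Module W5: the level 2 relations. -/

namespace Pool.Agent.Lib.MP_7c08ba_nt.RZC

open UpperHalfPlane ModularForm EisensteinSeries MatrixGroups NumberField
open scoped Real Manifold ComplexConjugate

noncomputable section

namespace Level

/-- the period pair of an oriented pair -/
def pp (w₁ w₂ : ℂ) (h : Pos w₁ w₂) : PeriodPair where
  ω₁ := w₁
  ω₂ := w₂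
  indep := by
    rw [LinearIndependent.pair_iff]
    intro s t hst
    have hw := h.ne
    have h1 : (s : ℂ) * (w₁ / w₂) + t = 0 := by
      have h2 : (s : ℂ) * w₁ + t * w₂ = 0 := by simpa using hst
      field_simp
      linear_combination h2
    have h3 := congrArg Complex.im h1
    simp only [Complex.add_im, Complex.im_ofReal_mul, Complex.ofReal_im, add_zero,
      Complex.zero_im] at h3
    have hs : s = 0 := by
      rcases mul_eq_zero.mp h3 with h4 | h4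
      · exact h4
      · exact absurd h4 (ne_of_gt h)
    rw [hs] at h1
    refine ⟨hs, ?_⟩
    have h5 : (t : ℂ) = 0 := by simpa using h1
    exact_mod_cast h5

variable {w₁ w₂ : ℂ}

lemma half_not_mem (h : Pos w₁ w₂) : w₂ / 2 ∉ (pp w₁ w₂ h).lattice :=
  (pp w₁ w₂ h).ω₂_div_two_notMem_lattice

lemma two_half (h : Pos w₁ w₂) : 2 * (w₂ / 2) ∈ (pp w₁ w₂ h).lattice := by
  have h1 : 2 * (w₂ / 2) = (pp w₁ w₂ h).ω₂ := by
    change 2 * (w₂ / 2) = w₂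
    ring
  rw [h1]
  exact (pp w₁ w₂ h).ω₂_mem_lattice

lemma w2_mem_half (h : Pos w₁ w₂) : w₂ ∈ (pp w₁ (w₂ / 2) h.half).lattice := by
  have h1 : w₂ = (2 : ℤ) • (w₂ / 2) := by
    rw [zsmul_eq_mul]; push_cast; ring
  have h2 := Submodule.smul_mem (pp w₁ (w₂ / 2) h.half).lattice (2 : ℤ)
    (pp w₁ (w₂ / 2) h.half).ω₂_mem_lattice
  change (2 : ℤ) • (w₂ / 2) ∈ _ at h2
  rwa [← h1] at h2

lemma lattice_half (h : Pos w₁ w₂) : (pp w₁ (w₂ / 2) h.half).lattice =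
    (pp w₁ w₂ h).lattice ⊔ Submodule.span ℤ {w₂ / 2} := by
  apply le_antisymm
  · change Submodule.span ℤ {w₁, w₂ / 2} ≤ _
    rw [Submodule.span_le]
    rintro z (rfl | rfl)
    · exact Submodule.mem_sup_left ((pp z w₂ h).ω₁_mem_lattice)
    · exact Submodule.mem_sup_right (Submodule.mem_span_singleton_self _)
  · refine sup_le ?_ ?_
    · change Submodule.span ℤ {w₁, w₂} ≤ _
      rw [Submodule.span_le]
      rintro z (rfl | rfl)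
      · exact (pp z (w₂ / 2) h.half).ω₁_mem_lattice
      · exact w2_mem_half h
    · rw [Submodule.span_le, Set.singleton_subset_iff]
      exact (pp w₁ (w₂ / 2) h.half).ω₂_mem_lattice

/-- the value of `℘` at the half period -/
def eh (w₁ w₂ : ℂ) (h : Pos w₁ w₂) : ℂ := (pp w₁ w₂ h).weierstrassP (w₂ / 2)

/-- `g₂` -/
def gg (w₁ w₂ : ℂ) (h : Pos w₁ w₂) : ℂ := (pp w₁ w₂ h).g₂

/-- `A = 12 e² - g₂` -/
def aa (w₁ w₂ : ℂ) (h : Pos w₁ w₂) : ℂ := 12 * eh w₁ w₂ h ^ 2 - gg w₁ w₂ h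

/-- `B = g₂ - 3 e²` -/
def bb (w₁ w₂ : ℂ) (h : Pos w₁ w₂) : ℂ := gg w₁ w₂ h - 3 * eh w₁ w₂ h ^ 2

lemma dl_ne (h : Pos w₁ w₂) : dl w₁ w₂ ≠ 0 := by
  rw [dl, LF_eq h]
  exact mul_ne_zero (inv_ne_zero (pow_ne_zero _ h.ne)) (discriminant_ne_zero _)

lemma dl_eq (h : Pos w₁ w₂) : 1728 * dl w₁ w₂ = e4 w₁ w₂ ^ 3 - e6 w₁ w₂ ^ 2 := by
  rw [dl, e4, e6, LF_eq h, LF_eq h, LF_eq h, discriminant_eq_E₄_cube_sub_E₆_sq]
  have := h.ne
  field_simp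

lemma pi_ne : (π : ℂ) ≠ 0 := by exact_mod_cast Real.pi_ne_zero

variable (h1 : StHalf) (h2 : StProd) (h3 : StSuper) (h4 : StLink)

include h1 in
lemma g3_eq (h : Pos w₁ w₂) : (pp w₁ w₂ h).g₃ =
    4 * eh w₁ w₂ h ^ 3 - gg w₁ w₂ h * eh w₁ w₂ h := by
  have := (h1 (pp w₁ w₂ h) (w₂ / 2) (half_not_mem h) (two_half h)).1
  unfold eh gg
  linear_combination -this

include h3 in
lemma g2_half (h : Pos w₁ w₂) : gg w₁ (w₂ / 2) h.half =
    60 * eh w₁ w₂ h ^ 2 - 4 * gg w₁ w₂ h :=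
  (h3 (pp w₁ w₂ h) (pp w₁ (w₂ / 2) h.half) (w₂ / 2) (half_not_mem h) (two_half h)
    (lattice_half h)).1

include h1 h3 in
lemma g3_half (h : Pos w₁ w₂) : (pp w₁ (w₂ / 2) h.half).g₃ =
    88 * eh w₁ w₂ h ^ 3 - 8 * gg w₁ w₂ h * eh w₁ w₂ h := by
  have := (h3 (pp w₁ w₂ h) (pp w₁ (w₂ / 2) h.half) (w₂ / 2) (half_not_mem h) (two_half h)
    (lattice_half h)).2.1
  rw [this, g3_eq h1 h]
  unfold eh gg
  ring

include h4 in
lemma e4_eq (h : Pos w₁ w₂) : e4 w₁ w₂ = 3 * gg w₁ w₂ h / (4 * (π : ℂ) ^ 4) := by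
  have := (h4 (pp w₁ w₂ h) h).1
  change gg w₁ w₂ h = 4 * (π : ℂ) ^ 4 / 3 * e4 w₁ w₂ at this
  rw [this]
  have := pi_ne
  field_simp

include h4 in
lemma e6_eq (h : Pos w₁ w₂) : e6 w₁ w₂ = 27 * (pp w₁ w₂ h).g₃ / (8 * (π : ℂ) ^ 6) := by
  have := (h4 (pp w₁ w₂ h) h).2
  change (pp w₁ w₂ h).g₃ = 8 * (π : ℂ) ^ 6 / 27 * e6 w₁ w₂ at this
  rw [this]
  have := pi_ne
  field_simp

include h1 h4 in
lemma dl_L (h : Pos w₁ w₂) : dl w₁ w₂ =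
    aa w₁ w₂ h ^ 2 * bb w₁ w₂ h / (4096 * (π : ℂ) ^ 12) := by
  have e := dl_eq h
  rw [e4_eq h4 h, e6_eq h4 h, g3_eq h1 h] at e
  have hp := pi_ne
  have e' : dl w₁ w₂ = ((3 * gg w₁ w₂ h / (4 * (π : ℂ) ^ 4)) ^ 3 -
    (27 * (4 * eh w₁ w₂ h ^ 3 - gg w₁ w₂ h * eh w₁ w₂ h) / (8 * (π : ℂ) ^ 6)) ^ 2) / 1728 := by
    rw [← e]; ring
  rw [e']
  unfold aa bb
  field_simp
  ring

include h1 h3 h4 in
lemma dl_M (h : Pos w₁ w₂) : dl w₁ (w₂ / 2) =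
    aa w₁ w₂ h * bb w₁ w₂ h ^ 2 / (64 * (π : ℂ) ^ 12) := by
  have e := dl_eq h.half
  rw [e4_eq h4 h.half, e6_eq h4 h.half, g3_half h1 h3 h, g2_half h3 h] at e
  have hp := pi_ne
  have e' : dl w₁ (w₂ / 2) = ((3 * (60 * eh w₁ w₂ h ^ 2 - 4 * gg w₁ w₂ h) /
    (4 * (π : ℂ) ^ 4)) ^ 3 -
    (27 * (88 * eh w₁ w₂ h ^ 3 - 8 * gg w₁ w₂ h * eh w₁ w₂ h) / (8 * (π : ℂ) ^ 6)) ^ 2) /
      1728 := by
    rw [← e]; ring
  rw [e']
  unfold aa bb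
  field_simp
  ring

include h1 h4 in
lemma ab_ne (h : Pos w₁ w₂) : aa w₁ w₂ h ≠ 0 ∧ bb w₁ w₂ h ≠ 0 := by
  have e := dl_ne h
  rw [dl_L h1 h4 h] at e
  constructor
  · intro h0
    rw [h0] at e
    simp at e
  · intro h0
    rw [h0] at e
    simp at e

include h1 h3 h4 in
lemma XX_eq (h : Pos w₁ w₂) : XX w₁ w₂ = 64 * aa w₁ w₂ h / bb w₁ w₂ h := by
  obtain ⟨ha, hb⟩ := ab_ne h1 h4 h
  have hp := pi_ne
  unfold XX
  rw [dl_L h1 h4 h, dl_M h1 h3 h4 h]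
  field_simp
  ring

include h1 h2 h3 h4 in
lemma next (h : Pos w₁ w₂) : ∃ u : ℂ, 4 * u ^ 2 = aa w₁ w₂ h ∧
    eh w₁ (w₂ / 2) h.half = eh w₁ w₂ h + 2 * u := by
  have hn : w₂ / 2 / 2 ∉ (pp w₁ w₂ h).lattice := by
    intro hm
    have := Submodule.smul_mem _ (2 : ℤ) hm
    refine half_not_mem h ?_
    convert this using 1
    rw [zsmul_eq_mul]; push_cast; ring
  have hn2 : w₂ / 2 / 2 + w₂ / 2 ∉ (pp w₁ w₂ h).lattice := by
    intro hm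
    have h5 := Submodule.smul_mem _ (2 : ℤ) hm
    have h6 : w₂ ∈ (pp w₁ w₂ h).lattice := (pp w₁ w₂ h).ω₂_mem_lattice
    have h7 := Submodule.sub_mem _ h5 h6
    refine half_not_mem h ?_
    convert h7 using 1
    rw [zsmul_eq_mul]; push_cast; ring
  have hM : w₂ / 2 / 2 ∉ (pp w₁ (w₂ / 2) h.half).lattice := half_not_mem h.half
  have hper : (pp w₁ w₂ h).weierstrassP (w₂ / 2 / 2 + w₂ / 2) =
      (pp w₁ w₂ h).weierstrassP (w₂ / 2 / 2) := by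
    have h6 : w₂ ∈ (pp w₁ w₂ h).lattice := (pp w₁ w₂ h).ω₂_mem_lattice
    have h7 := (pp w₁ w₂ h).weierstrassP_add_coe (-(w₂ / 2 / 2)) ⟨w₂, h6⟩
    rw [(pp w₁ w₂ h).weierstrassP_neg] at h7
    rw [← h7]
    congr 1
    change _ = -(w₂ / 2 / 2) + w₂
    ring
  have hs := (h3 (pp w₁ w₂ h) (pp w₁ (w₂ / 2) h.half) (w₂ / 2) (half_not_mem h) (two_half h)
    (lattice_half h)).2.2 _ hM
  have hpr := h2 (pp w₁ w₂ h) (w₂ / 2) (half_not_mem h) (two_half h) _ hn hn2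
  rw [hper] at hs hpr
  refine ⟨(pp w₁ w₂ h).weierstrassP (w₂ / 2 / 2) - eh w₁ w₂ h, ?_, ?_⟩
  · unfold aa eh gg
    linear_combination 4 * hpr
  · unfold eh
    rw [hs]
    ring

end Level

open Level

theorem stLevel (h1 : StHalf) (h2 : StProd) (h3 : StSuper) (h4 : StLink) : StLevel := by
  intro w₁ w₂ h
  obtain ⟨ha, hb⟩ := ab_ne h1 h4 h
  have hX := XX_eq h1 h3 h4 h
  have hp := pi_ne
  have e4L := e4_eq h4 h
  have e4M := e4_eq h4 h.half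
  have e6L := e6_eq h4 h
  have e6M := e6_eq h4 h.half
  rw [g2_half h3 h] at e4M
  rw [g3_half h1 h3 h] at e6M
  rw [g3_eq h1 h] at e6L
  have dL := dl_L h1 h4 h
  have dM := dl_M h1 h3 h4 h
  have hg : gg w₁ w₂ h = bb w₁ w₂ h + 3 * eh w₁ w₂ h ^ 2 := by unfold bb; ring
  have he : aa w₁ w₂ h = 9 * eh w₁ w₂ h ^ 2 - bb w₁ w₂ h := by unfold aa bb; ring
  refine ⟨dl_ne h, dl_ne h.half, ?_, dl_eq h, ?_, ?_, ?_, ?_, ?_⟩
  · rw [hX]
    exact div_ne_zero (mul_ne_zero (by norm_num) ha) hb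
  · rw [hX, e4L, dL, hg]
    rw [he] at ha ⊢
    field_simp
    ring
  · rw [hX, e4M, dM, hg]
    rw [he] at ha ⊢
    field_simp
    ring
  · rw [hX, e4M, e4L, hg]
    rw [he] at ha ⊢
    field_simp
    ring
  · rw [hX, e6M, e6L, hg]
    rw [he] at ha ⊢
    field_simp
    ring
  · obtain ⟨u, hu, hu'⟩ := next h1 h2 h3 h4 h
    have hu0 : u ≠ 0 := by
      rintro rfl
      rw [← hu] at ha
      simp at ha
    obtain ⟨ha', hb'⟩ := ab_ne h1 h4 h.half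
    have hX' := XX_eq h1 h3 h4 h.half
    obtain ⟨e, hE⟩ : ∃ e, e = eh w₁ w₂ h := ⟨_, rfl⟩
    have eA : aa w₁ w₂ h = 4 * u ^ 2 := hu.symm
    have eB : bb w₁ w₂ h = (3 * e - 2 * u) * (3 * e + 2 * u) := by
      have : aa w₁ w₂ h + bb w₁ w₂ h = 9 * eh w₁ w₂ h ^ 2 := by unfold aa bb; ring
      rw [eA, ← hE] at this
      linear_combination this
    have eA' : aa w₁ (w₂ / 2) h.half = 16 * u * (3 * e + 2 * u) := by
      have e1 : aa w₁ (w₂ / 2) h.half = 12 * (e + 2 * u) ^ 2 - (60 * e ^ 2 - 4 * gg w₁ w₂ h) := by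
        unfold aa
        rw [hu', g2_half h3 h, hE]
      have e2 : gg w₁ w₂ h = 12 * e ^ 2 - 4 * u ^ 2 := by
        rw [hu, hE]; unfold aa; ring
      rw [e1, e2]
      ring
    have eB' : bb w₁ (w₂ / 2) h.half = (3 * e - 2 * u) ^ 2 := by
      have e1 : bb w₁ (w₂ / 2) h.half = (60 * e ^ 2 - 4 * gg w₁ w₂ h) - 3 * (e + 2 * u) ^ 2 := by
        unfold bb
        rw [hu', g2_half h3 h, hE]
      have e2 : gg w₁ w₂ h = 12 * e ^ 2 - 4 * u ^ 2 := by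
        rw [hu, hE]; unfold aa; ring
      rw [e1, e2]
      ring
    rw [eA, eB] at hX
    rw [eA', eB'] at hX'
    rw [eB] at hb
    have n1 : 3 * e - 2 * u ≠ 0 := fun h0 => hb (by rw [h0, zero_mul])
    have n2 : 3 * e + 2 * u ≠ 0 := fun h0 => hb (by rw [h0, mul_zero])
    rw [hX, hX']
    obtain ⟨a, hA⟩ : ∃ a, a = 3 * e - 2 * u := ⟨_, rfl⟩
    obtain ⟨b, hB⟩ : ∃ b, b = 3 * e + 2 * u := ⟨_, rfl⟩
    have hU : u = (b - a) / 4 := by rw [hA, hB]; ring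
    rw [← hB, ← hA]
    rw [← hA] at n1
    rw [← hB] at n2
    rw [hU]
    field_simp
    ring

end

end Pool.Agent.Lib.MP_7c08ba_nt.RZC
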