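import Pool.Agent.Lib.MP_7c08ba_nt.RZ.Basic

set_option autoImplicit false

/-! (R6) derivatives along lines (helper65). -/

namespace Pool.Agent.Lib.MP_7c08ba_nt.RZC

open UpperHalfPlane ModularForm EisensteinSeries MatrixGroups NumberField
open scoped Real Manifold ComplexConjugate

noncomputable section

namespace Line

theorem mdiff_form {k : ℤ} (f : ModularForm 𝒮ℒ k) : MDiff (f : ℍ → ℂ) :=
  ModularFormClass.holo f

theorem discr_mdiff : MDiff discriminant := by
  have h := CuspForm.discriminant.holo'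
  exact h

/-- the derivative of a homogeneous function along a line -/
theorem line_aux {F : ℍ → ℂ} (hF : MDiff F) (k : ℕ) {w₁ w₂ : ℂ} (α β : ℂ) (h : Pos w₁ w₂) :
    HasDerivAt (fun t => LF k F (w₁ + t * α) (w₂ + t * β))
      (-(k * β / w₂) * LF k F w₁ w₂ + 4 * π * vol w₁ w₂ α β *
        LF (k + 2) (Derivative.normalizedDerivOfComplex F) w₁ w₂) 0 := by
  have hw : w₂ ≠ 0 := h.ne
  have hpi : (π : ℂ) ≠ 0 := by exact_mod_cast Real.pi_ne_zero
  have hI : (Complex.I : ℂ) ≠ 0 := Complex.I_ne_zero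
  set τ : ℍ := ⟨w₁ / w₂, h⟩ with hτ
  have hd : HasDerivAt (F ∘ ofComplex) (2 * π * Complex.I *
      Derivative.normalizedDerivOfComplex F τ) (w₁ / w₂) := by
    have h1 : DifferentiableAt ℂ (F ∘ ofComplex) (τ : ℂ) :=
      UpperHalfPlane.mdifferentiableAt_iff.mp (hF τ)
    have h2 := h1.hasDerivAt
    have h3 : deriv (F ∘ ofComplex) (τ : ℂ) =
        2 * π * Complex.I * Derivative.normalizedDerivOfComplex F τ := by
      unfold Derivative.normalizedDerivOfComplex
      field_simp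
    rw [h3] at h2
    exact h2
  have ha : HasDerivAt (fun t : ℂ => w₁ + t * α) α 0 := by
    simpa using ((hasDerivAt_id (0 : ℂ)).mul_const α).const_add w₁
  have hb : HasDerivAt (fun t : ℂ => w₂ + t * β) β 0 := by
    simpa using ((hasDerivAt_id (0 : ℂ)).mul_const β).const_add w₂
  have hq : HasDerivAt (fun t : ℂ => (w₁ + t * α) / (w₂ + t * β))
      ((α * w₂ - w₁ * β) / w₂ ^ 2) 0 := by
    exact (ha.fun_div hb (by simpa using hw)).congr_deriv (by simp)
  have hc : HasDerivAt (fun t : ℂ => (F ∘ ofComplex) ((w₁ + t * α) / (w₂ + t * β)))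
      (2 * π * Complex.I * Derivative.normalizedDerivOfComplex F τ *
        ((α * w₂ - w₁ * β) / w₂ ^ 2)) 0 := by
    have hd' : HasDerivAt (F ∘ ofComplex) (2 * π * Complex.I *
      Derivative.normalizedDerivOfComplex F τ)
        ((fun t : ℂ => (w₁ + t * α) / (w₂ + t * β)) 0) := by
      simpa using hd
    exact hd'.comp (0 : ℂ) hq
  have hp : HasDerivAt (fun t : ℂ => ((w₂ + t * β) ^ k)⁻¹)
      (-(k * w₂ ^ (k - 1) * β) / (w₂ ^ k) ^ 2) 0 := by
    exact ((hb.fun_pow k).fun_inv (by simpa using pow_ne_zero k hw)).congr_deriv (by simp)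
  have hm := hp.mul hc
  have e0 : LF k F w₁ w₂ = (w₂ ^ k)⁻¹ * F τ := LF_eq h
  have e1 : LF (k + 2) (Derivative.normalizedDerivOfComplex F) w₁ w₂ =
      (w₂ ^ (k + 2))⁻¹ * Derivative.normalizedDerivOfComplex F τ := LF_eq h
  have e2 : (F ∘ ofComplex) (w₁ / w₂) = F τ := by
    simp only [Function.comp_apply]
    rw [ofComplex_apply_of_im_pos h]
  refine HasDerivAt.congr_deriv (f' := _) hm ?_
  simp only [zero_mul, add_zero]
  rw [e0, e1, e2]
  unfold vol
  rcases Nat.eq_zero_or_pos k with rfl | hk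
  · simp
    field_simp
    ring_nf
    simp only [Complex.I_sq]
    ring
  · obtain ⟨n, rfl⟩ : ∃ n, k = n + 1 := ⟨k - 1, by omega⟩
    rw [Nat.add_sub_cancel]
    push_cast
    field_simp
    ring_nf
    simp only [Complex.I_sq]
    ring

/-- the area form is constant along the line -/
theorem vol_line (w₁ w₂ α β t : ℂ) : vol (w₁ + t * α) (w₂ + t * β) α β = vol w₁ w₂ α β := by
  unfold vol
  ring

/-- one of the three modular functions -/
theorem line_mod {F G : ℍ → ℂ} (hF : MDiff F) (k : ℕ) (hG : ∀ τ : ℍ,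
    Derivative.normalizedDerivOfComplex F τ = k / 12 * (E2 τ * F τ) - G τ)
    {w₁ w₂ : ℂ} (α β : ℂ) (h : Pos w₁ w₂) (hv : vol w₁ w₂ α β ≠ 0) :
    HasDerivAt (fun t => LF k F (w₁ + t * α) (w₂ + t * β))
      (4 * π * vol w₁ w₂ α β * (k / 12 * (e2s w₁ w₂ α β * LF k F w₁ w₂) -
        LF (k + 2) G w₁ w₂)) 0 := by
  have hw : w₂ ≠ 0 := h.ne
  have hpi : (π : ℂ) ≠ 0 := by exact_mod_cast Real.pi_ne_zero
  refine (line_aux hF k α β h).congr_deriv ?_
  unfold e2s
  rw [LF_eq (F := F) h, LF_eq (F := Derivative.normalizedDerivOfComplex F) h,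
    LF_eq (F := E2) h, LF_eq (F := G) h, hG]
  field_simp
  ring

/-- the function `E₂^*` -/
theorem line_e2 (hR : ∀ τ : ℍ, Derivative.normalizedDerivOfComplex E2 τ =
    (E2 τ ^ 2 - E₄ τ) / 12)
    {w₁ w₂ : ℂ} (α β : ℂ) (h : Pos w₁ w₂) (hv : vol w₁ w₂ α β ≠ 0) :
    HasDerivAt (fun t => e2s (w₁ + t * α) (w₂ + t * β) α β)
      (4 * π * vol w₁ w₂ α β * ((e2s w₁ w₂ α β ^ 2 - e4 w₁ w₂) / 12)) 0 := by
  have hw : w₂ ≠ 0 := h.ne
  have hpi : (π : ℂ) ≠ 0 := by exact_mod_cast Real.pi_ne_zero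
  have h1 := line_aux E2_mdifferentiable 2 α β h
  have hb : HasDerivAt (fun t : ℂ => w₂ + t * β) β 0 := by
    simpa using ((hasDerivAt_id (0 : ℂ)).mul_const β).const_add w₂
  have h2 : HasDerivAt (fun t : ℂ => 3 * β / (π * (w₂ + t * β) * vol w₁ w₂ α β))
      (-(3 * β * β / (π * w₂ ^ 2 * vol w₁ w₂ α β))) 0 := by
    have h3 : HasDerivAt (fun t : ℂ => π * (w₂ + t * β) * vol w₁ w₂ α β)
        (π * β * vol w₁ w₂ α β) 0 := (hb.const_mul (π : ℂ)).mul_const _
    have h4 := (h3.fun_inv (by simp [hpi, hw, hv])).const_mul (3 * β)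
    refine (h4.congr_deriv ?_)
    simp only [zero_mul, add_zero]
    field_simp
  have h5 := h1.fun_sub h2
  have e : (fun t => e2s (w₁ + t * α) (w₂ + t * β) α β) =
      fun t => LF 2 E2 (w₁ + t * α) (w₂ + t * β) -
        3 * β / (π * (w₂ + t * β) * vol w₁ w₂ α β) := by
    funext t
    unfold e2s
    rw [vol_line]
  rw [e]
  refine h5.congr_deriv ?_
  unfold e2s e4
  rw [LF_eq (F := E2) h, LF_eq (F := Derivative.normalizedDerivOfComplex E2) h,
    LF_eq (F := (E₄ : ℍ → ℂ)) h, hR]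
  field_simp
  ring

end Line

open Line

theorem stLine (hR : StRam) : StLine := by
  intro w₁ w₂ α β h hv
  obtain ⟨h2, h4, h6, h12⟩ := hR
  have hw : w₂ ≠ 0 := h.ne
  refine ⟨line_e2 h2 α β h hv, ?_, ?_, ?_⟩
  · have := line_mod (F := (E₄ : ℍ → ℂ)) (G := fun τ => E₆ τ / 3) (mdiff_form E₄) 4
      (fun τ => by rw [h4]; push_cast; ring) α β h hv
    refine this.congr_deriv ?_
    unfold e6 e4
    rw [LF_eq (F := (E₄ : ℍ → ℂ)) h, LF_eq (F := (E₆ : ℍ → ℂ)) h,
      LF_eq (F := fun τ => E₆ τ / 3) h]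
    push_cast
    ring
  · have := line_mod (F := (E₆ : ℍ → ℂ)) (G := fun τ => E₄ τ ^ 2 / 2) (mdiff_form E₆) 6
      (fun τ => by rw [h6]; push_cast; ring) α β h hv
    refine this.congr_deriv ?_
    unfold e6 e4
    rw [LF_eq (F := (E₄ : ℍ → ℂ)) h, LF_eq (F := (E₆ : ℍ → ℂ)) h,
      LF_eq (F := fun τ => E₄ τ ^ 2 / 2) h]
    push_cast
    ring
  · have := line_mod (F := discriminant) (G := fun _ => 0) discr_mdiff 12
      (fun τ => by rw [h12]; push_cast; ring) α β h hv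
    refine this.congr_deriv ?_
    unfold dl
    rw [LF_eq (F := discriminant) h, LF_eq (F := fun _ => 0) h]
    push_cast
    ring

end

end Pool.Agent.Lib.MP_7c08ba_nt.RZC
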