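import Pool.Agent.Lib.MP_7c08ba_nt.RZ.StmtsC
import Pool.Agent.Lib.MP_7c08ba_nt.RZ.Basic

set_option autoImplicit false

/-! (W4): the invariants `g₂`, `g₃` and the Eisenstein series `E₄`, `E₆`. -/

namespace Pool.Agent.Lib.MP_7c08ba_nt.RZC

open UpperHalfPlane ModularForm EisensteinSeries MatrixGroups NumberField
open scoped Real Manifold ComplexConjugate

noncomputable section

namespace LinkAux

theorem zeta_six : riemannZeta 6 = (π : ℂ) ^ 6 / 945 := by
  have h := riemannZeta_two_mul_nat (k := 3) (by norm_num)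
  have hb : bernoulli 6 = 1 / 42 := by
    rw [bernoulli_eq_bernoulli'_of_ne_one (by norm_num)]
    rw [bernoulli'_def]
    simp only [Finset.sum_range_succ, Finset.sum_range_zero]
    norm_num [Nat.choose, bernoulli'_zero, bernoulli'_one, bernoulli'_two, bernoulli'_three,
      bernoulli'_four]
    rw [bernoulli'_def]
    simp only [Finset.sum_range_succ, Finset.sum_range_zero]
    norm_num [Nat.choose, bernoulli'_zero, bernoulli'_one, bernoulli'_two, bernoulli'_three,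
      bernoulli'_four]
  rw [show (2 : ℂ) * ((3 : ℕ) : ℂ) = 6 by norm_num, show 2 * 3 = 6 from rfl, hb] at h
  rw [h]
  have hf : ((Nat.factorial 6 : ℕ) : ℂ) = 720 := by norm_num [Nat.factorial]
  rw [hf]
  push_cast
  ring

theorem G_eq (L : PeriodPair) (h : Pos L.ω₁ L.ω₂) {k : ℕ} (hk : 3 ≤ k) :
    L.G k = (L.ω₂ ^ k)⁻¹ * (2 * riemannZeta k * E hk ⟨L.ω₁ / L.ω₂, h⟩) := by
  set z : ℍ := ⟨L.ω₁ / L.ω₂, h⟩ with hz
  have hzc : (z : ℂ) = L.ω₁ / L.ω₂ := rfl
  have h2 : L.ω₂ ≠ 0 := h.ne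
  have hE : E hk z = (1 / 2 : ℂ) * eisensteinSeries (N := 1) 0 k z := by
    rw [show E hk z = (1 / 2 : ℂ) • eisensteinSeriesSIF (N := 1) 0 k z from rfl,
      eisensteinSeriesSIF_apply 0 k z, smul_eq_mul]
  have h1 : 2 * riemannZeta k * E hk z = ∑' v : Fin 2 → ℤ, eisSummand k v z := by
    rw [tsum_eisSummand_eq_riemannZeta_mul_eisensteinSeries hk z, hE]
    ring
  rw [h1]
  unfold PeriodPair.G
  rw [← L.latticeEquivProd.symm.toEquiv.tsum_eq, ← (finTwoArrowEquiv ℤ).tsum_eq, ← tsum_mul_left]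
  refine tsum_congr fun v => ?_
  have h3 : (L.latticeEquivProd.symm ((finTwoArrowEquiv ℤ) v)).1 = v 0 * L.ω₁ + v 1 * L.ω₂ := by
    rw [L.latticeEquiv_symm_apply]
    rfl
  show (((L.latticeEquivProd.symm ((finTwoArrowEquiv ℤ) v)).1) ^ k)⁻¹ = _
  rw [h3]
  unfold eisSummand
  rw [hzc, zpow_neg, zpow_natCast, ← mul_inv, ← mul_pow]
  congr 2
  field_simp

end LinkAux

theorem stLink : StLink := by
  intro L h
  constructor
  · have h1 := LinkAux.G_eq L h (k := 4) (by norm_num)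
    unfold PeriodPair.g₂
    rw [h1, e4, LF_eq h]
    have h4 : riemannZeta ((4 : ℕ) : ℂ) = (π : ℂ) ^ 4 / 90 := by
      rw [← riemannZeta_four]
      norm_num
    rw [h4]
    ring
  · have h1 := LinkAux.G_eq L h (k := 6) (by norm_num)
    unfold PeriodPair.g₃
    rw [h1, e6, LF_eq h]
    have h4 : riemannZeta ((6 : ℕ) : ℂ) = (π : ℂ) ^ 6 / 945 := by
      rw [← LinkAux.zeta_six]
      norm_num
    rw [h4]
    ring

end

end Pool.Agent.Lib.MP_7c08ba_nt.RZC
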