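import Pool.Agent.Lib.MP_7c08ba_nt.RZ.Basic

set_option autoImplicit false

/-! (L2) construction of level one forms from lattice functions. -/

namespace Pool.Agent.Lib.MP_7c08ba_nt.RZC

open UpperHalfPlane ModularForm EisensteinSeries MatrixGroups NumberField
open scoped Real Manifold ComplexConjugate

namespace MkAux

/-- the image of the basis `(τ, 1)` under an integral matrix of determinant one -/
theorem lat_eq (γ : SL(2, ℤ)) (τ : ℂ) :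
    lat ((γ 0 0 : ℂ) * τ + (γ 0 1 : ℂ)) ((γ 1 0 : ℂ) * τ + (γ 1 1 : ℂ)) = lat τ 1 := by
  have hdet : (γ 0 0 : ℤ) * γ 1 1 - γ 0 1 * γ 1 0 = 1 := by
    rw [← Matrix.det_fin_two]
    exact γ.det_coe
  have hdetC : ((γ 0 0 : ℤ) : ℂ) * (γ 1 1 : ℤ) - (γ 0 1 : ℤ) * (γ 1 0 : ℤ) = 1 := by
    exact_mod_cast hdet
  ext z
  rw [mem_lat, mem_lat]
  constructor
  · rintro ⟨m, n, rfl⟩
    refine ⟨m * γ 0 0 + n * γ 1 0, m * γ 0 1 + n * γ 1 1, ?_⟩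
    push_cast
    ring
  · rintro ⟨m, n, rfl⟩
    refine ⟨m * γ 1 1 - n * γ 1 0, n * γ 0 0 - m * γ 0 1, ?_⟩
    push_cast
    linear_combination ((m : ℂ) * τ + n) * hdetC

/-- invariance under the slash action -/
theorem slash {k : ℕ} {F : ℍ → ℂ}
    (h : ∀ w₁ w₂ v₁ v₂ : ℂ, Pos w₁ w₂ → Pos v₁ v₂ → lat w₁ w₂ = lat v₁ v₂ →
      LF k F w₁ w₂ = LF k F v₁ v₂) (γ : SL(2, ℤ)) : F ∣[(k : ℤ)] γ = F := by
  funext τ
  rw [ModularForm.slash_action_eq'_iff]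
  have hc : ((γ 0 0 : ℂ) * (τ : ℂ) + (γ 0 1 : ℂ)) / ((γ 1 0 : ℂ) * (τ : ℂ) + (γ 1 1 : ℂ)) =
      ((γ • τ : ℍ) : ℂ) := by
    rw [UpperHalfPlane.coe_specialLinearGroup_apply]
    simp
  have hne : ((γ 1 0 : ℂ) * (τ : ℂ) + (γ 1 1 : ℂ)) ≠ 0 := by
    have := UpperHalfPlane.denom_ne_zero (γ : GL (Fin 2) ℝ) τ
    simpa [UpperHalfPlane.denom] using this
  have hpos : Pos ((γ 0 0 : ℂ) * (τ : ℂ) + (γ 0 1 : ℂ)) ((γ 1 0 : ℂ) * (τ : ℂ) + (γ 1 1 : ℂ)) := by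
    unfold Pos
    rw [hc]
    exact (γ • τ).im_pos
  have h1 := h _ _ τ 1 hpos (pos_tau τ) (lat_eq γ τ)
  rw [LF_tau, LF, hc, ofComplex_apply] at h1
  rw [← h1, zpow_natCast, ← mul_assoc, mul_inv_cancel₀ (pow_ne_zero _ hne), one_mul]

end MkAux

theorem stMk : StMk := by
  intro k F hF h hb
  refine ⟨{ toFun := F, slash_action_eq' := ?_, holo' := hF, bdd_at_cusps' := ?_ }, rfl⟩
  · rintro A ⟨A, rfl⟩
    exact MkAux.slash h A
  · intro c hc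
    rw [Subgroup.IsArithmetic.isCusp_iff_isCusp_SL2Z] at hc
    rw [OnePoint.isBoundedAt_iff_forall_SL2Z hc]
    intro γ _
    rw [MkAux.slash h γ]
    exact hb

end Pool.Agent.Lib.MP_7c08ba_nt.RZC
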