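import Pool.Agent.Lib.MP_7c08ba_nt.RZ.Basic

set_option autoImplicit false

/-! (R10) The normalised form of a weighted homogeneous polynomial. -/

namespace Pool.Agent.Lib.MP_7c08ba_nt.RZC

open MvPolynomial

namespace NormAux

/-- the identity for one monomial -/
theorem key {S : Type*} [CommRing S] (P D Q R Qi Ri : S) (hQ : Q * Qi = 1) (hR : R * Ri = 1)
    (a b c d u v e ε : ℕ) (h1 : e + 3 * v = b + (2 * a + 3 * d + 3 * u))
    (h2 : ε + a + 2 * u = c + 2 * v) :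
    P ^ a * Q ^ b * R ^ c * D ^ d = Q ^ e * R ^ ε *
      ((P * R * Qi ^ 2) ^ a * (D * Qi ^ 3) ^ d * (R ^ 2 * Qi ^ 3) ^ u *
        (Q ^ 3 * Ri ^ 2) ^ v) := by
  have e1 : Q ^ (e + 3 * v) * Qi ^ (2 * a + 3 * d + 3 * u) = Q ^ b := by
    rw [h1, pow_add, mul_assoc, ← mul_pow, hQ, one_pow, mul_one]
  have e2 : R ^ (ε + a + 2 * u) * Ri ^ (2 * v) = R ^ c := by
    rw [h2, pow_add, mul_assoc, ← mul_pow, hR, one_pow, mul_one]
  rw [← e1, ← e2]
  ring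

/-- the new exponents -/
noncomputable def ph (m : Fin 4 →₀ ℕ) : Fin 4 →₀ ℕ :=
  Finsupp.equivFunOnFinite.symm ![m 0, m 3, (((m 2 : ℤ) - m 0) / 2).toNat,
    (-(((m 2 : ℤ) - m 0) / 2)).toNat]

theorem prod4 {S : Type*} [CommRing S] (f : Fin 4 → S) (m : Fin 4 →₀ ℕ) :
    (m.prod fun i k => f i ^ k) = f 0 ^ m 0 * f 1 ^ m 1 * f 2 ^ m 2 * f 3 ^ m 3 := by
  rw [Finsupp.prod_fintype _ _ (fun i => by simp)]
  simp [Fin.prod_univ_four]

theorem mono {S : Type*} [CommRing S] (P D : S) (Q R : Sˣ) (k : ℕ) (hk : 4 ≤ k) (he : Even k)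
    (m : Fin 4 →₀ ℕ) (hm : 2 * m 0 + 4 * m 1 + 6 * m 2 + 12 * m 3 = k) :
    (m.prod fun i j => ![P, (Q : S), (R : S), D] i ^ j) = eb k (Q : S) (R : S) *
      ((ph m).prod fun i j => ![P * R * (Q⁻¹ : Sˣ) ^ 2, D * (Q⁻¹ : Sˣ) ^ 3,
        (R : S) ^ 2 * (Q⁻¹ : Sˣ) ^ 3, (Q : S) ^ 3 * (R⁻¹ : Sˣ) ^ 2] i ^ j) := by
  rw [prod4, prod4]
  have p2 : ph m 2 = (((m 2 : ℤ) - m 0) / 2).toNat := rfl
  have p3 : ph m 3 = (-(((m 2 : ℤ) - m 0) / 2)).toNat := rfl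
  obtain ⟨l, hl⟩ := he
  have hQ : (Q : S) * (Q⁻¹ : Sˣ) = 1 := Q.mul_inv
  have hR : (R : S) * (R⁻¹ : Sˣ) = 1 := R.mul_inv
  by_cases h4 : k % 4 = 0
  · have hb : eb k (Q : S) (R : S) = (Q : S) ^ (k / 4) * (R : S) ^ 0 := by
      unfold eb
      rw [if_pos h4, pow_zero, mul_one]
    rw [hb]
    refine key P D Q R _ _ hQ hR _ _ _ _ _ _ _ _ ?_ ?_
    · rw [p2, p3]; omega
    · rw [p2, p3]; omega
  · have hb : eb k (Q : S) (R : S) = (Q : S) ^ ((k - 6) / 4) * (R : S) ^ 1 := by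
      unfold eb
      rw [if_neg h4, pow_one]
    rw [hb]
    refine key P D Q R _ _ hQ hR _ _ _ _ _ _ _ _ ?_ ?_
    · rw [p2, p3]; omega
    · rw [p2, p3]; omega

end NormAux

open NormAux in
/-- (R10) -/
theorem stNorm : StNorm := by
  intro A k G hk he hG hA
  refine ⟨∑ m ∈ G.support, monomial (ph m) (G.coeff m), fun n => ?_, ?_⟩
  · rw [MvPolynomial.coeff_sum]
    refine sum_mem fun m _ => ?_
    rw [MvPolynomial.coeff_monomial]
    split_ifs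
    · exact hA m
    · exact A.zero_mem
  · intro S _ _ P D Q R
    conv_lhs => rw [G.as_sum]
    rw [map_sum, map_sum, Finset.mul_sum]
    refine Finset.sum_congr rfl fun m hm => ?_
    rw [aeval_monomial, aeval_monomial]
    have hw := hG (MvPolynomial.mem_support_iff.mp hm)
    have hw' : 2 * m 0 + 4 * m 1 + 6 * m 2 + 12 * m 3 = k := by
      rw [← hw, Finsupp.weight_apply, Finsupp.sum_fintype _ _ (fun i => by simp)]
      simp [Fin.sum_univ_four, wt]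
      ring
    rw [mono P D Q R k hk he m hw']
    ring

end Pool.Agent.Lib.MP_7c08ba_nt.RZC
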