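import Pool.Agent.Lib.MP_7c08ba_nt.RZ.Basic

set_option autoImplicit false

/-! (E1) sublattices of odd prime index of an ordinary lattice. -/

namespace Pool.Agent.Lib.MP_7c08ba_nt.RZC

open UpperHalfPlane ModularForm EisensteinSeries MatrixGroups NumberField
open scoped Real Manifold ComplexConjugate

noncomputable section

namespace OddPAux

/-! ### power series congruent to one modulo two -/

/-- congruent to one modulo two -/
def Cg (g : PowerSeries ℤ) : Prop := ∃ s : PowerSeries ℤ, g = 1 + 2 * s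

theorem cg_one : Cg 1 := ⟨0, by ring⟩

theorem Cg.mul {g h : PowerSeries ℤ} (hg : Cg g) (hh : Cg h) : Cg (g * h) := by
  obtain ⟨s, rfl⟩ := hg
  obtain ⟨t, rfl⟩ := hh
  exact ⟨s + t + 2 * s * t, by ring⟩

theorem Cg.pow {g : PowerSeries ℤ} (hg : Cg g) (n : ℕ) : Cg (g ^ n) := by
  induction n with
  | zero => simpa using cg_one
  | succ n ih => rw [pow_succ]; exact ih.mul hg

theorem cg_Q4 : Cg Q4 := ⟨120 * sg 3, by unfold Q4; ring⟩

theorem cg_R6 : Cg R6 := ⟨-252 * sg 5, by unfold R6; ring⟩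

theorem Cg.coeff {A : ValuationSubring ℂ} (hA : Above2 A) {g : PowerSeries ℤ} (hg : Cg g) (n : ℕ) :
    (toC g).coeff n - (if n = 0 then 1 else 0) ∈ A.nonunits := by
  obtain ⟨s, rfl⟩ := hg
  have h1 : (toC (1 + 2 * s)).coeff n - (if n = 0 then 1 else 0) = ((2 * s.coeff n : ℤ) : ℂ) := by
    have h2 : (1 + 2 * s : PowerSeries ℤ).coeff n = (if n = 0 then 1 else 0) + 2 * s.coeff n := by
      rw [map_add, PowerSeries.coeff_one, two_mul, map_add]
      ring
    rw [toC, PowerSeries.coeff_map, h2]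
    split_ifs <;> simp
  rw [h1]
  exact even_nonunits hA ⟨s.coeff n, by ring⟩

theorem toC_mem {A : ValuationSubring ℂ} (g : PowerSeries ℤ) (n : ℕ) : (toC g).coeff n ∈ A := by
  rw [toC, PowerSeries.coeff_map]
  exact int_mem _

/-! ### the forms `eb n` -/

theorem LF_cast {n : ℕ} {k : ℤ} (h : k = (n : ℤ)) (f : ModularForm 𝒮ℒ k) :
    LF n (ModularForm.mcast h f : ℍ → ℂ) = LF n (f : ℍ → ℂ) := rfl

theorem LF_pow {k : ℕ} (F : ℍ → ℂ) (a : ℕ) (w₁ w₂ : ℂ) :
    LF (a * k) (F ^ a) w₁ w₂ = LF k F w₁ w₂ ^ a := by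
  unfold LF
  rw [Pi.pow_apply, mul_pow, inv_pow, ← pow_mul, mul_comm k a]

theorem LF_mul {k l : ℕ} (F G : ℍ → ℂ) (w₁ w₂ : ℂ) :
    LF (k + l) (F * G) w₁ w₂ = LF k F w₁ w₂ * LF l G w₁ w₂ := by
  unfold LF
  rw [Pi.mul_apply, pow_add, mul_inv]
  ring

theorem ebForm {A : ValuationSubring ℂ} (hA : Above2 A) (hE : StEis) (n : ℕ) (hn : Even n)
    (h2 : n ≠ 2) : ∃ g : ModularForm 𝒮ℒ (n : ℤ),
      (∀ w₁ w₂ : ℂ, LF n g w₁ w₂ = eb n (e4 w₁ w₂) (e6 w₁ w₂)) ∧
      ∀ m, cf g m - (if m = 0 then 1 else 0) ∈ A.nonunits := by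
  obtain ⟨_, _, _, hq4, hq6, _⟩ := hE
  by_cases h4 : n % 4 = 0
  · have hw : (((n / 4 : ℕ) : ℤ)) * 4 = (n : ℤ) := by omega
    refine ⟨ModularForm.mcast hw (E₄.pow (n / 4)), fun w₁ w₂ => ?_, fun m => ?_⟩
    · have hn4 : n = n / 4 * 4 := by omega
      rw [LF_cast, ModularForm.coe_pow, eb, if_pos h4]
      conv_lhs => rw [hn4]
      rw [Nat.mul_div_cancel _ (by norm_num : 0 < 4), LF_pow]
    · have : qExpansion 1 (ModularForm.mcast hw (E₄.pow (n / 4)) : ℍ → ℂ) = toC (Q4 ^ (n / 4)) := by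
        rw [ModularForm.qExpansion_mcast, ModularForm.qExpansion_pow one_pos
          one_mem_strictPeriods_SL, hq4, toC, toC, map_pow]
      rw [cf, this]
      exact (cg_Q4.pow _).coeff hA m
  · have hn6 : 6 ≤ n := by
      obtain ⟨c, rfl⟩ := hn
      omega
    have hmod : (n - 6) % 4 = 0 := by
      obtain ⟨c, rfl⟩ := hn
      omega
    have hw : (((n - 6) / 4 : ℕ) : ℤ) * 4 + 6 = (n : ℤ) := by omega
    refine ⟨ModularForm.mcast hw ((E₄.pow ((n - 6) / 4)).mul E₆), fun w₁ w₂ => ?_, fun m => ?_⟩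
    · have hn4 : n = (n - 6) / 4 * 4 + 6 := by omega
      rw [LF_cast, ModularForm.coe_mul, ModularForm.coe_pow, eb, if_neg h4]
      have h5 : ∀ a : ℕ, LF (a * 4 + 6) ((E₄ : ℍ → ℂ) ^ a * (E₆ : ℍ → ℂ)) w₁ w₂ =
          e4 w₁ w₂ ^ a * e6 w₁ w₂ := fun a => by rw [LF_mul, LF_pow]
      have h6 := h5 ((n - 6) / 4)
      rw [← hn4] at h6
      exact h6
    · have : qExpansion 1 (ModularForm.mcast hw ((E₄.pow ((n - 6) / 4)).mul E₆) : ℍ → ℂ) =
          toC (Q4 ^ ((n - 6) / 4) * R6) := by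
        rw [ModularForm.qExpansion_mcast, ModularForm.qExpansion_mul one_pos
          one_mem_strictPeriods_SL, ModularForm.qExpansion_pow one_pos
          one_mem_strictPeriods_SL, hq4, hq6, toC, toC, toC, map_mul, map_pow]
      rw [cf, this]
      exact ((cg_Q4.pow _).mul cg_R6).coeff hA m

/-! ### the leading coefficient -/

open Polynomial in
theorem lead {ι : Type} [Fintype ι] (x : ι → ℂ) (n : ℕ) (hn : Fintype.card ι = n) (a : ℕ → ℂ)
    (h : ∀ T : ℂ, ∏ i, (T - x i) = ∑ i ∈ Finset.range (n + 1), a i * T ^ (n - i)) : a 0 = 1 := by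
  have h1 : (∏ i, (X - C (x i)) : ℂ[X]) =
      ∑ i ∈ Finset.range (n + 1), C (a i) * X ^ (n - i) := by
    apply Polynomial.funext
    intro T
    rw [Polynomial.eval_prod, Polynomial.eval_finset_sum]
    simpa using h T
  have h2 := congrArg (fun P : ℂ[X] => P.coeff n) h1
  have h3 : (∏ i, (X - C (x i)) : ℂ[X]).Monic :=
    Polynomial.monic_prod_of_monic _ _ (fun i _ => Polynomial.monic_X_sub_C _)
  have h4 : (∏ i, (X - C (x i)) : ℂ[X]).natDegree = n := by
    rw [Polynomial.natDegree_prod_of_monic _ _ (fun i _ => Polynomial.monic_X_sub_C _)]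
    simp [hn]
  have h5 : (∏ i, (X - C (x i)) : ℂ[X]).coeff n = 1 := by
    have := h3.coeff_natDegree
    rwa [h4] at this
  simp only [h5] at h2
  rw [Polynomial.finset_sum_coeff, Finset.sum_eq_single 0] at h2
  · simpa using h2.symm
  · intro i hi h0
    rw [Polynomial.coeff_C_mul, Polynomial.coeff_X_pow, if_neg, mul_zero]
    rw [Finset.mem_range] at hi
    omega
  · intro h0
    exact absurd (Finset.mem_range.2 (Nat.succ_pos n)) h0

/-! ### the polynomial with roots the normalised values -/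

/-- roots of a monic polynomial with coefficients in `A` -/
theorem root_mem {A : ValuationSubring ℂ} {n : ℕ} {a : ℕ → ℂ} (h0 : a 0 = 1)
    (ha : ∀ i, a i ∈ A) {x : ℂ} (hx : ∑ i ∈ Finset.range (n + 1), a i * x ^ (n - i) = 0) :
    x ∈ A := by
  have h1 : ∑ i ∈ Finset.range (n + 1), a (n - i) * x ^ i = 0 := by
    rw [← hx, ← Finset.sum_range_reflect]
    refine Finset.sum_congr rfl fun i hi => ?_
    rw [Finset.mem_range] at hi
    rw [show n + 1 - 1 - i = n - i by omega, show n - (n - i) = i by omega]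
  rw [Finset.sum_range_succ, Nat.sub_self, h0, one_mul, add_comm] at h1
  exact mem_of_root (n := n) (c := fun i => a (n - i)) (fun i _ => ha _) h1

/-- the congruence for the roots -/
theorem root_sub_one {A : ValuationSubring ℂ} {n : ℕ} {a : ℕ → ℂ}
    (ha : ∀ i, a i - (-1) ^ i * (n.choose i : ℂ) ∈ A.nonunits) {x : ℂ} (hxA : x ∈ A)
    (hx : ∑ i ∈ Finset.range (n + 1), a i * x ^ (n - i) = 0) :
    x - 1 ∈ A.nonunits := by
  have h1 : (x - 1) ^ n = ∑ i ∈ Finset.range (n + 1), (-1) ^ i * (n.choose i : ℂ) * x ^ (n - i) := by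
    rw [sub_eq_add_neg, add_comm, add_pow]
    refine Finset.sum_congr rfl fun i _ => ?_
    ring
  have h2 : (x - 1) ^ n =
      - ∑ i ∈ Finset.range (n + 1), (a i - (-1) ^ i * (n.choose i : ℂ)) * x ^ (n - i) := by
    simp only [sub_mul, Finset.sum_sub_distrib, hx, h1]
    ring
  have h3 : ∀ m : ℕ, ∑ i ∈ Finset.range m, (a i - (-1) ^ i * (n.choose i : ℂ)) * x ^ (n - i) ∈
      A.nonunits := by
    intro m
    induction m with
    | zero => simp [zero_nonunits]
    | succ m ih =>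
      rw [Finset.sum_range_succ]
      exact nonunits_add ih (nonunits_mul_right (ha m) (A.toSubring.pow_mem hxA _))
  apply nonunits_of_pow (n := n)
  rw [h2]
  exact nonunits_neg (h3 _)

/-- the maximal ideal as an additive subgroup -/
def mA (A : ValuationSubring ℂ) : AddSubgroup ℂ where
  carrier := {x | x ∈ A.nonunits}
  zero_mem' := zero_nonunits
  add_mem' := nonunits_add
  neg_mem' := nonunits_neg

theorem mem_mA {A : ValuationSubring ℂ} {x : ℂ} : x ∈ mA A ↔ x ∈ A.nonunits := Iff.rfl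

section core

variable {A : ValuationSubring ℂ} {w₁ w₂ : ℂ} {p k : ℕ}

/-- the polynomial equation for the normalised values, with integral coefficients -/
theorem core (h1 : StSymm) (h2 : StEval) (hA : Above2 A) (hw : Ord A w₁ w₂) (hp : p.Prime)
    (hp2 : p ≠ 2) (hk : Even k) (f : ModularForm 𝒮ℒ (k : ℤ)) (hf : ∀ n, cf f n ∈ A)
    {E : ℂ} (hE0 : E ≠ 0) {u : ℕ → ℂ} (hu : ∀ i, u i ∈ A)
    (hu' : ∀ i, eb (i * k) (e4 w₁ w₂) (e6 w₁ w₂) = u i * E ^ i) :
    ∃ a : ℕ → ℂ, a 0 = 1 ∧ (∀ i, a i ∈ A) ∧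
      (∀ j, ∑ i ∈ Finset.range (p + 1 + 1), a i * (LFs k f p w₁ w₂ j / E) ^ (p + 1 - i) = 0) ∧
      (StEis → k ≠ 2 → (∀ i, i * k ≠ 2) → (∀ n, cf f n - (if n = 0 then 1 else 0) ∈ A.nonunits) →
        (∀ i, u i - 1 ∈ A.nonunits) →
        ∀ i, a i - (-1) ^ i * ((p + 1).choose i : ℂ) ∈ A.nonunits) := by
  obtain ⟨e, he1, he2, he3⟩ := h1 A hA p hp hp2 k f hf
  have hz : ∀ i, ∃ z ∈ A, LF (i * k) (e i) w₁ w₂ = z * (u i * E ^ i) := by
    intro i
    obtain ⟨z, hz, hz'⟩ := h2 A A.toSubring.toAddSubgroup (fun a ha z hz => A.mul_mem _ _ ha hz)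
      (i * k) (hk.mul_left i) (e i) (he1 i) w₁ w₂ hw
    exact ⟨z, hz, by rw [hz', hu']⟩
  choose z hzA hz using hz
  have hlead : z 0 * u 0 = 1 := by
    have h3 := lead (fun j => LFs k f p w₁ w₂ j) (p + 1) (by simp)
      (fun i => (-1) ^ i * LF (i * k) (e i) w₁ w₂) (fun T => he3 w₁ w₂ hw.1 T)
    simp only [pow_zero, one_mul] at h3
    rw [hz 0] at h3
    simpa using h3
  refine ⟨fun i => (-1) ^ i * (z i * u i), by simpa using hlead, fun i => ?_, fun j => ?_, ?_⟩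
  · exact A.mul_mem _ _ (A.toSubring.pow_mem (A.neg_mem _ A.one_mem) i)
      (A.mul_mem _ _ (hzA i) (hu i))
  · have h4 := he3 w₁ w₂ hw.1 (LFs k f p w₁ w₂ j)
    have h5 : ∏ i, (LFs k f p w₁ w₂ j - LFs k f p w₁ w₂ i) = 0 :=
      Finset.prod_eq_zero (Finset.mem_univ j) (sub_self _)
    rw [h5] at h4
    have h6 : E ^ (p + 1) * ∑ i ∈ Finset.range (p + 1 + 1), (-1) ^ i * (z i * u i) *
        (LFs k f p w₁ w₂ j / E) ^ (p + 1 - i) = 0 := by
      rw [h4, Finset.mul_sum]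
      refine Finset.sum_congr rfl fun i hi => ?_
      rw [Finset.mem_range] at hi
      rw [hz i, div_pow]
      have h7 : E ^ (p + 1) = E ^ i * E ^ (p + 1 - i) := by
        rw [← pow_add]; congr 1; omega
      rw [h7]
      have h8 : E ^ (p + 1 - i) ≠ 0 := pow_ne_zero _ hE0
      field_simp
    exact (mul_eq_zero.1 h6).resolve_left (pow_ne_zero _ hE0)
  · intro hEis _ hne hc hu1 i
    obtain ⟨g, hg1, hg2⟩ := ebForm hA hEis (i * k) (hk.mul_left i) (hne i)
    set b : ℂ := ((p + 1).choose i : ℂ) with hb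
    have hbA : b ∈ A := nat_mem _
    set d : ModularForm 𝒮ℒ ((i * k : ℕ) : ℤ) := e i - b • g with hd
    have hdq : ∀ n, cf d n = cf (e i) n - b * cf g n := by
      intro n
      have h3 : qExpansion 1 (d : ℍ → ℂ) = qExpansion 1 (e i : ℍ → ℂ) -
          b • qExpansion 1 (g : ℍ → ℂ) := by
        rw [hd, FunLike.coe_sub, ModularForm.qExpansion_sub one_pos one_mem_strictPeriods_SL,
          FunLike.coe_smul, ModularForm.qExpansion_smul one_pos one_mem_strictPeriods_SL]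
      rw [cf, h3]
      simp
    have hdm : ∀ n, cf d n ∈ mA A := by
      intro n
      rw [mem_mA, hdq]
      have h3 := he2 1 A.one_mem hc i n
      rw [one_pow, mul_one] at h3
      have h4 := nonunits_mul_left hbA (hg2 n)
      have h5 := nonunits_sub h3 h4
      convert h5 using 1
      split_ifs <;> ring
    obtain ⟨y, hy, hy'⟩ := h2 A (mA A) (fun a ha z hz => nonunits_mul_left ha hz)
      (i * k) (hk.mul_left i) d hdm w₁ w₂ hw
    have hL : LF (i * k) d w₁ w₂ = LF (i * k) (e i) w₁ w₂ - b * LF (i * k) g w₁ w₂ := by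
      unfold LF
      rw [hd, FunLike.coe_sub, Pi.sub_apply, FunLike.coe_smul, Pi.smul_apply, smul_eq_mul]
      ring
    rw [hL, hz i, hg1, hu'] at hy'
    have hne' : u i * E ^ i ≠ 0 := by
      have := (unit_of_sub_one (hu1 i)).2.2.1
      exact mul_ne_zero this (pow_ne_zero _ hE0)
    have h6 : z i - b = y := by
      have : (z i - b) * (u i * E ^ i) = y * (u i * E ^ i) := by linear_combination hy'
      exact mul_right_cancel₀ hne' this
    have h7 : z i - b ∈ A.nonunits := by rw [h6]; exact hy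
    have h8 : z i * u i - b ∈ A.nonunits := by
      have := nonunits_add (nonunits_mul_left (hzA i) (hu1 i)) h7
      convert this using 1
      ring
    have h9 := nonunits_mul_left (A.toSubring.pow_mem (A.neg_mem _ A.one_mem) i) h8
    convert h9 using 1
    ring

theorem val_mem (h1 : StSymm) (h2 : StEval) (hA : Above2 A) (hw : Ord A w₁ w₂) (hp : p.Prime)
    (hp2 : p ≠ 2) (hk : Even k) (f : ModularForm 𝒮ℒ (k : ℤ)) (hf : ∀ n, cf f n ∈ A)
    {E : ℂ} (hE0 : E ≠ 0) {u : ℕ → ℂ} (hu : ∀ i, u i ∈ A)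
    (hu' : ∀ i, eb (i * k) (e4 w₁ w₂) (e6 w₁ w₂) = u i * E ^ i) (j : Option (Fin p)) :
    LFs k f p w₁ w₂ j / E ∈ A := by
  obtain ⟨a, ha0, haA, ha, _⟩ := core h1 h2 hA hw hp hp2 hk f hf hE0 hu hu'
  exact root_mem ha0 haA (ha j)

theorem val_sub_one (h1 : StSymm) (h2 : StEval) (h3 : StEis) (hA : Above2 A) (hw : Ord A w₁ w₂)
    (hp : p.Prime) (hp2 : p ≠ 2) (hk : Even k) (hk2 : k ≠ 2) (hne : ∀ i, i * k ≠ 2)
    (f : ModularForm 𝒮ℒ (k : ℤ)) (hf : ∀ n, cf f n - (if n = 0 then 1 else 0) ∈ A.nonunits)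
    {E : ℂ} (hE0 : E ≠ 0) {u : ℕ → ℂ} (hu : ∀ i, u i - 1 ∈ A.nonunits)
    (hu' : ∀ i, eb (i * k) (e4 w₁ w₂) (e6 w₁ w₂) = u i * E ^ i) (j : Option (Fin p)) :
    LFs k f p w₁ w₂ j / E - 1 ∈ A.nonunits := by
  have hfA : ∀ n, cf f n ∈ A := by
    intro n
    have h4 := nonunits_mem (hf n)
    have h5 : (if n = 0 then (1 : ℂ) else 0) ∈ A := by
      split_ifs
      · exact A.one_mem
      · exact A.zero_mem
    have := A.add_mem _ _ h4 h5
    simpa using this
  have huA : ∀ i, u i ∈ A := fun i => (unit_of_sub_one (hu i)).1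
  obtain ⟨a, ha0, haA, ha, hc⟩ := core h1 h2 hA hw hp hp2 hk f hfA hE0 huA hu'
  have := hc h3 hk2 hne hf hu
  exact root_sub_one this (root_mem ha0 haA (ha j)) (ha j)

end core

end OddPAux

open OddPAux in
/-- (E1) sublattices of odd prime index of an ordinary lattice -/
theorem stOddP (h1 : StSymm) (h2 : StEval) (h3 : StEis) (h4 : StSub) : StOddP := by
  intro A hA w₁ w₂ hw p hp hp2 i v₁ v₂ hv
  obtain ⟨hpos, he0, hj⟩ := hw
  have hv1 : (sub p w₁ w₂ i).1 = v₁ := by rw [hv]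
  have hv2 : (sub p w₁ w₂ i).2 = v₂ := by rw [hv]
  have hq4 := h3.2.2.2.1
  have hq6 := h3.2.2.2.2.1
  have hqD := h3.2.2.2.2.2
  -- `E₄`
  have hE4 : e4 v₁ v₂ / e4 w₁ w₂ - 1 ∈ A.nonunits := by
    have := val_sub_one h1 h2 h3 hA ⟨hpos, he0, hj⟩ hp hp2 (k := 4) (by decide) (by decide)
      (fun i => by omega) (ModularForm.mcast (by norm_num) E₄)
      (fun n => by
        rw [cf, ModularForm.qExpansion_mcast, hq4]
        exact cg_Q4.coeff hA n)
      he0 (u := fun _ => 1) (fun _ => by simp [zero_nonunits])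
      (fun i => by
        rw [eb, if_pos (by omega), Nat.mul_div_cancel _ (by norm_num : 0 < 4), one_mul]) i
    rwa [LFs, LF_cast, hv1, hv2] at this
  -- `E₆`
  have hrel : e6 w₁ w₂ ^ 2 / e4 w₁ w₂ ^ 3 = 1 - 1728 * jv w₁ w₂ := by
    have h5 : 1728 * dl w₁ w₂ = e4 w₁ w₂ ^ 3 - e6 w₁ w₂ ^ 2 := by
      rw [dl, e4, e6, LF_eq hpos, LF_eq hpos, LF_eq hpos,
        ModularForm.discriminant_eq_E₄_cube_sub_E₆_sq]
      ring
    unfold jv
    field_simp
    linear_combination h5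
  have hr : e6 w₁ w₂ ^ 2 / e4 w₁ w₂ ^ 3 - 1 ∈ A.nonunits := by
    rw [hrel]
    have h5 : ((1728 : ℤ) : ℂ) ∈ A.nonunits := even_nonunits hA ⟨864, by norm_num⟩
    have h6 := nonunits_neg (nonunits_mul_right h5 hj)
    convert h6 using 1
    push_cast
    ring
  have he60 : e6 w₁ w₂ ≠ 0 := by
    intro h0
    have h5 := (unit_of_sub_one hr).2.2.1
    rw [h0] at h5
    simp at h5
  have hr' : e4 w₁ w₂ ^ 3 / e6 w₁ w₂ ^ 2 - 1 ∈ A.nonunits := by
    have := inv_sub_one hr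
    rwa [inv_div] at this
  have hE6 : e6 v₁ v₂ / e6 w₁ w₂ - 1 ∈ A.nonunits := by
    have := val_sub_one h1 h2 h3 hA ⟨hpos, he0, hj⟩ hp hp2 (k := 6) (by decide) (by decide)
      (fun i => by omega) (ModularForm.mcast (by norm_num) E₆)
      (fun n => by
        rw [cf, ModularForm.qExpansion_mcast, hq6]
        exact cg_R6.coeff hA n)
      he60 (u := fun i => (e4 w₁ w₂ ^ 3 / e6 w₁ w₂ ^ 2) ^ (i / 2))
      (fun i => nonunits_pow_sub_one hr' _)
      (fun i => by
        rcases Nat.even_or_odd' i with ⟨c, rfl | rfl⟩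
        · rw [eb, if_pos (by omega), show 2 * c * 6 / 4 = 3 * c by omega,
            show 2 * c / 2 = c by omega, div_pow, ← pow_mul, ← pow_mul]
          field_simp
        · rw [eb, if_neg (by omega), show ((2 * c + 1) * 6 - 6) / 4 = 3 * c by omega,
            show (2 * c + 1) / 2 = c by omega, div_pow, ← pow_mul, ← pow_mul, pow_succ]
          field_simp) i
    rwa [LFs, LF_cast, hv1, hv2] at this
  -- `Δ`
  have hD : dl v₁ v₂ / e4 w₁ w₂ ^ 3 ∈ A := by
    have := val_mem h1 h2 hA ⟨hpos, he0, hj⟩ hp hp2 (k := 12) (by decide)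
      (ModularForm.mcast (by norm_num) (CuspForm.toModularFormₗ CuspForm.discriminant))
      (fun n => by
        have h5 : cf (ModularForm.mcast (by norm_num) (CuspForm.toModularFormₗ
            CuspForm.discriminant) : ModularForm 𝒮ℒ ((12 : ℕ) : ℤ)) n = (toC D12).coeff n := by
          rw [← hqD]; rfl
        rw [h5]
        exact toC_mem D12 n)
      (pow_ne_zero 3 he0) (u := fun _ => 1) (fun _ => A.one_mem)
      (fun i => by
        rw [eb, if_pos (by omega), show i * 12 / 4 = 3 * i by omega, one_mul, pow_mul]) i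
    rw [LFs, LF_cast, hv1, hv2] at this
    exact this
  refine ⟨⟨?_, ?_, ?_⟩, hE4, hE6⟩
  · have := ((h4 p hp w₁ w₂ hpos).1 i).1
    rwa [hv1, hv2] at this
  · intro h0
    have h5 := (unit_of_sub_one hE4).2.2.1
    rw [h0] at h5
    simp at h5
  · have h5 := (unit_of_sub_one (inv_sub_one hE4)).1
    rw [inv_div] at h5
    have h6 : jv v₁ v₂ = dl v₁ v₂ / e4 w₁ w₂ ^ 3 * (e4 w₁ w₂ / e4 v₁ v₂) ^ 3 := by
      unfold jv
      field_simp
    rw [h6]
    exact A.mul_mem _ _ hD (A.toSubring.pow_mem h5 3)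

end

end Pool.Agent.Lib.MP_7c08ba_nt.RZC
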