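import Pool.Agent.Lib.MP_7c08ba_nt.RZ.Basic

set_option autoImplicit false

/-! (X2) ordinarity of the lattices of a chain and the sum of `1/j`. -/

namespace Pool.Agent.Lib.MP_7c08ba_nt.RZC

open UpperHalfPlane ModularForm EisensteinSeries MatrixGroups NumberField
open scoped Real Manifold ComplexConjugate

noncomputable section

namespace OrdCAux

variable {w₁ w₂ v₁ v₂ : ℂ}

theorem e4_lat (h : StLat) (hw : Pos w₁ w₂) (hv : Pos v₁ v₂) (hl : lat w₁ w₂ = lat v₁ v₂) :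
    e4 w₁ w₂ = e4 v₁ v₂ := h 4 E₄ _ _ _ _ hw hv hl

theorem e6_lat (h : StLat) (hw : Pos w₁ w₂) (hv : Pos v₁ v₂) (hl : lat w₁ w₂ = lat v₁ v₂) :
    e6 w₁ w₂ = e6 v₁ v₂ := h 6 E₆ _ _ _ _ hw hv hl

theorem dl_lat (h : StLat) (hL : StLevel) (hw : Pos w₁ w₂) (hv : Pos v₁ v₂)
    (hl : lat w₁ w₂ = lat v₁ v₂) : dl w₁ w₂ = dl v₁ v₂ := by
  obtain ⟨-, -, -, h1, -⟩ := hL w₁ w₂ hw
  obtain ⟨-, -, -, h2, -⟩ := hL v₁ v₂ hv
  rw [e4_lat h hw hv hl, e6_lat h hw hv hl, ← h2] at h1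
  exact mul_left_cancel₀ (by norm_num) h1

section
variable {m : ℕ} {c : ℂ} {u v : ℕ → ℂ}

theorem dl_half (h : StLat) (hL : StLevel) (hc : Chain m c u v) (i : ℕ) :
    dl (u i) (v i / 2) = dl (u (i + 1)) (v (i + 1)) :=
  dl_lat h hL (hc.pos i).half (hc.pos (i + 1)) (hc.half i).symm

theorem dl_quarter (h : StLat) (hL : StLevel) (hc : Chain m c u v) (i : ℕ) :
    dl (u i) (v i / 4) = dl (u (i + 1)) (v (i + 1) / 2) :=
  dl_lat h hL (hc.pos i).quarter (hc.pos (i + 1)).half (hc.quarter i).symm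

theorem dl_per (h : StLat) (hL : StLevel) (hc : Chain m c u v) (i : ℕ) :
    dl (u i) (v i) = (c ^ 12)⁻¹ * dl (u (i + m)) (v (i + m)) := by
  rw [← LF_smul hc.c0]
  exact dl_lat h hL (hc.pos i) ((pos_smul hc.c0).2 (hc.pos (i + m))) (hc.per i).symm

theorem XX_eq (h : StLat) (hL : StLevel) (hc : Chain m c u v) (i : ℕ) :
    XX (u i) (v i) = 2 ^ 12 * dl (u i) (v i) / dl (u (i + 1)) (v (i + 1)) := by
  rw [XX, dl_half h hL hc]

theorem XX_half (h : StLat) (hL : StLevel) (hc : Chain m c u v) (i : ℕ) :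
    XX (u i) (v i / 2) = XX (u (i + 1)) (v (i + 1)) := by
  rw [XX, XX, dl_half h hL hc, div_div]
  norm_num
  rw [dl_quarter h hL hc]

theorem XX_per (h : StLat) (hL : StLevel) (hc : Chain m c u v) (i : ℕ) :
    XX (u (i + m)) (v (i + m)) = XX (u i) (v i) := by
  rw [XX_eq h hL hc, XX_eq h hL hc, dl_per h hL hc i, dl_per h hL hc (i + 1)]
  have e : i + 1 + m = i + m + 1 := by ring
  rw [e]
  have h1 : (c ^ 12)⁻¹ ≠ 0 := inv_ne_zero (pow_ne_zero _ hc.c0)
  rw [mul_left_comm, mul_div_mul_left _ _ h1]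

theorem XX_mod (h : StLat) (hL : StLevel) (hc : Chain m c u v) (k i : ℕ) :
    XX (u (i + m * k)) (v (i + m * k)) = XX (u i) (v i) := by
  induction k with
  | zero => rw [mul_zero, add_zero]
  | succ k ih =>
    rw [mul_add, mul_one, ← add_assoc, XX_per h hL hc, ih]

theorem prod_XX (h : StLat) (hL : StLevel) (hc : Chain m c u v) (n : ℕ) :
    ∏ i ∈ Finset.range n, XX (u i) (v i) =
      (2 ^ n) ^ 12 * dl (u 0) (v 0) / dl (u n) (v n) := by
  have h0 : ∀ i, dl (u i) (v i) ≠ 0 := fun i => (hL _ _ (hc.pos i)).1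
  induction n with
  | zero =>
    have := h0 0
    rw [Finset.prod_range_zero, pow_zero, one_pow, one_mul, div_self this]
  | succ n ih =>
    rw [Finset.prod_range_succ, ih, XX_eq h hL hc]
    have h1 := h0 n
    have h2 := h0 (n + 1)
    field_simp
    ring

end

end OrdCAux

open OrdCAux

theorem stOrdC (h1 : StLat) (h2 : StLevel) (h3 : StCycle) : StOrdC := by
  intro A hA m c u v hm hc hU
  have h0 : ∀ i, dl (u i) (v i) ≠ 0 := fun i => (h2 _ _ (hc.pos i)).1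
  obtain ⟨hX, hS⟩ := h3 A hA m hm (fun i => XX (u i) (v i)) (2 ^ m / c)
    (fun i => (h2 _ _ (hc.pos i)).2.2.1)
    (by
      have := XX_per h1 h2 hc 0
      rwa [zero_add] at this)
    (fun i _ => by
      obtain ⟨-, -, -, -, -, -, -, -, h⟩ := h2 _ _ (hc.pos i)
      rwa [XX_half h1 h2 hc] at h)
    (by
      have hp := dl_per h1 h2 hc 0
      rw [zero_add] at hp
      rw [prod_XX h1 h2 hc m, hp, div_pow]
      have := h0 m
      have hc0 := hc.c0
      field_simp)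
    hU.1 hU.2.1 hU.2.2
  have hXA : ∀ i, XX (u i) (v i) ∈ A ∧ (XX (u i) (v i))⁻¹ ∈ A := by
    intro i
    have e : XX (u i) (v i) = XX (u (i % m)) (v (i % m)) := by
      have := XX_mod h1 h2 hc (i / m) (i % m)
      rwa [Nat.mod_add_div] at this
    rw [e]
    exact hX (i % m) (Nat.mod_lt _ hm).le
  have add_unit : ∀ i, ∀ n : ℤ, Even n → XX (u i) (v i) + n ≠ 0 ∧
      (XX (u i) (v i) + n)⁻¹ ∈ A := by
    intro i n hn
    have hx0 := (h2 _ _ (hc.pos i)).2.2.1
    have hnot := not_nonunits_of_inv_mem hx0 (hXA i).2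
    have hnn := even_nonunits hA hn
    have hmem : XX (u i) (v i) + n ∈ A := A.add_mem _ _ (hXA i).1 (nonunits_mem hnn)
    have hno : XX (u i) (v i) + n ∉ A.nonunits := fun hcon => by
      have := nonunits_sub hcon hnn
      rw [add_sub_cancel_right] at this
      exact hnot this
    refine ⟨fun hz => hno ?_, inv_mem_of_not_nonunits hmem hno⟩
    rw [hz]
    exact zero_nonunits
  have hOrd : ∀ i, Ord A (u i) (v i) := by
    intro i
    obtain ⟨hd, -, hx0, -, hr, -⟩ := h2 _ _ (hc.pos i)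
    obtain ⟨hu0, hui⟩ := add_unit i 256 (by decide)
    push_cast at hu0 hui
    have he : e4 (u i) (v i) ≠ 0 := by
      intro hz
      rw [hz] at hr
      have : dl (u i) (v i) * (XX (u i) (v i) + 256) ^ 3 ≠ 0 := mul_ne_zero hd (pow_ne_zero _ hu0)
      apply this
      rw [← hr]
      ring
    refine ⟨hc.pos i, he, ?_⟩
    have hj : jv (u i) (v i) = XX (u i) (v i) ^ 2 * (XX (u i) (v i) + 256)⁻¹ ^ 3 := by
      unfold jv
      field_simp
      linear_combination -hr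
    rw [hj]
    exact A.mul_mem _ _ (pow_mem (hXA i).1 2) (pow_mem hui 3)
  refine ⟨fun i => ⟨hOrd i, hXA i⟩, ?_⟩
  have hsum : ∑ i ∈ Finset.range m, jv (u (i + 1)) (v (i + 1)) =
      ∑ i ∈ Finset.range m, XX (u i) (v i) / (XX (u i) (v i) + 16) ^ 3 := by
    refine Finset.sum_congr rfl fun i _ => ?_
    obtain ⟨-, -, hx0, -, -, hr, -⟩ := h2 _ _ (hc.pos i)
    obtain ⟨hu0, hui⟩ := add_unit i 16 (by decide)
    push_cast at hu0 hui
    have he := (hOrd (i + 1)).2.1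
    rw [dl_half h1 h2 hc, e4_lat h1 (hc.pos i).half (hc.pos (i + 1)) (hc.half i).symm] at hr
    unfold jv
    rw [div_eq_div_iff (pow_ne_zero _ he) (pow_ne_zero _ hu0), ← hr]
    ring
  rw [hsum]
  exact hS

end

end Pool.Agent.Lib.MP_7c08ba_nt.RZC
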