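import Pool.Agent.Lib.MP_7c08ba_nt.RZ.Basic

set_option autoImplicit false

/-!
Module `Qrel` of project RZ, part (C): (R4) the level 2 relations for power series.
-/

namespace Pool.Agent.Lib.MP_7c08ba_nt.RZC

open UpperHalfPlane ModularForm EisensteinSeries MatrixGroups NumberField
open scoped Real Manifold ComplexConjugate

noncomputable section

namespace QrelAux

/-- `q = exp (2 π i τ)` -/
abbrev qp (τ : ℂ) : ℂ := Function.Periodic.qParam (1 : ℝ) τ

/-- `F` is the sum of the `q`-series `g` -/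
def Rep (F : ℍ → ℂ) (g : PowerSeries ℂ) : Prop :=
  ∀ τ : ℍ, HasSum (fun m : ℕ => g.coeff m * qp τ ^ m) (F τ)

theorem hs_congr {a b : ℕ → ℂ} {s : ℂ} (h : HasSum b s) (hab : ∀ m, a m = b m) :
    HasSum a s := by
  rwa [show a = b from funext hab]

theorem Rep.add {F G : ℍ → ℂ} {f g : PowerSeries ℂ} (hF : Rep F f) (hG : Rep G g) :
    Rep (fun τ => F τ + G τ) (f + g) := fun τ => by
  simpa [add_mul] using (hF τ).add (hG τ)

theorem Rep.smul {F : ℍ → ℂ} {f : PowerSeries ℂ} (c : ℂ) (hF : Rep F f) :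
    Rep (fun τ => c * F τ) (PowerSeries.C c * f) := fun τ => by
  simpa [mul_assoc] using (hF τ).mul_left c

theorem Rep.mul {F G : ℍ → ℂ} {f g : PowerSeries ℂ} (hF : Rep F f) (hG : Rep G g) :
    Rep (fun τ => F τ * G τ) (f * g) := fun τ => by
  have h1 := (hF τ).summable.norm
  have h2 := (hG τ).summable.norm
  have h3 := tsum_mul_tsum_eq_tsum_sum_antidiagonal_of_summable_norm h1 h2
  have h4 := (summable_norm_sum_mul_antidiagonal_of_summable_norm h1 h2).of_norm
  rw [(hF τ).tsum_eq, (hG τ).tsum_eq] at h3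
  have h5 := h4.hasSum
  rw [← h3] at h5
  refine hs_congr h5 fun m => ?_
  rw [PowerSeries.coeff_mul, Finset.sum_mul]
  refine Finset.sum_congr rfl fun x hx => ?_
  rw [← Finset.HasAntidiagonal.mem_antidiagonal.1 hx, pow_add]
  ring

theorem Rep.unique {F : ℍ → ℂ} {f g : PowerSeries ℂ} (hf : Rep F f) (hg : Rep F g) : f = g := by
  ext m
  have h1 := ModularFormClass.qExpansion_coeff_unique (h := (1 : ℝ))
    (f := (0 : ModularForm 𝒮ℒ (0 : ℤ))) (c := fun m => f.coeff m - g.coeff m) one_pos
    one_mem_strictPeriods_SL (fun τ => by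
      have := (hf τ).sub (hg τ)
      simpa [sub_mul] using this) m
  have h2 : qExpansion (1 : ℝ) ((0 : ModularForm 𝒮ℒ (0 : ℤ)) : ℍ → ℂ) = 0 := by
    rw [FunLike.coe_zero]
    exact qExpansion_zero 1
  rw [h2] at h1
  simpa [sub_eq_zero] using h1

theorem rep_E2 : Rep E2 (toC P2) := fun τ => by
  have h := hasSum_qExpansion_E2 (z := τ)
  convert h using 2 with m
  have h1 : (toC P2).coeff m = if m = 0 then 1 else -24 * (ArithmeticFunction.sigma 1 m : ℂ) := by
    unfold toC P2 sg
    rw [PowerSeries.coeff_map, map_sub]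
    have h24 : (24 : PowerSeries ℤ) = PowerSeries.C 24 := rfl
    rw [h24, PowerSeries.coeff_C_mul, PowerSeries.coeff_mk, PowerSeries.coeff_one]
    split_ifs with h0
    · simp
    · simp
  rw [h1, smul_eq_mul]
  simp [qp, Function.Periodic.qParam]

theorem rep_E4 (h : StEis) : Rep (E₄ : ℍ → ℂ) (toC Q4) := fun τ => by
  have h1 := ModularForm.hasSum_qExpansion (h := 1) (f := E₄) one_pos one_mem_strictPeriods_SL τ
  rw [h.2.2.2.1] at h1
  exact h1

theorem rep_E6 (h : StEis) : Rep (E₆ : ℍ → ℂ) (toC R6) := fun τ => by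
  have h1 := ModularForm.hasSum_qExpansion (h := 1) (f := E₆) one_pos one_mem_strictPeriods_SL τ
  rw [h.2.2.2.2.1] at h1
  exact h1

theorem rep_D (h : StEis) : Rep discriminant (toC D12) := fun τ => by
  have h1 := ModularForm.hasSum_qExpansion (h := 1) (f := CuspForm.discriminant) one_pos
    one_mem_strictPeriods_SL τ
  have h2 : qExpansion 1 (CuspForm.discriminant : ℍ → ℂ) = toC D12 := h.2.2.2.2.2
  rw [h2] at h1
  exact h1

theorem toC_inj : Function.Injective toC :=
  PowerSeries.map_injective _ (RingHom.injective_int (Int.castRingHom ℂ))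

/-- `τ ↦ 2 τ` -/
def two (τ : ℍ) : ℍ := ⟨2 * (τ : ℂ), by
  have : (2 * (τ : ℂ)).im = 2 * τ.im := by
    rw [Complex.mul_im]
    norm_num
  rw [this]
  exact mul_pos two_pos τ.im_pos⟩

theorem coe_two (τ : ℍ) : ((two τ : ℍ) : ℂ) = 2 * (τ : ℂ) := rfl

theorem qp_two (τ : ℍ) : qp (two τ) = qp τ ^ 2 := by
  rw [coe_two]
  unfold qp Function.Periodic.qParam
  rw [← Complex.exp_nat_mul]
  congr 1
  push_cast
  ring

theorem Rep.V {F : ℍ → ℂ} {g : PowerSeries ℂ} (h : Rep F g) :
    Rep (fun τ => F (two τ)) (Vq g) := fun τ => by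
  have h1 := h (two τ)
  have hinj : Function.Injective (fun n : ℕ => 2 * n) := fun a b hab => by
    have : 2 * a = 2 * b := hab
    omega
  rw [← hinj.hasSum_iff]
  · refine hs_congr h1 fun m => ?_
    rw [qp_two, ← pow_mul]
    have h2 : (Vq g).coeff (2 * m) = g.coeff m := by
      unfold Vq
      rw [PowerSeries.coeff_mk, if_pos (even_two_mul m), Nat.mul_div_cancel_left _ two_pos]
    show (Vq g).coeff (2 * m) * qp τ ^ (2 * m) = _
    rw [h2]
  · intro x hx
    have h3 : ¬ Even x := fun he => by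
      obtain ⟨r, hr⟩ := he
      exact hx ⟨r, by show 2 * r = x; omega⟩
    have h2 : (Vq g).coeff x = 0 := by
      unfold Vq
      rw [PowerSeries.coeff_mk, if_neg h3]
    rw [h2, zero_mul]

theorem toC_Vq (g : PowerSeries ℤ) : toC (Vq g) = Vq (toC g) := by
  ext n
  unfold toC Vq
  rw [PowerSeries.coeff_map, PowerSeries.coeff_mk, PowerSeries.coeff_mk]
  split_ifs
  · rw [PowerSeries.coeff_map]
  · rw [map_zero]

theorem Vq_X_mul (u : PowerSeries ℤ) :
    Vq (PowerSeries.X * u) = PowerSeries.X ^ 2 * Vq u := by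
  ext n
  rw [PowerSeries.coeff_X_pow_mul']
  unfold Vq
  rw [PowerSeries.coeff_mk, PowerSeries.coeff_mk]
  rcases Nat.even_or_odd n with ⟨r, hr⟩ | hn
  · rcases r with _ | m
    · subst hr
      simp
    · have e1 : Even n := ⟨m + 1, hr⟩
      have e2 : n / 2 = m + 1 := by omega
      have e3 : 2 ≤ n := by omega
      have e4 : Even (n - 2) := ⟨m, by omega⟩
      have e5 : (n - 2) / 2 = m := by omega
      rw [if_pos e1, if_pos e3, if_pos e4, e2, e5, PowerSeries.coeff_succ_X_mul]
  · have e1 : ¬ Even n := Nat.not_even_iff_odd.2 hn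
    rw [if_neg e1]
    split_ifs with e3 e4
    · exfalso
      obtain ⟨s, hs⟩ := hn
      obtain ⟨t, ht⟩ := e4
      omega
    · rfl
    · rfl

/-- the relations between the functions -/
theorem rels (h1 : StLevel) (h2 : StE2rel) (τ : ℍ) :
    discriminant τ * (discriminant τ + 256 * discriminant (two τ)) ^ 3 =
      discriminant (two τ) * discriminant τ ^ 2 * E₄ τ ^ 3 ∧
    discriminant (two τ) * (discriminant τ + 16 * discriminant (two τ)) ^ 3 =
      discriminant τ * discriminant (two τ) ^ 2 * E₄ (two τ) ^ 3 ∧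
    (discriminant τ + 256 * discriminant (two τ)) * E₄ (two τ) =
      (discriminant τ + 16 * discriminant (two τ)) * E₄ τ ∧
    (discriminant τ + (-512) * discriminant (two τ)) * E₆ (two τ) =
      (discriminant τ + (-8) * discriminant (two τ)) * E₆ τ ∧
    E₆ τ * (discriminant τ + 256 * discriminant (two τ)) =
      (2 * E2 (two τ) + (-1) * E2 τ) * E₄ τ * (discriminant τ + (-512) * discriminant (two τ)) := by
  obtain ⟨_, k2, _, _, k3, k4, k5, k6, _⟩ := h1 τ 1 (pos_tau τ)
  have k7 := h2 τ 1 (pos_tau τ)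
  have e1 : (τ : ℂ) / (1 / 2) = two τ := by
    rw [coe_two]
    ring
  have a4 : e4 τ 1 = E₄ τ := LF_tau τ
  have a6 : e6 τ 1 = E₆ τ := LF_tau τ
  have aD : dl τ 1 = discriminant τ := LF_tau τ
  have a2 : LF 2 E2 τ 1 = E2 τ := LF_tau τ
  have b4 : e4 τ (1 / 2) = 16 * E₄ (two τ) := by
    show ((1 / 2) ^ 4)⁻¹ * (E₄ : ℍ → ℂ) (ofComplex (τ / (1 / 2))) = _
    rw [e1, ofComplex_apply]
    norm_num
  have b6 : e6 τ (1 / 2) = 64 * E₆ (two τ) := by
    show ((1 / 2) ^ 6)⁻¹ * (E₆ : ℍ → ℂ) (ofComplex (τ / (1 / 2))) = _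
    rw [e1, ofComplex_apply]
    norm_num
  have bD : dl τ (1 / 2) = 2 ^ 12 * discriminant (two τ) := by
    show ((1 / 2) ^ 12)⁻¹ * discriminant (ofComplex (τ / (1 / 2))) = _
    rw [e1, ofComplex_apply]
    norm_num
  have b2 : LF 2 E2 τ (1 / 2) = 4 * E2 (two τ) := by
    show ((1 / 2) ^ 2)⁻¹ * E2 (ofComplex (τ / (1 / 2))) = _
    rw [e1, ofComplex_apply]
    norm_num
  have hB : discriminant (two τ) ≠ 0 := by
    intro h
    rw [bD, h, mul_zero] at k2
    exact k2 rfl
  have hX : XX τ 1 = discriminant τ / discriminant (two τ) := by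
    unfold XX
    rw [aD, bD, mul_div_mul_left _ _ (by norm_num)]
  have he : ee τ 1 = 2 * E2 (two τ) - E2 τ := by
    unfold ee
    rw [a2, b2]
    ring
  rw [a4, aD, hX] at k3
  rw [b4, bD, hX] at k4
  rw [b4, a4, hX] at k5
  rw [b6, a6, hX] at k6
  rw [a6, a4, he, hX] at k7
  generalize discriminant τ = A at *
  generalize discriminant (two τ) = B at *
  generalize E₄ τ = Q at *
  generalize E₄ (two τ) = Q' at *
  generalize E₆ τ = R at *
  generalize E₆ (two τ) = R' at *
  generalize E2 τ = P at *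
  generalize E2 (two τ) = P' at *
  have hx : B * (A / B) = A := by field_simp
  generalize A / B = x at *
  subst hx
  refine ⟨?_, ?_, ?_, ?_, ?_⟩
  · linear_combination (-(B ^ 3) : ℂ) * k3
  · linear_combination (-(B ^ 3) / 4096 : ℂ) * k4
  · linear_combination (B / 16 : ℂ) * k5
  · linear_combination (B / 64 : ℂ) * k6
  · linear_combination (B : ℂ) * k7

end QrelAux

open QrelAux in
/-- (R4) the level 2 relations for power series -/
theorem stQrel (h1 : StLevel) (h2 : StE2rel) (h3 : StEis) : StQrel := by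
  have rD := rep_D h3
  have r4 := rep_E4 h3
  have r6 := rep_E6 h3
  have r2 := rep_E2
  have vD := rD.V
  have v4 := r4.V
  have v6 := r6.V
  have v2 := r2.V
  rw [← toC_Vq] at vD v4 v6 v2
  have cc : ∀ n : ℤ, (PowerSeries.C (n : ℂ) : PowerSeries ℂ) = toC (PowerSeries.C n) := fun n => by
    rw [toC, PowerSeries.map_C]
    rfl
  -- the relations between power series
  have s1 : D12 * (D12 + 256 * Vq D12) ^ 3 = Vq D12 * D12 ^ 2 * Q4 ^ 3 := by
    apply toC_inj
    have p1 := rD.mul (((rD.add (vD.smul 256)).mul (rD.add (vD.smul 256))).mul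
      (rD.add (vD.smul 256)))
    have p2 := (vD.mul (rD.mul rD)).mul ((r4.mul r4).mul r4)
    have p3 : (fun τ => discriminant τ * ((discriminant τ + 256 * discriminant (two τ)) *
        (discriminant τ + 256 * discriminant (two τ)) *
        (discriminant τ + 256 * discriminant (two τ)))) =
        fun τ => discriminant (two τ) * (discriminant τ * discriminant τ) *
          (E₄ τ * E₄ τ * E₄ τ) := by
      funext τ
      linear_combination (rels h1 h2 τ).1
    rw [p3] at p1
    have p4 := p1.unique p2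
    rw [show (256 : ℂ) = ((256 : ℤ) : ℂ) by norm_num, cc] at p4
    simp only [← map_mul, ← map_add] at p4
    convert p4 using 2
    · rw [show (256 : PowerSeries ℤ) = PowerSeries.C 256 from rfl]; ring
    · ring
  have s2 : Vq D12 * (D12 + 16 * Vq D12) ^ 3 = D12 * Vq D12 ^ 2 * Vq Q4 ^ 3 := by
    apply toC_inj
    have p1 := vD.mul (((rD.add (vD.smul 16)).mul (rD.add (vD.smul 16))).mul
      (rD.add (vD.smul 16)))
    have p2 := (rD.mul (vD.mul vD)).mul ((v4.mul v4).mul v4)
    have p3 : (fun τ => discriminant (two τ) * ((discriminant τ + 16 * discriminant (two τ)) *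
        (discriminant τ + 16 * discriminant (two τ)) *
        (discriminant τ + 16 * discriminant (two τ)))) =
        fun τ => discriminant τ * (discriminant (two τ) * discriminant (two τ)) *
          (E₄ (two τ) * E₄ (two τ) * E₄ (two τ)) := by
      funext τ
      linear_combination (rels h1 h2 τ).2.1
    rw [p3] at p1
    have p4 := p1.unique p2
    rw [show (16 : ℂ) = ((16 : ℤ) : ℂ) by norm_num, cc] at p4
    simp only [← map_mul, ← map_add] at p4
    convert p4 using 2
    · rw [show (16 : PowerSeries ℤ) = PowerSeries.C 16 from rfl]; ring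
    · ring
  have s3 : (D12 + 256 * Vq D12) * Vq Q4 = (D12 + 16 * Vq D12) * Q4 := by
    apply toC_inj
    have p1 := (rD.add (vD.smul 256)).mul v4
    have p2 := (rD.add (vD.smul 16)).mul r4
    have p3 : (fun τ => (discriminant τ + 256 * discriminant (two τ)) * E₄ (two τ)) =
        fun τ => (discriminant τ + 16 * discriminant (two τ)) * E₄ τ := by
      funext τ
      exact (rels h1 h2 τ).2.2.1
    rw [p3] at p1
    have p4 := p1.unique p2
    rw [show (16 : ℂ) = ((16 : ℤ) : ℂ) by norm_num, show (256 : ℂ) = ((256 : ℤ) : ℂ) by norm_num,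
      cc, cc] at p4
    simp only [← map_mul, ← map_add] at p4
    exact p4
  have s4 : (D12 + PowerSeries.C (-512) * Vq D12) * Vq R6 =
      (D12 + PowerSeries.C (-8) * Vq D12) * R6 := by
    apply toC_inj
    have p1 := (rD.add (vD.smul (-512))).mul v6
    have p2 := (rD.add (vD.smul (-8))).mul r6
    have p3 : (fun τ => (discriminant τ + (-512) * discriminant (two τ)) * E₆ (two τ)) =
        fun τ => (discriminant τ + (-8) * discriminant (two τ)) * E₆ τ := by
      funext τ
      exact (rels h1 h2 τ).2.2.2.1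
    rw [p3] at p1
    have p4 := p1.unique p2
    rw [show (-512 : ℂ) = ((-512 : ℤ) : ℂ) by norm_num,
      show (-8 : ℂ) = ((-8 : ℤ) : ℂ) by norm_num, cc, cc] at p4
    simp only [← map_mul, ← map_add] at p4
    exact p4
  have s5 : R6 * (D12 + PowerSeries.C 256 * Vq D12) =
      (PowerSeries.C 2 * Vq P2 + PowerSeries.C (-1) * P2) * Q4 *
        (D12 + PowerSeries.C (-512) * Vq D12) := by
    apply toC_inj
    have p1 := r6.mul (rD.add (vD.smul 256))
    have p2 := (((v2.smul 2).add (r2.smul (-1))).mul r4).mul (rD.add (vD.smul (-512)))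
    have p3 : (fun τ => E₆ τ * (discriminant τ + 256 * discriminant (two τ))) =
        fun τ => (2 * E2 (two τ) + (-1) * E2 τ) * E₄ τ *
          (discriminant τ + (-512) * discriminant (two τ)) := by
      funext τ
      exact (rels h1 h2 τ).2.2.2.2
    rw [p3] at p1
    have p4 := p1.unique p2
    rw [show (-512 : ℂ) = ((-512 : ℤ) : ℂ) by norm_num,
      show (256 : ℂ) = ((256 : ℤ) : ℂ) by norm_num,
      show (2 : ℂ) = ((2 : ℤ) : ℂ) by norm_num,
      show (-1 : ℂ) = ((-1 : ℤ) : ℂ) by norm_num, cc, cc, cc, cc] at p4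
    simp only [← map_mul, ← map_add] at p4
    exact p4
  have c512 : (PowerSeries.C (-512) : PowerSeries ℤ) = -512 := by
    rw [map_neg]; rfl
  have c8 : (PowerSeries.C (-8) : PowerSeries ℤ) = -8 := by
    rw [map_neg]; rfl
  have c1 : (PowerSeries.C (-1) : PowerSeries ℤ) = -1 := by
    rw [map_neg, map_one]
  have c2 : (PowerSeries.C 2 : PowerSeries ℤ) = 2 := rfl
  have c256 : (PowerSeries.C 256 : PowerSeries ℤ) = 256 := rfl
  rw [c512, c8] at s4
  rw [c512, c1, c2, c256] at s5
  -- the quotient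
  obtain ⟨-, d0, d1, -⟩ := h3
  obtain ⟨u, hu⟩ := PowerSeries.X_dvd_iff.2 (show PowerSeries.constantCoeff D12 = 0 by
    rw [← PowerSeries.coeff_zero_eq_constantCoeff_apply]; exact d0)
  have u0 : u.coeff 0 = 1 := by
    rw [← d1, hu, PowerSeries.coeff_succ_X_mul]
  have hunit : IsUnit u := by
    rw [PowerSeries.isUnit_iff_constantCoeff, ← PowerSeries.coeff_zero_eq_constantCoeff_apply, u0]
    exact isUnit_one
  obtain ⟨w, hw⟩ := hunit.exists_right_inv
  have hD0 : D12 ≠ 0 := by
    intro h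
    rw [h] at d1
    simp at d1
  have hy : D12 * (PowerSeries.X * Vq u * w) = Vq D12 := by
    have : Vq D12 = PowerSeries.X ^ 2 * Vq u := by
      rw [hu, Vq_X_mul]
    rw [this, hu]
    linear_combination (PowerSeries.X ^ 2 * Vq u) * hw
  generalize PowerSeries.X * Vq u * w = y at hy
  refine ⟨y, hy, ?_, ?_, ?_, ?_, ?_⟩
  · apply mul_left_cancel₀ (pow_ne_zero 3 hD0)
    rw [← hy] at s1
    linear_combination s1
  · apply mul_left_cancel₀ (pow_ne_zero 3 hD0)
    rw [← hy] at s2 ⊢
    linear_combination s2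
  · apply mul_left_cancel₀ hD0
    rw [← hy] at s3
    linear_combination s3
  · apply mul_left_cancel₀ hD0
    rw [← hy] at s4
    linear_combination s4
  · apply mul_left_cancel₀ hD0
    rw [← hy] at s5
    linear_combination s5

end

end Pool.Agent.Lib.MP_7c08ba_nt.RZC
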