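import Pool.Agent.Lib.MP_7c08ba_nt.RZ.Basic

set_option autoImplicit false

/-! (R1) Ramanujan's identities. -/

namespace Pool.Agent.Lib.MP_7c08ba_nt.RZC

open UpperHalfPlane ModularForm EisensteinSeries MatrixGroups NumberField Filter
open scoped Real Manifold ComplexConjugate Topology

noncomputable section

namespace Ram

open Derivative

/-- The derivative of a function which is bounded at infinity tends to zero. -/
theorem D_tendsto {F : ℍ → ℂ} (hF : MDiff F) (hb : IsBoundedAtImInfty F) :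
    Tendsto (normalizedDerivOfComplex F) atImInfty (𝓝 0) := by
  obtain ⟨C, A, hA⟩ := isBoundedAtImInfty_iff.1 hb
  have hF' := UpperHalfPlane.mdifferentiable_iff.1 hF
  have key : ∀ τ : ℍ, 2 * max A 1 ≤ τ.im →
      ‖normalizedDerivOfComplex F τ‖ ≤ |C| / (τ.im / 2) := by
    intro τ hτ
    have h0 : 0 < τ.im := τ.im_pos
    have him : ∀ z : ℂ, z ∈ Metric.closedBall (τ : ℂ) (τ.im / 2) → τ.im / 2 ≤ z.im := by
      intro z hz
      rw [Metric.mem_closedBall, dist_eq_norm] at hz
      have h1 := (Complex.abs_im_le_norm (z - τ)).trans hz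
      rw [Complex.sub_im, abs_le] at h1
      have h2 : (τ : ℂ).im = τ.im := rfl
      rw [h2] at h1
      linarith [h1.1]
    have hsub : Metric.closedBall (τ : ℂ) (τ.im / 2) ⊆ upperHalfPlaneSet := by
      intro z hz
      have := him z hz
      show 0 < z.im
      linarith
    have hd : DiffContOnCl ℂ (F ∘ ofComplex) (Metric.ball (τ : ℂ) (τ.im / 2)) := by
      apply DifferentiableOn.diffContOnCl
      refine hF'.mono (?_ : _ ⊆ upperHalfPlaneSet)
      rw [closure_ball _ (by positivity)]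
      exact hsub
    have hC : ∀ z ∈ Metric.sphere (τ : ℂ) (τ.im / 2), ‖(F ∘ ofComplex) z‖ ≤ |C| := by
      intro z hz
      have hz' := Metric.sphere_subset_closedBall hz
      have h1 := him z hz'
      have hpos : 0 < z.im := by linarith
      rw [Function.comp_apply, ofComplex_apply_of_im_pos hpos]
      refine (hA ⟨z, hpos⟩ ?_).trans (le_abs_self C)
      show A ≤ z.im
      linarith [le_max_left A 1]
    have h2 := Complex.norm_deriv_le_of_forall_mem_sphere_norm_le (by positivity) hd hC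
    unfold normalizedDerivOfComplex
    rw [norm_mul]
    have h3 : ‖(2 * (π : ℂ) * Complex.I)⁻¹‖ ≤ 1 := by
      rw [norm_inv]
      apply inv_le_one_of_one_le₀
      simp only [norm_mul, Complex.norm_ofNat, Complex.norm_real, Complex.norm_I, mul_one,
        Real.norm_eq_abs, abs_of_pos Real.pi_pos]
      linarith [Real.pi_gt_three]
    calc _ ≤ 1 * (|C| / (τ.im / 2)) := mul_le_mul h3 h2 (norm_nonneg _) zero_le_one
      _ = _ := one_mul _
  change IsZeroAtImInfty _
  rw [isZeroAtImInfty_iff]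
  intro ε hε
  refine ⟨max (2 * max A 1) (2 * |C| / ε), fun τ hτ => ?_⟩
  refine (key τ ((le_max_left _ _).trans hτ)).trans ?_
  have h0 : 0 < τ.im := τ.im_pos
  have h1 := (le_max_right _ _).trans hτ
  rw [div_le_iff₀ hε] at h1
  rw [div_le_iff₀ (by positivity)]
  linarith

/-- A function which transforms like a form of weight `k < 12` and tends to zero at infinity
vanishes. -/
theorem eq_zero {k : ℤ} (hk : k < 12) (F : ℍ → ℂ) (hF : MDiff F)
    (hinv : ∀ γ : SL(2, ℤ), F ∣[k] γ = F) (h0 : Tendsto F atImInfty (𝓝 0)) : F = 0 := by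
  let f : CuspForm 𝒮ℒ k :=
    { toFun := F
      slash_action_eq' := fun _ ⟨γ, hγ⟩ => hγ ▸ hinv γ
      holo' := hF
      zero_at_cusps' := by
        intro c hc
        rw [Subgroup.IsArithmetic.isCusp_iff_isCusp_SL2Z] at hc
        rw [OnePoint.isZeroAt_iff_forall_SL2Z hc]
        intro γ _
        have := hinv γ
        rw [this]
        exact h0 }
  have h1 : f = 0 := rank_zero_iff_forall_zero.mp (CuspForm.rank_eq_zero_of_weight_lt_twelve hk) f
  have h2 : (f : ℍ → ℂ) = 0 := by rw [h1]; rfl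
  exact h2

theorem periodic_E2 : Function.Periodic (E2 ∘ ofComplex) ((1 : ℝ) : ℂ) := by
  intro w
  by_cases hw : 0 < w.im
  · have h1 : 0 < (w + ((1 : ℝ) : ℂ)).im := by simpa using hw
    simp only [Function.comp_apply, ofComplex_apply_of_im_pos h1, ofComplex_apply_of_im_pos hw]
    have h2 := hasSum_qExpansion_E2 (z := ⟨w, hw⟩)
    have h3 := hasSum_qExpansion_E2 (z := ⟨w + ((1 : ℝ) : ℂ), h1⟩)
    refine h3.unique ?_
    convert h2 using 3 with m
    congr 1
    have h4 : 2 * (π : ℂ) * Complex.I * (w + ((1 : ℝ) : ℂ)) =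
        2 * (π : ℂ) * Complex.I * w + 2 * π * Complex.I := by
      push_cast; ring
    show Complex.exp (2 * (π : ℂ) * Complex.I * (w + ((1 : ℝ) : ℂ))) =
      Complex.exp (2 * (π : ℂ) * Complex.I * w)
    rw [h4, Complex.exp_add, Complex.exp_two_pi_mul_I, mul_one]
  · push Not at hw
    have : (w + ((1 : ℝ) : ℂ)).im ≤ 0 := by simpa using hw
    simp only [Function.comp_apply, ofComplex_apply_of_im_nonpos this,
      ofComplex_apply_of_im_nonpos hw]

theorem tendsto_cusp {F : ℍ → ℂ} (hp : Function.Periodic (F ∘ ofComplex) ((1 : ℝ) : ℂ))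
    (hF : MDiff F) (hb : IsBoundedAtImInfty F) :
    Tendsto F atImInfty (𝓝 (cuspFunction 1 F 0)) := by
  have ha := analyticAt_cuspFunction_zero one_pos hp hF hb
  have h1 := ha.continuousAt.tendsto.comp (qParam_tendsto_atImInfty one_pos)
  refine h1.congr fun τ => ?_
  exact eq_cuspFunction τ one_ne_zero hp

theorem E2_tendsto : Tendsto E2 atImInfty (𝓝 1) := by
  have hp := periodic_E2
  have ha := analyticAt_cuspFunction_zero one_pos hp E2_mdifferentiable isBoundedAtImInfty_E2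
  have h1 := tendsto_cusp hp E2_mdifferentiable isBoundedAtImInfty_E2
  have h2 := hasFPowerSeriesOnBall_cuspFunction (f := E2) one_pos ha
    (c := fun m => if m = 0 then 1 else -24 * ArithmeticFunction.sigma 1 m)
    (fun τ => by
      simpa only [Function.Periodic.qParam, Complex.ofReal_one, div_one] using
        hasSum_qExpansion_E2 (z := τ))
  have h3 := h2.hasFPowerSeriesAt.coeff_zero (fun _ => 0)
  rw [← h3] at h1
  simpa using h1

theorem form_tendsto {k : ℤ} (f : ModularForm 𝒮ℒ k) (h : (qExpansion 1 f).coeff 0 = 1) :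
    Tendsto (f : ℍ → ℂ) atImInfty (𝓝 1) := by
  have hp := SlashInvariantFormClass.periodic_comp_ofComplex f one_mem_strictPeriods_SL
  have h1 := tendsto_cusp hp (ModularFormClass.holo f) (ModularFormClass.bdd_at_infty f)
  rw [qExpansion_coeff] at h
  simp only [Nat.factorial_zero, Nat.cast_one, inv_one, iteratedDeriv_zero, one_mul] at h
  rwa [h] at h1

theorem E4_tendsto : Tendsto (E₄ : ℍ → ℂ) atImInfty (𝓝 1) :=
  form_tendsto E₄ (E_qExpansion_coeff_zero _ ⟨2, rfl⟩)

theorem E6_tendsto : Tendsto (E₆ : ℍ → ℂ) atImInfty (𝓝 1) :=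
  form_tendsto E₆ (E_qExpansion_coeff_zero _ ⟨3, rfl⟩)

theorem form_inv {k : ℤ} (f : ModularForm 𝒮ℒ k) (γ : SL(2, ℤ)) : (f : ℍ → ℂ) ∣[k] γ = f := by
  have hγ : (γ : GL (Fin 2) ℝ) ∈ 𝒮ℒ := ⟨γ, rfl⟩
  exact SlashInvariantFormClass.slash_action_eq f _ hγ

theorem serre_inv {k l : ℤ} {c : ℂ} {F : ℍ → ℂ} (hl : l = k + 2) (hc : c = (k : ℂ)) (hF : MDiff F)
    (γ : SL(2, ℤ)) (h : F ∣[k] γ = F) : serreDerivative c F ∣[l] γ = serreDerivative c F := by
  subst hl hc
  exact serreDerivative_slash_invariant hF h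

theorem ram4 (τ : ℍ) :
    normalizedDerivOfComplex E₄ τ = (E2 τ * E₄ τ - E₆ τ) / 3 := by
  have h := eq_zero (k := 6) (by norm_num)
    (serreDerivative 4 (E₄ : ℍ → ℂ) + (1 / 3 : ℂ) • (E₆ : ℍ → ℂ))
    ((serreDerivative_mdifferentiable 4 (ModularFormClass.holo E₄)).add
      ((ModularFormClass.holo E₆).const_smul _)) ?_ ?_
  · have h1 := congrFun h τ
    simp only [Pi.add_apply, Pi.smul_apply, smul_eq_mul, serreDerivative_apply,
      Pi.zero_apply] at h1
    linear_combination h1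
  · intro γ
    rw [SlashAction.add_slash, ModularForm.SL_smul_slash, form_inv,
      serre_inv (k := 4) (by norm_num) (by norm_num) (ModularFormClass.holo E₄) γ (form_inv E₄ γ)]
  · have h1 := (D_tendsto (ModularFormClass.holo E₄) (ModularFormClass.bdd_at_infty E₄)).sub
      ((E2_tendsto.mul E4_tendsto).const_mul (1 / 3))
    have h2 := h1.add (E6_tendsto.const_mul (1 / 3))
    refine (h2.congr fun τ => ?_).trans ?_
    · simp only [Pi.add_apply, Pi.smul_apply, smul_eq_mul, serreDerivative_apply]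
      ring
    · norm_num

theorem ram6 (τ : ℍ) :
    normalizedDerivOfComplex E₆ τ = (E2 τ * E₆ τ - E₄ τ ^ 2) / 2 := by
  have h := eq_zero (k := 8) (by norm_num)
    (serreDerivative 6 (E₆ : ℍ → ℂ) + (1 / 2 : ℂ) • ((E₄ : ℍ → ℂ) * (E₄ : ℍ → ℂ)))
    ((serreDerivative_mdifferentiable 6 (ModularFormClass.holo E₆)).add
      (((ModularFormClass.holo E₄).mul (ModularFormClass.holo E₄)).const_smul _)) ?_ ?_
  · have h1 := congrFun h τ
    simp only [Pi.add_apply, Pi.smul_apply, smul_eq_mul, serreDerivative_apply,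
      Pi.zero_apply, Pi.mul_apply] at h1
    linear_combination h1
  · intro γ
    have h4 : ((E₄ : ℍ → ℂ) * (E₄ : ℍ → ℂ)) ∣[(8 : ℤ)] γ = (E₄ : ℍ → ℂ) * (E₄ : ℍ → ℂ) := by
      have := ModularForm.mul_slash_SL2 4 4 γ (E₄ : ℍ → ℂ) (E₄ : ℍ → ℂ)
      rw [form_inv] at this
      simpa using this
    rw [SlashAction.add_slash, ModularForm.SL_smul_slash, h4,
      serre_inv (k := 6) (by norm_num) (by norm_num) (ModularFormClass.holo E₆) γ (form_inv E₆ γ)]
  · have h1 := (D_tendsto (ModularFormClass.holo E₆) (ModularFormClass.bdd_at_infty E₆)).sub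
      ((E2_tendsto.mul E6_tendsto).const_mul (1 / 2))
    have h2 := h1.add ((E4_tendsto.mul E4_tendsto).const_mul (1 / 2))
    refine (h2.congr fun τ => ?_).trans ?_
    · simp only [Pi.add_apply, Pi.smul_apply, smul_eq_mul, serreDerivative_apply, Pi.mul_apply]
      ring
    · norm_num

/-- `12 c / (2 π i (c τ + d))` -/
def uu (γ : SL(2, ℤ)) (z : ℍ) : ℂ := 12 * (2 * π * Complex.I)⁻¹ * (γ 1 0 / denom γ z)

theorem uu_eq (γ : SL(2, ℤ)) : (1 / (2 * riemannZeta 2)) • D2 γ = - uu γ := by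
  ext z
  simp only [Pi.smul_apply, Pi.neg_apply, uu, D2, smul_eq_mul, riemannZeta_two]
  have h1 := denom_ne_zero γ z
  have h2 : (π : ℂ) ≠ 0 := Complex.ofReal_ne_zero.2 Real.pi_ne_zero
  have h3 := Complex.I_ne_zero
  field_simp
  ring_nf
  simp only [Complex.I_sq]
  ring

theorem uu_has (γ : SL(2, ℤ)) (z : ℍ) : HasDerivAt (uu γ ∘ ofComplex)
    (12 * (2 * π * Complex.I)⁻¹ * (-(γ 1 0 / denom γ z) ^ 2)) z := by
  have h1 := ((hasDerivAt_denom_zpow (γ : GL (Fin 2) ℝ) (-1) z).const_mul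
    ((γ 1 0 : ℤ) : ℂ)).const_mul (12 * (2 * π * Complex.I)⁻¹)
  have h2 : (uu γ ∘ ofComplex) =ᶠ[𝓝 (z : ℂ)] fun w => 12 * (2 * (π : ℂ) * Complex.I)⁻¹ *
      (((γ 1 0 : ℤ) : ℂ) * denom γ w ^ (-1 : ℤ)) := by
    filter_upwards [isOpen_upperHalfPlaneSet.mem_nhds z.2] with w hw
    rw [Function.comp_apply, ofComplex_apply_of_im_pos hw]
    simp only [uu, zpow_neg_one, div_eq_mul_inv]
  refine (HasDerivAt.congr_of_eventuallyEq h1 h2).congr_deriv ?_
  have h3 := denom_ne_zero (γ : GL (Fin 2) ℝ) z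
  have h4 : (((γ : GL (Fin 2) ℝ) 1 0 : ℝ) : ℂ) = ((γ 1 0 : ℤ) : ℂ) := by simp
  rw [h4]
  have h5 : denom (γ : GL (Fin 2) ℝ) z ^ (-1 - 1 : ℤ) = (denom (γ : GL (Fin 2) ℝ) z ^ 2)⁻¹ := by
    rw [show (-1 - 1 : ℤ) = -(2 : ℕ) by norm_num, zpow_neg, zpow_natCast]
  rw [h5]
  push_cast
  field_simp

theorem uu_mdiff (γ : SL(2, ℤ)) : MDiff (uu γ) := by
  intro z
  exact UpperHalfPlane.mdifferentiableAt_iff.2 (uu_has γ z).differentiableAt

theorem D_uu (γ : SL(2, ℤ)) (z : ℍ) :
    normalizedDerivOfComplex (uu γ) z = - (uu γ z) ^ 2 / 12 := by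
  unfold normalizedDerivOfComplex
  rw [(uu_has γ z).deriv]
  unfold uu
  have h1 := denom_ne_zero γ z
  have h2 : (π : ℂ) ≠ 0 := Complex.ofReal_ne_zero.2 Real.pi_ne_zero
  have h3 := Complex.I_ne_zero
  field_simp

theorem ram2 (τ : ℍ) :
    normalizedDerivOfComplex E2 τ = (E2 τ ^ 2 - E₄ τ) / 12 := by
  have h := eq_zero (k := 4) (by norm_num)
    (serreDerivative 2 E2 + ((1 / 12 : ℂ) • (E2 * E2) + (1 / 12 : ℂ) • (E₄ : ℍ → ℂ)))
    ((serreDerivative_mdifferentiable 2 E2_mdifferentiable).add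
      (((E2_mdifferentiable.mul E2_mdifferentiable).const_smul _).add
        ((ModularFormClass.holo E₄).const_smul _))) ?_ ?_
  · have h1 := congrFun h τ
    simp only [Pi.add_apply, Pi.smul_apply, smul_eq_mul, serreDerivative_apply,
      Pi.zero_apply, Pi.mul_apply] at h1
    linear_combination h1
  · intro γ
    have hE : E2 ∣[(2 : ℤ)] γ = E2 + uu γ := by
      rw [E2_slash_action, uu_eq, sub_neg_eq_add]
    have h2 : serreDerivative 2 E2 ∣[(4 : ℤ)] γ = serreDerivative 2 (E2 + uu γ) := by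
      have := serreDerivative_slash_equivariant (k := 2) E2_mdifferentiable (γ := γ)
      rw [hE] at this
      simpa using this
    have h4 : (E2 * E2) ∣[(4 : ℤ)] γ = (E2 + uu γ) * (E2 + uu γ) := by
      have := ModularForm.mul_slash_SL2 2 2 γ E2 E2
      rw [hE] at this
      simpa using this
    rw [SlashAction.add_slash, SlashAction.add_slash, ModularForm.SL_smul_slash,
      ModularForm.SL_smul_slash, h4, h2, form_inv]
    ext z
    simp only [Pi.add_apply, Pi.smul_apply, smul_eq_mul, serreDerivative_apply, Pi.mul_apply]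
    rw [normalizedDerivOfComplex_add _ _ E2_mdifferentiable (uu_mdiff γ), Pi.add_apply, D_uu]
    ring
  · have h1 := (D_tendsto E2_mdifferentiable isBoundedAtImInfty_E2).sub
      ((E2_tendsto.mul E2_tendsto).const_mul (1 / 12))
    have h2 := h1.add (E4_tendsto.const_mul (1 / 12))
    refine (h2.congr fun τ => ?_).trans ?_
    · simp only [Pi.add_apply, Pi.smul_apply, smul_eq_mul, serreDerivative_apply, Pi.mul_apply]
      ring
    · norm_num

theorem ramD (τ : ℍ) :
    normalizedDerivOfComplex discriminant τ = E2 τ * discriminant τ := by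
  have h0 : eta τ ≠ 0 := eta_ne_zero τ.2
  have h1 := logDeriv_eta_eq_E2 τ
  rw [logDeriv_apply, div_eq_iff h0] at h1
  have hd := differentiableAt_eta_of_mem_upperHalfPlaneSet (z := (τ : ℂ)) τ.2
  have h2 : HasDerivAt (discriminant ∘ ofComplex) (24 * eta τ ^ 23 * deriv eta τ) τ := by
    have h3 := hd.hasDerivAt.pow 24
    have h4 : (discriminant ∘ ofComplex) =ᶠ[𝓝 (τ : ℂ)] fun w => eta w ^ 24 := by
      filter_upwards [isOpen_upperHalfPlaneSet.mem_nhds τ.2] with w hw
      rw [Function.comp_apply, ofComplex_apply_of_im_pos hw]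
      rfl
    refine HasDerivAt.congr_of_eventuallyEq ?_ h4
    exact h3.congr_deriv (by norm_num)
  unfold normalizedDerivOfComplex
  rw [h2.deriv, h1]
  unfold discriminant
  have h2 : (π : ℂ) ≠ 0 := Complex.ofReal_ne_zero.2 Real.pi_ne_zero
  have h3 := Complex.I_ne_zero
  field_simp
  ring

end Ram

/-- (R1) Ramanujan's identities -/
theorem stRam : StRam := ⟨Ram.ram2, Ram.ram4, Ram.ram6, Ram.ramD⟩

end

end Pool.Agent.Lib.MP_7c08ba_nt.RZC
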