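import Pool.Agent.Lib.MP_7c08ba_nt.RZ.StmtsC

set_option autoImplicit false

/-!
Module `RamQ` of project RZ, part (C): Ramanujan's identities for power series.
-/

namespace Pool.Agent.Lib.MP_7c08ba_nt.RZC

open UpperHalfPlane ModularForm EisensteinSeries MatrixGroups NumberField
open scoped Real Manifold ComplexConjugate

noncomputable section

namespace RamQ

/-- `q = exp (2 π i τ)` -/
abbrev qp (τ : ℂ) : ℂ := Function.Periodic.qParam (1 : ℝ) τ

/-- `F` is the sum of the `q`-series `g` -/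
def Rep (F : ℍ → ℂ) (g : PowerSeries ℂ) : Prop :=
  ∀ τ : ℍ, HasSum (fun m : ℕ => g.coeff m * qp τ ^ m) (F τ)

theorem hs_congr {a b : ℕ → ℂ} {s : ℂ} (h : HasSum b s) (hab : ∀ m, a m = b m) :
    HasSum a s := by
  rwa [show a = b from funext hab]

theorem Rep.sub {F G : ℍ → ℂ} {f g : PowerSeries ℂ} (hF : Rep F f) (hG : Rep G g) :
    Rep (fun τ => F τ - G τ) (f - g) := fun τ => by
  simpa [sub_mul] using (hF τ).sub (hG τ)

theorem Rep.smul {F : ℍ → ℂ} {f : PowerSeries ℂ} (c : ℂ) (hF : Rep F f) :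
    Rep (fun τ => c * F τ) (PowerSeries.C c * f) := fun τ => by
  simpa [mul_assoc] using (hF τ).mul_left c

theorem Rep.mul {F G : ℍ → ℂ} {f g : PowerSeries ℂ} (hF : Rep F f) (hG : Rep G g) :
    Rep (fun τ => F τ * G τ) (f * g) := fun τ => by
  have h1 := (hF τ).summable.norm
  have h2 := (hG τ).summable.norm
  have h3 := tsum_mul_tsum_eq_tsum_sum_antidiagonal_of_summable_norm h1 h2
  have h4 := (summable_norm_sum_mul_antidiagonal_of_summable_norm h1 h2).of_norm
  rw [(hF τ).tsum_eq, (hG τ).tsum_eq] at h3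
  have h5 := h4.hasSum
  rw [← h3] at h5
  refine hs_congr h5 fun m => ?_
  rw [PowerSeries.coeff_mul, Finset.sum_mul]
  refine Finset.sum_congr rfl fun x hx => ?_
  rw [← Finset.HasAntidiagonal.mem_antidiagonal.1 hx, pow_add]
  ring

theorem Rep.unique {F : ℍ → ℂ} {f g : PowerSeries ℂ} (hf : Rep F f) (hg : Rep F g) : f = g := by
  ext m
  have h1 := ModularFormClass.qExpansion_coeff_unique (h := (1 : ℝ))
    (f := (0 : ModularForm 𝒮ℒ (0 : ℤ))) (c := fun m => f.coeff m - g.coeff m) one_pos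
    one_mem_strictPeriods_SL (fun τ => by
      have := (hf τ).sub (hg τ)
      simpa [sub_mul] using this) m
  have h2 : qExpansion (1 : ℝ) ((0 : ModularForm 𝒮ℒ (0 : ℤ)) : ℍ → ℂ) = 0 := by
    rw [FunLike.coe_zero]
    exact qExpansion_zero 1
  rw [h2] at h1
  simpa [sub_eq_zero] using h1

theorem norm_qp (z : ℂ) : ‖qp z‖ = Real.exp (-2 * π * z.im) := by
  rw [Function.Periodic.norm_qParam, div_one]

theorem summ_aux {a : ℕ → ℂ} {ε : ℝ} (h : Summable fun m => ‖a m‖ * Real.exp (-ε) ^ m)
    (hε : 0 < ε) : Summable fun m : ℕ => ‖a m‖ * (m * Real.exp (-(2 * ε)) ^ m) := by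
  have h1 : Summable fun m : ℕ => ((m : ℝ) ^ 1 * Real.exp (-ε) ^ m : ℝ) :=
    summable_pow_mul_geometric_of_norm_lt_one 1 (by
      rw [Real.norm_eq_abs, abs_of_pos (Real.exp_pos _)]
      exact Real.exp_lt_one_iff.2 (by linarith))
  obtain ⟨C, hC⟩ : ∃ C : ℝ, ∀ m : ℕ, (m : ℝ) * Real.exp (-ε) ^ m ≤ C := by
    obtain ⟨C, hC⟩ := h1.tendsto_atTop_zero.bddAbove_range
    exact ⟨C, fun m => by simpa using hC ⟨m, rfl⟩⟩
  refine Summable.of_nonneg_of_le (fun m => by positivity) (fun m => ?_) (h.mul_left C)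
  have h2 : Real.exp (-(2 * ε)) ^ m = Real.exp (-ε) ^ m * Real.exp (-ε) ^ m := by
    rw [← mul_pow, ← Real.exp_add]
    ring_nf
  rw [h2]
  have h3 := mul_le_mul_of_nonneg_right (hC m)
    (mul_nonneg (norm_nonneg (a m)) (pow_nonneg (Real.exp_pos (-ε)).le m))
  linarith

theorem Rep.deriv {F : ℍ → ℂ} {f : PowerSeries ℂ} (hF : Rep F f) :
    Rep (Derivative.normalizedDerivOfComplex F) (th f) := fun τ => by
  set y : ℝ := τ.im with hy
  have hy0 : 0 < y := τ.im_pos
  let t : Set ℂ := {z | y / 2 < z.im}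
  have ht : IsOpen t := isOpen_lt continuous_const Complex.continuous_im
  have ht' : IsPreconnected t := (convex_halfSpace_im_gt (y / 2)).isPreconnected
  have hτ : (τ : ℂ) ∈ t := by
    show y / 2 < (τ : ℂ).im
    rw [coe_im]
    linarith
  have hd : ∀ (m : ℕ) (z : ℂ), HasDerivAt (fun z => f.coeff m * qp z ^ m)
      (2 * π * Complex.I * (m * f.coeff m * qp z ^ m)) z := fun m z => by
    have h1 : (fun z => f.coeff m * qp z ^ m) =
        fun z => f.coeff m * Complex.exp (m * (2 * π * Complex.I * z)) := by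
      funext z
      rw [Complex.exp_nat_mul]
      simp [qp, Function.Periodic.qParam]
    have h2 : qp z ^ m = Complex.exp (m * (2 * π * Complex.I * z)) := by
      rw [Complex.exp_nat_mul]
      simp [qp, Function.Periodic.qParam]
    rw [h1, h2]
    have h3 : HasDerivAt (fun z : ℂ => (m : ℂ) * (2 * π * Complex.I * z))
        ((m : ℂ) * (2 * π * Complex.I)) z := by
      simpa using ((hasDerivAt_id z).const_mul (2 * π * Complex.I)).const_mul (m : ℂ)
    have h4 := (h3.cexp).const_mul (f.coeff m)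
    have h5 : (2 * π * Complex.I * (m * f.coeff m *
        Complex.exp (m * (2 * π * Complex.I * z))) : ℂ) =
        f.coeff m * (Complex.exp (m * (2 * π * Complex.I * z)) *
          ((m : ℂ) * (2 * π * Complex.I))) := by ring
    rw [h5]
    exact h4
  have hs : ∀ z : ℂ, 0 < z.im → Summable fun m => f.coeff m * qp z ^ m := fun z hz =>
    (hF ⟨z, hz⟩).summable
  have hu0 : Summable fun m => ‖f.coeff m‖ * Real.exp (-(π * y / 2)) ^ m := by
    have h1 := (hs (Complex.I * (y / 4 : ℝ)) (by simp; linarith)).norm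
    refine h1.congr fun m => ?_
    rw [norm_mul, norm_pow, norm_qp]
    congr 3
    simp
    ring
  have hu1 := summ_aux hu0 (by positivity)
  have hu : Summable fun m : ℕ => 2 * π * (‖f.coeff m‖ *
      (m * Real.exp (-(2 * (π * y / 2))) ^ m)) := hu1.mul_left _
  have key := hasDerivAt_tsum_of_isPreconnected hu ht ht' (fun m z _ => hd m z)
    (fun m z hz => by
      rw [norm_mul, norm_mul, norm_mul, norm_mul, norm_mul, norm_pow, norm_qp]
      simp only [Complex.norm_ofNat, Complex.norm_real, Complex.norm_I, mul_one,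
        Real.norm_eq_abs, abs_of_pos Real.pi_pos, Complex.norm_natCast]
      have h1 : Real.exp (-2 * π * z.im) ≤ Real.exp (-(2 * (π * y / 2))) := by
        apply Real.exp_le_exp.2
        have hz' : y / 2 < z.im := hz
        nlinarith [Real.pi_pos]
      have h2 := pow_le_pow_left₀ (Real.exp_pos _).le h1 m
      calc 2 * π * (↑m * ‖f.coeff m‖ * Real.exp (-2 * π * z.im) ^ m)
          ≤ 2 * π * (↑m * ‖f.coeff m‖ * Real.exp (-(2 * (π * y / 2))) ^ m) := by gcongr
        _ = _ := by ring)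
    hτ (hs _ (by rw [coe_im]; exact hy0)) hτ
  have hev : (fun z => ∑' m : ℕ, f.coeff m * qp z ^ m) =ᶠ[nhds (τ : ℂ)] F ∘ ofComplex := by
    filter_upwards [ht.mem_nhds hτ] with z hz
    have hz0 : 0 < z.im := lt_trans (by positivity) (show y / 2 < z.im from hz)
    rw [Function.comp_apply, ofComplex_apply_of_im_pos hz0]
    exact (hF ⟨z, hz0⟩).tsum_eq
  have hder := (key.congr_of_eventuallyEq hev.symm).deriv
  have hsum : Summable fun m : ℕ => (2 * π * Complex.I) * (m * f.coeff m * qp τ ^ m) := by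
    refine Summable.of_norm_bounded hu fun m => ?_
    rw [norm_mul, norm_mul, norm_mul, norm_mul, norm_mul, norm_pow, norm_qp]
    simp only [Complex.norm_ofNat, Complex.norm_real, Complex.norm_I, mul_one,
      Real.norm_eq_abs, abs_of_pos Real.pi_pos, Complex.norm_natCast]
    have h1 : Real.exp (-2 * π * (τ : ℂ).im) ≤ Real.exp (-(2 * (π * y / 2))) := by
      apply Real.exp_le_exp.2
      rw [coe_im]
      nlinarith [Real.pi_pos]
    have h2 := pow_le_pow_left₀ (Real.exp_pos _).le h1 m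
    calc 2 * π * (↑m * ‖f.coeff m‖ * Real.exp (-2 * π * (τ : ℂ).im) ^ m)
        ≤ 2 * π * (↑m * ‖f.coeff m‖ * Real.exp (-(2 * (π * y / 2))) ^ m) := by gcongr
      _ = _ := by ring
  have hfin := hsum.hasSum.mul_left (2 * π * Complex.I)⁻¹
  unfold Derivative.normalizedDerivOfComplex
  rw [hder]
  refine hs_congr hfin fun m => ?_
  rw [← mul_assoc, inv_mul_cancel₀ Complex.two_pi_I_ne_zero, one_mul]
  simp [th]

theorem rep_E2 : Rep E2 (toC P2) := fun τ => by
  have h := hasSum_qExpansion_E2 (z := τ)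
  convert h using 2 with m
  have h1 : (toC P2).coeff m = if m = 0 then 1 else -24 * (ArithmeticFunction.sigma 1 m : ℂ) := by
    unfold toC P2 sg
    rw [PowerSeries.coeff_map, map_sub]
    have h24 : (24 : PowerSeries ℤ) = PowerSeries.C 24 := rfl
    rw [h24, PowerSeries.coeff_C_mul, PowerSeries.coeff_mk, PowerSeries.coeff_one]
    split_ifs with h0
    · simp
    · simp
  rw [h1, smul_eq_mul]
  simp [qp, Function.Periodic.qParam]

theorem rep_E4 (h : StEis) : Rep (E₄ : ℍ → ℂ) (toC Q4) := fun τ => by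
  have h1 := ModularForm.hasSum_qExpansion (h := 1) (f := E₄) one_pos one_mem_strictPeriods_SL τ
  rw [h.2.2.2.1] at h1
  exact h1

theorem rep_E6 (h : StEis) : Rep (E₆ : ℍ → ℂ) (toC R6) := fun τ => by
  have h1 := ModularForm.hasSum_qExpansion (h := 1) (f := E₆) one_pos one_mem_strictPeriods_SL τ
  rw [h.2.2.2.2.1] at h1
  exact h1

theorem toC_inj : Function.Injective toC :=
  PowerSeries.map_injective _ (RingHom.injective_int (Int.castRingHom ℂ))

theorem th_toC (g : PowerSeries ℤ) : th (toC g) = toC (th g) := by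
  ext m
  simp [th, toC]

theorem th_sub {R : Type*} [CommRing R] (f g : PowerSeries R) : th (f - g) = th f - th g := by
  ext m
  simp [th, mul_sub]

theorem th_C {R : Type*} [CommRing R] (c : R) (g : PowerSeries R) :
    th (PowerSeries.C c * g) = PowerSeries.C c * th g := by
  ext m
  simp only [th, PowerSeries.coeff_mk, PowerSeries.coeff_C_mul]
  ring

theorem th_mul {R : Type*} [CommRing R] (f g : PowerSeries R) :
    th (f * g) = th f * g + f * th g := by
  ext m
  simp only [th, PowerSeries.coeff_mk, PowerSeries.coeff_mul, map_add, Finset.mul_sum,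
    ← Finset.sum_add_distrib]
  refine Finset.sum_congr rfl fun x hx => ?_
  rw [← Finset.HasAntidiagonal.mem_antidiagonal.1 hx]
  push_cast
  ring

end RamQ

open RamQ

theorem stRamQ (h1 : StRam) (h2 : StEis) : StRamQ := by
  obtain ⟨a1, a2, a3, -⟩ := h1
  have b2 := rep_E2
  have b4 := rep_E4 h2
  have b6 := rep_E6 h2
  have c12 : (12 : PowerSeries ℂ) = PowerSeries.C 12 := rfl
  have c3 : (3 : PowerSeries ℂ) = PowerSeries.C 3 := rfl
  have c2 : (2 : PowerSeries ℂ) = PowerSeries.C 2 := rfl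
  have e1 : 12 * th P2 = P2 ^ 2 - Q4 := by
    apply toC_inj
    have h3 : Rep (fun τ => 12 * Derivative.normalizedDerivOfComplex E2 τ)
        (PowerSeries.C 12 * th (toC P2)) := b2.deriv.smul 12
    have h4 := (b2.mul b2).sub b4
    have h5 : (fun τ => 12 * Derivative.normalizedDerivOfComplex E2 τ) =
        fun τ => E2 τ * E2 τ - E₄ τ := by
      funext τ
      rw [a1 τ]
      ring
    rw [h5] at h3
    have h6 := h3.unique h4
    simp only [toC, map_mul, map_sub, map_pow, map_ofNat]
    rw [th_toC] at h6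
    rw [c12, pow_two]
    exact h6
  have e2 : 3 * th Q4 = P2 * Q4 - R6 := by
    apply toC_inj
    have h3 : Rep (fun τ => 3 * Derivative.normalizedDerivOfComplex E₄ τ)
        (PowerSeries.C 3 * th (toC Q4)) := b4.deriv.smul 3
    have h4 := (b2.mul b4).sub b6
    have h5 : (fun τ => 3 * Derivative.normalizedDerivOfComplex E₄ τ) =
        fun τ => E2 τ * E₄ τ - E₆ τ := by
      funext τ
      rw [a2 τ]
      ring
    rw [h5] at h3
    have h6 := h3.unique h4
    simp only [toC, map_mul, map_sub, map_ofNat]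
    rw [th_toC] at h6
    rw [c3]
    exact h6
  have e3 : 2 * th R6 = P2 * R6 - Q4 ^ 2 := by
    apply toC_inj
    have h3 : Rep (fun τ => 2 * Derivative.normalizedDerivOfComplex E₆ τ)
        (PowerSeries.C 2 * th (toC R6)) := b6.deriv.smul 2
    have h4 := (b2.mul b6).sub (b4.mul b4)
    have h5 : (fun τ => 2 * Derivative.normalizedDerivOfComplex E₆ τ) =
        fun τ => E2 τ * E₆ τ - E₄ τ * E₄ τ := by
      funext τ
      rw [a3 τ]
      ring
    rw [h5] at h3
    have h6 := h3.unique h4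
    simp only [toC, map_mul, map_sub, map_pow, map_ofNat]
    rw [th_toC] at h6
    rw [c2, pow_two (PowerSeries.map _ Q4)]
    exact h6
  refine ⟨e1, e2, e3, ?_⟩
  have h3 : (1728 : PowerSeries ℤ) * th D12 = 1728 * (P2 * D12) := by
    have h4 : (1728 : PowerSeries ℤ) * th D12 = th (1728 * D12) := by
      have c : (1728 : PowerSeries ℤ) = PowerSeries.C 1728 := rfl
      rw [c, th_C]
    rw [h4, h2.1, th_sub, show Q4 ^ 3 = Q4 * (Q4 * Q4) by ring, show R6 ^ 2 = R6 * R6 by ring,
      th_mul, th_mul, th_mul]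
    have h5 : 1728 * (P2 * D12) = P2 * (Q4 ^ 3 - R6 ^ 2) := by rw [← h2.1]; ring
    rw [h5]
    linear_combination Q4 ^ 2 * e2 - R6 * e3
  have h1728 : (1728 : PowerSeries ℤ) ≠ 0 := by
    have c : (1728 : PowerSeries ℤ) = PowerSeries.C 1728 := rfl
    rw [c]
    intro h
    have := congrArg (PowerSeries.coeff 0) h
    rw [PowerSeries.coeff_zero_C, map_zero] at this
    norm_num at this
  exact mul_left_cancel₀ h1728 h3

end

end Pool.Agent.Lib.MP_7c08ba_nt.RZC
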