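import Pool.Agent.Lib.MP_7c08ba_nt.RZ.StmtsC

set_option autoImplicit false

/-! (L5) sublattices of finite index, step by step. -/

namespace Pool.Agent.Lib.MP_7c08ba_nt.RZC

namespace StepAux

/-- between a group `L` and a subgroup `N` of finite index there is a group of index `N / p` -/
theorem between {G : Type*} [AddCommGroup G] {N L : AddSubgroup G} (hNL : N ≤ L) {p : ℕ}
    (hp : p.Prime) (h0 : N.relIndex L ≠ 0) (hd : p ∣ N.relIndex L) :
    ∃ M : AddSubgroup G, N ≤ M ∧ M ≤ L ∧ M.relIndex L * p = N.relIndex L := by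
  have hcard : Nat.card (L ⧸ N.addSubgroupOf L) = N.relIndex L := rfl
  have : Finite (L ⧸ N.addSubgroupOf L) := Nat.finite_of_card_ne_zero (by rw [hcard]; exact h0)
  have : Fact p.Prime := ⟨hp⟩
  obtain ⟨x, hx⟩ := exists_prime_addOrderOf_dvd_card' (G := L ⧸ N.addSubgroupOf L) p
    (by rw [hcard]; exact hd)
  set Z : AddSubgroup (L ⧸ N.addSubgroupOf L) := AddSubgroup.zmultiples x with hZ
  have hZc : Nat.card Z = p := by rw [hZ, Nat.card_zmultiples, hx]
  have hZi : Z.index * p = N.relIndex L := by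
    rw [← hZc, AddSubgroup.index_mul_card, hcard]
  set W : AddSubgroup L := Z.comap (QuotientAddGroup.mk' (N.addSubgroupOf L)) with hW
  have hWi : W.index = Z.index :=
    Z.index_comap_of_surjective (QuotientAddGroup.mk'_surjective _)
  refine ⟨W.map L.subtype, ?_, ?_, ?_⟩
  · intro y hy
    refine ⟨⟨y, hNL hy⟩, ?_, rfl⟩
    show QuotientAddGroup.mk' (N.addSubgroupOf L) ⟨y, hNL hy⟩ ∈ Z
    have : QuotientAddGroup.mk' (N.addSubgroupOf L) ⟨y, hNL hy⟩ = 0 := by
      rw [← AddMonoidHom.mem_ker, QuotientAddGroup.ker_mk', AddSubgroup.mem_addSubgroupOf]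
      exact hy
    rw [this]
    exact Z.zero_mem
  · rintro y ⟨z, _, rfl⟩
    exact z.2
  · have h1 : (W.map L.subtype).addSubgroupOf L = W := by
      rw [AddSubgroup.addSubgroupOf]
      exact AddSubgroup.comap_map_eq_self_of_injective L.subtype_injective W
    rw [AddSubgroup.relIndex, h1, hWi, hZi]

theorem exists_prime {G : Type*} [AddCommGroup G] (L : AddSubgroup G) : ∀ (n : ℕ)
    (N : AddSubgroup G), N ≤ L → N.relIndex L = n → 1 < n →
    ∃ M : AddSubgroup G, N ≤ M ∧ M ≤ L ∧ (M.relIndex L).Prime := by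
  intro n
  induction n using Nat.strong_induction_on with
  | _ n ih =>
    intro N hNL hn hn1
    by_cases hp : n.Prime
    · exact ⟨N, le_rfl, hNL, by rw [hn]; exact hp⟩
    · obtain ⟨p, hpp, hpd⟩ := Nat.exists_prime_and_dvd hn1.ne'
      obtain ⟨M, h1, h2, h3⟩ := between hNL hpp (by rw [hn]; omega) (by rw [hn]; exact hpd)
      rw [hn] at h3
      have hM1 : 1 < M.relIndex L := by
        rcases Nat.lt_or_ge 1 (M.relIndex L) with h | h
        · exact h
        · exfalso
          interval_cases hM : M.relIndex L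
          · omega
          · rw [one_mul] at h3
            exact hp (h3 ▸ hpp)
      have hMn : M.relIndex L < n := by
        have := hpp.two_le
        nlinarith
      obtain ⟨K, k1, k2, k3⟩ := ih _ hMn M h2 rfl hM1
      exact ⟨K, h1.trans k1, k2, k3⟩

end StepAux

theorem stStep (h : StSub) : StStep := by
  intro w₁ w₂ v₁ v₂ hw hv hle n hn1 hn
  obtain ⟨M, h1, h2, h3⟩ := StepAux.exists_prime (lat w₁ w₂).toAddSubgroup n
    (lat v₁ v₂).toAddSubgroup hle hn hn1
  set p := M.relIndex (lat w₁ w₂).toAddSubgroup with hp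
  have hmul := AddSubgroup.relIndex_mul_relIndex _ _ _ h1 h2
  rw [hn, ← hp] at hmul
  obtain ⟨i, hi⟩ := (h p h3 w₁ w₂ hw).2.2 (AddSubgroup.toIntSubmodule M) h2 rfl
  have hi' : M = (lat (sub p w₁ w₂ i).1 (sub p w₁ w₂ i).2).toAddSubgroup := by
    rw [← hi]; rfl
  refine ⟨p, h3, Dvd.intro_left _ hmul, i, ?_, ?_⟩
  · intro z hz
    have := h1 hz
    rw [hi'] at this
    exact this
  · rw [← hi', ← hmul, Nat.mul_div_cancel _ h3.pos]

end Pool.Agent.Lib.MP_7c08ba_nt.RZC
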