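import Pool.Agent.Lib.MP_7c08ba_nt.RZ.Basic

set_option autoImplicit false

/-! (I2) structure theorem over any additive subgroup of coefficients. -/

namespace Pool.Agent.Lib.MP_7c08ba_nt.RZC

open UpperHalfPlane ModularForm EisensteinSeries MatrixGroups NumberField
open scoped Real Manifold ComplexConjugate

noncomputable section

namespace StructAux

/-- the form `eb k E₄ E₆` -/
theorem exists_eb (k : ℕ) (hk : Even k) (h2 : k ≠ 2) : ∃ g : ModularForm 𝒮ℒ (k : ℤ),
    (∀ τ, g τ = eb k (E₄ τ) (E₆ τ)) ∧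
    qExpansion 1 (g : ℍ → ℂ) =
      eb k (qExpansion 1 (E₄ : ℍ → ℂ)) (qExpansion 1 (E₆ : ℍ → ℂ)) := by
  unfold eb
  by_cases h : k % 4 = 0
  · refine ⟨ModularForm.mcast (by omega) (E₄.pow (k / 4)), fun τ => ?_, ?_⟩
    · rw [if_pos h]
      simp only [coe_mcast, coe_pow, Pi.pow_apply]
    · rw [if_pos h]
      simp only [coe_mcast]
      exact ModularForm.qExpansion_pow one_pos one_mem_strictPeriods_SL _ _
  · have h3 : k % 4 = 2 := by
      obtain ⟨m, hm⟩ := hk
      omega
    refine ⟨ModularForm.mcast (by omega) ((E₄.pow ((k - 6) / 4)).mul E₆), fun τ => ?_, ?_⟩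
    · rw [if_neg h]
      simp only [coe_mcast, coe_mul, coe_pow, Pi.mul_apply, Pi.pow_apply]
    · rw [if_neg h]
      simp only [coe_mcast]
      rw [ModularForm.qExpansion_mul one_pos one_mem_strictPeriods_SL,
        ModularForm.qExpansion_pow one_pos one_mem_strictPeriods_SL]

theorem eb_toC (k : ℕ) : eb k (toC Q4) (toC R6) = toC (eb k Q4 R6) := by
  unfold eb
  split_ifs <;> simp [toC]

theorem const_Q4 : PowerSeries.constantCoeff Q4 = 1 := by
  rw [← PowerSeries.coeff_zero_eq_constantCoeff_apply]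
  simp [Q4, sg]

theorem const_R6 : PowerSeries.constantCoeff R6 = 1 := by
  rw [← PowerSeries.coeff_zero_eq_constantCoeff_apply]
  simp [R6, sg]

theorem const_eb (k : ℕ) : PowerSeries.constantCoeff (eb k (toC Q4) (toC R6)) = (1 : ℂ) := by
  rw [eb_toC]
  have : PowerSeries.constantCoeff (eb k Q4 R6) = 1 := by
    unfold eb
    split_ifs <;> simp [const_Q4, const_R6]
  rw [← PowerSeries.coeff_zero_eq_constantCoeff_apply, PowerSeries.coeff_map,
    PowerSeries.coeff_zero_eq_constantCoeff_apply, this]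
  simp

theorem mul_toC_mem {I : AddSubgroup ℂ} {p : PowerSeries ℂ} (hp : ∀ n, p.coeff n ∈ I)
    (g : PowerSeries ℤ) (n : ℕ) : (p * toC g).coeff n ∈ I := by
  rw [PowerSeries.coeff_mul]
  refine I.sum_mem fun x _ => ?_
  rw [PowerSeries.coeff_map, mul_comm]
  have : (Int.castRingHom ℂ) (g.coeff x.2) * p.coeff x.1 = (g.coeff x.2) • p.coeff x.1 := by
    simp
  rw [this]
  exact I.zsmul_mem (hp _) _

/-- division by the discriminant -/
theorem div_mem {I : AddSubgroup ℂ} {p : PowerSeries ℂ} (h0 : D12.coeff 0 = 0)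
    (h1 : D12.coeff 1 = 1) (hp : ∀ n, (toC D12 * p).coeff n ∈ I) (n : ℕ) : p.coeff n ∈ I := by
  obtain ⟨U, hU⟩ : PowerSeries.X ∣ D12 := by
    rw [PowerSeries.X_dvd_iff, ← PowerSeries.coeff_zero_eq_constantCoeff_apply]
    exact h0
  have hU0 : PowerSeries.constantCoeff U = ((1 : ℤˣ) : ℤ) := by
    rw [hU, show (1 : ℕ) = 0 + 1 from rfl, PowerSeries.coeff_succ_X_mul,
      PowerSeries.coeff_zero_eq_constantCoeff_apply] at h1
    simpa using h1
  have hUV : U * PowerSeries.invOfUnit U 1 = 1 := PowerSeries.mul_invOfUnit U 1 hU0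
  have h2 : toC D12 * p = PowerSeries.X * (toC U * p) := by
    rw [hU]
    simp only [toC, map_mul, PowerSeries.map_X]
    ring
  have h3 : ∀ n, (toC U * p).coeff n ∈ I := fun n => by
    have := hp (n + 1)
    rwa [h2, PowerSeries.coeff_succ_X_mul] at this
  have h4 : p = (toC U * p) * toC (PowerSeries.invOfUnit U 1) := by
    have : toC U * toC (PowerSeries.invOfUnit U 1) = 1 := by
      simp only [toC, ← map_mul, hUV, map_one]
    linear_combination (-p) * this
  rw [h4]
  exact mul_toC_mem h3 _ n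

/-- subtract the constant term -/
theorem sub_const (h : StEis) (I : AddSubgroup ℂ) (k : ℕ) (hk : Even k) (h2 : k ≠ 2)
    (f : ModularForm 𝒮ℒ (k : ℤ)) (hf : ∀ n, cf f n ∈ I) :
    ∃ g : ModularForm 𝒮ℒ (k : ℤ), (qExpansion 1 (g : ℍ → ℂ)).coeff 0 = 0 ∧
      (∀ n, cf g n ∈ I) ∧ (∀ τ, f τ = cf f 0 * eb k (E₄ τ) (E₆ τ) + g τ) ∧
      qExpansion 1 (f : ℍ → ℂ) = PowerSeries.C (cf f 0) * eb k (toC Q4) (toC R6) +
        qExpansion 1 (g : ℍ → ℂ) := by
  obtain ⟨-, -, -, hE4, hE6, -⟩ := h
  obtain ⟨e, he1, he2⟩ := exists_eb k hk h2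
  rw [hE4, hE6] at he2
  have hq : qExpansion 1 ((f - cf f 0 • e : ModularForm 𝒮ℒ (k : ℤ)) : ℍ → ℂ) =
      qExpansion 1 (f : ℍ → ℂ) - PowerSeries.C (cf f 0) * eb k (toC Q4) (toC R6) := by
    rw [FunLike.coe_sub, ModularForm.qExpansion_sub one_pos one_mem_strictPeriods_SL,
      FunLike.coe_smul, ModularForm.qExpansion_smul one_pos one_mem_strictPeriods_SL, he2,
      PowerSeries.smul_eq_C_mul]
  refine ⟨f - cf f 0 • e, ?_, ?_, ?_, ?_⟩
  · rw [hq, map_sub, PowerSeries.coeff_C_mul, PowerSeries.coeff_zero_eq_constantCoeff_apply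
      (eb k (toC Q4) (toC R6)), const_eb, mul_one]
    exact sub_self _
  · intro n
    change (qExpansion 1 ((f - cf f 0 • e : ModularForm 𝒮ℒ (k : ℤ)) : ℍ → ℂ)).coeff n ∈ I
    rw [hq, map_sub]
    refine I.sub_mem (hf n) ?_
    rw [eb_toC]
    refine mul_toC_mem (fun m => ?_) _ n
    rw [PowerSeries.coeff_C]
    split_ifs
    · exact hf 0
    · exact I.zero_mem
  · intro τ
    have : (f - cf f 0 • e : ModularForm 𝒮ℒ (k : ℤ)) τ = f τ - cf f 0 * e τ := rfl
    rw [this, he1]
    ring
  · rw [hq]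
    ring

end StructAux

open StructAux in
/-- (I2) structure theorem over any additive subgroup of coefficients -/
theorem stStruct (h : StEis) : StStruct := by
  intro I k
  induction k using Nat.strong_induction_on with | _ k ih =>
  intro hk f hf
  by_cases h2 : k = 2
  · subst h2
    have hf0 : f = 0 := rank_zero_iff_forall_zero.mp levelOne_weight_two_rank_zero f
    refine ⟨fun _ => 0, fun _ => I.zero_mem, fun _ _ => rfl, fun τ => ?_, ?_⟩
    · rw [hf0]
      simp
    · rw [hf0]
      have : qExpansion 1 ((0 : ModularForm 𝒮ℒ ((2 : ℕ) : ℤ)) : ℍ → ℂ) = 0 :=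
        (ModularForm.qExpansion_eq_zero_iff one_pos one_mem_strictPeriods_SL _).2 rfl
      rw [this]
      simp
  obtain ⟨g, hg0, hgI, hg1, hg2⟩ := sub_const h I k hk h2 f hf
  obtain ⟨-, hD0, hD1, -, -, hD⟩ := h
  rcases lt_or_ge k 12 with hlt | hge
  · have hz : toCuspForm g hg0 = 0 :=
      rank_zero_iff_forall_zero.mp (CuspForm.rank_eq_zero_of_weight_lt_twelve
        (by exact_mod_cast hlt)) _
    have hgz : g = 0 := by
      ext τ
      rw [← toCuspForm_apply g hg0, hz]
      rfl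
    have hr : k / 12 + 1 = 1 := by omega
    refine ⟨fun j => if j = 0 then cf f 0 else 0, fun j => ?_, fun j hj => ?_, fun τ => ?_, ?_⟩
    · dsimp only
      split_ifs
      · exact hf 0
      · exact I.zero_mem
    · exact if_neg (by omega)
    · rw [hr, Finset.sum_range_one, hg1 τ, hgz]
      simp
    · rw [hr, Finset.sum_range_one, hg2, hgz]
      have : qExpansion 1 ((0 : ModularForm 𝒮ℒ (k : ℤ)) : ℍ → ℂ) = 0 :=
        (ModularForm.qExpansion_eq_zero_iff one_pos one_mem_strictPeriods_SL _).2 rfl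
      rw [this]
      simp
  · have hw : (k : ℤ) - 12 = ((k - 12 : ℕ) : ℤ) := by omega
    set F : ModularForm 𝒮ℒ ((k - 12 : ℕ) : ℤ) :=
      ModularForm.mcast hw (CuspForm.discriminantEquiv (toCuspForm g hg0)) with hF
    have hFq : qExpansion 1 (g : ℍ → ℂ) = toC D12 * qExpansion 1 (F : ℍ → ℂ) := by
      rw [← hD]
      exact qExpansion_eq_qExpansion_discriminant_mul g hg0
    have hFv : ∀ τ, g τ = discriminant τ * F τ := fun τ =>
      (discriminant_mul_discriminantEquiv_apply (toCuspForm g hg0) τ).symm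
    have hFI : ∀ n, cf F n ∈ I := by
      refine div_mem hD0 hD1 fun n => ?_
      rw [← hFq]
      exact hgI n
    obtain ⟨c, hc1, hc2, hc3, hc4⟩ := ih (k - 12) (by omega) (by
      obtain ⟨m, hm⟩ := hk
      exact ⟨m - 6, by omega⟩) F hFI
    have hr : k / 12 + 1 = ((k - 12) / 12 + 1) + 1 := by omega
    refine ⟨fun j => Nat.casesOn j (cf f 0) c, fun j => ?_, fun j hj => ?_, fun τ => ?_, ?_⟩
    · cases j with
      | zero => exact hf 0
      | succ j => exact hc1 j
    · cases j with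
      | zero => omega
      | succ j => exact hc2 j (by omega)
    · rw [hr, Finset.sum_range_succ', hg1 τ, hFv τ, hc3 τ, Finset.mul_sum, add_comm]
      congr 1
      · refine Finset.sum_congr rfl fun j _ => ?_
        rw [show k - 12 * (j + 1) = k - 12 - 12 * j by omega]
        dsimp only
        ring
      · simp
    · rw [hr, Finset.sum_range_succ', hg2, hFq, hc4, Finset.mul_sum, add_comm]
      congr 1
      · refine Finset.sum_congr rfl fun j _ => ?_
        rw [show k - 12 * (j + 1) = k - 12 - 12 * j by omega]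
        dsimp only
        ring
      · simp

end

end Pool.Agent.Lib.MP_7c08ba_nt.RZC
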