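import Pool.Agent.Lib.MP_7c08ba_nt.RZ.Basic

set_option autoImplicit false

/-! Module L3: sublattices of prime index. -/

namespace Pool.Agent.Lib.MP_7c08ba_nt.RZC

open UpperHalfPlane ModularForm EisensteinSeries MatrixGroups NumberField
open scoped Real Manifold ComplexConjugate

noncomputable section

namespace SubAux

/-- the coordinates -/
def g (w₁ w₂ : ℂ) : ℤ × ℤ →+ ℂ where
  toFun x := x.1 * w₁ + x.2 * w₂
  map_zero' := by simp
  map_add' x y := by
    simp only [Prod.fst_add, Prod.snd_add, Int.cast_add]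
    ring

theorem g_apply (w₁ w₂ : ℂ) (x : ℤ × ℤ) : g w₁ w₂ x = x.1 * w₁ + x.2 * w₂ := rfl

theorem g_inj {w₁ w₂ : ℂ} (h : Pos w₁ w₂) : Function.Injective (g w₁ w₂) := by
  rw [injective_iff_map_eq_zero]
  rintro ⟨m, n⟩ hx
  rw [g_apply] at hx
  simp only at hx
  have h2 : (m : ℂ) * (w₁ / w₂) + n = 0 := by
    have := h.ne
    field_simp
    linear_combination hx
  have h3 : ((m : ℂ) * (w₁ / w₂) + n).im = m * (w₁ / w₂).im := by
    simp [Complex.add_im, Complex.mul_im]
  have h4 : (m : ℝ) * (w₁ / w₂).im = 0 := by rw [← h3, h2, Complex.zero_im]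
  have h5 : (m : ℝ) = 0 := by
    rcases mul_eq_zero.1 h4 with h5 | h5
    · exact h5
    · exact absurd h5 h.ne'
  have h6 : m = 0 := by exact_mod_cast h5
  subst h6
  have h7 : (n : ℂ) = 0 := by simpa using h2
  have h8 : n = 0 := by exact_mod_cast h7
  rw [h8]
  rfl

theorem lat_eq (w₁ w₂ : ℂ) : (lat w₁ w₂).toAddSubgroup = (⊤ : AddSubgroup (ℤ × ℤ)).map (g w₁ w₂) := by
  ext z
  rw [Submodule.mem_toAddSubgroup, mem_lat, AddSubgroup.mem_map]
  constructor
  · rintro ⟨m, n, h⟩
    exact ⟨(m, n), trivial, h⟩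
  · rintro ⟨x, -, h⟩
    exact ⟨x.1, x.2, h⟩

/-- the characters -/
def chi (p : ℕ) : Option (Fin p) → (ℤ × ℤ →+ ZMod p)
  | none => (Int.castAddHom (ZMod p)).comp (AddMonoidHom.fst ℤ ℤ)
  | some b => (Int.castAddHom (ZMod p)).comp (AddMonoidHom.snd ℤ ℤ) -
      (AddMonoidHom.mulLeft ((b : ℕ) : ZMod p)).comp
        ((Int.castAddHom (ZMod p)).comp (AddMonoidHom.fst ℤ ℤ))

theorem chi_none (p : ℕ) (x : ℤ × ℤ) : chi p none x = (x.1 : ZMod p) := rfl

theorem chi_some (p : ℕ) (b : Fin p) (x : ℤ × ℤ) :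
    chi p (some b) x = (x.2 : ZMod p) - ((b : ℕ) : ZMod p) * (x.1 : ZMod p) := rfl

theorem chi_surj (p : ℕ) (i : Option (Fin p)) : Function.Surjective (chi p i) := by
  intro y
  obtain ⟨k, rfl⟩ := ZMod.intCast_surjective y
  cases i with
  | none => exact ⟨(k, 0), by rw [chi_none]⟩
  | some b => exact ⟨(0, k), by rw [chi_some]; simp⟩

theorem sub_eq (p : ℕ) (w₁ w₂ : ℂ) (i : Option (Fin p)) :
    (lat (sub p w₁ w₂ i).1 (sub p w₁ w₂ i).2).toAddSubgroup =
      (chi p i).ker.map (g w₁ w₂) := by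
  ext z
  rw [Submodule.mem_toAddSubgroup, mem_lat, AddSubgroup.mem_map]
  cases i with
  | none =>
    constructor
    · rintro ⟨m, n, h⟩
      refine ⟨(p * m, n), ?_, ?_⟩
      · rw [AddMonoidHom.mem_ker, chi_none]
        simp
      · rw [g_apply, ← h]
        simp only [sub]
        push_cast
        ring
    · rintro ⟨⟨m, n⟩, h1, h2⟩
      rw [AddMonoidHom.mem_ker, chi_none] at h1
      simp only at h1
      rw [ZMod.intCast_zmod_eq_zero_iff_dvd] at h1
      obtain ⟨k, rfl⟩ := h1
      refine ⟨k, n, ?_⟩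
      rw [← h2, g_apply]
      simp only [sub]
      push_cast
      ring
  | some b =>
    constructor
    · rintro ⟨m, n, h⟩
      refine ⟨(m, b * m + p * n), ?_, ?_⟩
      · rw [AddMonoidHom.mem_ker, chi_some]
        push_cast
        simp
      · rw [g_apply, ← h]
        simp only [sub]
        push_cast
        ring
    · rintro ⟨⟨m, n⟩, h1, h2⟩
      rw [AddMonoidHom.mem_ker, chi_some] at h1
      simp only at h1
      have h3 : ((n - (b : ℕ) * m : ℤ) : ZMod p) = 0 := by
        push_cast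
        exact h1
      rw [ZMod.intCast_zmod_eq_zero_iff_dvd] at h3
      obtain ⟨k, hk⟩ := h3
      refine ⟨m, k, ?_⟩
      rw [← h2, g_apply]
      simp only [sub]
      have h4 : (n : ℂ) = p * k + (b : ℕ) * m := by
        have : n = p * k + (b : ℕ) * m := by linarith
        rw [this]
        push_cast
        ring
      rw [h4]
      ring

theorem index_chi {p : ℕ} [NeZero p] (i : Option (Fin p)) : (chi p i).ker.index = p := by
  rw [AddSubgroup.index_ker, AddMonoidHom.range_eq_top.2 (chi_surj p i)]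
  rw [Nat.card_congr (AddSubgroup.topEquiv (G := ZMod p)).toEquiv, Nat.card_zmod]

/-- equality from equality of indices -/
theorem eq_of_index {G : Type*} [AddCommGroup G] {H K : AddSubgroup G} (h : H ≤ K) {p : ℕ}
    (hp : p ≠ 0) (h1 : H.index = p) (h2 : K.index = p) : H = K := by
  have h3 := AddSubgroup.relIndex_mul_index h
  rw [h1, h2] at h3
  have h4 : H.relIndex K = 1 := by
    have h5 : H.relIndex K * p = 1 * p := by rw [h3, one_mul]
    exact Nat.eq_of_mul_eq_mul_right (Nat.pos_of_ne_zero hp) h5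
  exact le_antisymm h (AddSubgroup.relIndex_eq_one.1 h4)

/-- classification of the subgroups of index `p` -/
theorem classify {p : ℕ} (hp : p.Prime) (N : AddSubgroup (ℤ × ℤ)) (hN : N.index = p) :
    ∃ i, N = (chi p i).ker := by
  have : Fact p.Prime := ⟨hp⟩
  have : NeZero p := ⟨hp.ne_zero⟩
  have hmem : ∀ x : ℤ × ℤ, p • x ∈ N := by
    intro x
    have := AddSubgroup.nsmul_index_mem (H := N) x
    rwa [hN] at this
  by_cases h0 : ((0, 1) : ℤ × ℤ) ∈ N
  · refine ⟨none, (eq_of_index ?_ hp.ne_zero (index_chi none) hN).symm⟩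
    rintro ⟨m, n⟩ hx
    rw [AddMonoidHom.mem_ker, chi_none] at hx
    simp only at hx
    rw [ZMod.intCast_zmod_eq_zero_iff_dvd] at hx
    obtain ⟨k, rfl⟩ := hx
    have h1 : ((p * k, n) : ℤ × ℤ) = p • ((k, 0) : ℤ × ℤ) + n • ((0, 1) : ℤ × ℤ) := by
      ext <;> simp
    rw [h1]
    exact N.add_mem (hmem _) (N.zsmul_mem h0 _)
  · -- the class of `(0, 1)` generates the quotient
    have hcard : Nat.card ((ℤ × ℤ) ⧸ N) = p := hN
    set y : (ℤ × ℤ) ⧸ N := QuotientAddGroup.mk ((0, 1) : ℤ × ℤ) with hy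
    have hy0 : y ≠ 0 := by
      intro h
      exact h0 ((QuotientAddGroup.eq_zero_iff _).1 h)
    have hgen : ∀ z : (ℤ × ℤ) ⧸ N, z ∈ AddSubgroup.zmultiples y := by
      intro z
      exact mem_zmultiples_of_prime_card hcard hy0
    obtain ⟨k, hk⟩ := AddSubgroup.mem_zmultiples_iff.1
      (hgen (-(QuotientAddGroup.mk ((1, 0) : ℤ × ℤ))))
    have h1 : ((1, k) : ℤ × ℤ) ∈ N := by
      rw [← QuotientAddGroup.eq_zero_iff]
      have h2 : ((1, k) : ℤ × ℤ) = (1, 0) + k • ((0, 1) : ℤ × ℤ) := by ext <;> simp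
      rw [h2, QuotientAddGroup.mk_add, QuotientAddGroup.mk_zsmul, ← hy, hk]
      simp
    -- reduce `k` modulo `p`
    have hp0 : (0 : ℤ) < p := by exact_mod_cast hp.pos
    have hb1 := Int.emod_nonneg k hp0.ne'
    have hb2 := Int.emod_lt_of_pos k hp0
    obtain ⟨b, hb⟩ := Int.eq_ofNat_of_zero_le hb1
    have hbp : b < p := by
      rw [hb] at hb2
      exact_mod_cast hb2
    refine ⟨some ⟨b, hbp⟩, (eq_of_index ?_ hp.ne_zero (index_chi _) hN).symm⟩
    rintro ⟨m, n⟩ hx
    rw [AddMonoidHom.mem_ker, chi_some] at hx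
    simp only at hx
    have h3 : ((n - (b : ℕ) * m : ℤ) : ZMod p) = 0 := by
      push_cast
      exact hx
    rw [ZMod.intCast_zmod_eq_zero_iff_dvd] at h3
    obtain ⟨l, hl⟩ := h3
    have hkb : k = b + p * (k / p) := by
      have := Int.emod_add_mul_ediv k p
      rw [hb] at this
      linarith
    have h4 : ((m, n) : ℤ × ℤ) = m • ((1, k) : ℤ × ℤ) + p • ((0, l - (k / p) * m) : ℤ × ℤ) := by
      ext
      · simp
      · change n = m • k + p • (l - k / p * m)
        rw [smul_eq_mul, nsmul_eq_mul]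
        have h5 : n = b * m + p * l := by linarith
        linear_combination h5 - m * hkb
    rw [h4]
    exact N.add_mem (N.zsmul_mem h1 _) (hmem _)

theorem relIndex_map {w₁ w₂ : ℂ} (h : Pos w₁ w₂) (N : AddSubgroup (ℤ × ℤ)) :
    (N.map (g w₁ w₂)).relIndex (lat w₁ w₂).toAddSubgroup = N.index := by
  rw [lat_eq, AddSubgroup.relIndex_map_map_of_injective _ _ (g_inj h),
    AddSubgroup.relIndex_top_right]

end SubAux

open SubAux in
theorem stSub : StSub := by
  intro p hp w₁ w₂ hw
  have : NeZero p := ⟨hp.ne_zero⟩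
  have hp0 : (0 : ℝ) < p := by exact_mod_cast hp.pos
  refine ⟨fun i => ⟨?_, ?_, ?_⟩, ?_, ?_⟩
  · cases i with
    | none =>
      simp only [sub, Pos]
      rw [mul_div_assoc]
      have : ((p : ℂ) * (w₁ / w₂)).im = p * (w₁ / w₂).im := by
        simp [Complex.mul_im]
      rw [this]
      exact mul_pos hp0 hw
    | some b =>
      simp only [sub, Pos]
      have hne := hw.ne
      have hpc : (p : ℂ) ≠ 0 := by exact_mod_cast hp.ne_zero
      have h1 : (w₁ + (b : ℕ) * w₂) / ((p : ℂ) * w₂) = ((p : ℝ)⁻¹ : ℝ) * (w₁ / w₂ + (b : ℕ)) := by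
        push_cast
        field_simp
      rw [h1, Complex.im_ofReal_mul, Complex.add_im, Complex.natCast_im, add_zero]
      exact mul_pos (inv_pos.2 hp0) hw
  · rw [← Submodule.toAddSubgroup_le, sub_eq, lat_eq]
    exact AddSubgroup.map_mono le_top
  · rw [sub_eq, relIndex_map hw, index_chi]
  · intro i j hij
    have h1 : (lat (sub p w₁ w₂ i).1 (sub p w₁ w₂ i).2).toAddSubgroup =
        (lat (sub p w₁ w₂ j).1 (sub p w₁ w₂ j).2).toAddSubgroup := by
      exact congrArg Submodule.toAddSubgroup hij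
    rw [sub_eq, sub_eq] at h1
    have h2 : (chi p i).ker = (chi p j).ker := AddSubgroup.map_injective (g_inj hw) h1
    have h3 : ∀ x, chi p i x = 0 ↔ chi p j x = 0 := by
      intro x
      rw [← AddMonoidHom.mem_ker, ← AddMonoidHom.mem_ker, h2]
    have hp1 : (1 : ZMod p) ≠ 0 := by
      have : Fact (1 < p) := ⟨hp.one_lt⟩
      exact one_ne_zero
    cases i with
    | none =>
      cases j with
      | none => rfl
      | some b =>
        exfalso
        have h4 := (h3 (0, 1)).1 (by rw [chi_none]; simp)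
        rw [chi_some] at h4
        simp at h4
        exact hp1 h4
    | some a =>
      cases j with
      | none =>
        exfalso
        have h4 := (h3 (0, 1)).2 (by rw [chi_none]; simp)
        rw [chi_some] at h4
        simp at h4
        exact hp1 h4
      | some b =>
        have h4 := (h3 (1, (a : ℕ))).1 (by rw [chi_some]; simp)
        rw [chi_some] at h4
        simp only [Int.cast_natCast, Int.cast_one, mul_one] at h4
        have h5 : ((a : ℕ) : ZMod p) = ((b : ℕ) : ZMod p) := sub_eq_zero.1 h4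
        rw [ZMod.natCast_eq_natCast_iff'] at h5
        rw [Nat.mod_eq_of_lt a.2, Nat.mod_eq_of_lt b.2] at h5
        rw [Fin.ext h5]
  · intro N hN hidx
    have h1 : N.toAddSubgroup = (N.toAddSubgroup.comap (g w₁ w₂)).map (g w₁ w₂) := by
      rw [AddSubgroup.map_comap_eq]
      symm
      rw [inf_eq_right]
      have h2 := Submodule.toAddSubgroup_mono hN
      rw [lat_eq] at h2
      intro z hz
      obtain ⟨x, -, hx⟩ := h2 hz
      exact ⟨x, hx⟩
    rw [h1, relIndex_map hw] at hidx
    obtain ⟨i, hi⟩ := classify hp _ hidx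
    refine ⟨i, ?_⟩
    apply Submodule.toAddSubgroup_injective
    rw [sub_eq, ← hi]
    exact h1

end

end Pool.Agent.Lib.MP_7c08ba_nt.RZC
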