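import Pool.Agent.Lib.MP_7c08ba_nt.RZ.StmtsC

set_option autoImplicit false

/-!
(W3) the lattice `M = L + ℤ h` generated by a lattice and a half period: `stSuper`.
-/

namespace Pool.Agent.Lib.MP_7c08ba_nt.RZC

open Complex

namespace SuperAux

variable {L M : PeriodPair} {h : ℂ}

theorem mem_iff (h2 : 2 * h ∈ L.lattice) (hM : M.lattice = L.lattice ⊔ Submodule.span ℤ {h})
    (z : ℂ) : z ∈ M.lattice ↔ z ∈ L.lattice ∨ z + h ∈ L.lattice := by
  rw [hM, Submodule.mem_sup]
  constructor
  · rintro ⟨l, hl, w, hw, rfl⟩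
    obtain ⟨n, rfl⟩ := Submodule.mem_span_singleton.1 hw
    rcases Int.even_or_odd' n with ⟨k, hk | hk⟩
    · left
      have h3 : n • h = k • (2 * h) := by
        rw [hk]
        simp only [zsmul_eq_mul, Int.cast_mul, Int.cast_ofNat]
        ring
      rw [h3]
      exact L.lattice.add_mem hl (L.lattice.smul_mem k h2)
    · right
      have h3 : l + n • h + h = l + (k + 1) • (2 * h) := by
        rw [hk]
        simp only [zsmul_eq_mul, Int.cast_mul, Int.cast_ofNat, Int.cast_add, Int.cast_one]
        ring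
      rw [h3]
      exact L.lattice.add_mem hl (L.lattice.smul_mem (k + 1) h2)
  · rintro (hz | hz)
    · exact ⟨z, hz, 0, Submodule.zero_mem _, add_zero z⟩
    · refine ⟨z + h, hz, -h, Submodule.neg_mem _ (Submodule.mem_span_singleton_self h), ?_⟩
      ring

/-- the two cosets -/
noncomputable def e (h1 : h ∉ L.lattice) (h2 : 2 * h ∈ L.lattice)
    (hM : M.lattice = L.lattice ⊔ Submodule.span ℤ {h}) :
    L.lattice ⊕ L.lattice ≃ M.lattice :=
  Equiv.ofBijective (fun x => match x with
    | Sum.inl l => ⟨l.1, (mem_iff h2 hM _).2 (Or.inl l.2)⟩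
    | Sum.inr l => ⟨l.1 - h, (mem_iff h2 hM _).2 (Or.inr (by
        rw [sub_add_cancel]
        exact l.2))⟩) (by
    constructor
    · rintro (a | a) (b | b) hab
      · simp only [Subtype.mk.injEq] at hab
        exact congrArg Sum.inl (Subtype.ext hab)
      · exfalso
        simp only [Subtype.mk.injEq] at hab
        apply h1
        have h3 : h = b.1 - a.1 := by
          rw [hab]
          ring
        rw [h3]
        exact L.lattice.sub_mem b.2 a.2
      · exfalso
        simp only [Subtype.mk.injEq] at hab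
        apply h1
        have h3 : h = a.1 - b.1 := by
          rw [← hab]
          ring
        rw [h3]
        exact L.lattice.sub_mem a.2 b.2
      · simp only [Subtype.mk.injEq, sub_left_inj] at hab
        exact congrArg Sum.inr (Subtype.ext hab)
    · intro z
      rcases (mem_iff h2 hM z.1).1 z.2 with hz | hz
      · exact ⟨Sum.inl ⟨z.1, hz⟩, rfl⟩
      · refine ⟨Sum.inr ⟨z.1 + h, hz⟩, ?_⟩
        apply Subtype.ext
        show z.1 + h - h = z.1
        ring)

/-- sums over the two cosets -/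
theorem hasSum_split (h1 : h ∉ L.lattice) (h2 : 2 * h ∈ L.lattice)
    (hM : M.lattice = L.lattice ⊔ Submodule.span ℤ {h}) {F : ℂ → ℂ} {a b : ℂ}
    (ha : HasSum (fun l : L.lattice => F l) a) (hb : HasSum (fun l : L.lattice => F (l - h)) b) :
    HasSum (fun m : M.lattice => F m) (a + b) := by
  rw [← (e h1 h2 hM).hasSum_iff]
  exact HasSum.sum (f := (fun m : M.lattice => F m) ∘ (e h1 h2 hM)) ha hb

theorem G_eq (h1 : h ∉ L.lattice) (h2 : 2 * h ∈ L.lattice)
    (hM : M.lattice = L.lattice ⊔ Submodule.span ℤ {h}) {r : ℕ} (hr : 2 < r) :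
    M.G r = L.G r + L.sumInvPow h r := by
  have ha := L.hasSum_sumInvPow 0 hr
  simp only [sub_zero, PeriodPair.sumInvPow_zero] at ha
  have hb := L.hasSum_sumInvPow h hr
  have h3 := hasSum_split h1 h2 hM (F := fun z => (z ^ r)⁻¹) ha hb
  exact h3.tsum_eq

end SuperAux

open SuperAux in
/-- (W3) the lattice `M = L + ℤ h` -/
theorem stSuper (hH : StHalf) : StSuper := by
  intro L M h h1 h2 hM
  obtain ⟨e1, e2, e3⟩ := hH L h h1 h2
  refine ⟨?_, ?_, ?_⟩
  · have h4 := G_eq h1 h2 hM (r := 4) (by norm_num)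
    unfold PeriodPair.g₂ at e1 e2 e3 ⊢
    rw [h4, e2]
    ring
  · have h6 := G_eq h1 h2 hM (r := 6) (by norm_num)
    have h7 : M.g₃ = L.g₃ + 140 * L.sumInvPow h 6 := by
      unfold PeriodPair.g₃
      rw [h6]
      ring
    rw [h7, e3]
    linear_combination 21 * e1
  · intro z hz
    have ha := L.hasSum_weierstrassP z
    have hb := (L.hasSum_weierstrassP (z + h)).sub (L.hasSum_weierstrassP h)
    have h8 : HasSum (fun l : L.lattice => 1 / (z - (l.1 - h)) ^ 2 - 1 / (l.1 - h) ^ 2)
        (L.weierstrassP (z + h) - L.weierstrassP h) := by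
      refine hb.congr_fun ?_
      intro l
      have h9 : z - (l.1 - h) = z + h - l.1 := by ring
      have h10 : (l.1 - h) ^ 2 = (h - l.1) ^ 2 := by ring
      rw [h9, h10]
      ring
    have h11 := hasSum_split h1 h2 hM (F := fun w => 1 / (z - w) ^ 2 - 1 / w ^ 2) ha h8
    have h12 := (M.hasSum_weierstrassP z).unique h11
    rw [h12]
    ring

end Pool.Agent.Lib.MP_7c08ba_nt.RZC
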