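import Pool.Agent.Lib.MP_7c08ba_nt.RZ.Basic

set_option autoImplicit false

/-! (H3) integrality and congruences for the elementary symmetric functions of the values on the
sublattices of index `p`. -/

namespace Pool.Agent.Lib.MP_7c08ba_nt.RZC

open UpperHalfPlane ModularForm EisensteinSeries MatrixGroups NumberField
open scoped Real Manifold ComplexConjugate

noncomputable section

namespace SymB

/-- `F` is given by the power series `φ` in `exp (2 π i τ / h)` -/
def HasQ (h : ℝ) (F : ℍ → ℂ) (φ : PowerSeries ℂ) : Prop :=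
  ∀ τ : ℍ, HasSum (fun n : ℕ => φ.coeff n * Function.Periodic.qParam h τ ^ n) (F τ)

variable {h : ℝ}

theorem HasQ.mul {F G : ℍ → ℂ} {φ ψ : PowerSeries ℂ} (hF : HasQ h F φ) (hG : HasQ h G ψ) :
    HasQ h (fun τ => F τ * G τ) (φ * ψ) := by
  intro τ
  have h1 := (hF τ).summable.norm
  have h2 := (hG τ).summable.norm
  have h3 := (summable_norm_sum_mul_antidiagonal_of_summable_norm h1 h2).of_norm
  have h4 := tsum_mul_tsum_eq_tsum_sum_antidiagonal_of_summable_norm h1 h2
  rw [(hF τ).tsum_eq, (hG τ).tsum_eq] at h4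
  have h5 := h3.hasSum
  rw [← h4] at h5
  refine h5.congr_fun ?_
  intro n
  rw [PowerSeries.coeff_mul, Finset.sum_mul]
  refine Finset.sum_congr rfl fun kl hkl => ?_
  have hkl' : kl.1 + kl.2 = n := Finset.HasAntidiagonal.mem_antidiagonal.mp hkl
  rw [← hkl', pow_add]
  ring

theorem HasQ.one : HasQ h (fun _ => 1) 1 := by
  intro τ
  have := hasSum_single (f := fun n : ℕ => (1 : PowerSeries ℂ).coeff n *
    Function.Periodic.qParam h τ ^ n) 0 (by
      intro n hn
      simp [PowerSeries.coeff_one, hn])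
  simpa using this

theorem HasQ.prod {ι : Type*} {F : ι → ℍ → ℂ} {φ : ι → PowerSeries ℂ}
    (hF : ∀ i, HasQ h (F i) (φ i)) (s : Finset ι) :
    HasQ h (fun τ => ∏ i ∈ s, F i τ) (∏ i ∈ s, φ i) := by
  classical
  induction s using Finset.induction_on with
  | empty => simpa using HasQ.one
  | insert a s ha ih =>
    have h1 := (hF a).mul ih
    simp only [Finset.prod_insert ha]
    exact h1

theorem HasQ.sum {ι : Type*} {F : ι → ℍ → ℂ} {φ : ι → PowerSeries ℂ} (s : Finset ι)
    (hF : ∀ i ∈ s, HasQ h (F i) (φ i)) :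
    HasQ h (fun τ => ∑ i ∈ s, F i τ) (∑ i ∈ s, φ i) := by
  intro τ
  have h1 := hasSum_sum (fun i hi => hF i hi τ)
  refine h1.congr_fun ?_
  intro n
  rw [map_sum, Finset.sum_mul]

/-- reindexing -/
theorem hasSum_expand {a : ℕ → ℂ} {Q S : ℂ} {d : ℕ} (hd : 0 < d)
    (H : HasSum (fun m : ℕ => a m * (Q ^ d) ^ m) S) :
    HasSum (fun n : ℕ => (if d ∣ n then a (n / d) else 0) * Q ^ n) S := by
  have hinj : Function.Injective (fun m : ℕ => d * m) := fun x y hxy =>
    Nat.eq_of_mul_eq_mul_left hd hxy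
  rw [← hinj.hasSum_iff]
  · refine H.congr_fun ?_
    intro m
    simp only [Function.comp]
    rw [if_pos (dvd_mul_right d m), Nat.mul_div_cancel_left m hd, pow_mul]
  · intro n hn
    have : ¬ d ∣ n := by
      rintro ⟨m, rfl⟩
      exact hn ⟨m, rfl⟩
    rw [if_neg this, zero_mul]

/-- the power series of the values on the sublattices of index `p` -/
def ph (p k : ℕ) (a : ℕ → ℂ) : Option (Fin p) → PowerSeries ℂ
  | none => PowerSeries.mk fun n => if p ^ 2 ∣ n then a (n / p ^ 2) else 0
  | some b => PowerSeries.mk fun n =>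
      ((p : ℂ)⁻¹ ^ k * Complex.exp (2 * π * Complex.I / p) ^ ((b : ℕ) * n)) * a n

theorem hasQ_ph {p k : ℕ} (hp : 0 < p) (f : ModularForm 𝒮ℒ (k : ℤ)) (j : Option (Fin p)) :
    HasQ p (fun τ => LFs k f p τ 1 j) (ph p k (cf f) j) := by
  intro τ
  have hp0 : (p : ℂ) ≠ 0 := by exact_mod_cast hp.ne'
  rcases j with _ | b
  · have hpos : Pos ((p : ℂ) * τ) 1 := by
      unfold Pos
      rw [div_one]
      have : ((p : ℂ) * τ).im = p * (τ : ℂ).im := by
        have := Complex.im_ofReal_mul (p : ℝ) (τ : ℂ)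
        simpa using this
      rw [this]
      exact mul_pos (by exact_mod_cast hp) τ.im_pos
    have h1 : LFs k f p τ 1 none = f ⟨((p : ℂ) * τ) / 1, hpos⟩ := by
      have := LF_eq (k := k) (F := f) hpos
      simpa [LFs, sub] using this
    simp only [h1]
    have h2 := ModularForm.hasSum_qExpansion f one_pos one_mem_strictPeriods_SL
      ⟨((p : ℂ) * τ) / 1, hpos⟩
    have h3 : Function.Periodic.qParam 1 (((p : ℂ) * τ) / 1) =
        Function.Periodic.qParam p τ ^ (p ^ 2) := by
      unfold Function.Periodic.qParam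
      rw [← Complex.exp_nat_mul]
      congr 1
      push_cast
      field_simp
    have h4 : HasSum (fun m : ℕ => cf f m * (Function.Periodic.qParam p τ ^ (p ^ 2)) ^ m)
        (f ⟨((p : ℂ) * τ) / 1, hpos⟩) := by
      rw [← h3]
      exact h2
    have h5 := hasSum_expand (pow_pos hp 2) h4
    refine h5.congr_fun ?_
    intro n
    rw [ph, PowerSeries.coeff_mk]
  · have hpos : Pos ((τ : ℂ) + (b : ℕ) * 1) ((p : ℂ) * 1) := by
      unfold Pos
      rw [mul_one, mul_one]
      have : (((τ : ℂ) + (b : ℕ)) / (p : ℂ)).im = (τ : ℂ).im / p := by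
        have := Complex.div_natCast_im ((τ : ℂ) + (b : ℕ)) p
        rw [this]
        simp
      rw [this]
      exact div_pos τ.im_pos (by exact_mod_cast hp)
    have h1 : LFs k f p τ 1 (some b) = (p : ℂ)⁻¹ ^ k *
        f ⟨((τ : ℂ) + (b : ℕ) * 1) / ((p : ℂ) * 1), hpos⟩ := by
      have h0 := LF_eq (k := k) (F := f) hpos
      have h0' : (((p : ℂ) * 1) ^ k)⁻¹ = (p : ℂ)⁻¹ ^ k := by rw [mul_one, inv_pow]
      rw [h0'] at h0
      exact h0
    simp only [h1]
    have h2 := ModularForm.hasSum_qExpansion f one_pos one_mem_strictPeriods_SL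
      ⟨((τ : ℂ) + (b : ℕ) * 1) / ((p : ℂ) * 1), hpos⟩
    have h3 : Function.Periodic.qParam 1 (((τ : ℂ) + (b : ℕ) * 1) / ((p : ℂ) * 1)) =
        Function.Periodic.qParam p τ * Complex.exp (2 * π * Complex.I / p) ^ (b : ℕ) := by
      unfold Function.Periodic.qParam
      rw [← Complex.exp_nat_mul, ← Complex.exp_add]
      congr 1
      push_cast
      field_simp
    have h4 : HasSum (fun m : ℕ => cf f m * (Function.Periodic.qParam p τ *
        Complex.exp (2 * π * Complex.I / p) ^ (b : ℕ)) ^ m)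
        (f ⟨((τ : ℂ) + (b : ℕ) * 1) / ((p : ℂ) * 1), hpos⟩) := by
      rw [← h3]
      exact h2
    have h5 := h4.mul_left ((p : ℂ)⁻¹ ^ k)
    refine h5.congr_fun ?_
    intro n
    rw [ph, PowerSeries.coeff_mk, mul_pow, pow_mul]
    ring

theorem hasQ_self {p : ℕ} (hp : 0 < p) {w : ℤ} (g : ModularForm 𝒮ℒ w) :
    HasQ p g (PowerSeries.mk fun n => if p ∣ n then cf g (n / p) else 0) := by
  intro τ
  have hp0 : (p : ℂ) ≠ 0 := by exact_mod_cast hp.ne'
  have h2 := ModularForm.hasSum_qExpansion g one_pos one_mem_strictPeriods_SL τ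
  have h3 : Function.Periodic.qParam 1 τ = Function.Periodic.qParam p τ ^ p := by
    unfold Function.Periodic.qParam
    rw [← Complex.exp_nat_mul]
    congr 1
    push_cast
    field_simp
  rw [h3] at h2
  have h5 := hasSum_expand hp h2
  refine h5.congr_fun ?_
  intro n
  rw [PowerSeries.coeff_mk]

theorem HasQ.unique {p : ℕ} (hp : 0 < p) {w : ℤ} {g : ModularForm 𝒮ℒ w} {φ ψ : PowerSeries ℂ}
    (h1 : HasQ p g φ) (h2 : HasQ p g ψ) : φ = ψ := by
  have hper : (p : ℝ) ∈ (𝒮ℒ).strictPeriods := by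
    have := (𝒮ℒ).strictPeriods.nsmul_mem one_mem_strictPeriods_SL p
    simpa using this
  have hp' : (0 : ℝ) < p := by exact_mod_cast hp
  ext n
  rw [ModularFormClass.qExpansion_coeff_unique (f := g) hp' hper (c := fun n => φ.coeff n)
      (fun τ => by simpa only [smul_eq_mul] using h1 τ) n,
    ModularFormClass.qExpansion_coeff_unique (f := g) hp' hper (c := fun n => ψ.coeff n)
      (fun τ => by simpa only [smul_eq_mul] using h2 τ) n]

/-- the coefficients of `g` -/
theorem coeff_g {p k i : ℕ} (hp : 0 < p) (f : ModularForm 𝒮ℒ (k : ℤ))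
    (g : ModularForm 𝒮ℒ ((i * k : ℕ) : ℤ))
    (hg : ∀ w₁ w₂ : ℂ, Pos w₁ w₂ → LF (i * k) g w₁ w₂ = esy k p i f w₁ w₂) (n : ℕ) :
    cf g n = (∑ t ∈ (Finset.univ : Finset (Option (Fin p))).powersetCard i,
      ∏ j ∈ t, ph p k (cf f) j).coeff (p * n) := by
  have h1 : HasQ p g (∑ t ∈ (Finset.univ : Finset (Option (Fin p))).powersetCard i,
      ∏ j ∈ t, ph p k (cf f) j) := by
    have h2 := HasQ.sum (h := p) ((Finset.univ : Finset (Option (Fin p))).powersetCard i)
      (fun t _ => HasQ.prod (fun j => hasQ_ph hp f j) t)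
    have h3 : (fun τ : ℍ => ∑ t ∈ (Finset.univ : Finset (Option (Fin p))).powersetCard i,
        ∏ j ∈ t, LFs k f p τ 1 j) = (g : ℍ → ℂ) := by
      funext τ
      rw [← LF_tau (k := i * k) (F := g) τ, hg _ _ (pos_tau τ), esy, Finset.esymm_map_val]
    rwa [h3] at h2
  have h4 := HasQ.unique hp (hasQ_self hp g) h1
  rw [← h4, PowerSeries.coeff_mk, if_pos (dvd_mul_right p n), Nat.mul_div_cancel_left n hp]

section val
variable {A : ValuationSubring ℂ}

/-- lift to `A` -/
theorem exists_lift {p k : ℕ} (hA : Above2 A) (hp : p.Prime) (hp2 : p ≠ 2) {a : ℕ → ℂ}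
    (ha : ∀ n, a n ∈ A) (j : Option (Fin p)) :
    ∃ ψ : PowerSeries A, ψ.map A.subtype = ph p k a j := by
  have hodd : Odd (p : ℤ) := by
    rcases hp.eq_two_or_odd' with h | h
    · exact absurd h hp2
    · exact_mod_cast h
  have h1 := odd_sub_one hA hodd
  have hpinv : (p : ℂ)⁻¹ ∈ A := by
    have := (unit_of_sub_one h1).2.2.2
    simpa using this
  have hz : Complex.exp (2 * π * Complex.I / p) ∈ A := by
    apply rootOfUnity_mem hp.pos
    rw [← Complex.exp_nat_mul]
    have hp0 : (p : ℂ) ≠ 0 := by exact_mod_cast hp.ne_zero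
    have : (p : ℂ) * (2 * π * Complex.I / p) = 2 * π * Complex.I := by field_simp
    rw [this, Complex.exp_two_pi_mul_I]
  have hmem : ∀ n, (ph p k a j).coeff n ∈ A := by
    intro n
    rcases j with _ | b
    · rw [ph, PowerSeries.coeff_mk]
      split_ifs
      · exact ha _
      · exact A.zero_mem
    · rw [ph, PowerSeries.coeff_mk]
      exact A.mul_mem _ _ (A.mul_mem _ _ (pow_mem hpinv k) (pow_mem hz _)) (ha n)
  refine ⟨PowerSeries.mk fun n => ⟨_, hmem n⟩, ?_⟩
  ext n
  rw [PowerSeries.coeff_map, PowerSeries.coeff_mk]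
  rfl

/-- reduction of the lifts -/
theorem lift_residue {p k : ℕ} (hA : Above2 A) (hp : p.Prime) (hp2 : p ≠ 2) {a : ℕ → ℂ}
    {c : ℂ} (hc : c ∈ A) (ha : ∀ n, a n - (if n = 0 then c else 0) ∈ A.nonunits)
    (j : Option (Fin p)) (ψ : PowerSeries A) (hψ : ψ.map A.subtype = ph p k a j) :
    ψ.map (IsLocalRing.residue A) = PowerSeries.C (IsLocalRing.residue A ⟨c, hc⟩) := by
  have hodd : Odd (p : ℤ) := by
    rcases hp.eq_two_or_odd' with h | h
    · exact absurd h hp2
    · exact_mod_cast h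
  have h1 := odd_sub_one hA hodd
  rw [Int.cast_natCast] at h1
  have h2 : (p : ℂ)⁻¹ ^ k - 1 ∈ A.nonunits := nonunits_pow_sub_one (inv_sub_one h1) k
  have hpinv : (p : ℂ)⁻¹ ∈ A := (unit_of_sub_one h1).2.2.2
  have hz : Complex.exp (2 * π * Complex.I / p) ∈ A := by
    apply rootOfUnity_mem hp.pos
    rw [← Complex.exp_nat_mul]
    have hp0 : (p : ℂ) ≠ 0 := by exact_mod_cast hp.ne_zero
    have : (p : ℂ) * (2 * π * Complex.I / p) = 2 * π * Complex.I := by field_simp
    rw [this, Complex.exp_two_pi_mul_I]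
  have hcoef : ∀ n, ((ψ.coeff n : A) : ℂ) = (ph p k a j).coeff n := by
    intro n
    rw [← hψ, PowerSeries.coeff_map]
    rfl
  have key : ∀ n, (ph p k a j).coeff n - (if n = 0 then c else 0) ∈ A.nonunits := by
    intro n
    rcases j with _ | b
    · rw [ph, PowerSeries.coeff_mk]
      by_cases hn : p ^ 2 ∣ n
      · rw [if_pos hn]
        obtain ⟨m, rfl⟩ := hn
        rw [Nat.mul_div_cancel_left m (pow_pos hp.pos 2)]
        have := ha m
        by_cases hm : m = 0
        · subst hm
          simpa using this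
        · rw [if_neg hm] at this
          rw [if_neg (mul_ne_zero (pow_ne_zero 2 hp.ne_zero) hm)]
          exact this
      · rw [if_neg hn]
        have : n ≠ 0 := by
          rintro rfl
          exact hn (dvd_zero _)
        rw [if_neg this, sub_self]
        exact zero_nonunits
    · rw [ph, PowerSeries.coeff_mk]
      have hu : (p : ℂ)⁻¹ ^ k * Complex.exp (2 * π * Complex.I / p) ^ ((b : ℕ) * n) ∈ A :=
        A.mul_mem _ _ (pow_mem hpinv k) (pow_mem hz _)
      by_cases hn : n = 0
      · subst hn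
        have h3 := ha 0
        rw [if_pos rfl] at h3 ⊢
        have h4 := nonunits_add (nonunits_mul_left hu h3) (nonunits_mul_right h2 hc)
        convert h4 using 1
        simp only [mul_zero, pow_zero, mul_one]
        ring
      · have h3 := ha n
        rw [if_neg hn, sub_zero] at h3 ⊢
        exact nonunits_mul_left hu h3
  ext n
  rw [PowerSeries.coeff_map, PowerSeries.coeff_C]
  have h5 := key n
  rw [← hcoef n] at h5
  by_cases hn : n = 0
  · rw [if_pos hn] at h5 ⊢
    rw [← sub_eq_zero, ← map_sub, IsLocalRing.residue_eq_zero_iff,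
      ← ValuationSubring.coe_mem_nonunits_iff]
    exact h5
  · rw [if_neg hn] at h5 ⊢
    rw [IsLocalRing.residue_eq_zero_iff, ← ValuationSubring.coe_mem_nonunits_iff]
    rw [sub_zero] at h5
    exact h5

end val

end SymB

open SymB in
/-- (H3) -/
theorem stSymmB : StSymmB := by
  intro A hA p hp hp2 k f hf i g hg
  choose ψ hψ using fun j : Option (Fin p) => exists_lift (k := k) hA hp hp2 hf j
  have hcoef : ∀ n, cf g n = (((∑ t ∈ (Finset.univ : Finset (Option (Fin p))).powersetCard i,
      ∏ j ∈ t, ψ j).coeff (p * n) : A) : ℂ) := by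
    intro n
    rw [coeff_g hp.pos f g hg n]
    have h1 : (∑ t ∈ (Finset.univ : Finset (Option (Fin p))).powersetCard i,
        ∏ j ∈ t, ph p k (cf f) j) =
        (∑ t ∈ (Finset.univ : Finset (Option (Fin p))).powersetCard i,
          ∏ j ∈ t, ψ j).map A.subtype := by
      rw [map_sum]
      refine Finset.sum_congr rfl fun t _ => ?_
      rw [map_prod]
      exact Finset.prod_congr rfl fun j _ => (hψ j).symm
    rw [h1, PowerSeries.coeff_map]
    rfl
  refine ⟨fun n => by rw [hcoef n]; exact Subtype.mem _, ?_⟩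
  intro c hc hfc n
  have h2 : (∑ t ∈ (Finset.univ : Finset (Option (Fin p))).powersetCard i,
      ∏ j ∈ t, ψ j).map (IsLocalRing.residue A) =
      PowerSeries.C (((p + 1).choose i : IsLocalRing.ResidueField A) *
        IsLocalRing.residue A ⟨c, hc⟩ ^ i) := by
    rw [map_sum]
    have h3 : ∀ t ∈ (Finset.univ : Finset (Option (Fin p))).powersetCard i,
        (∏ j ∈ t, ψ j).map (IsLocalRing.residue A) =
          PowerSeries.C (IsLocalRing.residue A ⟨c, hc⟩ ^ i) := by
      intro t ht
      rw [map_prod, Finset.prod_congr rfl fun j _ =>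
        lift_residue hA hp hp2 hc hfc j (ψ j) (hψ j), Finset.prod_const,
        (Finset.mem_powersetCard.mp ht).2, map_pow]
    rw [Finset.sum_congr rfl h3, Finset.sum_const, Finset.card_powersetCard, Finset.card_univ,
      Fintype.card_option, Fintype.card_fin, nsmul_eq_mul, map_mul, map_natCast]
  have h4 := congrArg (fun φ => PowerSeries.coeff (p * n) φ) h2
  simp only [PowerSeries.coeff_map, PowerSeries.coeff_C] at h4
  rw [hcoef n]
  by_cases hn : n = 0
  · subst hn
    rw [if_pos rfl]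
    rw [mul_zero, if_pos rfl] at h4
    have h5 : IsLocalRing.residue A ((∑ t ∈ (Finset.univ :
        Finset (Option (Fin p))).powersetCard i, ∏ j ∈ t, ψ j).coeff 0 -
        (((p + 1).choose i : A) * ⟨c, hc⟩ ^ i)) = 0 := by
      rw [map_sub, h4, map_mul, map_pow, map_natCast, sub_self]
    rw [IsLocalRing.residue_eq_zero_iff, ← ValuationSubring.coe_mem_nonunits_iff] at h5
    rw [mul_zero]
    simpa using h5
  · rw [if_neg hn, sub_zero]
    rw [if_neg (mul_ne_zero hp.ne_zero hn), IsLocalRing.residue_eq_zero_iff,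
      ← ValuationSubring.coe_mem_nonunits_iff] at h4
    exact h4

end

end Pool.Agent.Lib.MP_7c08ba_nt.RZC
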