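import Pool.Agent.Lib.MP_7c08ba_nt.RZ.StmtsC

set_option autoImplicit false

/-!
Project RZ, part (C), module R7: iterated derivatives along lines.
-/

namespace Pool.Agent.Lib.MP_7c08ba_nt.RZC

open MvPolynomial
open scoped Real

namespace TaylorAux

theorem vol_line (w₁ w₂ α β t : ℂ) :
    vol (w₁ + t * α) (w₂ + t * β) α β = vol w₁ w₂ α β := by
  unfold vol
  congr 1
  ring

theorem pos_open (w₁ w₂ α β t : ℂ) (ht : Pos (w₁ + t * α) (w₂ + t * β)) :
    ∀ᶠ s in nhds t, Pos (w₁ + s * α) (w₂ + s * β) := by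
  have hne : w₂ + t * β ≠ 0 := by
    intro h0
    unfold Pos at ht
    rw [h0, div_zero] at ht
    simp at ht
  have hc : ContinuousAt (fun s : ℂ => ((w₁ + s * α) / (w₂ + s * β)).im) t := by
    refine Complex.continuous_im.continuousAt.comp ?_
    refine ContinuousAt.div ?_ ?_ hne
    · fun_prop
    · fun_prop
  exact hc.eventually (lt_mem_nhds ht)

/-- the line through a translated point -/
theorem shift {f : ℂ → ℂ → ℂ} {w₁ w₂ α β t f' : ℂ}
    (h : HasDerivAt (fun s : ℂ => f ((w₁ + t * α) + s * α) ((w₂ + t * β) + s * β)) f' 0) :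
    HasDerivAt (fun s : ℂ => f (w₁ + s * α) (w₂ + s * β)) f' t := by
  have h0 : (0 : ℂ) = t - t := (sub_self t).symm
  rw [h0] at h
  have h1 := HasDerivAt.comp_sub_const t t h
  refine h1.congr_of_eventuallyEq (Filter.Eventually.of_forall fun s => ?_)
  show f (w₁ + s * α) (w₂ + s * β) =
    f (w₁ + t * α + (s - t) * α) (w₂ + t * β + (s - t) * β)
  congr 1 <;> ring

/-- the derivative of a polynomial in `P, Q, R, D` -/
theorem deriv_ev (h : StLine) (w₁ w₂ α β : ℂ) (hv : vol w₁ w₂ α β ≠ 0) (t : ℂ)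
    (ht : Pos (w₁ + t * α) (w₂ + t * β)) (G : MvPolynomial (Fin 4) ℂ) :
    HasDerivAt (fun s : ℂ => ev G (w₁ + s * α) (w₂ + s * β) α β)
      (4 * π * vol w₁ w₂ α β * ev (dd G) (w₁ + t * α) (w₂ + t * β) α β) t := by
  have hv' : vol (w₁ + t * α) (w₂ + t * β) α β ≠ 0 := by
    rw [vol_line]
    exact hv
  obtain ⟨h0, h1, h2, h3⟩ := h (w₁ + t * α) (w₂ + t * β) α β ht hv'
  rw [vol_line] at h0 h1 h2 h3
  have k0 := shift (f := fun x y => e2s x y α β) h0
  have k1 := shift (f := e4) h1
  have k2 := shift (f := e6) h2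
  have k3 := shift (f := dl) h3
  have hX : ∀ i : Fin 4, HasDerivAt
      (fun s : ℂ => ev (X i) (w₁ + s * α) (w₂ + s * β) α β)
      (4 * π * vol w₁ w₂ α β * ev (dd (X i)) (w₁ + t * α) (w₂ + t * β) α β) t := by
    intro i
    fin_cases i
    · simp only [ev, dd, mkDerivation_X, eval_X]
      simpa [mul_comm, div_eq_mul_inv, mul_assoc, mul_left_comm] using k0
    · simp only [ev, dd, mkDerivation_X, eval_X]
      simpa [mul_comm, div_eq_mul_inv, mul_assoc, mul_left_comm] using k1
    · simp only [ev, dd, mkDerivation_X, eval_X]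
      simpa [mul_comm, div_eq_mul_inv, mul_assoc, mul_left_comm] using k2
    · simp only [ev, dd, mkDerivation_X, eval_X]
      simpa [mul_comm, div_eq_mul_inv, mul_assoc, mul_left_comm] using k3
  induction G using MvPolynomial.induction_on with
  | C a =>
    have : dd (C a) = 0 := by
      rw [← algebraMap_eq]
      exact dd.map_algebraMap a
    rw [this]
    simp only [ev, eval_C, map_zero, mul_zero]
    exact hasDerivAt_const t a
  | add p q hp hq =>
    have := hp.add hq
    simp only [ev, map_add, mul_add] at this ⊢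
    exact this
  | mul_X p i hp =>
    have := hp.mul (hX i)
    simp only [ev, map_mul, Derivation.leibniz, smul_eq_mul, map_add] at this ⊢
    refine this.congr_deriv ?_
    ring

theorem main (h : StLine) (w₁ w₂ α β : ℂ) (hv : vol w₁ w₂ α β ≠ 0)
    (G : MvPolynomial (Fin 4) ℂ) (r : ℕ) :
    ∀ t : ℂ, Pos (w₁ + t * α) (w₂ + t * β) →
      iteratedDeriv r (fun s : ℂ => ev G (w₁ + s * α) (w₂ + s * β) α β) t =
        (4 * π * vol w₁ w₂ α β) ^ r * ev (dd^[r] G) (w₁ + t * α) (w₂ + t * β) α β := by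
  induction r with
  | zero =>
    intro t _
    simp
  | succ r ih =>
    intro t ht
    rw [iteratedDeriv_succ]
    have hev : iteratedDeriv r (fun s : ℂ => ev G (w₁ + s * α) (w₂ + s * β) α β) =ᶠ[nhds t]
        fun s : ℂ => (4 * π * vol w₁ w₂ α β) ^ r *
          ev (dd^[r] G) (w₁ + s * α) (w₂ + s * β) α β := by
      filter_upwards [pos_open w₁ w₂ α β t ht] with s hs
      exact ih s hs
    rw [hev.deriv_eq, ((deriv_ev h w₁ w₂ α β hv t ht (dd^[r] G)).const_mul _).deriv,
      Function.iterate_succ_apply', pow_succ]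
    ring

end TaylorAux

/-- (R7) -/
theorem stTaylor (h : StLine) : StTaylor := by
  intro G r w₁ w₂ α β hp hv
  have hp' : Pos (w₁ + 0 * α) (w₂ + 0 * β) := by
    rw [zero_mul, zero_mul, add_zero, add_zero]
    exact hp
  have := TaylorAux.main h w₁ w₂ α β hv G r 0 hp'
  rw [this, zero_mul, zero_mul, add_zero, add_zero]

end Pool.Agent.Lib.MP_7c08ba_nt.RZC
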