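import Pool.Agent.Lib.MP_7c08ba_nt.RZ.StmtsC

set_option autoImplicit false

/-!
Project RZ, part (C), module R11: iterated `q d/dq` of a polynomial in `P`, `Q`, `R`, `D`.
-/

namespace Pool.Agent.Lib.MP_7c08ba_nt.RZC

open UpperHalfPlane ModularForm EisensteinSeries MatrixGroups NumberField
open scoped Real Manifold ComplexConjugate

noncomputable section

namespace ThetaAux

variable {R : Type*} [CommRing R]

theorem coeff_th (g : PowerSeries R) (n : ℕ) : (th g).coeff n = (n : R) * g.coeff n := by
  unfold th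
  rw [PowerSeries.coeff_mk]

theorem th_add (g h : PowerSeries R) : th (g + h) = th g + th h := by
  ext n
  rw [map_add, coeff_th, coeff_th, coeff_th, map_add, mul_add]

theorem th_C (a : R) : th (PowerSeries.C a) = 0 := by
  ext n
  rw [coeff_th, PowerSeries.coeff_C, map_zero]
  split_ifs with h
  · rw [h, Nat.cast_zero, zero_mul]
  · rw [mul_zero]

theorem th_mul (g h : PowerSeries R) : th (g * h) = g * th h + h * th g := by
  ext n
  rw [coeff_th, map_add, PowerSeries.coeff_mul, mul_comm h (th g), PowerSeries.coeff_mul,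
    PowerSeries.coeff_mul, Finset.mul_sum, ← Finset.sum_add_distrib]
  refine Finset.sum_congr rfl fun p hp => ?_
  rw [Finset.HasAntidiagonal.mem_antidiagonal] at hp
  have hn : (n : R) = p.1 + p.2 := by rw [← hp, Nat.cast_add]
  simp only [coeff_th, hn]
  ring

theorem toC_th (g : PowerSeries ℤ) : toC (th g) = th (toC g) := by
  ext n
  rw [coeff_th, PowerSeries.coeff_map, PowerSeries.coeff_map, coeff_th, map_mul]
  simp

theorem toC_mul (g h : PowerSeries ℤ) : toC (g * h) = toC g * toC h := map_mul _ _ _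

theorem toC_sub (g h : PowerSeries ℤ) : toC (g - h) = toC g - toC h := map_sub _ _ _

theorem toC_pow (g : PowerSeries ℤ) (n : ℕ) : toC (g ^ n) = toC g ^ n := map_pow _ _ _

theorem toC_ofNat (n : ℕ) [n.AtLeastTwo] :
    toC (OfNat.ofNat n) = PowerSeries.C (OfNat.ofNat n : ℂ) := by
  rw [map_ofNat]
  exact map_ofNat _ n

/-- division by a non-zero number -/
theorem cancel {a : ℂ} (ha : a ≠ 0) {f g : PowerSeries ℂ} (h : PowerSeries.C a * f = g) :
    f = PowerSeries.C a⁻¹ * g := by
  rw [← h, ← mul_assoc, ← map_mul, inv_mul_cancel₀ ha, map_one, one_mul]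

end ThetaAux

open ThetaAux

open MvPolynomial in
/-- (R11) -/
theorem stTheta (h : StRamQ) : StTheta := by
  obtain ⟨h1, h2, h3, h4⟩ := h
  have e1 : th (toC P2) = PowerSeries.C (1 / 12) * (toC P2 ^ 2 - toC Q4) := by
    rw [one_div]
    refine cancel (by norm_num) ?_
    have := congrArg toC h1
    rw [toC_mul, toC_sub, toC_pow, toC_th, toC_ofNat] at this
    exact this
  have e2 : th (toC Q4) = PowerSeries.C (1 / 3) * (toC P2 * toC Q4 - toC R6) := by
    rw [one_div]
    refine cancel (by norm_num) ?_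
    have := congrArg toC h2
    rw [toC_mul, toC_sub, toC_mul, toC_th, toC_ofNat] at this
    exact this
  have e3 : th (toC R6) = PowerSeries.C (1 / 2) * (toC P2 * toC R6 - toC Q4 ^ 2) := by
    rw [one_div]
    refine cancel (by norm_num) ?_
    have := congrArg toC h3
    rw [toC_mul, toC_sub, toC_mul, toC_pow, toC_th, toC_ofNat] at this
    exact this
  have e4 : th (toC D12) = toC P2 * toC D12 := by
    rw [← toC_th, h4, toC_mul]
  set φ : MvPolynomial (Fin 4) ℂ →ₐ[ℂ] PowerSeries ℂ :=
    MvPolynomial.aeval ![toC P2, toC Q4, toC R6, toC D12] with hφ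
  have hC : ∀ a : ℂ, φ (C a) = PowerSeries.C a := by
    intro a
    rw [hφ, MvPolynomial.aeval_C]
    rfl
  have hX0 : φ (X 0) = toC P2 := by rw [hφ, MvPolynomial.aeval_X]; rfl
  have hX1 : φ (X 1) = toC Q4 := by rw [hφ, MvPolynomial.aeval_X]; rfl
  have hX2 : φ (X 2) = toC R6 := by rw [hφ, MvPolynomial.aeval_X]; rfl
  have hX3 : φ (X 3) = toC D12 := by rw [hφ, MvPolynomial.aeval_X]; rfl
  have hgen : ∀ i : Fin 4, φ (dd (X i)) = th (φ (X i)) := by
    intro i
    unfold dd
    rw [mkDerivation_X]
    fin_cases i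
    · show φ (C (1 / 12) * (X 0 ^ 2 - X 1)) = th (φ (X 0))
      rw [map_mul, map_sub, map_pow, hC, hX0, hX1, e1]
    · show φ (C (1 / 3) * (X 0 * X 1 - X 2)) = th (φ (X 1))
      rw [map_mul, map_sub, map_mul, hC, hX0, hX1, hX2, e2]
    · show φ (C (1 / 2) * (X 0 * X 2 - X 1 ^ 2)) = th (φ (X 2))
      rw [map_mul, map_sub, map_mul, map_pow, hC, hX0, hX1, hX2, e3]
    · show φ (X 0 * X 3) = th (φ (X 3))
      rw [map_mul, hX0, hX3, e4]
  have hstep : ∀ G : MvPolynomial (Fin 4) ℂ, φ (dd G) = th (φ G) := by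
    intro G
    induction G using MvPolynomial.induction_on with
    | C a =>
      rw [hC, th_C]
      have : dd (C a) = 0 := by
        unfold dd
        exact Derivation.map_algebraMap _ _
      rw [this, map_zero]
    | add p q hp hq => rw [map_add, map_add, map_add, th_add, hp, hq]
    | mul_X p i hp =>
      rw [Derivation.leibniz, map_add, smul_eq_mul, smul_eq_mul, map_mul, map_mul, map_mul,
        th_mul, hgen, hp]
  intro G r
  induction r generalizing G with
  | zero => rfl
  | succ r ih =>
    rw [Function.iterate_succ_apply, Function.iterate_succ_apply]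
    show φ (dd^[r] (dd G)) = th^[r] (th (φ G))
    rw [← hstep]
    exact ih (dd G)

end

end Pool.Agent.Lib.MP_7c08ba_nt.RZC
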