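import Pool.Agent.Lib.MP_7c08ba_nt.RZ.Basic
import Pool.Agent.Lib.MP_7c08ba_nt.Quad

set_option autoImplicit false

/-! Project RZ, part (C), module N3': the prime above 2 attached to `A`. -/

namespace Pool.Agent.Lib.MP_7c08ba_nt.RZC

open NumberField

noncomputable section

namespace Unit

/-! ### arithmetic -/

theorem nt_mod {k : ℕ} {m : ℕ} {t b : ℤ} (hm : Odd m) (hm3 : 3 ≤ m) (hb : Odd b)
    (h : t ^ 2 + (16 * k + 7) * b ^ 2 = 2 ^ (m + 2)) : ∃ j : ℤ, t ^ 4 - 17 = 32 * j := by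
  have hb2 : IsCoprime (2 : ℤ) b := by
    obtain ⟨j, hj⟩ := hb
    exact ⟨-j, 1, by rw [hj]; ring⟩
  have h1 : IsCoprime ((2 : ℤ) ^ (m + 2)) b := hb2.pow_left
  have h2 : IsCoprime (t ^ 2) b := by
    rw [← h, show (16 * (k : ℤ) + 7) * b ^ 2 = ((16 * k + 7) * b) * b by ring] at h1
    exact h1.of_add_mul_right_left
  have h3 : IsCoprime t b := (IsCoprime.pow_left_iff (by norm_num)).1 h2
  have hgcd : Int.gcd t ((b.natAbs : ℕ) : ℤ) = 1 := by
    rw [Int.isCoprime_iff_gcd_eq_one] at h3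
    rw [Int.gcd_eq_natAbs] at h3 ⊢
    simpa [Int.natAbs_abs] using h3
  have hodd : Odd b.natAbs := Int.natAbs_odd.2 hb
  have e1 : jacobiSym (t ^ 2) b.natAbs = 1 := jacobiSym.sq_one' hgcd
  have e2 : jacobiSym ((2 : ℤ) ^ (m + 2)) b.natAbs = jacobiSym (t ^ 2) b.natAbs := by
    apply jacobiSym.mod_left'
    apply Int.emod_emod_of_dvd _ (dvd_refl _) |>.symm.trans ?_ |>.trans (Int.emod_emod_of_dvd _ (dvd_refl _))
    have hd : ((b.natAbs : ℕ) : ℤ) ∣ (2 : ℤ) ^ (m + 2) - t ^ 2 := by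
      rw [← h]
      rw [Int.natCast_natAbs, abs_dvd]
      exact ⟨(16 * k + 7) * b, by ring⟩
    rw [Int.emod_emod_of_dvd _ (dvd_refl _), Int.emod_emod_of_dvd _ (dvd_refl _)]
    exact (Int.emod_emod_of_dvd _ (dvd_refl _)).symm.trans
      ((Int.emod_emod_of_dvd _ (dvd_refl _)).trans (Int.emod_eq_emod_iff_emod_sub_eq_zero.2 (Int.emod_eq_zero_of_dvd hd)))
  have e3 : jacobiSym 2 b.natAbs ^ (m + 2) = 1 := by
    rw [← jacobiSym.pow_left, e2, e1]
  have hm2 : Odd (m + 2) := by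
    obtain ⟨j, hj⟩ := hm
    exact ⟨j + 1, by omega⟩
  rw [jacobiSym.at_two hodd, ZMod.χ₈_nat_eq_if_mod_eight] at e3
  have e4 : b.natAbs % 8 = 1 ∨ b.natAbs % 8 = 7 := by
    by_contra hc
    have h2 : ¬ b.natAbs % 2 = 0 := by
      obtain ⟨j, hj⟩ := hodd
      omega
    rw [if_neg h2, if_neg hc, hm2.neg_one_pow] at e3
    norm_num at e3
  have e5 : ∃ j : ℤ, b ^ 2 = 16 * j + 1 := by
    have hsq : b ^ 2 = ((b.natAbs : ℕ) : ℤ) ^ 2 := by rw [Int.natCast_natAbs, sq_abs]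
    rw [hsq]
    rcases e4 with h8 | h8
    · obtain ⟨i, hi⟩ : ∃ i : ℕ, b.natAbs = 8 * i + 1 := ⟨b.natAbs / 8, by omega⟩
      rw [hi]
      exact ⟨4 * i ^ 2 + i, by push_cast; ring⟩
    · obtain ⟨i, hi⟩ : ∃ i : ℕ, b.natAbs = 8 * i + 7 := ⟨b.natAbs / 8, by omega⟩
      rw [hi]
      exact ⟨4 * i ^ 2 + 7 * i + 3, by push_cast; ring⟩
  obtain ⟨j, hj⟩ := e5
  obtain ⟨m', rfl⟩ : ∃ m', m = m' + 3 := ⟨m - 3, by omega⟩
  rw [hj, show m' + 3 + 2 = m' + 5 by ring, pow_add] at h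
  obtain ⟨i, hi⟩ : ∃ i : ℤ, t ^ 2 = 16 * i + 9 :=
    ⟨2 * 2 ^ m' - 16 * k * j - k - 7 * j - 1, by linear_combination h⟩
  refine ⟨8 * i ^ 2 + 9 * i + 2, ?_⟩
  rw [show t ^ 4 = (t ^ 2) ^ 2 by ring, hi]
  ring

theorem nt_one {k : ℕ} {t b : ℤ} (hb : Odd b)
    (h : t ^ 2 + (16 * k + 7) * b ^ 2 = 2 ^ (1 + 2)) : t ^ 2 = 1 := by
  norm_num at h
  have hb1 : 1 ≤ b ^ 2 := by
    have hb0 : b ≠ 0 := by
      rintro rfl
      exact absurd hb (by decide)
    have : 0 < b ^ 2 := by positivity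
    linarith
  have hk : (0 : ℤ) ≤ k := by positivity
  have h2 : b ^ 2 = 1 := by
    nlinarith [sq_nonneg t, mul_nonneg hk (by linarith : (0:ℤ) ≤ b ^ 2)]
  have h3 : (k : ℤ) = 0 := by
    rw [h2] at h
    nlinarith [sq_nonneg t]
  rw [h2, h3] at h
  linarith

section val

variable {A : ValuationSubring ℂ}

theorem fourth (u : ℂ) {r : ℤ} {y : ℂ} (hy : y ∈ A) (h : u = r + 8 * y)
    (hr : ∃ j : ℤ, r ^ 4 - 17 = 32 * j) : (u ^ 4 - 17) / 32 ∈ A := by
  obtain ⟨j, hj⟩ := hr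
  have hj' : (r : ℂ) ^ 4 - 17 = 32 * j := by exact_mod_cast hj
  have : (u ^ 4 - 17) / 32 = j + (r : ℂ) ^ 3 * y + ((12 : ℤ) : ℂ) * (r : ℂ) ^ 2 * y ^ 2 +
      ((64 : ℤ) : ℂ) * r * y ^ 3 + ((128 : ℤ) : ℂ) * y ^ 4 := by
    rw [h]
    push_cast
    linear_combination hj' / 32
  rw [this]
  have hr' : (r : ℂ) ∈ A := int_mem r
  exact A.add_mem _ _ (A.add_mem _ _ (A.add_mem _ _ (A.add_mem _ _ (int_mem j)
    (A.mul_mem _ _ (pow_mem hr' 3) hy))
    (A.mul_mem _ _ (A.mul_mem _ _ (int_mem 12) (pow_mem hr' 2)) (pow_mem hy 2)))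
    (A.mul_mem _ _ (A.mul_mem _ _ (int_mem 64) hr') (pow_mem hy 3)))
    (A.mul_mem _ _ (int_mem 128) (pow_mem hy 4))

theorem even_of_nonunits (hA : Above2 A) {n : ℤ} (h : (n : ℂ) ∈ A.nonunits) : Even n := by
  by_contra hn
  rw [Int.not_even_iff_odd] at hn
  have := nonunits_sub h (odd_sub_one hA hn)
  rw [sub_sub_cancel] at this
  exact one_not_nonunits this

theorem main (hA : Above2 A) {k m : ℕ} {t b : ℤ} {u : ℂ} (hm : Odd m) (hb : Odd b)
    (h : t ^ 2 + (16 * k + 7) * b ^ 2 = 2 ^ (m + 2)) (hu : u ∈ A) (hu1 : u ∉ A.nonunits)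
    (hut : u ^ 2 - t * u + 2 ^ m = 0) : (u ^ 4 - 17) / 32 ∈ A := by
  have hu0 : u ≠ 0 := by
    rintro rfl
    exact hu1 zero_nonunits
  have hui : u⁻¹ ∈ A := inv_mem_of_not_nonunits hu hu1
  by_cases hm1 : m = 1
  · subst hm1
    have ht := nt_one hb h
    have h2t : ((2 * t : ℤ) : ℂ) ∈ A.nonunits := even_nonunits hA ⟨t, by ring⟩
    have hw : u + ((2 * t : ℤ) : ℂ) ∉ A.nonunits := by
      intro hc
      have := nonunits_sub hc h2t
      rw [add_sub_cancel_right] at this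
      exact hu1 this
    have hwA : u + ((2 * t : ℤ) : ℂ) ∈ A := A.add_mem _ _ hu (int_mem _)
    have hw0 : u + ((2 * t : ℤ) : ℂ) ≠ 0 := by
      intro h0
      rw [h0] at hw
      exact hw zero_nonunits
    have hwi := inv_mem_of_not_nonunits hwA hw
    refine fourth u (r := 3 * t) (y := -(u + ((2 * t : ℤ) : ℂ))⁻¹) (neg_mem hwi) ?_ ?_
    · have ht' : (t : ℂ) ^ 2 = 1 := by exact_mod_cast ht
      have key : (u - 3 * t) * (u + 2 * t) = -8 := by
        linear_combination hut - 6 * ht'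
      have hw0' : u + 2 * (t : ℂ) ≠ 0 := by
        intro h0
        apply hw0
        push_cast
        exact h0
      push_cast
      have : u - 3 * t = -8 / (u + 2 * t) := by
        rw [eq_div_iff hw0']
        exact key
      linear_combination this
    · refine ⟨2, ?_⟩
      rw [show (3 * t) ^ 4 = 81 * (t ^ 2) ^ 2 by ring, ht]
      norm_num
  · have hm3 : 3 ≤ m := by
      obtain ⟨j, hj⟩ := hm
      omega
    obtain ⟨m', rfl⟩ : ∃ m', m = m' + 3 := ⟨m - 3, by omega⟩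
    refine fourth u (r := t) (y := -(((2 ^ m' : ℤ) : ℂ) * u⁻¹)) (neg_mem (A.mul_mem _ _ (int_mem _) hui))
      ?_ (nt_mod hm hm3 hb h)
    have : u - t = - (2 ^ (m' + 3)) * u⁻¹ := by
      field_simp
      linear_combination hut
    push_cast
    rw [pow_add] at this
    linear_combination this

end val

/-! ### the field -/

section field

variable {q : ℕ} {F : Type} [Field F] [NumberField F] {s : F}

theorem exists_theta (h : FieldC q F s) : ∃ (k : ℕ) (w : 𝓞 F), q = 16 * k + 7 ∧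
    (w : F) = (1 + s) / 2 ∧ w ^ 2 = w - 2 * (2 * k + 1) := by
  obtain ⟨hq, hq16, hF, hs⟩ := h
  obtain ⟨k, hk⟩ : ∃ k : ℕ, q = 16 * k + 7 := ⟨q / 16, by omega⟩
  have hkF : (q : F) = 16 * k + 7 := by
    rw [hk]
    push_cast
    ring
  have hrel : ((1 + s) / 2) ^ 2 = (1 + s) / 2 - 2 * (2 * (k : F) + 1) := by
    rw [hkF] at hs
    linear_combination hs / 4
  have hint : IsIntegral ℤ ((1 + s) / 2) := by
    refine ⟨Polynomial.X ^ 2 - Polynomial.X + Polynomial.C (2 * (2 * (k : ℤ) + 1)), ?_, ?_⟩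
    · monicity!
    · rw [← Polynomial.aeval_def]
      simp only [map_add, map_sub, map_pow, Polynomial.aeval_X, Polynomial.aeval_C, hrel]
      simp
  obtain ⟨w, hw⟩ : ∃ w : 𝓞 F, algebraMap (𝓞 F) F w = (1 + s) / 2 := ⟨⟨_, hint⟩, rfl⟩
  refine ⟨k, w, hk, hw, ?_⟩
  apply RingOfIntegers.coe_injective
  simp only [map_pow, map_sub, map_mul, map_add, map_ofNat, map_natCast, map_one]
  rw [hw]
  exact hrel

theorem coordsO (h : FieldC q F s) {w : 𝓞 F} (hw : (w : F) = (1 + s) / 2) (x : 𝓞 F) :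
    ∃ a b : ℤ, x = a + b * w := by
  obtain ⟨hq, hq16, hF, hs⟩ := h
  obtain ⟨A, B, hAB⟩ := exists_int_coords hq.pos hF hs hq x.isIntegral_coe
  have hx : (x : F) = ((A / 2 : ℚ) : F) + ((B / 2 : ℚ) : F) * s := by
    push_cast
    linear_combination hAB / 2
  obtain ⟨hN, -⟩ := norm_trace hq.pos hF hs (A / 2) (B / 2)
  rw [← hx] at hN
  have h1 : IsIntegral ℤ (Algebra.norm ℚ (x : F)) := Algebra.isIntegral_norm ℚ x.isIntegral_coe
  obtain ⟨N, hN'⟩ := IsIntegrallyClosed.isIntegral_iff.mp h1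
  have h2 : A ^ 2 + q * B ^ 2 = 4 * N := by
    have : ((A ^ 2 + q * B ^ 2 : ℤ) : ℚ) = ((4 * N : ℤ) : ℚ) := by
      push_cast
      have hN'' : (N : ℚ) = Algebra.norm ℚ (x : F) := hN'
      rw [hN'', hN]
      ring
    exact_mod_cast this
  obtain ⟨k, hk⟩ : ∃ k : ℤ, (q : ℤ) = 16 * k + 7 := ⟨q / 16, by omega⟩
  have hpar : Even (A - B) := by
    have h3 : Even (A ^ 2 - B ^ 2) := ⟨2 * N - 8 * k * B ^ 2 - 4 * B ^ 2, by
      rw [hk] at h2
      linear_combination h2⟩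
    rw [Int.even_sub, Int.even_pow' two_ne_zero, Int.even_pow' two_ne_zero] at h3
    rw [Int.even_sub]
    exact h3
  obtain ⟨c, hc⟩ := hpar
  refine ⟨c, B, ?_⟩
  apply RingOfIntegers.ext
  have hA : (A : F) = B + (c + c) := by
    have : A = B + (c + c) := by linarith
    rw [this]
    push_cast
    ring
  simp only [map_add, map_mul, map_intCast]
  rw [show algebraMap (𝓞 F) F w = (1 + s) / 2 from hw]
  linear_combination hAB / 2 + hA / 2

theorem uniqO (h : FieldC q F s) {w : 𝓞 F} (hw : (w : F) = (1 + s) / 2) {a b c d : ℤ}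
    (he : (a : 𝓞 F) + b * w = c + d * w) : b = d := by
  obtain ⟨hq, hq16, hF, hs⟩ := h
  have h1 : (a : F) + b * ((1 + s) / 2) = c + d * ((1 + s) / 2) := by
    have := congrArg (fun t : 𝓞 F => (t : F)) he
    simp only [map_add, map_mul, map_intCast] at this
    rwa [show algebraMap (𝓞 F) F w = (1 + s) / 2 from hw] at this
  have h2 : ((a + b / 2 : ℚ) : F) + ((b / 2 : ℚ) : F) * s =
      ((c + d / 2 : ℚ) : F) + ((d / 2 : ℚ) : F) * s := by
    push_cast
    linear_combination h1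
  obtain ⟨-, h3⟩ := coords_inj hq.pos hs h2
  have : (b : ℚ) = d := by linarith
  exact_mod_cast this

theorem normO (h : FieldC q F s) {k : ℕ} (hk : q = 16 * k + 7) {w : 𝓞 F}
    (hw : (w : F) = (1 + s) / 2) (a b : ℤ) :
    Algebra.norm ℤ ((a : 𝓞 F) + b * w) = a ^ 2 + a * b + 2 * (2 * k + 1) * b ^ 2 := by
  obtain ⟨hq, hq16, hF, hs⟩ := h
  have h1 : ((Algebra.norm ℤ ((a : 𝓞 F) + (b : 𝓞 F) * w) : ℤ) : ℚ) =
      Algebra.norm ℚ (algebraMap (𝓞 F) F ((a : 𝓞 F) + (b : 𝓞 F) * w)) :=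
    Algebra.coe_norm_int ((a : 𝓞 F) + (b : 𝓞 F) * w)
  have h2 : algebraMap (𝓞 F) F ((a : 𝓞 F) + (b : 𝓞 F) * w) =
      ((a + b / 2 : ℚ) : F) + ((b / 2 : ℚ) : F) * s := by
    simp only [map_add, map_mul, map_intCast]
    rw [show algebraMap (𝓞 F) F w = (1 + s) / 2 from hw]
    push_cast
    ring
  rw [h2, (norm_trace hq.pos hF hs _ _).1, hk] at h1
  have h3 : ((Algebra.norm ℤ ((a : 𝓞 F) + b * w) : ℤ) : ℚ) =
      ((a ^ 2 + a * b + 2 * (2 * k + 1) * b ^ 2 : ℤ) : ℚ) := by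
    rw [h1]
    push_cast
    ring
  exact_mod_cast h3

theorem fieldC_neg (h : FieldC q F s) : FieldC q F (-s) := by
  obtain ⟨hq, hq16, hF, hs⟩ := h
  exact ⟨hq, hq16, hF, by rw [neg_sq, hs]⟩

variable (σ : F →+* ℂ) {A : ValuationSubring ℂ}

/-- the embedding of the ring of integers -/
def tau : 𝓞 F →+* ℂ := σ.comp (algebraMap (𝓞 F) F)

omit [NumberField F] in
theorem int_memA (x : 𝓞 F) : tau σ x ∈ A := by
  have hx : IsIntegral ℤ (x : F) := x.isIntegral_coe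
  have h2 : IsIntegral ℤ (tau σ x) := hx.map σ.toIntAlgHom
  obtain ⟨p, hp, hp2⟩ := h2
  refine mem_of_root (n := p.natDegree) (c := fun i => ((p.coeff i : ℤ) : ℂ))
    (fun i _ => int_mem _) ?_
  rw [Polynomial.eval₂_eq_sum_range, Finset.sum_range_succ] at hp2
  rw [hp.coeff_natDegree] at hp2
  simp only [algebraMap_int_eq, eq_intCast, Int.cast_one, one_mul] at hp2
  rw [add_comm]
  exact hp2

/-- the ideal attached to `A` -/
def pr (A : ValuationSubring ℂ) : Ideal (𝓞 F) where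
  carrier := {x | tau σ x ∈ A.nonunits}
  add_mem' := by
    intro x y hx hy
    simp only [Set.mem_ofPred_eq, map_add] at *
    exact nonunits_add hx hy
  zero_mem' := by
    simp only [Set.mem_ofPred_eq, map_zero]
    exact zero_nonunits
  smul_mem' := by
    intro c x hx
    simp only [Set.mem_ofPred_eq, smul_eq_mul, map_mul] at *
    exact nonunits_mul_left (int_memA σ c) hx

omit [NumberField F] in
theorem mem_pr {x : 𝓞 F} : x ∈ pr σ A ↔ tau σ x ∈ A.nonunits := Iff.rfl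

theorem pr_prime : (pr σ A).IsPrime := by
  rw [Ideal.isPrime_iff]
  refine ⟨?_, ?_⟩
  · rw [Ne, Ideal.eq_top_iff_one, mem_pr]
    simpa using one_not_nonunits
  · intro x y hxy
    by_contra hc
    rw [not_or] at hc
    rw [mem_pr] at hxy
    rw [map_mul] at hxy
    have h1 := inv_mem_of_not_nonunits (int_memA σ x) hc.1
    have h0 : tau σ x ≠ 0 := by
      intro h0
      apply hc.1
      rw [mem_pr, h0]
      exact zero_nonunits
    exact hc.2 (nonunits_of_mul_unit h1 h0 hxy)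

omit [NumberField F] in
theorem pow_theta {k : ℕ} {w : 𝓞 F} (hw : w ^ 2 = w - 2 * (2 * k + 1)) {m : ℕ} (hm : 0 < m) :
    ∃ z : 𝓞 F, w ^ m = w + 2 * z := by
  obtain ⟨n, rfl⟩ : ∃ n, m = n + 1 := ⟨m - 1, by omega⟩
  clear hm
  induction n with
  | zero => exact ⟨0, by ring⟩
  | succ n ih =>
    obtain ⟨z, hz⟩ := ih
    refine ⟨w * z - (2 * k + 1), ?_⟩
    rw [pow_succ, hz]
    linear_combination hw

theorem stUnit_aux (h : FieldC q F s) (hA : Above2 A) {k : ℕ} (hk : q = 16 * k + 7) {w : 𝓞 F}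
    (hw : (w : F) = (1 + s) / 2) (hw2 : w ^ 2 = w - 2 * (2 * k + 1)) (hwP : w ∈ pr σ A) :
    ∃ P : Ideal (𝓞 F), P.IsPrime ∧ Ideal.absNorm P = 2 ∧
    ∀ (m : ℕ) (x : 𝓞 F), Odd m → P ^ m = Ideal.span {x} → UnitC A m (tau σ x) := by
  have hP := pr_prime σ (A := A)
  have hdich : ∀ x : 𝓞 F, x ∈ pr σ A ∨ x - 1 ∈ pr σ A := by
    intro x
    obtain ⟨a, b, rfl⟩ := coordsO h hw x
    have hbw : (b : 𝓞 F) * w ∈ pr σ A := Ideal.mul_mem_left _ _ hwP
    rcases Int.even_or_odd a with ha | ha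
    · left
      refine Ideal.add_mem _ ?_ hbw
      rw [mem_pr]
      simpa using even_nonunits hA ha
    · right
      rw [show (a : 𝓞 F) + b * w - 1 = (a - 1) + b * w by ring]
      refine Ideal.add_mem _ ?_ hbw
      rw [mem_pr]
      simpa using odd_sub_one hA ha
  have hnorm : Ideal.absNorm (pr σ A) = 2 := by
    rw [Ideal.absNorm_apply, Submodule.cardQuot_apply, Nat.card_eq_two_iff]
    refine ⟨Ideal.Quotient.mk _ 0, Ideal.Quotient.mk _ 1, ?_, ?_⟩
    · intro hc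
      rw [Ideal.Quotient.eq] at hc
      have h1 : (1 : 𝓞 F) ∈ pr σ A := by
        have := (pr σ A).neg_mem hc
        simpa using this
      exact hP.ne_top ((Ideal.eq_top_iff_one _).2 h1)
    · rw [Set.eq_univ_iff_forall]
      intro z
      obtain ⟨x, rfl⟩ := Ideal.Quotient.mk_surjective z
      rcases hdich x with hx | hx
      · left
        rw [Ideal.Quotient.eq]
        simpa using hx
      · right
        rw [Set.mem_singleton_iff, Ideal.Quotient.eq]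
        exact hx
  refine ⟨pr σ A, hP, hnorm, ?_⟩
  intro m x hm hx
  have hm0 : 0 < m := hm.pos
  obtain ⟨a, b, rfl⟩ := coordsO h hw x
  -- the norm
  have hN : a ^ 2 + a * b + 2 * (2 * (k : ℤ) + 1) * b ^ 2 = 2 ^ m := by
    have h1 := congrArg Ideal.absNorm hx
    rw [map_pow, hnorm, Ideal.absNorm_span_singleton, normO h hk hw] at h1
    have h2 : 0 ≤ a ^ 2 + a * b + 2 * (2 * (k : ℤ) + 1) * b ^ 2 := by
      have hk0 : (0 : ℤ) ≤ k := by positivity
      nlinarith [sq_nonneg (2 * a + b), mul_nonneg hk0 (sq_nonneg b), sq_nonneg b]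
    have h3 : (((2 ^ m : ℕ)) : ℤ) = a ^ 2 + a * b + 2 * (2 * (k : ℤ) + 1) * b ^ 2 := by
      rw [h1]
      exact Int.natAbs_of_nonneg h2
    rw [← h3]
    push_cast
    ring
  have hxP : (a : 𝓞 F) + b * w ∈ pr σ A := by
    have h1 : (a : 𝓞 F) + b * w ∈ pr σ A ^ m := by
      rw [hx]
      exact Ideal.mem_span_singleton_self _
    exact Ideal.pow_le_self hm0.ne' h1
  have haE : Even a := by
    have hbw : (b : 𝓞 F) * w ∈ pr σ A := Ideal.mul_mem_left _ _ hwP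
    have h1 := (pr σ A).sub_mem hxP hbw
    rw [add_sub_cancel_right, mem_pr] at h1
    exact even_of_nonunits hA (by simpa using h1)
  have hbO : Odd b := by
    rw [← Int.not_even_iff_odd]
    intro hbE
    obtain ⟨a', ha'⟩ := haE
    obtain ⟨b', hb'⟩ := hbE
    have h1 : w ^ m ∈ Ideal.span {(a : 𝓞 F) + b * w} := by
      rw [← hx]
      exact Ideal.pow_mem_pow hwP m
    rw [Ideal.mem_span_singleton] at h1
    obtain ⟨y, hy⟩ := h1
    obtain ⟨z, hz⟩ := pow_theta hw2 hm0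
    obtain ⟨c, d, hcd⟩ := coordsO h hw ((a' + b' * w) * y - z)
    have h2 : ((0 : ℤ) : 𝓞 F) + (1 : ℤ) * w = (2 * c : ℤ) + (2 * d : ℤ) * w := by
      have ha2 : (a : 𝓞 F) = a' + a' := by rw [ha']; push_cast; ring
      have hb2 : (b : 𝓞 F) = b' + b' := by rw [hb']; push_cast; ring
      rw [ha2, hb2] at hy
      push_cast
      linear_combination hy - hz + 2 * hcd
    have h3 := uniqO h hw h2
    omega
  set u : ℂ := tau σ (((a + b : ℤ) : 𝓞 F) - b * w) with hu_def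
  have huA : u ∈ A := int_memA σ _
  have hu1 : u ∉ A.nonunits := by
    intro hc
    have h1 : (((a + b : ℤ) : 𝓞 F) - b * w : 𝓞 F) ∈ pr σ A := hc
    have hbw : (b : 𝓞 F) * w ∈ pr σ A := Ideal.mul_mem_left _ _ hwP
    have h2 := (pr σ A).add_mem h1 hbw
    rw [sub_add_cancel, mem_pr] at h2
    have h3 : Even (a + b) := even_of_nonunits hA (by simpa using h2)
    obtain ⟨j, hj⟩ := haE
    obtain ⟨i, hi⟩ := hbO
    obtain ⟨l, hl⟩ := h3
    omega
  have hprodO : ((a : 𝓞 F) + b * w) * (((a + b : ℤ) : 𝓞 F) - b * w) =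
      ((2 ^ m : ℤ) : 𝓞 F) := by
    have h1 : ((a ^ 2 + a * b + 2 * (2 * (k : ℤ) + 1) * b ^ 2 : ℤ) : 𝓞 F) = ((2 ^ m : ℤ) : 𝓞 F) := by
      rw [hN]
    push_cast at h1 ⊢
    linear_combination h1 - (b : 𝓞 F) ^ 2 * hw2
  have hprod : tau σ ((a : 𝓞 F) + b * w) * u = 2 ^ m := by
    rw [hu_def, ← map_mul, hprodO, map_intCast]
    push_cast
    rfl
  have hsum : tau σ ((a : 𝓞 F) + b * w) + u = ((2 * a + b : ℤ) : ℂ) := by
    rw [hu_def, ← map_add]
    have : ((a : 𝓞 F) + b * w) + (((a + b : ℤ) : 𝓞 F) - b * w) = ((2 * a + b : ℤ) : 𝓞 F) := by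
      push_cast
      ring
    rw [this, map_intCast]
  have hx0 : tau σ ((a : 𝓞 F) + b * w) ≠ 0 := by
    intro h0
    rw [h0, zero_mul] at hprod
    exact pow_ne_zero m two_ne_zero hprod.symm
  have hdiv : 2 ^ m / tau σ ((a : 𝓞 F) + b * w) = u := by
    rw [← hprod]
    field_simp
  unfold UnitC
  rw [hdiv]
  refine ⟨huA, inv_mem_of_not_nonunits huA hu1, ?_⟩
  refine main hA (k := k) (m := m) (t := 2 * a + b) (b := b) hm hbO ?_ huA hu1 ?_
  · rw [pow_add, ← hN]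
    ring
  · linear_combination u * hsum - hprod

end field

end Unit

open Pool.Agent.Lib.MP_7c08ba_nt.RZC.Unit in
theorem stUnit : StUnit := by
  intro q F _ _ s h σ A hA
  obtain ⟨k, w, hk, hw, hw2⟩ := exists_theta h
  have h1 : tau σ w * (tau σ w - 1) ∈ A.nonunits := by
    have h2 : w * (w - 1) = ((-(2 * (2 * k + 1)) : ℤ) : 𝓞 F) := by
      push_cast
      linear_combination hw2
    have h3 : tau σ w * (tau σ w - 1) = ((-(2 * (2 * k + 1)) : ℤ) : ℂ) := by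
      have h4 := congrArg (tau σ) h2
      rw [map_mul, map_sub, map_one, map_intCast] at h4
      exact h4
    rw [h3]
    exact even_nonunits hA ⟨-(2 * k + 1), by ring⟩
  by_cases hwP : w ∈ pr σ A
  · exact stUnit_aux σ h hA hk hw hw2 hwP
  · have hwi := inv_mem_of_not_nonunits (int_memA σ w) hwP
    have h0 : tau σ w ≠ 0 := by
      intro h0
      apply hwP
      rw [mem_pr, h0]
      exact zero_nonunits
    have h2 : tau σ w - 1 ∈ A.nonunits := nonunits_of_mul_unit hwi h0 h1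
    have h3 : (1 - w) ∈ pr σ A := by
      rw [mem_pr]
      have := nonunits_neg h2
      simpa using this
    refine stUnit_aux σ (fieldC_neg h) hA hk (w := 1 - w) ?_ ?_ h3
    · simp only [map_sub, map_one]
      rw [show algebraMap (𝓞 F) F w = (1 + s) / 2 from hw]
      ring
    · linear_combination hw2

end

end Pool.Agent.Lib.MP_7c08ba_nt.RZC
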