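import Pool.Agent.Lib.MP_7c08ba_nt.RZ.Basic

set_option autoImplicit false

/-! (V1) the value of `δ^r f` on the chain. -/

namespace Pool.Agent.Lib.MP_7c08ba_nt.RZC

open UpperHalfPlane ModularForm EisensteinSeries MatrixGroups NumberField
open scoped Real Manifold ComplexConjugate

noncomputable section

namespace ValRAux

/-! ### the standard elements -/

theorem map_eb {M N F : Type*} [Monoid M] [Monoid N] [FunLike F M N] [MonoidHomClass F M N]
    (φ : F) (k : ℕ) (a b : M) : φ (eb k a b) = eb k (φ a) (φ b) := by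
  unfold eb
  split_ifs <;> simp

theorem two_dvd_eb (k : ℕ) : (2 : PowerSeries ℤ) ∣ eb k Q4 R6 - 1 := by
  have h4 : (2 : PowerSeries ℤ) ∣ Q4 - 1 := ⟨120 * sg 3, by unfold Q4; ring⟩
  have h6 : (2 : PowerSeries ℤ) ∣ R6 - 1 := ⟨-252 * sg 5, by unfold R6; ring⟩
  have hp : ∀ n : ℕ, (2 : PowerSeries ℤ) ∣ Q4 ^ n - 1 := fun n =>
    h4.trans (by simpa using sub_dvd_pow_sub_pow Q4 1 n)
  unfold eb
  split_ifs
  · exact hp _
  · obtain ⟨a, ha⟩ := hp ((k - 6) / 4)
    obtain ⟨b, hb⟩ := h6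
    refine ⟨a * R6 + b, ?_⟩
    linear_combination R6 * ha + hb

theorem LF_eb {w₁ w₂ : ℂ} (hp : Pos w₁ w₂) (k : ℕ) (hk : Even k) (h2 : k ≠ 2) :
    (w₂ ^ k)⁻¹ * eb k ((E₄ : ℍ → ℂ) ⟨w₁ / w₂, hp⟩) ((E₆ : ℍ → ℂ) ⟨w₁ / w₂, hp⟩) =
      eb k (e4 w₁ w₂) (e6 w₁ w₂) := by
  unfold e4 e6
  rw [LF_eq hp, LF_eq hp]
  have hw := hp.ne
  unfold eb
  by_cases h : k % 4 = 0
  · rw [if_pos h, if_pos h, mul_pow, inv_pow, ← pow_mul]
    congr 3
    omega
  · have h3 : k % 4 = 2 := by
      obtain ⟨m, hm⟩ := hk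
      omega
    rw [if_neg h, if_neg h, mul_pow, inv_pow, ← pow_mul]
    have h4 : w₂ ^ k = w₂ ^ (4 * ((k - 6) / 4)) * w₂ ^ 6 := by
      rw [← pow_add]
      congr 1
      omega
    rw [h4]
    field_simp

theorem disc_rel {w₁ w₂ : ℂ} (hp : Pos w₁ w₂) :
    1728 * dl w₁ w₂ = e4 w₁ w₂ ^ 3 - e6 w₁ w₂ ^ 2 := by
  unfold dl e4 e6
  rw [LF_eq hp, LF_eq hp, LF_eq hp, discriminant_eq_E₄_cube_sub_E₆_sq]
  have hw := hp.ne
  field_simp

theorem e6_ne {A : ValuationSubring ℂ} (hA : Above2 A) {w₁ w₂ : ℂ} (hO : Ord A w₁ w₂) :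
    e6 w₁ w₂ ≠ 0 := by
  obtain ⟨hp, h4, hj⟩ := hO
  intro h
  have h1 := disc_rel hp
  rw [h] at h1
  have h2 : (1728 : ℂ) * jv w₁ w₂ = 1 := by
    unfold jv
    field_simp
    linear_combination h1
  have h3 : (1728 : ℂ) * jv w₁ w₂ ∈ A.nonunits := by
    have h5 : ((1728 : ℤ) : ℂ) ∈ A.nonunits := even_nonunits hA ⟨864, by norm_num⟩
    push_cast at h5
    exact nonunits_mul_right h5 hj
  rw [h2] at h3
  exact one_not_nonunits h3

theorem eb_ne {A : ValuationSubring ℂ} (hA : Above2 A) {w₁ w₂ : ℂ} (hO : Ord A w₁ w₂) (w : ℕ) :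
    eb w (e4 w₁ w₂) (e6 w₁ w₂) ≠ 0 := by
  have h6 := e6_ne hA hO
  obtain ⟨hp, h4, hj⟩ := hO
  unfold eb
  split_ifs
  · exact pow_ne_zero _ h4
  · exact mul_ne_zero (pow_ne_zero _ h4) h6

/-- a normalised cusp form has even weight `w ≥ 12`, `w ≠ 14` -/
theorem weight_ok (h3 : StStruct) (h4 : StEis) (w : ℕ) (f : CuspForm 𝒮ℒ (w : ℤ))
    (h1 : cf f 1 = 1) : Even w ∧ 12 ≤ w ∧ w ≠ 14 := by
  set F : ModularForm 𝒮ℒ (w : ℤ) := CuspForm.toModularFormₗ f with hF
  have hcoe : (F : ℍ → ℂ) = f := rfl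
  have hev : Even w := by
    by_contra hodd
    rw [Nat.not_even_iff_odd] at hodd
    have h0 : F = 0 := ModularForm.levelOne_odd_weight_eq_zero (by exact_mod_cast hodd) F
    have h2 : cf (F : ℍ → ℂ) 1 = 1 := by rw [hcoe]; exact h1
    rw [h0] at h2
    have h5 : qExpansion 1 ((0 : ModularForm 𝒮ℒ (w : ℤ)) : ℍ → ℂ) = 0 :=
      (ModularForm.qExpansion_eq_zero_iff one_pos one_mem_strictPeriods_SL _).2 rfl
    unfold cf at h2
    rw [h5] at h2
    simp at h2
  obtain ⟨c, -, hc2, -, hq⟩ := h3 ⊤ w hev F (fun n => AddSubgroup.mem_top _)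
  obtain ⟨-, hD0, -, -, -, -⟩ := h4
  have h0 : (qExpansion 1 (F : ℍ → ℂ)).coeff 0 = 0 :=
    (ModularForm.isCuspForm_iff_coeffZero_eq_zero F).1
      (ModularForm.CuspForm.isCuspForm_toModularFormₗ f)
  have hD : PowerSeries.constantCoeff (toC D12) = 0 := by
    rw [← PowerSeries.coeff_zero_eq_constantCoeff_apply, PowerSeries.coeff_map, hD0]
    simp
  have hQ : PowerSeries.constantCoeff (toC Q4) = 1 := by
    rw [← PowerSeries.coeff_zero_eq_constantCoeff_apply, PowerSeries.coeff_map]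
    simp [Q4, sg]
  have hR : PowerSeries.constantCoeff (toC R6) = 1 := by
    rw [← PowerSeries.coeff_zero_eq_constantCoeff_apply, PowerSeries.coeff_map]
    simp [R6, sg]
  have hc0 : c 0 = 0 := by
    rw [hq, PowerSeries.coeff_zero_eq_constantCoeff_apply, map_sum,
      Finset.sum_eq_single 0] at h0
    · have : PowerSeries.constantCoeff (eb w (toC Q4) (toC R6)) = 1 := by
        unfold eb
        split_ifs <;> simp [hQ, hR]
      simpa [this] using h0
    · intro j _ hj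
      simp [hD, hj]
    · intro h
      simp at h
  refine ⟨hev, ?_⟩
  by_contra hcon
  have hall : ∀ j ∈ Finset.range (w / 12 + 1), c j = 0 := by
    intro j hj
    rw [Finset.mem_range] at hj
    rcases Nat.eq_zero_or_pos j with rfl | hjp
    · exact hc0
    · have : w = 14 := by omega
      subst this
      have : j = 1 := by omega
      subst this
      exact hc2 1 rfl
  have hz : qExpansion 1 (F : ℍ → ℂ) = 0 := by
    rw [hq]
    refine Finset.sum_eq_zero fun j hj => ?_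
    rw [hall j hj]
    simp
  have h2 : cf (F : ℍ → ℂ) 1 = 1 := by rw [hcoe]; exact h1
  unfold cf at h2
  rw [hz] at h2
  simp at h2

/-! ### congruences -/

theorem aeval_congr {B S : Type*} [CommRing B] [CommRing S] [Algebra B S] (t : S)
    (K : MvPolynomial (Fin 4) B) (a b : Fin 4 → S) (h : ∀ i, ∃ d, a i = b i + t * d) :
    ∃ d, MvPolynomial.aeval a K = MvPolynomial.aeval b K + t * d := by
  induction K using MvPolynomial.induction_on with
  | C c => exact ⟨0, by simp⟩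
  | add p q hp hq =>
    obtain ⟨d, hd⟩ := hp
    obtain ⟨e, he⟩ := hq
    exact ⟨d + e, by rw [map_add, map_add, hd, he]; ring⟩
  | mul_X p i hp =>
    obtain ⟨d, hd⟩ := hp
    obtain ⟨e, he⟩ := h i
    exact ⟨d * b i + MvPolynomial.aeval b p * e + t * d * e, by
      rw [map_mul, map_mul, MvPolynomial.aeval_X, MvPolynomial.aeval_X, hd, he]; ring⟩

/-- change of rings -/
theorem aeval_push {B C S T : Type*} [CommRing B] [CommRing C] [CommRing S] [CommRing T]
    [Algebra B S] [Algebra C T] (ι : B →+* C) (φ : S →+* T)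
    (hφ : ∀ b : B, φ (algebraMap B S b) = algebraMap C T (ι b))
    (K : MvPolynomial (Fin 4) B) (a : Fin 4 → S) :
    MvPolynomial.aeval (fun i => φ (a i)) (MvPolynomial.map ι K) =
      φ (MvPolynomial.aeval a K) := by
  induction K using MvPolynomial.induction_on with
  | C c => simp [hφ]
  | add p q hp hq => rw [map_add, map_add, map_add, map_add, hp, hq]
  | mul_X p i hp =>
    rw [map_mul, map_mul, map_mul, map_mul, hp, MvPolynomial.map_X, MvPolynomial.aeval_X,
      MvPolynomial.aeval_X]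

theorem map_aeval_int {S T : Type*} [CommRing S] [CommRing T] (iS : Algebra ℤ S)
    (iT : Algebra ℤ T) (φ : S →+* T) (x : S) (F : Polynomial ℤ) :
    φ (Polynomial.aeval x F) = Polynomial.aeval (φ x) F := by
  rw [Polynomial.aeval_def, Polynomial.aeval_def, Polynomial.hom_eval₂]
  congr 1
  exact RingHom.ext_int _ _

theorem main_congr {B : Type} [CommRing B] (K : MvPolynomial (Fin 4) B) (F : Polynomial ℤ)
    (N : ℕ) : ∃ h : Polynomial B, ∀ (S : Type) [CommRing S] [Algebra B S] (a x s t z : S),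
      a = Polynomial.aeval x F + 2 ^ N * z → s = 1 - 1728 * x → s * t = 1 →
        ∃ d, MvPolynomial.aeval ![a, x, s, t] K = Polynomial.aeval x h + 2 ^ N * d := by
  refine ⟨MvPolynomial.aeval ![Polynomial.aeval (Polynomial.X : Polynomial B) F, Polynomial.X,
    1 - 1728 * Polynomial.X, ∑ n ∈ Finset.range N, (1728 * Polynomial.X) ^ n] K, ?_⟩
  intro S _ _ a x s t z ha hs hst
  have hX : Polynomial.aeval x (1728 : Polynomial B) = 1728 :=
    map_ofNat (Polynomial.aeval (R := B) x) 1728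
  have e1 : Polynomial.aeval x (MvPolynomial.aeval ![Polynomial.aeval
      (Polynomial.X : Polynomial B) F, Polynomial.X, 1 - 1728 * Polynomial.X,
      ∑ n ∈ Finset.range N, (1728 * Polynomial.X) ^ n] K) =
      MvPolynomial.aeval ![Polynomial.aeval x F, x, 1 - 1728 * x,
        ∑ n ∈ Finset.range N, (1728 * x) ^ n] K := by
    have := aeval_push (RingHom.id B) (Polynomial.aeval (R := B) x : Polynomial B →+* S)
      (fun b => by simp) K ![Polynomial.aeval
      (Polynomial.X : Polynomial B) F, Polynomial.X, 1 - 1728 * Polynomial.X,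
      ∑ n ∈ Finset.range N, (1728 * Polynomial.X) ^ n]
    rw [MvPolynomial.map_id] at this
    rw [RingHom.coe_coe] at this
    rw [← this]
    congr 2
    funext i
    fin_cases i
    · show Polynomial.aeval x (Polynomial.aeval (Polynomial.X : Polynomial B) F) =
        Polynomial.aeval x F
      have := map_aeval_int inferInstance inferInstance
        (Polynomial.aeval (R := B) x : Polynomial B →+* S) Polynomial.X F
      rw [RingHom.coe_coe] at this
      rw [this, Polynomial.aeval_X]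
    · simp
    · simp [hX]
    · simp [hX]
  rw [e1]
  refine aeval_congr (2 ^ N) K _ _ fun i => ?_
  fin_cases i
  · exact ⟨z, ha⟩
  · exact ⟨0, by simp⟩
  · exact ⟨0, by simp [hs]⟩
  · refine ⟨(864 * x) ^ N * t, ?_⟩
    show t = ∑ n ∈ Finset.range N, (1728 * x) ^ n + 2 ^ N * ((864 * x) ^ N * t)
    have e2 := geom_sum_mul_neg (1728 * x) N
    have e3 : ((1728 : S) * x) ^ N = 2 ^ N * (864 * x) ^ N := by
      rw [← mul_pow]
      congr 1
      ring
    rw [← hs] at e2
    calc t = (1 - (1728 * x) ^ N) * t + (1728 * x) ^ N * t := by ring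
      _ = (∑ n ∈ Finset.range N, (1728 * x) ^ n) * (s * t) + (1728 * x) ^ N * t := by
        rw [← e2]; ring
      _ = _ := by rw [hst, e3]; ring

/-- triangularity -/
theorem tri {B : Type*} [CommRing B] (J : Ideal B) (x : PowerSeries B) (h0 : x.coeff 0 = 0)
    (h1 : x.coeff 1 = 1) (h : Polynomial B)
    (hh : ∀ n, (Polynomial.aeval x h).coeff n ∈ J) : ∀ n, h.coeff n ∈ J := by
  obtain ⟨y, hy⟩ : (PowerSeries.X : PowerSeries B) ∣ x := by
    rw [PowerSeries.X_dvd_iff, ← PowerSeries.coeff_zero_eq_constantCoeff_apply, h0]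
  have hy0 : PowerSeries.constantCoeff y = 1 := by
    rw [hy] at h1
    rw [← PowerSeries.coeff_zero_eq_constantCoeff_apply, ← PowerSeries.coeff_succ_X_mul]
    exact h1
  have hxj : ∀ n j : ℕ, n < j → (x ^ j).coeff n = 0 := by
    intro n j hnj
    rw [hy, mul_pow, PowerSeries.coeff_X_pow_mul', if_neg (by omega)]
  have hxn : ∀ n : ℕ, (x ^ n).coeff n = 1 := by
    intro n
    rw [hy, mul_pow, PowerSeries.coeff_X_pow_mul', if_pos le_rfl, Nat.sub_self,
      PowerSeries.coeff_zero_eq_constantCoeff_apply, map_pow, hy0, one_pow]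
  intro n
  induction n using Nat.strong_induction_on with
  | _ n ih =>
    by_cases hn : n ≤ h.natDegree
    · have e1 := hh n
      rw [Polynomial.aeval_eq_sum_range, map_sum,
        ← Finset.add_sum_erase _ _ (Finset.mem_range.2 (Nat.lt_succ_of_le hn))] at e1
      rw [PowerSeries.coeff_smul, hxn, smul_eq_mul, mul_one] at e1
      refine (Submodule.add_mem_iff_left J ?_).1 e1
      refine J.sum_mem fun j hj => ?_
      rw [PowerSeries.coeff_smul, smul_eq_mul]
      rcases lt_or_gt_of_ne (Finset.ne_of_mem_erase hj) with hlt | hgt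
      · exact J.mul_mem_right _ (ih j hlt)
      · rw [hxj n j hgt, mul_zero]
        exact J.zero_mem
    · rw [Polynomial.coeff_eq_zero_of_natDegree_lt (by omega)]
      exact J.zero_mem

theorem coeff_th {R : Type*} [CommRing R] (g : PowerSeries R) (r n : ℕ) :
    (th^[r] g).coeff n = (n : R) ^ r * g.coeff n := by
  induction r generalizing g with
  | zero => simp
  | succ r ih =>
    rw [Function.iterate_succ_apply, ih]
    simp only [th, PowerSeries.coeff_mk]
    ring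

/-- from `ℤ` to `A` -/
abbrev toA (A : ValuationSubring ℂ) (g : PowerSeries ℤ) : PowerSeries A :=
  PowerSeries.map (Int.castRingHom A) g

theorem mem_max {A : ValuationSubring ℂ} (a : A) :
    a ∈ IsLocalRing.maximalIdeal A ↔ (a : ℂ) ∈ A.nonunits :=
  (A.coe_mem_nonunits_iff).symm

theorem const_Q4 : PowerSeries.constantCoeff Q4 = 1 := by
  rw [← PowerSeries.coeff_zero_eq_constantCoeff_apply]
  simp [Q4, sg]

theorem const_R6 : PowerSeries.constantCoeff R6 = 1 := by
  rw [← PowerSeries.coeff_zero_eq_constantCoeff_apply]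
  simp [R6, sg]

theorem const_eb (k : ℕ) : PowerSeries.constantCoeff (eb k Q4 R6) = 1 := by
  unfold eb
  split_ifs <;> simp [const_Q4, const_R6]

/-- the q-side -/
theorem qside {A : ValuationSubring ℂ} (hA : Above2 A) (hD0 : D12.coeff 0 = 0)
    (hD1 : D12.coeff 1 = 1) (hDe : ∀ n : ℕ, Even n → (2 : ℤ) ∣ D12.coeff n) (r k : ℕ)
    (h : Polynomial A) (φ d : PowerSeries A)
    (hφ : ∀ n, ((φ.coeff n : A) : ℂ) - (D12.coeff n : ℂ) ∈ A.nonunits) (x : PowerSeries ℤ)
    (hx : x * Q4 ^ 3 = D12)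
    (heq : 12 ^ r * th^[r] φ = eb k (toA A Q4) (toA A R6) *
      (Polynomial.aeval (toA A x) h + 2 ^ (2 * r + 1) * d)) :
    ∃ h' : Polynomial A, h = Polynomial.C (4 ^ r) * h' ∧
      ∀ n, (h' - Polynomial.X).coeff n ∈ IsLocalRing.maximalIdeal A := by
  obtain ⟨W, hW⟩ : ∃ W, eb k Q4 R6 * W = 1 := by
    have : IsUnit (eb k Q4 R6) :=
      PowerSeries.isUnit_iff_constantCoeff.2 (by rw [const_eb]; exact isUnit_one)
    exact this.exists_right_inv
  have hWA : eb k (toA A Q4) (toA A R6) * toA A W = 1 := by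
    unfold toA
    rw [← map_eb, ← map_mul, hW, map_one]
  have e1 : Polynomial.aeval (toA A x) h = 4 ^ r * (3 ^ r * th^[r] φ * toA A W - 2 * d) := by
    have h12 : (12 : PowerSeries A) ^ r = 4 ^ r * 3 ^ r := by
      rw [← mul_pow]; norm_num
    have h21 : (2 : PowerSeries A) ^ (2 * r + 1) = 4 ^ r * 2 := by
      rw [pow_succ, pow_mul]; norm_num
    rw [h12, h21] at heq
    linear_combination (-(toA A W)) * heq -
      (Polynomial.aeval (toA A x) h + 4 ^ r * 2 * d) * hWA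
  have hx0 : x.coeff 0 = 0 := by
    have := congrArg (PowerSeries.coeff 0) hx
    rw [hD0] at this
    simpa [const_Q4] using this
  have hx1 : x.coeff 1 = 1 := by
    have := congrArg (PowerSeries.coeff 1) hx
    rw [hD1, PowerSeries.coeff_mul] at this
    simpa [Finset.Nat.antidiagonal_succ, const_Q4, hx0] using this
  have hxA0 : (toA A x).coeff 0 = 0 := by
    unfold toA
    rw [PowerSeries.coeff_map, hx0, map_zero]
  have hxA1 : (toA A x).coeff 1 = 1 := by
    unfold toA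
    rw [PowerSeries.coeff_map, hx1, map_one]
  have h4C : (4 : PowerSeries A) ^ r = PowerSeries.C (4 ^ r : A) := by
    rw [map_pow, map_ofNat]
  have t1 := tri (Ideal.span {(4 : A) ^ r}) (toA A x) hxA0 hxA1 h (fun n => by
    rw [e1, h4C, PowerSeries.coeff_C_mul]
    exact Ideal.mul_mem_right _ _ (Ideal.mem_span_singleton_self _))
  obtain ⟨h', hh'⟩ : Polynomial.C ((4 : A) ^ r) ∣ h := by
    rw [Polynomial.C_dvd_iff_dvd_coeff]
    exact fun n => Ideal.mem_span_singleton.1 (t1 n)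
  refine ⟨h', hh', ?_⟩
  have h4ne : (4 : A) ^ r ≠ 0 := by
    intro h0
    have : ((4 : A) ^ r : A) = 0 := h0
    have h1 : (((4 : A) ^ r : A) : ℂ) = 0 := by rw [this]; rfl
    have h2 : (((4 : A) ^ r : A) : ℂ) = (4 : ℂ) ^ r := by
      push_cast
      rfl
    rw [h2] at h1
    exact absurd h1 (pow_ne_zero _ (by norm_num))
  have e2 : Polynomial.aeval (toA A x) h' = 3 ^ r * th^[r] φ * toA A W - 2 * d := by
    have e3 : PowerSeries.C (4 ^ r : A) * Polynomial.aeval (toA A x) h' =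
        PowerSeries.C (4 ^ r : A) * (3 ^ r * th^[r] φ * toA A W - 2 * d) := by
      rw [← h4C, ← e1, hh', map_mul, Polynomial.aeval_C, map_pow, map_ofNat]
    have h5 : PowerSeries.C (4 ^ r : A) ≠ 0 := by
      intro h0
      have := congrArg PowerSeries.constantCoeff h0
      rw [PowerSeries.constantCoeff_C, map_zero] at this
      exact h4ne this
    exact mul_left_cancel₀ h5 e3
  refine tri _ (toA A x) hxA0 hxA1 _ fun n => ?_
  set M := IsLocalRing.maximalIdeal A
  set π' : PowerSeries A →+* PowerSeries (A ⧸ M) := PowerSeries.map (Ideal.Quotient.mk M) with hπ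
  have hM2 : (2 : A) ∈ M := by
    rw [mem_max]
    exact hA
  have h2 : π' 2 = 0 := by
    have : (2 : PowerSeries A) = PowerSeries.C (2 : A) := by rw [map_ofNat]
    rw [this, hπ, PowerSeries.map_C, Ideal.Quotient.eq_zero_iff_mem.2 hM2, map_zero]
  have hint : ∀ g : PowerSeries ℤ, (2 : PowerSeries ℤ) ∣ g - 1 → π' (toA A g) = 1 := by
    rintro g ⟨e, he⟩
    have : g = 1 + 2 * e := by linear_combination he
    unfold toA
    rw [this, map_add, map_add, map_mul, map_mul, map_one, map_one, map_ofNat, h2, zero_mul,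
      add_zero]
  have hW1 : π' (toA A W) = 1 := by
    refine hint W ?_
    obtain ⟨e, he⟩ := two_dvd_eb k
    exact ⟨-(e * W), by linear_combination hW - W * he⟩
  have hQ1 : π' (toA A Q4) = 1 := hint Q4 ⟨120 * sg 3, by unfold Q4; ring⟩
  have h3 : π' 3 = 1 := by
    have : (3 : PowerSeries A) = 1 + 2 := by norm_num
    rw [this, map_add, h2, map_one, add_zero]
  have hT : π' (th^[r] φ) = π' (toA A D12) := by
    ext n
    unfold toA
    rw [hπ, PowerSeries.coeff_map, PowerSeries.coeff_map, PowerSeries.coeff_map, coeff_th,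
      map_mul, map_pow]
    have h6 : Ideal.Quotient.mk M (φ.coeff n) =
        Ideal.Quotient.mk M ((Int.castRingHom A) (D12.coeff n)) := by
      rw [Ideal.Quotient.eq, mem_max]
      have := hφ n
      simpa using this
    rw [h6]
    rcases Nat.even_or_odd n with hn | hn
    · obtain ⟨e, he⟩ := hDe n hn
      have h7 : Ideal.Quotient.mk M ((Int.castRingHom A) (D12.coeff n)) = 0 := by
        rw [he, map_mul, map_mul]
        have : Ideal.Quotient.mk M ((Int.castRingHom A) 2) = 0 := by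
          rw [Ideal.Quotient.eq_zero_iff_mem]
          simpa using hM2
        rw [this, zero_mul]
      rw [h7, mul_zero]
    · obtain ⟨e, he⟩ := hn
      have h8 : Ideal.Quotient.mk M (n : A) = 1 := by
        have : ((n : ℕ) : A) = 2 * (e : A) + 1 := by rw [he]; push_cast; ring
        rw [this, map_add, map_mul, Ideal.Quotient.eq_zero_iff_mem.2 hM2, zero_mul, zero_add,
          map_one]
      rw [h8, one_pow, one_mul]
  have hfin : π' (Polynomial.aeval (toA A x) (h' - Polynomial.X)) = 0 := by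
    rw [map_sub, map_sub, Polynomial.aeval_X, e2, map_sub, map_mul, map_mul, map_mul, map_pow,
      h2, h3, hT, hW1, ← hx]
    unfold toA
    rw [map_mul, map_mul, map_pow, map_pow]
    have : π' (PowerSeries.map (Int.castRingHom A) Q4) = 1 := hQ1
    rw [this]
    ring
  have h9 := congrArg (PowerSeries.coeff n) hfin
  rw [hπ, PowerSeries.coeff_map, map_zero, Ideal.Quotient.eq_zero_iff_mem] at h9
  exact h9

/-- the value side -/
theorem vside {A : ValuationSubring ℂ} (h' : Polynomial A)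
    (hh : ∀ n, (h' - Polynomial.X).coeff n ∈ IsLocalRing.maximalIdeal A) (x : A) :
    ((Polynomial.aeval x h' : A) : ℂ) - x ∈ A.nonunits := by
  have h1 : Polynomial.aeval x (h' - Polynomial.X) ∈ IsLocalRing.maximalIdeal A := by
    rw [Polynomial.aeval_eq_sum_range]
    refine Ideal.sum_mem _ fun i _ => ?_
    rw [smul_eq_mul]
    exact Ideal.mul_mem_right _ _ (hh i)
  rw [mem_max, map_sub, Polynomial.aeval_X] at h1
  simpa using h1

/-! ### the polynomial of the form -/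

theorem eb_hom (k : ℕ) (hk : Even k) (h2 : k ≠ 2) :
    (eb k (MvPolynomial.X 1 : MvPolynomial (Fin 4) ℂ) (MvPolynomial.X 2)).IsWeightedHomogeneous
      wt k := by
  unfold eb
  by_cases h : k % 4 = 0
  · rw [if_pos h]
    have := (MvPolynomial.isWeightedHomogeneous_X ℂ wt (1 : Fin 4)).pow (k / 4)
    convert this using 1
    simp only [wt, Matrix.cons_val_one, Matrix.cons_val_zero, smul_eq_mul]
    omega
  · rw [if_neg h]
    have h3 : k % 4 = 2 := by
      obtain ⟨m, hm⟩ := hk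
      omega
    have := ((MvPolynomial.isWeightedHomogeneous_X ℂ wt (1 : Fin 4)).pow ((k - 6) / 4)).mul
      (MvPolynomial.isWeightedHomogeneous_X ℂ wt (2 : Fin 4))
    convert this using 1
    simp only [wt, Matrix.cons_val_one, Matrix.cons_val_zero, smul_eq_mul, Matrix.cons_val]
    omega

theorem exists_G (h1 : StInt) (h2 : StStruct) (h4 : StEis) (A : ValuationSubring ℂ) (w : ℕ)
    (f : CuspForm 𝒮ℒ (w : ℤ)) (hf : IsEig w (cf f)) :
    ∃ G : MvPolynomial (Fin 4) ℂ, G.IsWeightedHomogeneous wt w ∧ (∀ m, G.coeff m ∈ A) ∧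
      (∀ w₁ w₂ α β : ℂ, Pos w₁ w₂ → LF w f w₁ w₂ = ev G w₁ w₂ α β) ∧
      MvPolynomial.aeval ![toC P2, toC Q4, toC R6, toC D12] G = qExpansion 1 (f : ℍ → ℂ) := by
  obtain ⟨hev, h12, h14⟩ := weight_ok h2 h4 w f hf.1
  set F : ModularForm 𝒮ℒ (w : ℤ) := CuspForm.toModularFormₗ f with hF
  have hcoe : (F : ℍ → ℂ) = f := rfl
  obtain ⟨c, hcA, hc2, hv, hq⟩ := h2 A.toSubring.toAddSubgroup w hev F
    (fun n => by rw [hcoe]; exact h1 A w f hf n)
  have hcA' : ∀ j, c j ∈ A := hcA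
  have hevj : ∀ j, Even (w - 12 * j) := by
    intro j
    obtain ⟨m, hm⟩ := hev
    exact ⟨m - 6 * j, by omega⟩
  refine ⟨∑ j ∈ Finset.range (w / 12 + 1), MvPolynomial.C (c j) * MvPolynomial.X 3 ^ j *
    eb (w - 12 * j) (MvPolynomial.X 1) (MvPolynomial.X 2), ?_, ?_, ?_, ?_⟩
  · refine MvPolynomial.IsWeightedHomogeneous.sum _ _ _ fun j hj => ?_
    rw [Finset.mem_range] at hj
    by_cases hj2 : w = 12 * j + 2
    · rw [hc2 j hj2, MvPolynomial.C_0, zero_mul, zero_mul]
      exact MvPolynomial.isWeightedHomogeneous_zero _ _ _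
    · have := ((MvPolynomial.isWeightedHomogeneous_C wt (c j)).mul
        ((MvPolynomial.isWeightedHomogeneous_X ℂ wt (3 : Fin 4)).pow j)).mul
        (eb_hom (w - 12 * j) (hevj j) (by omega))
      convert this using 1
      simp only [wt, smul_eq_mul, Matrix.cons_val]
      omega
  · have e1 : (∑ j ∈ Finset.range (w / 12 + 1), MvPolynomial.C (c j) * MvPolynomial.X 3 ^ j *
        eb (w - 12 * j) (MvPolynomial.X 1) (MvPolynomial.X 2) : MvPolynomial (Fin 4) ℂ) =
        MvPolynomial.map A.subtype (∑ j ∈ Finset.range (w / 12 + 1),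
          MvPolynomial.C (⟨c j, hcA' j⟩ : A) * MvPolynomial.X 3 ^ j *
          eb (w - 12 * j) (MvPolynomial.X 1) (MvPolynomial.X 2)) := by
      rw [map_sum]
      refine Finset.sum_congr rfl fun j _ => ?_
      rw [map_mul, map_mul, map_pow, MvPolynomial.map_C, MvPolynomial.map_X, map_eb,
        MvPolynomial.map_X, MvPolynomial.map_X]
      rfl
    intro m
    rw [e1, MvPolynomial.coeff_map]
    exact Subtype.coe_prop _
  · intro w₁ w₂ α β hp
    have e1 : LF w (f : ℍ → ℂ) w₁ w₂ = (w₂ ^ w)⁻¹ * F ⟨w₁ / w₂, hp⟩ := by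
      rw [LF_eq hp, ← hcoe]
    rw [e1, hv, Finset.mul_sum]
    unfold ev
    rw [map_sum]
    refine Finset.sum_congr rfl fun j hj => ?_
    rw [Finset.mem_range] at hj
    rw [map_mul, map_mul, map_pow, MvPolynomial.eval_C, MvPolynomial.eval_X, map_eb,
      MvPolynomial.eval_X, MvPolynomial.eval_X]
    simp only [Matrix.cons_val_one, Matrix.cons_val_zero, Matrix.cons_val]
    by_cases hj2 : w = 12 * j + 2
    · rw [hc2 j hj2]
      ring
    · rw [← LF_eb hp (w - 12 * j) (hevj j) (by omega)]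
      unfold dl
      rw [LF_eq hp]
      have hw := hp.ne
      have e2 : w₂ ^ w = (w₂ ^ 12) ^ j * w₂ ^ (w - 12 * j) := by
        rw [← pow_mul, ← pow_add]
        congr 1
        omega
      rw [e2, mul_pow, inv_pow, mul_inv]
      ring
  · rw [← hcoe, hq, map_sum]
    refine Finset.sum_congr rfl fun j _ => ?_
    rw [map_mul, map_mul, map_pow, MvPolynomial.aeval_C, MvPolynomial.aeval_X, map_eb,
      MvPolynomial.aeval_X, MvPolynomial.aeval_X]
    rfl

theorem map_toA (A : ValuationSubring ℂ) (g : PowerSeries ℤ) :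
    PowerSeries.map A.subtype (toA A g) = toC g := by
  ext n
  unfold toA toC
  rw [PowerSeries.coeff_map, PowerSeries.coeff_map, PowerSeries.coeff_map]
  simp

theorem exists_lift (A : ValuationSubring ℂ) (K : MvPolynomial (Fin 4) ℂ)
    (hK : ∀ m, K.coeff m ∈ A) : ∃ K' : MvPolynomial (Fin 4) A,
      MvPolynomial.map A.subtype K' = K := by
  refine ⟨∑ m ∈ K.support, MvPolynomial.monomial m ⟨K.coeff m, hK m⟩, ?_⟩
  conv_rhs => rw [K.as_sum]
  rw [map_sum]
  refine Finset.sum_congr rfl fun m _ => ?_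
  rw [MvPolynomial.map_monomial]
  rfl

end ValRAux

open ValRAux in
/-- (V1) -/
theorem stValR (h1 : StInt) (h2 : StStruct) (h3 : StDelta) (h4 : StEis) (h5 : StDD)
    (h6 : StNorm) (h7 : StTheta) (h8 : StApp) (h9 : StOrdC) : StValR := by
  intro A hA w f hf
  obtain ⟨hev, h12, h14⟩ := weight_ok h2 h4 w f hf.1
  obtain ⟨G, hG1, hG2, hG3, hG4⟩ := exists_G h1 h2 h4 A w f hf
  refine ⟨G, hG1, hG3, ?_⟩
  intro r m c u v hm hch huc i
  obtain ⟨hord, -⟩ := h9 A hA m c u v hm hch huc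
  obtain ⟨hO, -, -⟩ := hord i
  have hne := eb_ne hA hO (w + 2 * r)
  refine ⟨hne, ?_⟩
  obtain ⟨hDe, -, hDf⟩ := h3
  obtain ⟨-, hfD⟩ := hDf A hA w f hf
  obtain ⟨hd1728, hD0, hD1, -, -, -⟩ := h4
  -- the polynomial `H`
  obtain ⟨hdd1, hdd2⟩ := h5 A w G hG1 hG2 r
  obtain ⟨K, hK, hKeq⟩ := h6 A (w + 2 * r) (MvPolynomial.C (12 ^ r) * dd^[r] G) (by omega)
    (by obtain ⟨l, hl⟩ := hev; exact ⟨l + r, by omega⟩)
    (by simpa using (MvPolynomial.isWeightedHomogeneous_C wt ((12 : ℂ) ^ r)).mul hdd1)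
    (fun m => by rw [MvPolynomial.coeff_C_mul]; exact hdd2 m)
  obtain ⟨K', rfl⟩ := exists_lift A K hK
  obtain ⟨F, hF1, x, z, hx, hz⟩ := h8 A hA m c u v hm hch huc (2 * r + 1)
  obtain ⟨h, hh⟩ := main_congr K' F (2 * r + 1)
  -- q side
  obtain ⟨Qu, hQu⟩ : IsUnit Q4 := PowerSeries.isUnit_iff_constantCoeff.2 (by
    rw [const_Q4]; exact isUnit_one)
  obtain ⟨Ru, hRu⟩ : IsUnit R6 := PowerSeries.isUnit_iff_constantCoeff.2 (by
    rw [const_R6]; exact isUnit_one)
  have hQQ : Q4 * (Qu⁻¹ : (PowerSeries ℤ)ˣ) = 1 := by rw [← hQu]; exact Qu.mul_inv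
  have hRR : R6 * (Ru⁻¹ : (PowerSeries ℤ)ˣ) = 1 := by rw [← hRu]; exact Ru.mul_inv
  set Qi : PowerSeries ℤ := ((Qu⁻¹ : (PowerSeries ℤ)ˣ) : PowerSeries ℤ) with hQi
  set Ri : PowerSeries ℤ := ((Ru⁻¹ : (PowerSeries ℤ)ˣ) : PowerSeries ℤ) with hRi
  have hQQ3 : Q4 ^ 3 * Qi ^ 3 = 1 := by rw [← mul_pow, hQQ, one_pow]
  have hQQ2 : Q4 ^ 2 * Qi ^ 2 = 1 := by rw [← mul_pow, hQQ, one_pow]
  have hRR2 : R6 ^ 2 * Ri ^ 2 = 1 := by rw [← mul_pow, hRR, one_pow]
  have s1 : D12 * Qi ^ 3 = x := by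
    rw [← hx, mul_assoc, hQQ3, mul_one]
  have s0 : P2 * R6 * Qi ^ 2 = Polynomial.aeval x F + 2 ^ (2 * r + 1) * z := by
    rw [hz, mul_right_comm, hQQ2, one_mul]
  have s2 : R6 ^ 2 * Qi ^ 3 = 1 - 1728 * x := by
    linear_combination Qi ^ 3 * hd1728 + hQQ3 - 1728 * s1
  have s3 : (1 - 1728 * x) * (Q4 ^ 3 * Ri ^ 2) = 1 := by
    rw [← s2]
    linear_combination (R6 ^ 2 * Ri ^ 2) * hQQ3 + hRR2
  set φ : PowerSeries A := PowerSeries.mk fun n => (⟨cf f n, h1 A w f hf n⟩ : A) with hφdef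
  have hφ : PowerSeries.map A.subtype φ = qExpansion 1 (f : ℍ → ℂ) := by
    ext n
    rw [PowerSeries.coeff_map, hφdef, PowerSeries.coeff_mk]
    rfl
  have hth : PowerSeries.map A.subtype (12 ^ r * th^[r] φ) =
      12 ^ r * th^[r] (qExpansion 1 (f : ℍ → ℂ)) := by
    rw [map_mul, map_pow, map_ofNat]
    congr 1
    ext n
    rw [PowerSeries.coeff_map, coeff_th, coeff_th, ← hφ, PowerSeries.coeff_map, map_mul, map_pow,
      map_natCast]
  have hinj : Function.Injective (PowerSeries.map A.subtype) :=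
    PowerSeries.map_injective _ Subtype.val_injective
  have q1 : (12 : PowerSeries A) ^ r * th^[r] φ = eb (w + 2 * r) (toA A Q4) (toA A R6) *
      MvPolynomial.aeval ![toA A (P2 * R6 * Qi ^ 2), toA A (D12 * Qi ^ 3),
        toA A (R6 ^ 2 * Qi ^ 3), toA A (Q4 ^ 3 * Ri ^ 2)] K' := by
    apply hinj
    have e1 := hKeq (PowerSeries ℂ) (toC P2) (toC D12)
      (Units.map (PowerSeries.map (Int.castRingHom ℂ) : PowerSeries ℤ →* PowerSeries ℂ) Qu)
      (Units.map (PowerSeries.map (Int.castRingHom ℂ) : PowerSeries ℤ →* PowerSeries ℂ) Ru)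
    rw [← map_inv, ← map_inv, Units.coe_map, Units.coe_map, Units.coe_map, Units.coe_map, hQu,
      hRu, ← hQi, ← hRi] at e1
    have e2 := aeval_push A.subtype (PowerSeries.map A.subtype) (S := PowerSeries A)
      (T := PowerSeries ℂ) (fun b => by
        ext n
        simp) K' ![toA A (P2 * R6 * Qi ^ 2), toA A (D12 * Qi ^ 3),
        toA A (R6 ^ 2 * Qi ^ 3), toA A (Q4 ^ 3 * Ri ^ 2)]
    rw [hth, map_mul, ← e2, map_eb, map_toA, map_toA]
    have e3 : MvPolynomial.aeval ![toC P2, toC Q4, toC R6, toC D12]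
        (MvPolynomial.C (12 ^ r) * dd^[r] G) = 12 ^ r * th^[r] (qExpansion 1 (f : ℍ → ℂ)) := by
      rw [map_mul, h7, hG4, MvPolynomial.aeval_C, map_pow, map_ofNat]
    rw [← e3]
    refine e1.trans ?_
    congr 1
    congr 2
    funext j
    fin_cases j
    · show toC P2 * toC R6 * toC Qi ^ 2 = PowerSeries.map A.subtype (toA A (P2 * R6 * Qi ^ 2))
      rw [map_toA]
      simp only [toC, map_mul, map_pow]
    · show toC D12 * toC Qi ^ 3 = PowerSeries.map A.subtype (toA A (D12 * Qi ^ 3))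
      rw [map_toA]
      simp only [toC, map_mul, map_pow]
    · show toC R6 ^ 2 * toC Qi ^ 3 = PowerSeries.map A.subtype (toA A (R6 ^ 2 * Qi ^ 3))
      rw [map_toA]
      simp only [toC, map_mul, map_pow]
    · show toC Q4 ^ 3 * toC Ri ^ 2 = PowerSeries.map A.subtype (toA A (Q4 ^ 3 * Ri ^ 2))
      rw [map_toA]
      simp only [toC, map_mul, map_pow]
  obtain ⟨d, hd⟩ := hh (PowerSeries A) (toA A (P2 * R6 * Qi ^ 2)) (toA A x)
    (toA A (R6 ^ 2 * Qi ^ 3)) (toA A (Q4 ^ 3 * Ri ^ 2)) (toA A z)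
    (by
      rw [s0]
      unfold toA
      rw [map_add, map_mul, map_pow, map_ofNat, map_aeval_int])
    (by
      rw [s2]
      unfold toA
      rw [map_sub, map_mul, map_one, map_ofNat])
    (by
      rw [s2]
      unfold toA
      rw [← map_mul, s3, map_one])
  rw [s1, hd] at q1
  obtain ⟨h', hh', hmod⟩ := qside hA hD0 hD1 hDe r (w + 2 * r) h φ d (fun n => by
    rw [hφdef, PowerSeries.coeff_mk]
    exact hfD n) x hx q1
  -- value side
  obtain ⟨hp, he4, hj⟩ := id hO
  have he6 := e6_ne hA hO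
  have hdisc := disc_rel hp
  have hs : e6 (u i) (v i) ^ 2 * (e4 (u i) (v i))⁻¹ ^ 3 = 1 - 1728 * jv (u i) (v i) := by
    unfold jv
    field_simp
    linear_combination hdisc
  have hsub : (1 - 1728 * jv (u i) (v i)) - 1 ∈ A.nonunits := by
    have h5 : ((1728 : ℤ) : ℂ) ∈ A.nonunits := even_nonunits hA ⟨864, by norm_num⟩
    push_cast at h5
    have := nonunits_neg (nonunits_mul_right h5 hj)
    convert this using 1
    ring
  obtain ⟨hsA, -, hs0, hsi⟩ := unit_of_sub_one hsub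
  set xi : A := ⟨jv (u i) (v i), hj⟩ with hxi
  set zi : A := ⟨_, hF1 i⟩ with hzi
  obtain ⟨d', hd'⟩ := hh A (Polynomial.aeval xi F + 2 ^ (2 * r + 1) * zi) xi (1 - 1728 * xi)
    ⟨(1 - 1728 * jv (u i) (v i))⁻¹, hsi⟩ zi rfl rfl (by
      apply Subtype.ext
      show (1 - 1728 * jv (u i) (v i)) * (1 - 1728 * jv (u i) (v i))⁻¹ = 1
      exact mul_inv_cancel₀ hs0)
  have v1 := hKeq ℂ (E2s (u i) (v i)) (dl (u i) (v i)) (Units.mk0 _ he4) (Units.mk0 _ he6)
  have v2 := aeval_push A.subtype A.subtype (fun b => rfl) K'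
    ![Polynomial.aeval xi F + 2 ^ (2 * r + 1) * zi, xi, 1 - 1728 * xi,
      ⟨(1 - 1728 * jv (u i) (v i))⁻¹, hsi⟩]
  have v3 : MvPolynomial.aeval ![E2s (u i) (v i) * e6 (u i) (v i) * (e4 (u i) (v i))⁻¹ ^ 2,
      dl (u i) (v i) * (e4 (u i) (v i))⁻¹ ^ 3, e6 (u i) (v i) ^ 2 * (e4 (u i) (v i))⁻¹ ^ 3,
      e4 (u i) (v i) ^ 3 * (e6 (u i) (v i))⁻¹ ^ 2] (MvPolynomial.map A.subtype K') =
      ((Polynomial.aeval xi h + 2 ^ (2 * r + 1) * d' : A) : ℂ) := by
    rw [← hd']
    refine Eq.trans ?_ v2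
    congr 2
    funext j
    fin_cases j
    · show E2s (u i) (v i) * e6 (u i) (v i) * (e4 (u i) (v i))⁻¹ ^ 2 =
        A.subtype (Polynomial.aeval xi F + 2 ^ (2 * r + 1) * zi)
      rw [map_add, map_mul, map_pow, map_ofNat, map_aeval_int inferInstance inferInstance]
      show _ = Polynomial.aeval (jv (u i) (v i)) F + 2 ^ (2 * r + 1) *
        ((E2s (u i) (v i) * e6 (u i) (v i) / e4 (u i) (v i) ^ 2 -
          Polynomial.aeval (jv (u i) (v i)) F) / 2 ^ (2 * r + 1))
      rw [mul_div_cancel₀ _ (pow_ne_zero _ two_ne_zero)]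
      field_simp
      ring
    · show dl (u i) (v i) * (e4 (u i) (v i))⁻¹ ^ 3 = jv (u i) (v i)
      unfold jv
      field_simp
    · exact hs
    · show e4 (u i) (v i) ^ 3 * (e6 (u i) (v i))⁻¹ ^ 2 = (1 - 1728 * jv (u i) (v i))⁻¹
      rw [← hs]
      field_simp
  have v4 : (12 : ℂ) ^ r * ev (dd^[r] G) (u i) (v i) (conj (u i)) (conj (v i)) =
      eb (w + 2 * r) (e4 (u i) (v i)) (e6 (u i) (v i)) *
        ((Polynomial.aeval xi h + 2 ^ (2 * r + 1) * d' : A) : ℂ) := by
    rw [← v3]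
    refine Eq.trans ?_ v1
    unfold ev
    rw [map_mul, MvPolynomial.aeval_C]
    rfl
  have v5 : ((Polynomial.aeval xi h + 2 ^ (2 * r + 1) * d' : A) : ℂ) =
      4 ^ r * (((Polynomial.aeval xi h' : A) : ℂ) + 2 * (d' : ℂ)) := by
    show A.subtype (Polynomial.aeval xi h + 2 ^ (2 * r + 1) * d') =
      4 ^ r * (A.subtype (Polynomial.aeval xi h') + 2 * A.subtype d')
    rw [hh', map_mul, Polynomial.aeval_C, Algebra.algebraMap_self, RingHom.id_apply, map_add,
      map_mul, map_mul, map_pow, map_pow, map_ofNat, map_ofNat]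
    have : (2 : ℂ) ^ (2 * r + 1) = 4 ^ r * 2 := by
      rw [pow_succ, pow_mul]; norm_num
    rw [this]
    ring
  set Y := ev (dd^[r] G) (u i) (v i) (conj (u i)) (conj (v i)) with hY
  have v6 : (3 : ℂ) ^ r * (Y / eb (w + 2 * r) (e4 (u i) (v i)) (e6 (u i) (v i))) =
      ((Polynomial.aeval xi h' : A) : ℂ) + 2 * (d' : ℂ) := by
    rw [v5] at v4
    have h12 : (12 : ℂ) ^ r = 4 ^ r * 3 ^ r := by
      rw [← mul_pow]; norm_num
    rw [h12] at v4
    have h40 : (4 : ℂ) ^ r ≠ 0 := pow_ne_zero _ (by norm_num)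
    apply mul_left_cancel₀ h40
    calc (4 : ℂ) ^ r * (3 ^ r * (Y / eb (w + 2 * r) (e4 (u i) (v i)) (e6 (u i) (v i)))) =
        (4 ^ r * 3 ^ r * Y) / eb (w + 2 * r) (e4 (u i) (v i)) (e6 (u i) (v i)) := by ring
      _ = _ := by rw [v4, mul_div_cancel_left₀ _ hne]
  have v7 := vside h' hmod xi
  have v8 : (3 : ℂ) ^ r - 1 ∈ A.nonunits := by
    have := odd_sub_one hA (n := 3) ⟨1, by norm_num⟩
    push_cast at this
    exact nonunits_pow_sub_one this r
  obtain ⟨-, -, h30, h3i⟩ := unit_of_sub_one v8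
  refine nonunits_of_mul_unit h3i h30 ?_
  have v9 : (3 : ℂ) ^ r * (Y / eb (w + 2 * r) (e4 (u i) (v i)) (e6 (u i) (v i)) -
      jv (u i) (v i)) = (((Polynomial.aeval xi h' : A) : ℂ) - xi) + 2 * (d' : ℂ) -
        (3 ^ r - 1) * jv (u i) (v i) := by
    rw [mul_sub, v6]
    show _ = (((Polynomial.aeval xi h' : A) : ℂ) - jv (u i) (v i)) + _ - _
    ring
  rw [v9]
  exact nonunits_sub (nonunits_add v7 (nonunits_mul_right hA d'.2)) (nonunits_mul_right v8 hj)

end

end Pool.Agent.Lib.MP_7c08ba_nt.RZC
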