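import Pool.Agent.Lib.MP_7c08ba_nt.RZ.C.Adapt
import Pool.Agent.Lib.MP_7c08ba_nt.RZ.C.App
import Pool.Agent.Lib.MP_7c08ba_nt.RZ.C.Basis
import Pool.Agent.Lib.MP_7c08ba_nt.RZ.C.Chain
import Pool.Agent.Lib.MP_7c08ba_nt.RZ.C.Class
import Pool.Agent.Lib.MP_7c08ba_nt.RZ.C.Cycle
import Pool.Agent.Lib.MP_7c08ba_nt.RZ.C.DD
import Pool.Agent.Lib.MP_7c08ba_nt.RZ.C.Delta
import Pool.Agent.Lib.MP_7c08ba_nt.RZ.C.E2Lat
import Pool.Agent.Lib.MP_7c08ba_nt.RZ.C.E2rel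
import Pool.Agent.Lib.MP_7c08ba_nt.RZ.C.Eis
import Pool.Agent.Lib.MP_7c08ba_nt.RZ.C.Final
import Pool.Agent.Lib.MP_7c08ba_nt.RZ.C.Gauss
import Pool.Agent.Lib.MP_7c08ba_nt.RZ.C.GaussP
import Pool.Agent.Lib.MP_7c08ba_nt.RZ.C.Glue
import Pool.Agent.Lib.MP_7c08ba_nt.RZ.C.Good
import Pool.Agent.Lib.MP_7c08ba_nt.RZ.C.Half
import Pool.Agent.Lib.MP_7c08ba_nt.RZ.C.Hecke
import Pool.Agent.Lib.MP_7c08ba_nt.RZ.C.Int
import Pool.Agent.Lib.MP_7c08ba_nt.RZ.C.Lat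
import Pool.Agent.Lib.MP_7c08ba_nt.RZ.C.Level
import Pool.Agent.Lib.MP_7c08ba_nt.RZ.C.Line
import Pool.Agent.Lib.MP_7c08ba_nt.RZ.C.Link
import Pool.Agent.Lib.MP_7c08ba_nt.RZ.C.Mk
import Pool.Agent.Lib.MP_7c08ba_nt.RZ.C.Norm
import Pool.Agent.Lib.MP_7c08ba_nt.RZ.C.Odd
import Pool.Agent.Lib.MP_7c08ba_nt.RZ.C.OddP
import Pool.Agent.Lib.MP_7c08ba_nt.RZ.C.OddZero
import Pool.Agent.Lib.MP_7c08ba_nt.RZ.C.OrdC
import Pool.Agent.Lib.MP_7c08ba_nt.RZ.C.Prod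
import Pool.Agent.Lib.MP_7c08ba_nt.RZ.C.Qrel
import Pool.Agent.Lib.MP_7c08ba_nt.RZ.C.Ram
import Pool.Agent.Lib.MP_7c08ba_nt.RZ.C.RamQ
import Pool.Agent.Lib.MP_7c08ba_nt.RZ.C.Rep
import Pool.Agent.Lib.MP_7c08ba_nt.RZ.C.Step
import Pool.Agent.Lib.MP_7c08ba_nt.RZ.C.Struct
import Pool.Agent.Lib.MP_7c08ba_nt.RZ.C.Sub
import Pool.Agent.Lib.MP_7c08ba_nt.RZ.C.Sum
import Pool.Agent.Lib.MP_7c08ba_nt.RZ.C.Super
import Pool.Agent.Lib.MP_7c08ba_nt.RZ.C.SymmA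
import Pool.Agent.Lib.MP_7c08ba_nt.RZ.C.SymmB
import Pool.Agent.Lib.MP_7c08ba_nt.RZ.C.Taylor
import Pool.Agent.Lib.MP_7c08ba_nt.RZ.C.Theta
import Pool.Agent.Lib.MP_7c08ba_nt.RZ.C.Unit
import Pool.Agent.Lib.MP_7c08ba_nt.RZ.C.Val0
import Pool.Agent.Lib.MP_7c08ba_nt.RZ.C.ValR

set_option autoImplicit false

/-! Part (C), complete. -/

namespace Pool.Agent.Lib.MP_7c08ba_nt.RZC

theorem pPerm : StPerm := stPerm stSub
theorem pHecke : StHecke := stHecke stLat stMk pPerm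
theorem pSymm : StSymm := stSymm (stSymmA stLat stMk pPerm) stSymmB
theorem pStruct : StStruct := stStruct stEis
theorem pEval : StEval := stEval pStruct
theorem pOddP : StOddP := stOddP pSymm pEval stEis stSub
theorem pOdd : StOdd := stOdd pOddP (stStep stSub) stLat stSub
theorem pInt : StInt := stInt pHecke pStruct stEis
theorem pGauss : StGauss := stGauss pStruct stLat
theorem pGaussP : StGaussP := stGaussP pSymm pGauss stSub stLat
theorem pOddZero : StOddZero := stOddZero pHecke pStruct pGauss pGaussP pInt stEis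
theorem pDelta : StDelta := stDelta pOddZero pInt pStruct stEis pHecke
theorem pVal0 : StVal0 := stVal0 pDelta pInt pStruct stEis pEval
theorem pSuper : StSuper := stSuper stHalf
theorem pLevel : StLevel := stLevel stHalf stProd pSuper stLink
theorem pAdapt : StAdapt := stAdapt stBasis
theorem pChain : StChain := stChain pAdapt
theorem pOrdC : StOrdC := stOrdC stLat pLevel stCycle
theorem pRamQ : StRamQ := stRamQ stRam stEis
theorem pE2rel : StE2rel := stE2rel stRam pLevel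
theorem pQrel : StQrel := stQrel pLevel pE2rel stEis
theorem pLine : StLine := stLine stRam
theorem pTaylor : StTaylor := stTaylor pLine
theorem pTheta : StTheta := stTheta pRamQ
theorem pApp : StApp := stApp stGood pQrel pE2rel stE2Lat pOrdC pLevel stLat stEis
theorem pValR : StValR := stValR pInt pStruct pDelta stEis stDD stNorm pTheta pApp pOrdC
theorem pSum : StSum := stSum stClass stBasis stUnit stRep pChain pOrdC pOdd stLat

/-- **Part (C)**: the period is not zero. -/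
theorem stmtC_all : RZ.StmtC := stmtC stLat stE2Lat pTaylor stBasis stDD pValR pSum

end Pool.Agent.Lib.MP_7c08ba_nt.RZC
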