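import Pool.Agent.Lib.MP_7c08ba_nt.RZ.Basic

set_option autoImplicit false

/-! (W2) the product identity for the Weierstrass function and a half period. -/

namespace Pool.Agent.Lib.MP_7c08ba_nt.RZC

namespace PrdX

open Filter Topology Function

theorem preconn (L : PeriodPair) : IsPreconnected ((L.lattice : Set ℂ)ᶜ) := by
  have hc : (L.lattice : Set ℂ).Countable := by
    have h1 : Countable L.lattice := L.latticeEquivProd.toEquiv.countable_iff.2 inferInstance
    exact Set.countable_coe_iff.1 h1
  exact (hc.isConnected_compl_of_one_lt_rank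
    (by rw [Complex.rank_real_complex]; norm_num)).isPreconnected

/-- the second order differential equation -/
theorem second (L : PeriodPair) {z : ℂ} (hz : z ∉ L.lattice) :
    deriv L.derivWeierstrassP z = 6 * L.weierstrassP z ^ 2 - L.g₂ / 2 := by
  have hU : IsOpen ((L.lattice : Set ℂ)ᶜ) := L.isClosed_lattice.isOpen_compl
  have hf := L.analyticOnNhd_derivWeierstrassP
  have hp := L.analyticOnNhd_weierstrassP
  have hg : AnalyticOnNhd ℂ (fun z => deriv L.derivWeierstrassP z - 6 * L.weierstrassP z ^ 2 +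
      L.g₂ / 2) (L.lattice : Set ℂ)ᶜ := by
    intro x hx
    have h1 := (hf x hx).deriv
    have h2 := hp x hx
    fun_prop
  have hmul : ∀ x ∈ (L.lattice : Set ℂ)ᶜ, L.derivWeierstrassP x *
      (deriv L.derivWeierstrassP x - 6 * L.weierstrassP x ^ 2 + L.g₂ / 2) = 0 := by
    intro x hx
    have h1 : HasDerivAt L.derivWeierstrassP (deriv L.derivWeierstrassP x) x :=
      (hf x hx).differentiableAt.hasDerivAt
    have h2 : HasDerivAt L.weierstrassP (L.derivWeierstrassP x) x := by
      have := (hp x hx).differentiableAt.hasDerivAt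
      rwa [L.deriv_weierstrassP] at this
    have h3 : (fun y => L.derivWeierstrassP y ^ 2) =ᶠ[𝓝 x]
        fun y => 4 * L.weierstrassP y ^ 3 - L.g₂ * L.weierstrassP y - L.g₃ := by
      filter_upwards [hU.mem_nhds hx] with y hy
      exact L.derivWeierstrassP_sq y hy
    have h4 : HasDerivAt (fun y => L.derivWeierstrassP y ^ 2)
        (((2 : ℕ) : ℂ) * L.derivWeierstrassP x ^ (2 - 1) * deriv L.derivWeierstrassP x) x :=
      h1.pow 2
    have h5 : HasDerivAt (fun y => 4 * L.weierstrassP y ^ 3 - L.g₂ * L.weierstrassP y - L.g₃)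
        (4 * (((3 : ℕ) : ℂ) * L.weierstrassP x ^ (3 - 1) * L.derivWeierstrassP x) -
          L.g₂ * L.derivWeierstrassP x) x :=
      (((h2.pow 3).const_mul 4).sub (h2.const_mul L.g₂)).sub_const _
    have h6 := h4.unique (h5.congr_of_eventuallyEq h3)
    norm_num at h6
    linear_combination h6 / 2
  rcases hf.eq_zero_or_eq_zero_of_mul_eq_zero hg hmul (preconn L) with h | h
  · exfalso
    have hconst : ∀ y ∈ (L.lattice : Set ℂ)ᶜ, L.weierstrassP y = L.weierstrassP z := by
      intro y hy
      refine hU.is_const_of_deriv_eq_zero (preconn L) L.differentiableOn_weierstrassP ?_ hy hz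
      intro x hx
      rw [L.deriv_weierstrassP]
      exact h x hx
    have h0 : L.weierstrassP =ᶠ[𝓝[≠] 0] fun _ => L.weierstrassP z := by
      filter_upwards [self_mem_nhdsWithin, mem_nhdsWithin_of_mem_nhds
        (L.compl_lattice_sdiff_singleton_mem_nhds 0)] with w hw hw'
      exact hconst w (by simp_all)
    have h1 := meromorphicOrderAt_congr h0
    rw [L.order_weierstrassP 0 L.lattice.zero_mem] at h1
    have h2 : 0 ≤ meromorphicOrderAt (fun _ : ℂ => L.weierstrassP z) 0 :=
      analyticAt_const.meromorphicOrderAt_nonneg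
    rw [← h1] at h2
    exact absurd h2 (by decide)
  · have := h z hz
    linear_combination this

variable (L : PeriodPair) (h : ℂ)

/-- the translate by `2 h` -/
theorem add_two (h2 : 2 * h ∈ L.lattice) (z : ℂ) :
    L.weierstrassP (z + h + h) = L.weierstrassP z := by
  have := L.weierstrassP_add_coe z ⟨2 * h, h2⟩
  rw [← this]
  congr 1
  show z + h + h = z + 2 * h
  ring

theorem add_mem_iff {z l : ℂ} (hl : l ∈ L.lattice) : z + l ∈ L.lattice ↔ z ∈ L.lattice := by
  constructor
  · intro hz
    have := L.lattice.sub_mem hz hl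
    rwa [add_sub_cancel_right] at this
  · intro hz
    exact L.lattice.add_mem hz hl

/-- the derivative vanishes at a half period -/
theorem deriv_half (h2 : 2 * h ∈ L.lattice) : L.derivWeierstrassP h = 0 := by
  have h1 := L.derivWeierstrassP_add_coe (-h) ⟨2 * h, h2⟩
  have h3 : -h + 2 * h = h := by ring
  simp only [h3, L.derivWeierstrassP_neg] at h1
  linear_combination h1 / 2

theorem tendsto_one :
    Tendsto (fun z => z ^ 2 * (L.weierstrassP z - L.weierstrassP h)) (𝓝[≠] 0) (𝓝 1) := by
  have h1 : AnalyticAt ℂ (L.weierstrassPExcept 0) 0 := L.analyticAt_weierstrassPExcept 0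
  have h2 : Tendsto (fun z => z ^ 2 * L.weierstrassPExcept 0 z + 1 -
      z ^ 2 * L.weierstrassP h) (𝓝 0) (𝓝 1) := by
    have h3 : ContinuousAt (fun z => z ^ 2 * L.weierstrassPExcept 0 z + 1 -
      z ^ 2 * L.weierstrassP h) 0 := by
      have := h1.continuousAt
      fun_prop
    have h4 := h3.tendsto
    simpa using h4
  refine (h2.mono_left nhdsWithin_le_nhds).congr' ?_
  filter_upwards [self_mem_nhdsWithin] with z hz
  have h5 := L.ite_eq_one_sub_sq_mul_weierstrassP 0 L.lattice.zero_mem z
  have hz' : z ≠ 0 := hz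
  rw [if_neg hz'] at h5
  simp only [sub_zero, ne_eq, OfNat.ofNat_ne_zero, not_false_eq_true, zero_pow, div_zero] at h5
  linear_combination -h5

theorem tendsto_two (hh : h ∉ L.lattice) (h2 : 2 * h ∈ L.lattice) :
    Tendsto (fun z => (L.weierstrassP (z + h) - L.weierstrassP h) / z ^ 2) (𝓝[≠] 0)
      (𝓝 (3 * L.weierstrassP h ^ 2 - L.g₂ / 4)) := by
  set w : ℂ → ℂ := fun z => L.weierstrassP (z + h) - L.weierstrassP h with hw
  have hwa : AnalyticAt ℂ w 0 := by
    have h3 : AnalyticAt ℂ L.weierstrassP h := L.analyticOnNhd_weierstrassP h hh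
    have h4 : AnalyticAt ℂ (fun z : ℂ => z + h) 0 := by fun_prop
    have h5 : AnalyticAt ℂ (L.weierstrassP ∘ fun z : ℂ => z + h) 0 :=
      h3.comp_of_eq h4 (zero_add h)
    exact h5.sub analyticAt_const
  have hw0 : w 0 = 0 := by simp [hw]
  have hd : deriv w = fun z => L.derivWeierstrassP (z + h) := by
    ext z
    rw [hw, deriv_sub_const, deriv_comp_add_const, L.deriv_weierstrassP]
  have hw1 : deriv w 0 = 0 := by
    rw [hd]
    simp only [zero_add]
    exact deriv_half L h h2
  have hw2 : iteratedDeriv 2 w 0 = 6 * L.weierstrassP h ^ 2 - L.g₂ / 2 := by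
    rw [iteratedDeriv_succ, iteratedDeriv_one, hd, deriv_comp_add_const, zero_add]
    exact second L hh
  have hs := HasFPowerSeriesAt.has_fpower_series_iterate_dslope_fslope 2
    hwa.hasFPowerSeriesAt
  have hc := hs.continuousAt.tendsto
  have hv := hs.coeff_zero 1
  rw [← FormalMultilinearSeries.coeff, FormalMultilinearSeries.coeff_iterate_fslope] at hv
  rw [← hv] at hc
  have hcoef : (FormalMultilinearSeries.ofScalars ℂ
      (fun n => iteratedDeriv n w 0 / (n.factorial : ℂ))).coeff (0 + 2) =
      3 * L.weierstrassP h ^ 2 - L.g₂ / 4 := by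
    rw [FormalMultilinearSeries.coeff_ofScalars]
    rw [zero_add, hw2]
    norm_num
    ring
  rw [hcoef] at hc
  refine (hc.mono_left nhdsWithin_le_nhds).congr' ?_
  filter_upwards [self_mem_nhdsWithin] with z hz
  have hz' : z ≠ 0 := hz
  simp only [iterate_succ, iterate_zero, comp_apply, id_eq, swap]
  rw [dslope_of_ne _ hz', slope_def_field, dslope_of_ne _ hz', slope_def_field, dslope_same,
    hw1, hw0]
  simp only [sub_zero]
  field_simp
  rfl

/-- the product near the origin -/
theorem tendsto_prod (hh : h ∉ L.lattice) (h2 : 2 * h ∈ L.lattice) :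
    Tendsto (fun z => (L.weierstrassP z - L.weierstrassP h) *
      (L.weierstrassP (z + h) - L.weierstrassP h)) (𝓝[≠] 0)
      (𝓝 (3 * L.weierstrassP h ^ 2 - L.g₂ / 4)) := by
  have h3 := (tendsto_one L h).mul (tendsto_two L h hh h2)
  rw [one_mul] at h3
  refine h3.congr' ?_
  filter_upwards [self_mem_nhdsWithin] with z hz
  have hz' : z ≠ 0 := hz
  field_simp

open Classical in
/-- the product, extended to the lattice -/
noncomputable def FF (z : ℂ) : ℂ :=
  if z ∈ L.lattice ∨ z + h ∈ L.lattice then 3 * L.weierstrassP h ^ 2 - L.g₂ / 4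
  else (L.weierstrassP z - L.weierstrassP h) * (L.weierstrassP (z + h) - L.weierstrassP h)

theorem FF_add {l : ℂ} (hl : l ∈ L.lattice) (z : ℂ) : FF L h (z + l) = FF L h z := by
  have h1 : z + l ∈ L.lattice ↔ z ∈ L.lattice := add_mem_iff L hl
  have h2 : z + l + h ∈ L.lattice ↔ z + h ∈ L.lattice := by
    rw [add_right_comm]
    exact add_mem_iff L hl
  have h3 : L.weierstrassP (z + l) = L.weierstrassP z := L.weierstrassP_add_coe z ⟨l, hl⟩
  have h4 : L.weierstrassP (z + l + h) = L.weierstrassP (z + h) := by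
    rw [add_right_comm]
    exact L.weierstrassP_add_coe (z + h) ⟨l, hl⟩
  unfold FF
  rw [h3, h4]
  by_cases hc : z ∈ L.lattice ∨ z + h ∈ L.lattice
  · rw [if_pos hc, if_pos (by rw [h1, h2]; exact hc)]
  · rw [if_neg hc, if_neg (by rw [h1, h2]; exact hc)]

theorem FF_half (h2 : 2 * h ∈ L.lattice) (z : ℂ) : FF L h (z + h) = FF L h z := by
  have h1 : z + h + h ∈ L.lattice ↔ z ∈ L.lattice := by
    have : z + h + h = z + 2 * h := by ring
    rw [this]
    exact add_mem_iff L h2
  unfold FF
  rw [add_two L h h2]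
  by_cases hc : z ∈ L.lattice ∨ z + h ∈ L.lattice
  · rw [if_pos hc, if_pos (by rw [h1]; exact hc.symm)]
  · rw [if_neg hc, if_neg (by rw [h1]; exact fun h3 => hc h3.symm)]
    ring

theorem eventually_off (hh : h ∉ L.lattice) :
    ∀ᶠ z in 𝓝[≠] (0 : ℂ), z ∉ L.lattice ∧ z + h ∉ L.lattice := by
  have h1 : ∀ᶠ z in 𝓝 (0 : ℂ), z + h ∉ L.lattice := by
    have h3 : ContinuousAt (fun z : ℂ => z + h) 0 := by fun_prop
    have h4 : ((L.lattice : Set ℂ)ᶜ) ∈ 𝓝 ((fun z : ℂ => z + h) 0) := by
      refine L.isClosed_lattice.isOpen_compl.mem_nhds ?_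
      simpa using hh
    exact h3 h4
  filter_upwards [self_mem_nhdsWithin, mem_nhdsWithin_of_mem_nhds
    (L.compl_lattice_sdiff_singleton_mem_nhds 0), mem_nhdsWithin_of_mem_nhds h1] with w hw hw' hw1
  exact ⟨by simp_all, hw1⟩

theorem diff_off {z : ℂ} (hz : z ∉ L.lattice) (hzh : z + h ∉ L.lattice) :
    DifferentiableAt ℂ (FF L h) z := by
  have h1 : ∀ᶠ w in 𝓝 z, w ∉ L.lattice := L.isClosed_lattice.isOpen_compl.mem_nhds hz
  have h2 : ∀ᶠ w in 𝓝 z, w + h ∉ L.lattice := by
    have h3 : ContinuousAt (fun z : ℂ => z + h) z := by fun_prop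
    exact h3 (L.isClosed_lattice.isOpen_compl.mem_nhds hzh)
  have h3 : FF L h =ᶠ[𝓝 z] fun w => (L.weierstrassP w - L.weierstrassP h) *
      (L.weierstrassP (w + h) - L.weierstrassP h) := by
    filter_upwards [h1, h2] with w hw1 hw2
    unfold FF
    rw [if_neg (by tauto)]
  refine DifferentiableAt.congr_of_eventuallyEq ?_ h3
  have h4 : DifferentiableAt ℂ L.weierstrassP z :=
    (L.analyticOnNhd_weierstrassP z hz).differentiableAt
  have h5 : DifferentiableAt ℂ (fun w => L.weierstrassP (w + h)) z := by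
    have h6 : DifferentiableAt ℂ L.weierstrassP (z + h) :=
      (L.analyticOnNhd_weierstrassP _ hzh).differentiableAt
    exact differentiableAt_comp_add_const.2 h6
  exact (h4.sub_const _).mul (h5.sub_const _)

theorem diff_zero (hh : h ∉ L.lattice) (h2 : 2 * h ∈ L.lattice) :
    DifferentiableAt ℂ (FF L h) 0 := by
  refine (Complex.analyticAt_of_differentiable_on_punctured_nhds_of_continuousAt ?_
    ?_).differentiableAt
  · filter_upwards [eventually_off L h hh] with z hz
    exact diff_off L h hz.1 hz.2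
  · rw [continuousAt_iff_punctured_nhds]
    have h3 : FF L h 0 = 3 * L.weierstrassP h ^ 2 - L.g₂ / 4 := by
      unfold FF
      rw [if_pos (Or.inl L.lattice.zero_mem)]
    rw [h3]
    refine (tendsto_prod L h hh h2).congr' ?_
    filter_upwards [eventually_off L h hh] with z hz
    unfold FF
    rw [if_neg (by tauto)]

theorem diff_lattice (hh : h ∉ L.lattice) (h2 : 2 * h ∈ L.lattice) {z : ℂ}
    (hz : z ∈ L.lattice) : DifferentiableAt ℂ (FF L h) z := by
  have h3 : FF L h = fun w => FF L h (w + (-z)) := by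
    ext w
    exact (FF_add L h (L.lattice.neg_mem hz) w).symm
  rw [h3]
  have h4 : DifferentiableAt ℂ (FF L h) (z + (-z)) := by
    rw [add_neg_cancel]
    exact diff_zero L h hh h2
  exact differentiableAt_comp_add_const.2 h4

theorem differentiable (hh : h ∉ L.lattice) (h2 : 2 * h ∈ L.lattice) :
    Differentiable ℂ (FF L h) := by
  intro z
  by_cases hz : z ∈ L.lattice
  · exact diff_lattice L h hh h2 hz
  by_cases hzh : z + h ∈ L.lattice
  · have h3 : FF L h = fun w => FF L h (w + h) := by
      ext w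
      exact (FF_half L h h2 w).symm
    rw [h3]
    have h4 : DifferentiableAt ℂ (FF L h) (z + h) := diff_lattice L h hh h2 hzh
    exact differentiableAt_comp_add_const.2 h4
  · exact diff_off L h hz hzh

end PrdX

/-- (W2) the product identity -/
theorem stProd : StProd := by
  intro L h hh h2 z hz hzh
  have hd := PrdX.differentiable L h hh h2
  have h3 := hd.apply_eq_apply_of_bounded (IsZLattice.isCompact_range_of_periodic L.lattice _
    hd.continuous fun z w hw => PrdX.FF_add L h hw z).isBounded z 0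
  unfold PrdX.FF at h3
  rwa [if_neg (by tauto), if_pos (Or.inl L.lattice.zero_mem)] at h3

end Pool.Agent.Lib.MP_7c08ba_nt.RZC
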