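import Pool.Agent.Lib.MP_7c08ba_nt.RZ.Basic

set_option autoImplicit false

/-! (L1) values of level one forms depend only on the lattice. -/

namespace Pool.Agent.Lib.MP_7c08ba_nt.RZC

open UpperHalfPlane ModularForm EisensteinSeries MatrixGroups NumberField
open scoped Real Manifold ComplexConjugate

namespace LatAux

variable {w₁ w₂ v₁ v₂ : ℂ}

theorem indep (h : Pos w₁ w₂) {m n : ℤ} (e : (m : ℂ) * w₁ + n * w₂ = 0) : m = 0 ∧ n = 0 := by
  have h2 := h.ne
  have h1 : (m : ℂ) * (w₁ / w₂) + n = 0 := by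
    field_simp
    linear_combination e
  have h3 := congrArg Complex.im h1
  simp only [Complex.add_im, Complex.mul_im, Complex.intCast_re, Complex.intCast_im, zero_mul,
    add_zero, Complex.zero_im] at h3
  have h4 : (m : ℝ) = 0 := by
    rcases mul_eq_zero.1 h3 with h4 | h4
    · exact h4
    · exact absurd h4 (ne_of_gt h)
  have h5 : m = 0 := by exact_mod_cast h4
  subst h5
  refine ⟨rfl, ?_⟩
  have h6 : (n : ℂ) = 0 := by simpa using h1
  exact_mod_cast h6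

theorem im_div (z w : ℂ) : (z / w).im = (z.im * w.re - z.re * w.im) / Complex.normSq w := by
  rw [Complex.div_im]
  ring

/-- two oriented bases of the same lattice differ by a matrix of determinant one -/
theorem exists_sl (hw : Pos w₁ w₂) (hv : Pos v₁ v₂) (h : lat w₁ w₂ = lat v₁ v₂) :
    ∃ γ : SL(2, ℤ), v₁ = (γ 0 0 : ℂ) * w₁ + (γ 0 1 : ℂ) * w₂ ∧
      v₂ = (γ 1 0 : ℂ) * w₁ + (γ 1 1 : ℂ) * w₂ := by
  have e1 : v₁ ∈ lat w₁ w₂ := by
    rw [h, mem_lat]; exact ⟨1, 0, by simp⟩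
  have e2 : v₂ ∈ lat w₁ w₂ := by
    rw [h, mem_lat]; exact ⟨0, 1, by simp⟩
  have e3 : w₁ ∈ lat v₁ v₂ := by
    rw [← h, mem_lat]; exact ⟨1, 0, by simp⟩
  have e4 : w₂ ∈ lat v₁ v₂ := by
    rw [← h, mem_lat]; exact ⟨0, 1, by simp⟩
  rw [mem_lat] at e1 e2 e3 e4
  obtain ⟨a, b, ha⟩ := e1
  obtain ⟨c, d, hc⟩ := e2
  obtain ⟨a', b', ha'⟩ := e3
  obtain ⟨c', d', hc'⟩ := e4
  have i1 := indep hw (m := a' * a + b' * c - 1) (n := a' * b + b' * d) (by
    push_cast
    linear_combination ha' + (a' : ℂ) * ha + (b' : ℂ) * hc)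
  have i2 := indep hw (m := c' * a + d' * c) (n := c' * b + d' * d - 1) (by
    push_cast
    linear_combination hc' + (c' : ℂ) * ha + (d' : ℂ) * hc)
  have hu : (a' * d' - b' * c') * (a * d - b * c) = 1 := by
    linear_combination (c' * b + d' * d) * i1.1 - (c' * a + d' * c) * i1.2 + i2.2
  have him : v₁.im * v₂.re - v₁.re * v₂.im =
      ((a * d - b * c : ℤ) : ℝ) * (w₁.im * w₂.re - w₁.re * w₂.im) := by
    rw [← ha, ← hc]
    simp only [Complex.add_im, Complex.mul_im, Complex.add_re, Complex.mul_re,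
      Complex.intCast_re, Complex.intCast_im]
    push_cast
    ring
  have hw' : 0 < w₁.im * w₂.re - w₁.re * w₂.im := by
    unfold Pos at hw
    rw [im_div] at hw
    by_contra h0
    exact absurd hw (not_lt.2 (div_nonpos_of_nonpos_of_nonneg (not_lt.1 h0)
      (Complex.normSq_nonneg _)))
  have hv' : 0 < v₁.im * v₂.re - v₁.re * v₂.im := by
    unfold Pos at hv
    rw [im_div] at hv
    by_contra h0
    exact absurd hv (not_lt.2 (div_nonpos_of_nonpos_of_nonneg (not_lt.1 h0)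
      (Complex.normSq_nonneg _)))
  have hpos : 0 < a * d - b * c := by
    rw [him] at hv'
    have := (mul_pos_iff_of_pos_right hw').1 hv'
    exact_mod_cast this
  have hdet : a * d - b * c = 1 := by
    have h1 : IsUnit (a * d - b * c) := IsUnit.of_mul_eq_one (a' * d' - b' * c') (by
      rw [mul_comm]; exact hu)
    rcases Int.isUnit_iff.1 h1 with h2 | h2
    · exact h2
    · rw [h2] at hpos
      exact absurd hpos (by norm_num)
  refine ⟨⟨!![a, b; c, d], by rw [Matrix.det_fin_two_of]; exact hdet⟩, ?_, ?_⟩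
  · exact ha.symm
  · exact hc.symm

end LatAux

theorem stLat : StLat := by
  intro k f w₁ w₂ v₁ v₂ hw hv h
  obtain ⟨γ, h1, h2⟩ := LatAux.exists_sl hw hv h
  have h3 := hw.ne
  have h4 := hv.ne
  set τ : ℍ := ⟨w₁ / w₂, hw⟩ with hτ
  have hτc : (τ : ℂ) = w₁ / w₂ := rfl
  have hden : v₂ = w₂ * ((γ 1 0 : ℂ) * (τ : ℂ) + (γ 1 1 : ℂ)) := by
    rw [hτc, h2]
    field_simp
  have hc : v₁ / v₂ = ((γ • τ : ℍ) : ℂ) := by
    rw [UpperHalfPlane.coe_specialLinearGroup_apply, h1, h2, hτc]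
    simp only [algebraMap_int_eq, Int.coe_castRingHom]
    have h5 : (γ 1 0 : ℂ) * w₁ + (γ 1 1 : ℂ) * w₂ ≠ 0 := by rw [← h2]; exact h4
    have h6 : (γ 1 0 : ℂ) * (w₁ / w₂) + (γ 1 1 : ℂ) ≠ 0 := by
      intro h7
      apply h5
      have : (γ 1 0 : ℂ) * w₁ + (γ 1 1 : ℂ) * w₂ =
        w₂ * ((γ 1 0 : ℂ) * (w₁ / w₂) + (γ 1 1 : ℂ)) := by field_simp
      rw [this, h7, mul_zero]
    push_cast
    rw [div_eq_div_iff h5 h6]
    field_simp
  have hs : (f : ℍ → ℂ) ∣[(k : ℤ)] γ = f := by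
    have := f.slash_action_eq' (γ : GL (Fin 2) ℝ) ⟨γ, rfl⟩
    exact this
  have hs' := congrFun hs τ
  rw [ModularForm.slash_action_eq'_iff] at hs'
  have hne : ((γ 1 0 : ℂ) * (τ : ℂ) + (γ 1 1 : ℂ)) ≠ 0 := by
    intro h5
    rw [h5, mul_zero] at hden
    exact h4 hden
  rw [LF_eq hw, LF, hc, ofComplex_apply, hs', zpow_natCast, hden, mul_pow, mul_inv]
  change _ = ((w₂ ^ k)⁻¹ * _) * (_ * f τ)
  rw [mul_assoc, ← mul_assoc _ _ (f τ), inv_mul_cancel₀ (pow_ne_zero _ hne), one_mul]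

end Pool.Agent.Lib.MP_7c08ba_nt.RZC
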