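import Pool.Agent.Lib.MP_7c08ba_nt.RZ.Basic

set_option autoImplicit false

/-! (R3) the level 2 relation for `E₂`. -/

namespace Pool.Agent.Lib.MP_7c08ba_nt.RZC

open UpperHalfPlane ModularForm EisensteinSeries MatrixGroups NumberField
open scoped Real Manifold ComplexConjugate

noncomputable section

namespace E2relAux

/-- the derivative of `F ∘ ofComplex` -/
theorem hasDeriv {F : ℍ → ℂ} (hF : MDiff F) (τ : ℍ) :
    HasDerivAt (F ∘ ofComplex) (2 * π * Complex.I * Derivative.normalizedDerivOfComplex F τ)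
      (τ : ℂ) := by
  have h1 := (UpperHalfPlane.mdifferentiableAt_iff.mp (hF τ)).hasDerivAt
  have h2 : deriv (F ∘ ofComplex) (τ : ℂ) =
      2 * π * Complex.I * Derivative.normalizedDerivOfComplex F τ := by
    unfold Derivative.normalizedDerivOfComplex
    rw [← mul_assoc, mul_inv_cancel₀ Complex.two_pi_I_ne_zero, one_mul]
  rwa [h2] at h1

/-- the algebraic identity -/
theorem alg {a b c p p' r s : ℂ} (ha : a ≠ 0) (hb : b ≠ 0) (hc : c ≠ 0)
    (hs : s = b + 256 * c) (h0 : a ^ 3 * b * c = s ^ 3)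
    (h1 : a ^ 2 * b * c * (2 * a * (p + p') - r) = 3 * s ^ 2 * (p * b + 512 * p' * c)) :
    r * (b + 256 * c) = (2 * p' - p) * a * (b - 512 * c) := by
  have h2 : a ^ 2 * b * c * (s * (2 * a * (p + p') - r)) =
      a ^ 2 * b * c * (3 * a * (p * b + 512 * p' * c)) := by
    linear_combination s * h1 - 3 * (p * b + 512 * p' * c) * h0
  have h3 : s * (2 * a * (p + p') - r) = 3 * a * (p * b + 512 * p' * c) :=
    mul_left_cancel₀ (mul_ne_zero (mul_ne_zero (pow_ne_zero 2 ha) hb) hc) h2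
  rw [hs] at h3
  linear_combination (-1 : ℂ) * h3

end E2relAux

open E2relAux in
/-- (R3) the level 2 relation for `E₂` -/
theorem stE2rel (h1 : StRam) (h2 : StLevel) : StE2rel := by
  intro w₁ w₂ hw
  obtain ⟨_, hE4, _, hΔ⟩ := h1
  -- functions on the upper half plane
  let a : ℂ → ℂ := (E₄ : ℍ → ℂ) ∘ ofComplex
  let b : ℂ → ℂ := discriminant ∘ ofComplex
  let c : ℂ → ℂ := fun z => b (2 * z)
  have hrel : ∀ z : ℂ, 0 < z.im → a z ^ 3 * b z * c z = (b z + 256 * c z) ^ 3 ∧ b z ≠ 0 ∧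
      c z ≠ 0 := by
    intro z hz
    have hp : Pos z 1 := by
      unfold Pos
      rwa [div_one]
    obtain ⟨k1, k2, _, _, k3, _⟩ := h2 z 1 hp
    have ea : e4 z 1 = a z := by
      change (1 ^ 4)⁻¹ * (E₄ : ℍ → ℂ) (ofComplex (z / 1)) = (E₄ : ℍ → ℂ) (ofComplex z)
      rw [div_one, one_pow, inv_one, one_mul]
    have eb' : dl z 1 = b z := by
      change (1 ^ 12)⁻¹ * discriminant (ofComplex (z / 1)) = discriminant (ofComplex z)
      rw [div_one, one_pow, inv_one, one_mul]
    have ec : dl z (1 / 2) = 2 ^ 12 * c z := by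
      change ((1 / 2) ^ 12)⁻¹ * discriminant (ofComplex (z / (1 / 2))) =
        2 ^ 12 * discriminant (ofComplex (2 * z))
      have e1 : z / (1 / 2) = 2 * z := by ring
      rw [e1]
      norm_num
    have hb0 : b z ≠ 0 := by
      rw [← eb']
      exact k1
    have hc0 : c z ≠ 0 := by
      intro h
      rw [ec, h, mul_zero] at k2
      exact k2 rfl
    refine ⟨?_, hb0, hc0⟩
    have hX : XX z 1 = b z / c z := by
      unfold XX
      rw [eb', ec, mul_div_mul_left _ _ (by norm_num)]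
    rw [ea, eb', hX] at k3
    field_simp at k3
    linear_combination k3
  -- the point
  set z₀ : ℂ := w₁ / w₂ with hz₀
  have him : 0 < z₀.im := hw
  have him2 : 0 < (2 * z₀).im := by
    have : (2 * z₀).im = 2 * z₀.im := by
      rw [Complex.mul_im]
      norm_num
    rw [this]
    linarith
  let τ : ℍ := ⟨z₀, him⟩
  let τ₂ : ℍ := ⟨2 * z₀, him2⟩
  have hw2 : w₂ ≠ 0 := hw.ne
  -- derivatives
  have hMa : MDiff (E₄ : ℍ → ℂ) := E₄.holo'
  have hMb : MDiff discriminant := CuspForm.discriminant.holo'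
  have da : HasDerivAt a (2 * π * Complex.I * ((E2 τ * E₄ τ - E₆ τ) / 3)) z₀ := by
    have := hasDeriv hMa τ
    rwa [hE4 τ] at this
  have db : HasDerivAt b (2 * π * Complex.I * (E2 τ * discriminant τ)) z₀ := by
    have := hasDeriv hMb τ
    rwa [hΔ τ] at this
  have dc : HasDerivAt c (2 * π * Complex.I * (E2 τ₂ * discriminant τ₂) * 2) z₀ := by
    have h3 := hasDeriv hMb τ₂
    rw [hΔ τ₂] at h3
    have h4 : HasDerivAt (fun z : ℂ => 2 * z) 2 z₀ := by
      simpa using (hasDerivAt_id z₀).const_mul (2 : ℂ)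
    exact HasDerivAt.comp z₀ (h₂ := b) h3 h4
  have va : a z₀ = E₄ τ := by
    change (E₄ : ℍ → ℂ) (ofComplex z₀) = _
    rw [ofComplex_apply_of_im_pos him]
  have vb : b z₀ = discriminant τ := by
    change discriminant (ofComplex z₀) = _
    rw [ofComplex_apply_of_im_pos him]
  have vc : c z₀ = discriminant τ₂ := by
    change discriminant (ofComplex (2 * z₀)) = _
    rw [ofComplex_apply_of_im_pos him2]
  -- the derivative of the relation
  have dR := ((da.pow 3).mul db).mul dc |>.sub ((db.add (dc.const_mul 256)).pow 3)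
  have hev : (fun z => (a ^ 3 * b * c) z - ((b + fun z => 256 * c z) ^ 3) z) =ᶠ[nhds z₀]
      fun _ => 0 := by
    have hopen : IsOpen {z : ℂ | 0 < z.im} := isOpen_lt continuous_const Complex.continuous_im
    filter_upwards [hopen.mem_nhds him] with z hz
    have := (hrel z hz).1
    change a z ^ 3 * b z * c z - (b z + 256 * c z) ^ 3 = 0
    rw [this, sub_self]
  have h0 := (dR.congr_of_eventuallyEq hev.symm).unique (hasDerivAt_const z₀ (0 : ℂ))
  simp only [Pi.mul_apply, Pi.pow_apply, Pi.add_apply, va, vb, vc] at h0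
  obtain ⟨r1, r2, r3⟩ := hrel z₀ him
  rw [va, vb, vc] at r1
  rw [vb] at r2
  rw [vc] at r3
  -- the relation
  have key : E₆ τ * (discriminant τ + 256 * discriminant τ₂) =
      (2 * E2 τ₂ - E2 τ) * E₄ τ * (discriminant τ - 512 * discriminant τ₂) := by
    by_cases ha : E₄ τ = 0
    · rw [ha] at r1
      have r4 : discriminant τ + 256 * discriminant τ₂ = 0 := by
        have r5 : (discriminant τ + 256 * discriminant τ₂) ^ 3 = 0 := by
          rw [← r1]
          ring
        exact pow_eq_zero_iff (by norm_num) |>.1 r5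
      rw [r4, ha]
      ring
    · refine alg (s := discriminant τ + 256 * discriminant τ₂) ha r2 r3 rfl r1 ?_
      have hpi : (2 * π * Complex.I : ℂ) ≠ 0 := Complex.two_pi_I_ne_zero
      apply mul_left_cancel₀ hpi
      linear_combination h0
  -- back to the lattice
  have le6 : e6 w₁ w₂ = (w₂ ^ 6)⁻¹ * E₆ τ := LF_eq hw
  have le4 : e4 w₁ w₂ = (w₂ ^ 4)⁻¹ * E₄ τ := LF_eq hw
  have ldl : dl w₁ w₂ = (w₂ ^ 12)⁻¹ * discriminant τ := LF_eq hw
  have hq : w₁ / (w₂ / 2) = 2 * z₀ := by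
    rw [hz₀]
    field_simp
  have ldl2 : dl w₁ (w₂ / 2) = ((w₂ / 2) ^ 12)⁻¹ * discriminant τ₂ := by
    change ((w₂ / 2) ^ 12)⁻¹ * discriminant (ofComplex (w₁ / (w₂ / 2))) = _
    rw [hq, ofComplex_apply_of_im_pos him2]
  have le2 : LF 2 E2 w₁ w₂ = (w₂ ^ 2)⁻¹ * E2 τ := LF_eq hw
  have le22 : LF 2 E2 w₁ (w₂ / 2) = ((w₂ / 2) ^ 2)⁻¹ * E2 τ₂ := by
    change ((w₂ / 2) ^ 2)⁻¹ * E2 (ofComplex (w₁ / (w₂ / 2))) = _
    rw [hq, ofComplex_apply_of_im_pos him2]
  have lX : XX w₁ w₂ = discriminant τ / discriminant τ₂ := by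
    unfold XX
    rw [ldl, ldl2]
    field_simp
  have lee : ee w₁ w₂ = (w₂ ^ 2)⁻¹ * (2 * E2 τ₂ - E2 τ) := by
    unfold ee
    rw [le2, le22]
    field_simp
  rw [le6, le4, lee, lX]
  field_simp
  linear_combination key

end

end Pool.Agent.Lib.MP_7c08ba_nt.RZC
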