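import Pool.Agent.Lib.MP_7c08ba_nt.RZ.Basic

set_option autoImplicit false

/-! (H2) the elementary symmetric functions of the values on the sublattices of index `p` are
level one forms. -/

namespace Pool.Agent.Lib.MP_7c08ba_nt.RZC

open UpperHalfPlane ModularForm EisensteinSeries MatrixGroups NumberField
open scoped Real Manifold ComplexConjugate

noncomputable section

namespace SymmAAux

theorem sub_smul (p : ℕ) (c w₁ w₂ : ℂ) (i : Option (Fin p)) :
    sub p (c * w₁) (c * w₂) i = (c * (sub p w₁ w₂ i).1, c * (sub p w₁ w₂ i).2) := by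
  rcases i with _ | b
  · simp only [sub]
    ext
    · simp
      ring
    · simp
  · simp only [sub]
    ext
    · simp
      ring
    · simp
      ring

theorem LFs_smul {k p : ℕ} {F : ℍ → ℂ} {c w₁ w₂ : ℂ} (hc : c ≠ 0) (i : Option (Fin p)) :
    LFs k F p (c * w₁) (c * w₂) i = (c ^ k)⁻¹ * LFs k F p w₁ w₂ i := by
  unfold LFs
  rw [sub_smul]
  exact LF_smul hc

theorem pos_sub {p : ℕ} (hp : 0 < p) {w₁ w₂ : ℂ} (h : Pos w₁ w₂) (i : Option (Fin p)) :
    Pos (sub p w₁ w₂ i).1 (sub p w₁ w₂ i).2 := by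
  have hp' : (0 : ℝ) < p := by exact_mod_cast hp
  have h2 := h.ne
  rcases i with _ | b
  · show Pos ((p : ℂ) * w₁) w₂
    unfold Pos at *
    rw [mul_div_assoc, ← Complex.ofReal_natCast, Complex.im_ofReal_mul]
    exact mul_pos hp' h
  · show Pos (w₁ + (b : ℕ) * w₂) ((p : ℂ) * w₂)
    unfold Pos at *
    have e : (w₁ + (b : ℕ) * w₂) / ((p : ℂ) * w₂) =
        ((p : ℝ)⁻¹ : ℝ) * (w₁ / w₂ + ((b : ℕ) : ℂ)) := by
      have : (p : ℂ) ≠ 0 := by exact_mod_cast hp.ne'
      push_cast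
      field_simp
    rw [e, Complex.im_ofReal_mul]
    apply mul_pos (by positivity)
    simpa using h

/-- the `i`-th argument -/
def ar (p : ℕ) (i : Option (Fin p)) (z : ℂ) : ℂ := (sub p z 1 i).1 / (sub p z 1 i).2

theorem LFs_one {k p : ℕ} {F : ℍ → ℂ} (z : ℂ) (i : Option (Fin p)) :
    LFs k F p z 1 i = ((sub p 0 1 i).2 ^ k)⁻¹ * F (ofComplex (ar p i z)) := by
  rcases i with _ | b <;> rfl

theorem ar_im {p : ℕ} (hp : 0 < p) (i : Option (Fin p)) {z : ℂ} (hz : 0 < z.im) :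
    z.im / p ≤ (ar p i z).im := by
  have hp' : (1 : ℝ) ≤ p := by exact_mod_cast hp
  rcases i with _ | b
  · show z.im / p ≤ ((p : ℂ) * z / 1).im
    rw [div_one, ← Complex.ofReal_natCast, Complex.im_ofReal_mul, div_le_iff₀ (by linarith)]
    nlinarith [mul_pos hz (by linarith : (0 : ℝ) < p)]
  · show z.im / p ≤ ((z + (b : ℕ) * 1) / ((p : ℂ) * 1)).im
    have e : (z + (b : ℕ) * 1) / ((p : ℂ) * 1) = ((p : ℝ)⁻¹ : ℝ) * (z + ((b : ℕ) : ℂ)) := by
      have : (p : ℂ) ≠ 0 := by exact_mod_cast hp.ne'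
      push_cast
      field_simp
    rw [e, Complex.im_ofReal_mul]
    apply le_of_eq
    simp
    ring

theorem ar_diff {p : ℕ} (i : Option (Fin p)) : Differentiable ℂ (ar p i) := by
  rcases i with _ | b
  · show Differentiable ℂ (fun z : ℂ => (p : ℂ) * z / 1)
    fun_prop
  · show Differentiable ℂ (fun z : ℂ => (z + (b : ℕ) * 1) / ((p : ℂ) * 1))
    fun_prop

/-- the elementary symmetric function as a sum of products -/
theorem esy_eq (k p i : ℕ) (F : ℍ → ℂ) (w₁ w₂ : ℂ) :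
    esy k p i F w₁ w₂ = ∑ t ∈ Finset.powersetCard i (Finset.univ : Finset (Option (Fin p))),
      ∏ j ∈ t, LFs k F p w₁ w₂ j := by
  unfold esy
  exact Finset.esymm_map_val (fun j => LFs k F p w₁ w₂ j) Finset.univ i

/-- the function on the upper half plane -/
def G (k p i : ℕ) (F : ℍ → ℂ) (τ : ℍ) : ℂ := esy k p i F τ 1

theorem LF_G {k p i : ℕ} {F : ℍ → ℂ} {w₁ w₂ : ℂ} (h : Pos w₁ w₂) :
    LF (i * k) (G k p i F) w₁ w₂ = esy k p i F w₁ w₂ := by
  have h2 := h.ne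
  rw [LF_eq h, G, esy_eq, esy_eq, Finset.mul_sum]
  refine Finset.sum_congr rfl fun t ht => ?_
  have hc : t.card = i := (Finset.mem_powersetCard.1 ht).2
  have e0 : w₂ * (w₁ / w₂) = w₁ := by field_simp
  have e1 : ∀ j, LFs k F p w₁ w₂ j = (w₂ ^ k)⁻¹ * LFs k F p (w₁ / w₂) 1 j := by
    intro j
    rw [← LFs_smul h2, e0, mul_one]
  rw [Finset.prod_congr rfl fun j _ => e1 j, Finset.prod_mul_distrib, Finset.prod_const, hc,
    inv_pow, ← pow_mul, mul_comm k i]

theorem mdiff_G {k p i : ℕ} (hp : 0 < p) {F : ℍ → ℂ} (hF : MDiff F) : MDiff (G k p i F) := by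
  have hp' : (0 : ℝ) < p := by exact_mod_cast hp
  rw [UpperHalfPlane.mdifferentiable_iff] at hF ⊢
  have h1 : DifferentiableOn ℂ (fun z : ℂ =>
      ∑ t ∈ Finset.powersetCard i (Finset.univ : Finset (Option (Fin p))),
        ∏ j ∈ t, (((sub p 0 1 j).2 ^ k)⁻¹ * (F ∘ ofComplex) (ar p j z)))
      {z | 0 < z.im} := by
    apply DifferentiableOn.fun_sum
    intro t _
    apply DifferentiableOn.fun_finsetProd
    intro j _
    apply DifferentiableOn.const_mul
    refine hF.comp (ar_diff j).differentiableOn fun z hz => ?_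
    have := ar_im hp j hz
    have h2 : 0 < z.im / p := div_pos hz hp'
    exact lt_of_lt_of_le h2 this
  refine h1.congr fun z hz => ?_
  have e : ((ofComplex z : ℍ) : ℂ) = z := ofComplex_apply_of_im_pos hz ▸ rfl
  show esy k p i F (ofComplex z : ℍ) 1 = _
  rw [e, esy_eq]
  refine Finset.sum_congr rfl fun t _ => Finset.prod_congr rfl fun j _ => ?_
  rw [LFs_one]
  rfl

theorem bdd_G {k p i : ℕ} (hp : 0 < p) {F : ℍ → ℂ} (hF : IsBoundedAtImInfty F) :
    IsBoundedAtImInfty (G k p i F) := by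
  have hp' : (0 : ℝ) < p := by exact_mod_cast hp
  rw [isBoundedAtImInfty_iff] at hF ⊢
  obtain ⟨M, A, hM⟩ := hF
  refine ⟨∑ t ∈ Finset.powersetCard i (Finset.univ : Finset (Option (Fin p))),
    ∏ j ∈ t, (‖((sub p 0 1 j).2 ^ k)⁻¹‖ * M), p * A, fun τ hτ => ?_⟩
  rw [G, esy_eq]
  refine (norm_sum_le _ _).trans (Finset.sum_le_sum fun t _ => ?_)
  rw [norm_prod]
  refine Finset.prod_le_prod (fun j _ => norm_nonneg _) fun j _ => ?_
  rw [LFs_one, norm_mul]
  apply mul_le_mul_of_nonneg_left _ (norm_nonneg _)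
  apply hM
  have h1 := ar_im hp j (z := (τ : ℂ)) τ.im_pos
  have h2 : 0 < (ar p j (τ : ℂ)).im := lt_of_lt_of_le (div_pos τ.im_pos hp') h1
  have h3 : (ofComplex (ar p j (τ : ℂ))).im = (ar p j (τ : ℂ)).im := by
    rw [ofComplex_apply_of_im_pos h2]
    rfl
  rw [h3]
  refine le_trans ?_ h1
  rw [le_div_iff₀ hp', mul_comm]
  exact hτ

end SymmAAux

open SymmAAux

theorem stSymmA (h1 : StLat) (h2 : StMk) (h3 : StPerm) : StSymmA := by
  intro p hp k f i
  have hp0 : 0 < p := hp.pos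
  obtain ⟨g, hg⟩ := h2 (i * k) (G k p i f) (mdiff_G hp0 (ModularFormClass.holo f)) (by
    intro w₁ w₂ v₁ v₂ hw hv hl
    obtain ⟨σ, hσ⟩ := h3 p hp w₁ w₂ v₁ v₂ hw hv hl
    rw [LF_G hw, LF_G hv]
    have e : ∀ j, LFs k (f : ℍ → ℂ) p w₁ w₂ j = LFs k (f : ℍ → ℂ) p v₁ v₂ (σ j) := fun j =>
      (h1 k f _ _ _ _ (pos_sub hp0 hv (σ j)) (pos_sub hp0 hw j) (hσ j)).symm
    unfold esy
    congr 1
    rw [Multiset.map_congr rfl fun j _ => e j]
    have e2 : (Finset.univ : Finset (Option (Fin p))).val.map σ =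
        (Finset.univ : Finset (Option (Fin p))).val := by
      have e3 := congrArg Finset.val (Finset.map_univ_equiv σ)
      simp
    conv_rhs => rw [← e2]
    rw [Multiset.map_map]
    rfl)
    (bdd_G hp0 (ModularFormClass.bdd_at_infty f))
  exact ⟨g, fun w₁ w₂ hw => by rw [hg, LF_G hw]⟩

end

end Pool.Agent.Lib.MP_7c08ba_nt.RZC
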